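import Pool.Agent.Work.P57.Interface

set_option autoImplicit false

/-! Block ACT: the Galois group acts by matrices (helper46). -/

namespace Pool.Agent.Work.P57

open HahnSeries Polynomial

namespace ACT

/-- roots of a split polynomial with coefficients in `kk[Δ]` are permuted -/
theorem root_maps (D : ℤ) (p : Polynomial (Polynomial kk)) (hm : p.Monic)
    (hs : (p.map (Polynomial.aeval (Del 1 D)).toRingHom).Splits) (τ : Gam D) (x : KK)
    (hx : (p.map (Polynomial.aeval (Del 1 D)).toRingHom).eval x = 0) :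
    ∃ x' : KK, (p.map (Polynomial.aeval (Del 1 D)).toRingHom).eval x' = 0 ∧ Maps τ x x' := by
  obtain ⟨δ, hδ⟩ : ∃ δ : AA D, algebraMap (AA D) KK δ = Del 1 D :=
    ⟨⟨Del 1 D, IntermediateField.subset_adjoin kk {Del 1 D} rfl⟩, rfl⟩
  obtain ⟨φ, hφ⟩ : ∃ φ : Polynomial kk →+* AA D, (algebraMap (AA D) KK).comp φ =
      (Polynomial.aeval (Del 1 D)).toRingHom := by
    refine ⟨(Polynomial.aeval δ).toRingHom, ?_⟩
    apply Polynomial.ringHom_ext
    · intro a
      simp only [RingHom.comp_apply, AlgHom.toRingHom_eq_coe, RingHom.coe_coe,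
        Polynomial.aeval_C]
      exact (IsScalarTower.algebraMap_apply kk (AA D) KK a).symm
    · simp only [RingHom.comp_apply, AlgHom.toRingHom_eq_coe, RingHom.coe_coe,
        Polynomial.aeval_X]
      exact hδ
  obtain ⟨pA, hpA⟩ : ∃ pA : Polynomial (AA D), pA = p.map φ := ⟨_, rfl⟩
  have hpAm : pA.Monic := by
    rw [hpA]
    exact hm.map φ
  have hpK : p.map (Polynomial.aeval (Del 1 D)).toRingHom = pA.map (algebraMap (AA D) KK) := by
    rw [← hφ, ← Polynomial.map_map, hpA]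
  rw [hpK] at hs hx ⊢
  have halg : ∀ y : KK, (pA.map (algebraMap (AA D) KK)).eval y = 0 → y ∈ K0 D := by
    intro y hy
    rw [mem_K0]
    refine ⟨pA, hpAm.ne_zero, ?_⟩
    rw [Polynomial.aeval_def, ← Polynomial.eval_map]
    exact hy
  obtain ⟨pK, hpK0⟩ : ∃ pK : Polynomial (K0 D), pK = pA.map (algebraMap (AA D) (K0 D)) := ⟨_, rfl⟩
  have hpKK : pK.map (algebraMap (K0 D) KK) = pA.map (algebraMap (AA D) KK) := by
    rw [hpK0, Polynomial.map_map, ← IsScalarTower.algebraMap_eq]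
  have hpKm : pK.Monic := by
    rw [hpK0]
    exact hpAm.map _
  have hsK : pK.Splits := by
    apply Splits.of_splits_map (algebraMap (K0 D) KK)
    · rw [hpKK]
      exact hs
    · intro y hy
      have h1 : (pK.map (algebraMap (K0 D) KK)) ≠ 0 := (hpKm.map _).ne_zero
      have h2 := (Polynomial.mem_roots h1).1 hy
      rw [hpKK] at h2
      exact ⟨⟨y, halg y h2⟩, rfl⟩
  obtain ⟨X0, hX0⟩ : ∃ X0 : K0 D, X0 = ⟨x, halg x hx⟩ := ⟨_, rfl⟩
  have hroot : Polynomial.aeval (algebraMap (K0 D) (Om D) X0) pA = 0 := by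
    have h1 : Polynomial.aeval X0 pA = 0 := by
      apply (algebraMap (K0 D) KK).injective
      rw [map_zero, ← Polynomial.aeval_algebraMap_apply, hX0]
      rw [Polynomial.aeval_def, ← Polynomial.eval_map]
      exact hx
    rw [Polynomial.aeval_algebraMap_apply, h1, map_zero]
  have hroot2 : Polynomial.aeval (τ (algebraMap (K0 D) (Om D) X0)) pA = 0 := by
    have h1 := congrArg τ hroot
    rw [map_zero] at h1
    have h2 : τ (Polynomial.aeval (algebraMap (K0 D) (Om D) X0) pA) =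
        Polynomial.aeval (τ (algebraMap (K0 D) (Om D) X0)) pA :=
      (Polynomial.aeval_algHom_apply τ.toAlgHom _ pA).symm
    rw [← h2]
    exact h1
  have hroot3 : (pK.map (algebraMap (K0 D) (Om D))).IsRoot
      (τ (algebraMap (K0 D) (Om D) X0)) := by
    rw [Polynomial.IsRoot.def, hpK0, Polynomial.map_map, ← IsScalarTower.algebraMap_eq,
      Polynomial.eval_map, ← Polynomial.aeval_def]
    exact hroot2
  obtain ⟨y, hy⟩ := hsK.mem_range_of_isRoot hpKm.ne_zero hroot3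
  have hy2 : (pA.map (algebraMap (AA D) KK)).eval (algebraMap (K0 D) KK y) = 0 := by
    have h1 : Polynomial.aeval y pA = 0 := by
      apply (algebraMap (K0 D) (Om D)).injective
      rw [map_zero, ← Polynomial.aeval_algebraMap_apply, hy]
      exact hroot2
    rw [Polynomial.eval_map, ← Polynomial.aeval_def, Polynomial.aeval_algebraMap_apply, h1,
      map_zero]
  refine ⟨algebraMap (K0 D) KK y, hy2, halg x hx, halg _ hy2, ?_⟩
  rw [← hX0, ← hy]
  rfl

/-! ### The points of order dividing `n` -/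

theorem n0_eq (s : ℕ) : n0 s = nn s * (2 ^ s + 1) := by
  unfold n0 nn
  have h1 : 1 ≤ 2 ^ s := Nat.one_le_two_pow
  have h2 : 4 ^ s = 2 ^ s * 2 ^ s := by
    rw [← Nat.mul_pow]
  rw [h2]
  obtain ⟨k, hk⟩ := Nat.exists_eq_add_of_le h1
  rw [hk]
  have h3 : 1 + k - 1 = k := by omega
  rw [h3]
  have h4 : (1 + k) * (1 + k) = k * (1 + k + 1) + 1 := by ring
  omega

theorem nn_pos {s : ℕ} (hs : 2 ≤ s) : 1 < nn s := by
  unfold nn
  have h1 : 2 ^ 2 ≤ 2 ^ s := Nat.pow_le_pow_right (by norm_num) hs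
  omega

theorem n0_pos {s : ℕ} (hs : 2 ≤ s) : 0 < n0 s := by
  rw [n0_eq]
  have := nn_pos hs
  positivity

theorem nn_odd {s : ℕ} (hs : 2 ≤ s) : Odd (nn s) := by
  unfold nn
  have h1 : 1 ≤ 2 ^ s := Nat.one_le_two_pow
  have h2 : Even (2 ^ s) := (Nat.even_pow' (by omega)).2 (by norm_num)
  obtain ⟨k, hk⟩ := h2
  exact ⟨k - 1, by omega⟩

theorem n0_odd {s : ℕ} (hs : 2 ≤ s) : Odd (n0 s) := by
  rw [n0_eq]
  have h2 : Even (2 ^ s) := (Nat.even_pow' (by omega)).2 (by norm_num)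
  exact (nn_odd hs).mul h2.add_one

/-- multiplication by `2^s + 1` -/
noncomputable def ff (s : ℕ) (a : ZMod (nn s)) : ZMod (n0 s) := (((2 ^ s + 1) * a.val : ℕ) : ZMod (n0 s))

theorem ff_cast {s : ℕ} (k : ℕ) :
    ff s (k : ZMod (nn s)) = (((2 ^ s + 1) * k : ℕ) : ZMod (n0 s)) := by
  unfold ff
  rw [ZMod.natCast_eq_natCast_iff, ZMod.val_natCast, n0_eq, mul_comm (nn s)]
  exact Nat.ModEq.mul_left' _ (Nat.mod_modEq _ _)

theorem ff_add {s : ℕ} (hs : 2 ≤ s) (a b : ZMod (nn s)) : ff s (a + b) = ff s a + ff s b := by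
  have : NeZero (nn s) := ⟨by have := nn_pos hs; omega⟩
  obtain ⟨k, rfl⟩ := ZMod.natCast_zmod_surjective a
  obtain ⟨l, rfl⟩ := ZMod.natCast_zmod_surjective b
  rw [← Nat.cast_add, ff_cast, ff_cast, ff_cast]
  push_cast
  ring

theorem ff_inj {s : ℕ} (hs : 2 ≤ s) {a b : ZMod (nn s)} (h : ff s a = ff s b) : a = b := by
  have : NeZero (nn s) := ⟨by have := nn_pos hs; omega⟩
  unfold ff at h
  rw [ZMod.natCast_eq_natCast_iff, n0_eq, mul_comm (nn s)] at h
  have h1 := Nat.ModEq.mul_left_cancel' (by positivity) h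
  have h2 := (ZMod.natCast_eq_natCast_iff _ _ _).2 h1
  rwa [ZMod.natCast_zmod_val, ZMod.natCast_zmod_val] at h2

theorem ff_surj {s : ℕ} (hs : 2 ≤ s) {a : ZMod (n0 s)} (h : (nn s) • a = 0) :
    ∃ c : ZMod (nn s), ff s c = a := by
  have : NeZero (n0 s) := ⟨by have := n0_pos hs; omega⟩
  have h1 : ((nn s * a.val : ℕ) : ZMod (n0 s)) = 0 := by
    push_cast
    rw [ZMod.natCast_zmod_val, ← nsmul_eq_mul]
    exact h
  rw [ZMod.natCast_eq_zero_iff] at h1
  have h3 : nn s * (2 ^ s + 1) ∣ nn s * a.val := by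
    rw [← n0_eq]
    exact h1
  have h2 := Nat.dvd_of_mul_dvd_mul_left (by have := nn_pos hs; omega) h3
  obtain ⟨k, hk⟩ := h2
  refine ⟨(k : ZMod (nn s)), ?_⟩
  rw [ff_cast, ← hk, ZMod.natCast_zmod_val]

/-- the embedding of `(ℤ/n)^2` -/
noncomputable def EE (s : ℕ) (v : Fin 2 → ZMod (nn s)) : ZMod (n0 s) × ZMod (n0 s) :=
  (ff s (v 0), ff s (v 1))

theorem EE_add {s : ℕ} (hs : 2 ≤ s) (v u : Fin 2 → ZMod (nn s)) :
    EE s (v + u) = EE s v + EE s u := by
  unfold EE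
  rw [Pi.add_apply, Pi.add_apply, ff_add hs, ff_add hs]
  rfl

theorem EE_zero {s : ℕ} (hs : 2 ≤ s) : EE s 0 = 0 := by
  have h := EE_add hs 0 0
  rw [add_zero] at h
  have h1 : EE s 0 + 0 = EE s 0 + EE s 0 := by
    rw [add_zero]
    exact h
  exact (add_left_cancel h1).symm

theorem EE_neg {s : ℕ} (hs : 2 ≤ s) (v : Fin 2 → ZMod (nn s)) : EE s (-v) = -EE s v := by
  apply eq_neg_of_add_eq_zero_left
  rw [← EE_add hs, neg_add_cancel, EE_zero hs]

theorem EE_sub {s : ℕ} (hs : 2 ≤ s) (v u : Fin 2 → ZMod (nn s)) :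
    EE s (v - u) = EE s v - EE s u := by
  rw [sub_eq_add_neg, EE_add hs, EE_neg hs, ← sub_eq_add_neg]

theorem EE_inj {s : ℕ} (hs : 2 ≤ s) {v u : Fin 2 → ZMod (nn s)} (h : EE s v = EE s u) : v = u := by
  unfold EE at h
  have h1 := ff_inj hs (congrArg Prod.fst h)
  have h2 := ff_inj hs (congrArg Prod.snd h)
  funext i
  fin_cases i
  · exact h1
  · exact h2

theorem EE_ne {s : ℕ} (hs : 2 ≤ s) {v : Fin 2 → ZMod (nn s)} (h : v ≠ 0) : EE s v ≠ 0 := by
  intro h1
  rw [← EE_zero hs] at h1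
  exact h (EE_inj hs h1)

theorem nn_smul {s : ℕ} (v : Fin 2 → ZMod (nn s)) : (nn s) • v = 0 := by
  funext i
  rw [Pi.smul_apply, nsmul_eq_mul, ZMod.natCast_self, zero_mul]
  rfl

theorem EE_smul {s : ℕ} (hs : 2 ≤ s) (k : ℕ) (v : Fin 2 → ZMod (nn s)) :
    EE s (k • v) = k • EE s v := by
  induction k with
  | zero => rw [zero_smul, zero_smul, EE_zero hs]
  | succ k ih => rw [succ_nsmul, succ_nsmul, EE_add hs, ih]

theorem EE_tors {s : ℕ} (hs : 2 ≤ s) (v : Fin 2 → ZMod (nn s)) : (nn s) • EE s v = 0 := by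
  rw [← EE_smul hs, nn_smul, EE_zero hs]

theorem EE_surj {s : ℕ} (hs : 2 ≤ s) {P : ZMod (n0 s) × ZMod (n0 s)} (h : (nn s) • P = 0) :
    ∃ v, EE s v = P := by
  obtain ⟨a, b⟩ := P
  have h1 : (nn s) • a = 0 := congrArg Prod.fst h
  have h2 : (nn s) • b = 0 := congrArg Prod.snd h
  obtain ⟨c, hc⟩ := ff_surj hs h1
  obtain ⟨d, hd⟩ := ff_surj hs h2
  refine ⟨![c, d], ?_⟩
  unfold EE
  exact Prod.ext hc hd

theorem odd_tors {s : ℕ} (hs : 2 ≤ s) {P : ZMod (n0 s) × ZMod (n0 s)} (h : P + P = 0) : P = 0 := by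
  obtain ⟨k, hk⟩ := n0_odd hs
  have h1 : (n0 s) • P = 0 := by
    have h2 : ∀ a : ZMod (n0 s), (n0 s) • a = 0 := by
      intro a
      rw [nsmul_eq_mul, ZMod.natCast_self, zero_mul]
    exact Prod.ext (h2 P.1) (h2 P.2)
  have h3 : (2 * k + 1) • P = 0 := by
    rw [← hk]
    exact h1
  rw [add_smul, one_smul, mul_comm 2 k, mul_smul, two_smul, h, smul_zero, zero_add] at h3
  exact h3

/-! ### The Galois action -/

section
variable {s : ℕ} {ξ : kkˣ}

/-- the relations between the `x`-coordinates used here -/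
structure Rel (s : ℕ) (ξ : kkˣ) : Prop where
  c2 : ∀ P, P ≠ 0 → XP s ξ P ≠ 0
  c3 : ∀ P, P ≠ 0 → XP s ξ (-P) = XP s ξ P
  c4 : ∀ P R, P ≠ 0 → R ≠ 0 → XP s ξ P = XP s ξ R → R = P ∨ R = -P
  c5 : ∀ P, P ≠ 0 → XP s ξ (P + P) * XP s ξ P ^ 2 = XP s ξ P ^ 4 + Del 1 (D0 s)
  c6 : ∀ P R, P ≠ 0 → R ≠ 0 → R ≠ P → R ≠ -P →
    (XP s ξ (P + R) + XP s ξ (P - R)) * (XP s ξ P + XP s ξ R) ^ 2 = XP s ξ P * XP s ξ R ∧
    XP s ξ (P + R) * XP s ξ (P - R) * (XP s ξ P + XP s ξ R) ^ 2 =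
      XP s ξ P ^ 2 * XP s ξ R ^ 2 + Del 1 (D0 s)

/-- the properties of `Maps` used here -/
structure MP {D : ℤ} (τ : Gam D) : Prop where
  del : Maps τ (Del 1 D) (Del 1 D)
  add : ∀ {y y' u u'}, Maps τ y y' → Maps τ u u' → Maps τ (y + u) (y' + u')
  mul : ∀ {y y' u u'}, Maps τ y y' → Maps τ u u' → Maps τ (y * u) (y' * u')
  inv : ∀ {y y'}, Maps τ y y' → Maps τ y⁻¹ y'⁻¹
  uni : ∀ {y y' y''}, Maps τ y y' → Maps τ y y'' → y' = y''
  inj : ∀ {y y' u}, Maps τ y y' → Maps τ u y' → y = u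

theorem MP.of (hM : Stmt_MAPS) {D : ℤ} (hD : 0 < D) (τ : Gam D) : MP τ := by
  obtain ⟨-, m2, m3, m4, m5, -, -⟩ := hM D hD τ
  obtain ⟨-, -, -, -, n5, -, -⟩ := hM D hD τ⁻¹
  exact ⟨m2, fun h h' => (m3 _ _ _ _ h h').1, fun h h' => (m3 _ _ _ _ h h').2,
    fun h => (m4 _ _ h).1, fun h h' => m5 _ _ _ h h',
    fun h h' => n5 _ _ _ (m4 _ _ h).2.2 (m4 _ _ h').2.2⟩

theorem MP.sq {D : ℤ} {τ : Gam D} (m : MP τ) {y y' : KK} (h : Maps τ y y') :
    Maps τ (y ^ 2) (y' ^ 2) := by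
  rw [pow_two, pow_two]
  exact m.mul h h

/-- duplication -/
theorem dup (r : Rel s ξ) {τ : Gam (D0 s)} (m : MP τ) {P P' : ZMod (n0 s) × ZMod (n0 s)}
    (hP : P ≠ 0) (hP' : P' ≠ 0) (h : Maps τ (XP s ξ P) (XP s ξ P')) :
    Maps τ (XP s ξ (P + P)) (XP s ξ (P' + P')) := by
  have h1 : ∀ R : ZMod (n0 s) × ZMod (n0 s), R ≠ 0 →
      XP s ξ (R + R) = (XP s ξ R ^ 2 * XP s ξ R ^ 2 + Del 1 (D0 s)) * (XP s ξ R ^ 2)⁻¹ := by
    intro R hR
    have h2 := r.c5 R hR
    have h3 : XP s ξ R ^ 2 ≠ 0 := pow_ne_zero _ (r.c2 R hR)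
    rw [eq_mul_inv_iff_mul_eq₀ h3, h2]
    ring
  rw [h1 P hP, h1 P' hP']
  exact m.mul (m.add (m.mul (m.sq h) (m.sq h)) m.del) (m.inv (m.sq h))

/-- the sum and the product of the `x`-coordinates of `P + R`, `P - R` -/
theorem sumprod (r : Rel s ξ) {τ : Gam (D0 s)} (m : MP τ)
    {P P' R R' : ZMod (n0 s) × ZMod (n0 s)} (hP : P ≠ 0) (hP' : P' ≠ 0) (hR : R ≠ 0) (hR' : R' ≠ 0)
    (h1 : R ≠ P) (h2 : R ≠ -P) (h : Maps τ (XP s ξ P) (XP s ξ P'))
    (h' : Maps τ (XP s ξ R) (XP s ξ R')) :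
    Maps τ (XP s ξ (P + R) + XP s ξ (P - R)) (XP s ξ (P' + R') + XP s ξ (P' - R')) ∧
    Maps τ (XP s ξ (P + R) * XP s ξ (P - R)) (XP s ξ (P' + R') * XP s ξ (P' - R')) ∧
    R' ≠ P' ∧ R' ≠ -P' := by
  have h3 : R' ≠ P' := by
    intro he
    rw [he] at h'
    rcases r.c4 P R hP hR (m.inj h h') with h4 | h4
    · exact h1 h4
    · exact h2 h4
  have h3' : R' ≠ -P' := by
    intro he
    rw [he, r.c3 P' hP'] at h'
    rcases r.c4 P R hP hR (m.inj h h') with h4 | h4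
    · exact h1 h4
    · exact h2 h4
  have hne : ∀ A B : ZMod (n0 s) × ZMod (n0 s), A ≠ 0 → B ≠ 0 → B ≠ A → B ≠ -A →
      (XP s ξ A + XP s ξ B) ^ 2 ≠ 0 := by
    intro A B hA hB hAB hAB' h0
    have h5 : XP s ξ A = XP s ξ B := CharTwo.add_eq_zero.1 (pow_eq_zero_iff (by norm_num) |>.1 h0)
    rcases r.c4 A B hA hB h5 with h4 | h4
    · exact hAB h4
    · exact hAB' h4
  have e1 : ∀ A B : ZMod (n0 s) × ZMod (n0 s), A ≠ 0 → B ≠ 0 → B ≠ A → B ≠ -A →
      XP s ξ (A + B) + XP s ξ (A - B) = (XP s ξ A * XP s ξ B) * ((XP s ξ A + XP s ξ B) ^ 2)⁻¹ := by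
    intro A B hA hB hAB hAB'
    rw [eq_mul_inv_iff_mul_eq₀ (hne A B hA hB hAB hAB')]
    exact (r.c6 A B hA hB hAB hAB').1
  have e2 : ∀ A B : ZMod (n0 s) × ZMod (n0 s), A ≠ 0 → B ≠ 0 → B ≠ A → B ≠ -A →
      XP s ξ (A + B) * XP s ξ (A - B) = (XP s ξ A ^ 2 * XP s ξ B ^ 2 + Del 1 (D0 s)) *
        ((XP s ξ A + XP s ξ B) ^ 2)⁻¹ := by
    intro A B hA hB hAB hAB'
    rw [eq_mul_inv_iff_mul_eq₀ (hne A B hA hB hAB hAB')]
    exact (r.c6 A B hA hB hAB hAB').2
  refine ⟨?_, ?_, h3, h3'⟩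
  · rw [e1 P R hP hR h1 h2, e1 P' R' hP' hR' h3 h3']
    exact m.mul (m.mul h h') (m.inv (m.sq (m.add h h')))
  · rw [e2 P R hP hR h1 h2, e2 P' R' hP' hR' h3 h3']
    exact m.mul (m.add (m.mul (m.sq h) (m.sq h')) m.del) (m.inv (m.sq (m.add h h')))

/-- multiples -/
theorem mult (r : Rel s ξ) {τ : Gam (D0 s)} (m : MP τ) {P P' : ZMod (n0 s) × ZMod (n0 s)}
    (h : Maps τ (XP s ξ P) (XP s ξ P')) (k : ℕ)
    (hk : ∀ i, 1 ≤ i → i ≤ k → i • P ≠ 0 ∧ i • P' ≠ 0) :
    ∀ i, 1 ≤ i → i ≤ k → Maps τ (XP s ξ (i • P)) (XP s ξ (i • P')) := by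
  intro i
  induction i using Nat.strong_induction_on with
  | _ i ih =>
    intro hi1 hik
    rcases Nat.lt_or_ge i 2 with h2 | h2
    · have : i = 1 := by omega
      rw [this, one_smul, one_smul]
      exact h
    · have hP := (hk 1 (le_refl 1) (by omega)).1
      have hP' := (hk 1 (le_refl 1) (by omega)).2
      rw [one_smul] at hP hP'
      rcases Nat.lt_or_ge i 3 with h3 | h3
      · have : i = 2 := by omega
        rw [this, two_smul, two_smul]
        exact dup r m hP hP' h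
      · obtain ⟨j, rfl⟩ : ∃ j, i = j + 2 := ⟨i - 2, by omega⟩
        have e1 : ∀ A : ZMod (n0 s) × ZMod (n0 s), (j + 2) • A = (j + 1) • A + A := fun A =>
          succ_nsmul A (j + 1)
        have e2 : ∀ A : ZMod (n0 s) × ZMod (n0 s), (j + 1) • A - A = j • A := by
          intro A
          rw [succ_nsmul, add_sub_cancel_right]
        have hj := hk (j + 1) (by omega) (by omega)
        have hj0 := hk j (by omega) (by omega)
        have hj2 := hk (j + 2) (by omega) (by omega)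
        have n1 : P ≠ (j + 1) • P := by
          intro he
          apply hj0.1
          rw [← e2 P, ← he, sub_self]
        have n2 : P ≠ -((j + 1) • P) := by
          intro he
          apply hj2.1
          rw [e1 P]
          nth_rewrite 2 [he]
          rw [add_neg_cancel]
        obtain ⟨s1, -, -, -⟩ := sumprod r m hj.1 hj.2 hP hP' n1 n2
          (ih (j + 1) (by omega) (by omega) (by omega)) h
        have s2 := ih j (by omega) (by omega) (by omega)
        rw [e2, e2] at s1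
        rw [e1, e1]
        have e3 : ∀ a b : KK, a = (a + b) + b := by
          intro a b
          rw [add_assoc, CharTwo.add_self_eq_zero, add_zero]
        rw [e3 (XP s ξ ((j + 1) • P + P)) (XP s ξ (j • P)),
          e3 (XP s ξ ((j + 1) • P' + P')) (XP s ξ (j • P'))]
        exact m.add s1 s2

/-- one direction for the order -/
theorem ord_one (hs : 2 ≤ s) (r : Rel s ξ) {P P' : ZMod (n0 s) × ZMod (n0 s)} (hP : P ≠ 0)
    (hP' : P' ≠ 0) (k : ℕ) (hk1 : 1 ≤ k) (hk : 2 ≤ k → k • P' ≠ 0 ∧ (k - 1) • P' ≠ 0)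
    (hx : XP s ξ (k • P) = XP s ξ P → XP s ξ (k • P') = XP s ξ P') (h : (k + 1) • P = 0) :
    (k + 1) • P' = 0 := by
  rcases Nat.lt_or_ge k 2 with h2 | h2
  · exfalso
    have : k = 1 := by omega
    rw [this, succ_nsmul, one_smul] at h
    exact hP (odd_tors hs h)
  · have h3 : k • P = -P := by
      rw [succ_nsmul] at h
      exact eq_neg_of_add_eq_zero_left h
    have h4 : XP s ξ (k • P) = XP s ξ P := by
      rw [h3, r.c3 P hP]
    obtain ⟨h5, h6⟩ := hk h2
    rcases r.c4 P' (k • P') hP' h5 (hx h4).symm with h7 | h7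
    · exfalso
      apply h6
      have h8 : (k - 1) • P' + P' = P' := by
        rw [← succ_nsmul, Nat.sub_add_cancel (by omega)]
        exact h7
      have h9 : (k - 1) • P' + P' = 0 + P' := by
        rw [zero_add]
        exact h8
      exact add_right_cancel h9
    · rw [succ_nsmul, h7, neg_add_cancel]

/-- the order is preserved -/
theorem ord (hs : 2 ≤ s) (r : Rel s ξ) {τ : Gam (D0 s)} (m : MP τ)
    {P P' : ZMod (n0 s) × ZMod (n0 s)} (hP : P ≠ 0) (hP' : P' ≠ 0)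
    (h : Maps τ (XP s ξ P) (XP s ξ P')) (n : ℕ) (hn : 0 < n) (hnP : n • P = 0) : n • P' = 0 := by
  classical
  have hex : ∃ k, 0 < k ∧ (k • P = 0 ∨ k • P' = 0) := ⟨n, hn, Or.inl hnP⟩
  obtain ⟨q, hq⟩ : ∃ q, q = Nat.find hex := ⟨_, rfl⟩
  have hq1 : 0 < q ∧ (q • P = 0 ∨ q • P' = 0) := by
    rw [hq]
    exact Nat.find_spec hex
  have hmin : ∀ i, 1 ≤ i → i < q → i • P ≠ 0 ∧ i • P' ≠ 0 := by
    intro i hi hiq
    rw [hq] at hiq
    have h1 := Nat.find_min hex hiq
    constructor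
    · intro h2
      exact h1 ⟨by omega, Or.inl h2⟩
    · intro h2
      exact h1 ⟨by omega, Or.inr h2⟩
  have hq2 : 2 ≤ q := by
    by_contra hcon
    have : q = 1 := by omega
    rw [this, one_smul, one_smul] at hq1
    rcases hq1.2 with h1 | h1
    · exact hP h1
    · exact hP' h1
  obtain ⟨k, rfl⟩ : ∃ k, q = k + 1 := ⟨q - 1, by omega⟩
  have hk1 : 1 ≤ k := by omega
  have hmul := mult r m h k (fun i hi hik => hmin i hi (by omega)) k hk1 (le_refl k)
  have hboth : (k + 1) • P = 0 ∧ (k + 1) • P' = 0 := by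
    rcases hq1.2 with h1 | h1
    · refine ⟨h1, ord_one hs r hP hP' k hk1 (fun h2 => ⟨(hmin k hk1 (by omega)).2,
        (hmin (k - 1) (by omega) (by omega)).2⟩) ?_ h1⟩
      intro h3
      rw [h3] at hmul
      exact m.uni hmul h
    · refine ⟨ord_one hs r hP' hP k hk1 (fun h2 => ⟨(hmin k hk1 (by omega)).1,
        (hmin (k - 1) (by omega) (by omega)).1⟩) ?_ h1, h1⟩
      intro h3
      rw [h3] at hmul
      exact m.inj hmul h
  -- division
  have h1 : n = (k + 1) * (n / (k + 1)) + n % (k + 1) := (Nat.div_add_mod n (k + 1)).symm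
  have h2 : n % (k + 1) = 0 := by
    by_contra hcon
    have h3 := hmin (n % (k + 1)) (by omega) (Nat.mod_lt _ (by omega))
    apply h3.1
    have h4 := hnP
    rw [h1, add_smul, mul_comm (k + 1), mul_smul, hboth.1, smul_zero, zero_add] at h4
    exact h4
  rw [h1, h2, add_zero, mul_comm (k + 1), mul_smul, hboth.2, smul_zero]

end

end ACT

open ACT in
theorem blk_ACT (hE : Stmt_ELL) (hM : Stmt_MAPS) (hDY : Stmt_DYN) (hL : Stmt_LIN) : Stmt_ACT := by
  intro s ξ hs hξ τ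
  obtain ⟨-, c2, c3, c4, c5, c6, -⟩ := hE s ξ (by omega) hξ
  have r : Rel s ξ := ⟨c2, c3, c4, c5, c6⟩
  have hD : (0 : ℤ) < ((D0 s : ℕ) : ℤ) := by
    have := n0_pos hs
    unfold D0
    positivity
  have m := MP.of hM hD τ
  obtain ⟨p, p1, p2, -, p4⟩ := hDY s ξ (by omega) hξ
  obtain ⟨X, hX⟩ : ∃ X : (Fin 2 → ZMod (nn s)) → KK, X = fun v => XP s ξ (EE s v) := ⟨_, rfl⟩
  have hπ : ∀ v : Fin 2 → ZMod (nn s), v ≠ 0 → ∃ v', v' ≠ 0 ∧ Maps τ (X v) (X v') := by
    intro v hv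
    have hx := (p2 (XP s ξ (EE s v))).2 ⟨EE s v, EE_ne hs hv, Or.inl (EE_tors hs v), rfl⟩
    obtain ⟨x', hx', hm⟩ := root_maps _ p p1 p4 τ _ hx
    obtain ⟨P', hP', -, rfl⟩ := (p2 x').1 hx'
    have h1 := ord hs r m (EE_ne hs hv) hP' hm (nn s) (by have := nn_pos hs; omega) (EE_tors hs v)
    obtain ⟨v', rfl⟩ := EE_surj hs h1
    refine ⟨v', ?_, ?_⟩
    · intro h0
      rw [h0, EE_zero hs] at hP'
      exact hP' rfl
    · rw [hX]
      exact hm
  choose g hg1 hg2 using hπ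
  classical
  obtain ⟨π, hπd⟩ : ∃ π : (Fin 2 → ZMod (nn s)) → (Fin 2 → ZMod (nn s)),
      π = fun v => if h : v = 0 then 0 else g v h := ⟨_, rfl⟩
  have π0 : π 0 = 0 := by
    rw [hπd]
    simp
  have πne : ∀ v, v ≠ 0 → π v ≠ 0 := by
    intro v hv
    rw [hπd]
    dsimp only
    rw [dif_neg hv]
    exact hg1 v hv
  have πm : ∀ v, v ≠ 0 → Maps τ (X v) (X (π v)) := by
    intro v hv
    rw [hπd]
    dsimp only
    rw [dif_neg hv]
    exact hg2 v hv
  have key' : ∀ a b, a ≠ 0 → b ≠ 0 → X a = X b → a = b ∨ a = -b := by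
    intro a b ha hb hab
    rw [hX] at hab
    rcases c4 (EE s b) (EE s a) (EE_ne hs hb) (EE_ne hs ha) hab.symm with h | h
    · exact Or.inl (EE_inj hs h)
    · rw [← EE_neg hs] at h
      exact Or.inr (EE_inj hs h)
  have key : ∀ v w, v ≠ 0 → w ≠ 0 → Maps τ (X v) (X w) → π v = w ∨ π v = -w := by
    intro v w hv hw h
    exact key' _ _ (πne v hv) hw (m.uni (πm v hv) h)
  have sneg : ∀ u, u ≠ 0 → π (-u) = π u ∨ π (-u) = -π u := by
    intro u hu
    apply key (-u) (π u) (neg_ne_zero.2 hu) (πne u hu)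
    have h1 : X (-u) = X u := by
      rw [hX]
      dsimp only
      rw [EE_neg hs, c3 _ (EE_ne hs hu)]
    rw [h1]
    exact πm u hu
  have hdne : ∀ v : Fin 2 → ZMod (nn s), v ≠ 0 → v + v ≠ 0 := by
    intro v hv h
    apply hv
    apply EE_inj hs
    rw [EE_zero hs]
    apply odd_tors hs
    rw [← EE_add hs, h, EE_zero hs]
  have hdup : ∀ v, v ≠ 0 → π (v + v) = π v + π v ∨ π (v + v) = -(π v + π v) := by
    intro v hv
    apply key (v + v) (π v + π v) (hdne v hv) (hdne _ (πne v hv))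
    have h1 := πm v hv
    rw [hX] at h1 ⊢
    dsimp only at h1 ⊢
    rw [EE_add hs, EE_add hs]
    exact dup r m (EE_ne hs hv) (EE_ne hs (πne v hv)) h1
  have hlin : ∀ v u, (π (v + u) = π v + π u ∨ π (v + u) = -(π v + π u)) ∧
      (π (v - u) = π v - π u ∨ π (v - u) = -(π v - π u)) ∨
      (π (v + u) = π v - π u ∨ π (v + u) = -(π v - π u)) ∧
      (π (v - u) = π v + π u ∨ π (v - u) = -(π v + π u)) := by
    intro v u
    by_cases hv : v = 0
    · left
      rw [hv, zero_add, zero_sub, π0, zero_add, zero_sub, neg_neg]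
      refine ⟨Or.inl rfl, ?_⟩
      by_cases hu : u = 0
      · rw [hu, neg_zero, π0]
        simp
      · exact (sneg u hu).symm
    by_cases hu : u = 0
    · left
      rw [hu, add_zero, sub_zero, π0, add_zero, sub_zero]
      exact ⟨Or.inl rfl, Or.inl rfl⟩
    by_cases huv : u = v
    · left
      rw [huv, sub_self, sub_self, π0]
      exact ⟨hdup v hv, Or.inl rfl⟩
    by_cases huv' : u = -v
    · rw [huv', add_neg_cancel, sub_neg_eq_add, π0]
      rcases sneg v hv with h | h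
      · right
        rw [h, sub_self]
        exact ⟨Or.inl rfl, hdup v hv⟩
      · left
        rw [h, add_neg_cancel, sub_neg_eq_add]
        exact ⟨Or.inl rfl, hdup v hv⟩
    have h1 : EE s u ≠ EE s v := fun h => huv (EE_inj hs h)
    have h2 : EE s u ≠ -EE s v := by
      intro h
      rw [← EE_neg hs] at h
      exact huv' (EE_inj hs h)
    have mv := πm v hv
    have mu := πm u hu
    rw [hX] at mv mu
    obtain ⟨s1, s2, s3, s4⟩ := sumprod r m (EE_ne hs hv) (EE_ne hs (πne v hv)) (EE_ne hs hu)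
      (EE_ne hs (πne u hu)) h1 h2 mv mu
    have hadd : v + u ≠ 0 := by
      intro h
      exact huv' (eq_neg_of_add_eq_zero_right h)
    have hsub : v - u ≠ 0 := by
      intro h
      exact huv (sub_eq_zero.1 h).symm
    have ha' : π v + π u ≠ 0 := by
      intro h
      apply s4
      rw [← EE_neg hs, eq_neg_of_add_eq_zero_right h]
    have hb' : π v - π u ≠ 0 := by
      intro h
      apply s3
      rw [sub_eq_zero.1 h]
    have ma := πm (v + u) hadd
    have mb := πm (v - u) hsub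
    have e1 : X (π (v + u)) + X (π (v - u)) = X (π v + π u) + X (π v - π u) := by
      apply m.uni (m.add ma mb)
      rw [hX]
      dsimp only
      rw [EE_add hs, EE_sub hs, EE_add hs, EE_sub hs]
      exact s1
    have e2 : X (π (v + u)) * X (π (v - u)) = X (π v + π u) * X (π v - π u) := by
      apply m.uni (m.mul ma mb)
      rw [hX]
      dsimp only
      rw [EE_add hs, EE_sub hs, EE_add hs, EE_sub hs]
      exact s2
    have e3 : (X (π (v + u)) - X (π v + π u)) * (X (π (v + u)) - X (π v - π u)) = 0 := by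
      linear_combination X (π (v + u)) * e1 - e2
    rcases mul_eq_zero.1 e3 with h | h
    · left
      have h5 := sub_eq_zero.1 h
      have h6 : X (π (v - u)) = X (π v - π u) := by
        rw [h5] at e1
        exact add_left_cancel e1
      exact ⟨key' _ _ (πne _ hadd) ha' h5, key' _ _ (πne _ hsub) hb' h6⟩
    · right
      have h5 := sub_eq_zero.1 h
      have h6 : X (π (v - u)) = X (π v + π u) := by
        rw [h5, add_comm] at e1
        exact add_right_cancel e1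
      exact ⟨key' _ _ (πne _ hadd) hb' h5, key' _ _ (πne _ hsub) ha' h6⟩
  obtain ⟨M, hdet, hMv⟩ := hL (nn s) (nn_odd hs) (nn_pos hs) π π0 πne hlin
  refine ⟨M, hdet, fun v hv => ?_⟩
  have h1 : Maps τ (X v) (X (M.mulVec v)) := by
    rcases hMv v with h | h
    · rw [← h]
      exact πm v hv
    · have h2 : M.mulVec v = -π v := by rw [h, neg_neg]
      have h3 : X (-π v) = X (π v) := by
        rw [hX]
        dsimp only
        rw [EE_neg hs, c3 _ (EE_ne hs (πne v hv))]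
      rw [h2, h3]
      exact πm v hv
  rw [hX] at h1
  exact h1

end Pool.Agent.Work.P57
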