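import Pool.Agent.Work.P57.Interface

/-!
# P57, block ALG
-/

set_option autoImplicit false

namespace Pool.Agent.Work.P57

open HahnSeries

namespace ALG

theorem maps_one {D : ℤ} {y : KK} (h : y ∈ K0 D) : Maps (1 : Gam D) y y := ⟨h, h, rfl⟩

end ALG

open ALG in
theorem blk_ALG (hMAPS : Stmt_MAPS) (hGGC : Stmt_GGC) (hDLH : Stmt_DLH) (hGRX : Stmt_GRX)
    (hEIN : Stmt_EIN) (hFIX : Stmt_FIX) : Stmt_ALG := by
  intro s ξ hs hξ N t hN h3 i y c hy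
  have hnn : 3 ≤ nn s := by
    have h4 : 2 ^ 2 ≤ 2 ^ s := Nat.pow_le_pow_right (by norm_num) hs
    show 3 ≤ 2 ^ s - 1
    omega
  have : Fact (1 < nn s) := ⟨by omega⟩
  have hn0 : n0 s = nn s * (2 ^ s + 1) := by
    show 4 ^ s - 1 = (2 ^ s - 1) * (2 ^ s + 1)
    have h1 : (4 : ℕ) ^ s = 2 ^ s * 2 ^ s := by
      rw [← mul_pow]
      norm_num
    have h2 : 1 ≤ 2 ^ s := Nat.one_le_two_pow
    rw [h1]
    obtain ⟨k, hk⟩ : ∃ k, 2 ^ s = k + 1 := ⟨2 ^ s - 1, by omega⟩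
    rw [hk]
    simp only [Nat.add_sub_cancel]
    have : (k + 1) * (k + 1) = k * (k + 1 + 1) + 1 := by ring
    omega
  have hNpos : 0 < N := Nat.pos_of_ne_zero (by rintro rfl; simp at hN; omega)
  have hD : (0 : ℤ) < (D0 s : ℕ) := by
    have : 0 < D0 s := by
      show 0 < 3 * n0 s
      rw [hn0]
      positivity
    exact_mod_cast this
  -- the identity acts by the identity matrix
  have hActs : Acts ξ (1 : Gam (D0 s)) (1 : Matrix (Fin 2) (Fin 2) (ZMod (nn s))) := by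
    intro v hv
    rw [Matrix.one_mulVec]
    refine maps_one ((hFIX s ξ hs hξ _ ?_).1)
    exact IntermediateField.subset_adjoin _ _ ⟨v, hv, rfl⟩
  have hV : ∀ (t : ℕ) (a : ℤ), 2 ≤ t → Odd a →
      Maps (1 : Gam (D0 s)) (vth (D0 s) t a) (vth (D0 s) t a) := by
    intro t a ht ha
    obtain ⟨b, -, h, -, -⟩ := hEIN (D0 s) hD 1 t ht a ha
    exact maps_one h
  have hX : ∀ v : Fin 2 → ZMod (nn s), v ≠ 0 →
      GG (1 : Gam (D0 s)) t (XN s ξ v) (XN s ξ ((1 : Matrix (Fin 2) (Fin 2) _).mulVec v)) :=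
    hGRX s ξ hs hξ 1 1 (by rw [Matrix.det_one]; exact isUnit_one) hActs hV t
  have hval : ((1 : ZMod (nn s)).val : ℤ) = 1 := by
    rw [ZMod.val_one]; rfl
  have hgg : ∀ m : ℕ, m ∣ nn s → 0 < m →
      GG (1 : Gam (D0 s)) t (Del (ξ ^ (3 * (n0 s / m : ℕ) * (i : ℤ))) (3 * (n0 s / m : ℕ)))
        (Del (ξ ^ (3 * (n0 s / m : ℕ) * (i : ℤ))) (3 * (n0 s / m : ℕ))) := by
    intro m hm hm0
    have hg : Int.gcd (1 : ℤ) (m : ℤ) = 1 := by simp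
    have hg2 : Int.gcd (Int.gcd (i : ℤ) 1) m = 1 := by simp
    have h := ((hDLH s ξ hs hξ m (i : ℤ) 1 1 hm hm0 hg2 (by rw [hg]; simp)).2.2 1 1
      (by rw [Matrix.det_one]; exact isUnit_one) hActs (i : ℤ) 1 1
      (by
        rw [Matrix.one_apply_eq, Matrix.one_apply_ne (by decide), hval, ZMod.val_zero]
        simp)
      (by
        rw [Matrix.one_apply_eq, Matrix.one_apply_ne (by decide), hval, ZMod.val_zero]
        simp) (by rw [hg]; simp)).2 t hX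
    rw [hg] at h
    have e1 : (3 * (n0 s / m : ℕ) * 1 * (i : ℤ) * ((1 : ℕ) : ℤ) : ℤ) =
        3 * (n0 s / m : ℕ) * (i : ℤ) := by push_cast; ring
    have e2 : (3 * (n0 s / m : ℕ) * ((1 : ℕ) : ℤ) ^ 2 : ℤ) = 3 * (n0 s / m : ℕ) := by
      push_cast; ring
    rw [e1, e2] at h
    exact h
  obtain ⟨N', rfl⟩ := h3
  have hN'pos : 0 < N' := by omega
  have h1 := hgg (3 * N') hN hNpos
  have h2 := hgg N' (Dvd.dvd.trans (Dvd.intro_left 3 rfl) hN) hN'pos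
  have e3 : (n0 s / N' : ℕ) = 3 * (n0 s / (3 * N') : ℕ) := by
    obtain ⟨k, hk⟩ : 3 * N' ∣ n0 s := by rw [hn0]; exact Dvd.dvd.mul_right hN _
    rw [hk, Nat.mul_div_cancel_left _ hNpos]
    rw [show 3 * N' * k = N' * (3 * k) by ring, Nat.mul_div_cancel_left _ hN'pos]
  have e4 : (3 * ((n0 s / N' : ℕ) : ℤ) : ℤ) = 9 * ((n0 s / (3 * N') : ℕ) : ℤ) := by
    rw [e3]; push_cast; ring
  rw [e4] at h2
  obtain ⟨gC, gS, gI, -, gR⟩ := hGGC (D0 s) hD (1 : Gam (D0 s)) t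
  have h12 := (gS _ _ _ _ h1 h2).2
  set Δ := Del (ξ ^ (3 * (n0 s / (3 * N') : ℕ) * (i : ℤ))) (3 * (n0 s / (3 * N') : ℕ)) *
    Del (ξ ^ (9 * (n0 s / (3 * N') : ℕ) * (i : ℤ))) (9 * (n0 s / (3 * N') : ℕ)) with hΔ
  have hC0 : (C ((ξ ^ (12 * (n0 s / (3 * N') : ℕ) * (i : ℤ)) : kkˣ) : kk) : KK) ≠ 0 := by
    rw [Ne, HahnSeries.C_eq_algebraMap, map_eq_zero]
    exact Units.ne_zero _
  have hy0 : y ≠ 0 := by
    rintro rfl
    apply hC0
    rw [← hy]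
    simp
  have hΔ0 : Δ ≠ 0 := by
    intro h
    apply hC0
    rw [← hy, h, mul_zero]
  have hy3 : y ^ 3 = C ((ξ ^ (12 * (n0 s / (3 * N') : ℕ) * (i : ℤ)) : kkˣ) : kk) * Δ⁻¹ := by
    rw [← hy, mul_assoc, mul_inv_cancel₀ hΔ0, mul_one]
  have hgg3 : GG (1 : Gam (D0 s)) t (y ^ 3) (y ^ 3) := by
    rw [hy3]
    exact (gS _ _ _ _ (gC _) (gI _ _ h12)).2
  obtain ⟨ω, -, -, hω⟩ := gR y y hy0 hgg3.1.1 hgg3
  exact (hω c).1

end Pool.Agent.Work.P57
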