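import Pool.Agent.Work.P57.Interface

/-! Block CST: constants and polynomials in `Δ`. -/

set_option autoImplicit false

namespace Pool.Agent.Work.P57

open HahnSeries

namespace CST

/-! ### the substitution `X ↦ z^e` -/

/-- `n ↦ e n` -/
def mulHom (e : ℤ) : ℕ →+ ℤ where
  toFun n := e * n
  map_zero' := by simp
  map_add' a b := by push_cast; ring

theorem mulHom_inj (e : ℤ) (he : 0 < e) : Function.Injective (mulHom e) := fun a b h => by
  have h1 : e * (a : ℤ) = e * b := h
  exact_mod_cast mul_left_cancel₀ he.ne' h1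

theorem mulHom_le (e : ℤ) (he : 0 < e) (a b : ℕ) : mulHom e a ≤ mulHom e b ↔ a ≤ b := by
  change e * (a : ℤ) ≤ e * b ↔ a ≤ b
  rw [mul_le_mul_iff_right₀ he]
  exact Nat.cast_le

/-- `X ↦ z^e` -/
noncomputable def PhiR (e : ℤ) (he : 0 < e) : PowerSeries kk →+* KK :=
  (embDomainRingHom (mulHom e) (mulHom_inj e he) (mulHom_le e he)).comp
    (toPowerSeries (R := kk)).symm.toRingHom

theorem PhiR_coeff (e : ℤ) (he : 0 < e) (f : PowerSeries kk) (n : ℕ) :
    (PhiR e he f).coeff (e * n) = PowerSeries.coeff n f := by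
  have h1 := embDomain_coeff (f := (⟨⟨mulHom e, mulHom_inj e he⟩, mulHom_le e he _ _⟩ : ℕ ↪o ℤ))
    (x := (toPowerSeries (R := kk)).symm f) (a := n)
  rw [coeff_toPowerSeries_symm] at h1
  exact h1

theorem PhiR_coeff_of_notMem (e : ℤ) (he : 0 < e) (f : PowerSeries kk) (g : ℤ)
    (hg : ∀ n : ℕ, g ≠ e * n) : (PhiR e he f).coeff g = 0 := by
  refine embDomain_of_notMem_range ?_
  rintro ⟨n, hn⟩
  exact hg n hn.symm

/-- `X ↦ z^e` as an algebra homomorphism -/
noncomputable def Phi (e : ℤ) (he : 0 < e) : PowerSeries kk →ₐ[kk] KK :=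
  { PhiR e he with
    commutes' := fun c => by
      change PhiR e he (algebraMap kk (PowerSeries kk) c) = C c
      ext g
      rw [C_apply]
      by_cases hg : ∃ n : ℕ, g = e * n
      · obtain ⟨n, rfl⟩ := hg
        rw [PhiR_coeff]
        rcases Nat.eq_zero_or_pos n with rfl | hn
        · rw [Nat.cast_zero, mul_zero, coeff_single_same]
          simp
        · rw [coeff_single_of_ne (by positivity)]
          rw [PowerSeries.algebraMap_apply, PowerSeries.coeff_C, if_neg hn.ne']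
      · rw [PhiR_coeff_of_notMem e he _ g (fun n hn => hg ⟨n, hn⟩), coeff_single_of_ne]
        rintro rfl
        exact hg ⟨0, by simp⟩ }

theorem Phi_coeff (e : ℤ) (he : 0 < e) (f : PowerSeries kk) (n : ℕ) :
    (Phi e he f).coeff (e * n) = PowerSeries.coeff n f := PhiR_coeff e he f n

theorem Phi_coeff_of_notMem (e : ℤ) (he : 0 < e) (f : PowerSeries kk) (g : ℤ)
    (hg : ∀ n : ℕ, g ≠ e * n) : (Phi e he f).coeff g = 0 := by
  exact PhiR_coeff_of_notMem e he f g hg

theorem Phi_injective (e : ℤ) (he : 0 < e) : Function.Injective (Phi e he) := by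
  intro f g h
  ext n
  rw [← Phi_coeff e he, ← Phi_coeff e he, h]

/-! ### `Δ` as a power series -/

/-- `∑ X^{l m^2}`, `m` odd -/
noncomputable def dl (l : ℕ) : PowerSeries kk :=
  PowerSeries.mk fun n => open Classical in if ∃ m : ℕ, n = l * (2 * m + 1) ^ 2 then 1 else 0

theorem tame_sq (e : ℤ) (he : 0 < e) : Tame (fun n : ℕ => e * (2 * (n : ℤ) + 1) ^ 2) := by
  intro B
  refine Set.Finite.subset (Set.finite_Iic B.toNat) ?_
  intro n hn
  have hn' : e * (2 * (n : ℤ) + 1) ^ 2 ≤ B := hn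
  rw [Set.mem_Iic]
  have h1 : (n : ℤ) ≤ e * (2 * (n : ℤ) + 1) ^ 2 := by
    have h0 : (0 : ℤ) ≤ n := Int.natCast_nonneg n
    nlinarith
  omega

theorem Del_coeff (e : ℤ) (he : 0 < e) (g : ℤ) : (Del 1 e).coeff g =
    open Classical in if ∃ m : ℕ, g = e * (2 * (m : ℤ) + 1) ^ 2 then 1 else 0 := by
  classical
  rw [Del, coeff_Th (tame_sq e he)]
  by_cases h : ∃ m : ℕ, g = e * (2 * (m : ℤ) + 1) ^ 2
  · rw [if_pos h]
    obtain ⟨m, hm⟩ := h
    rw [finsum_eq_single _ m]
    · rw [if_pos hm.symm]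
      simp
    · intro n hn
      rw [if_neg]
      intro h2
      rw [hm] at h2
      have h3 := mul_left_cancel₀ he.ne' h2
      have h4 : (2 * (n : ℤ) + 1) = 2 * m + 1 := by
        have h0 : (0 : ℤ) ≤ n := Int.natCast_nonneg n
        have h0' : (0 : ℤ) ≤ m := Int.natCast_nonneg m
        exact (pow_left_inj₀ (by omega) (by omega) two_ne_zero).1 h3
      omega
  · rw [if_neg h]
    rw [finsum_congr (g := fun _ : ℕ => (0 : kk)), finsum_zero]
    intro n
    rw [if_neg]
    intro h2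
    exact h ⟨n, h2.symm⟩

theorem Del_eq (e : ℤ) (he : 0 < e) (l : ℕ) (hl : 0 < l) : Del 1 (l * e) = Phi e he (dl l) := by
  classical
  ext g
  have hle : 0 < (l : ℤ) * e := by positivity
  rw [Del_coeff _ hle]
  by_cases hg : ∃ n : ℕ, g = e * n
  · obtain ⟨n, rfl⟩ := hg
    rw [Phi_coeff, dl, PowerSeries.coeff_mk]
    have h1 : (∃ m : ℕ, e * (n : ℤ) = l * e * (2 * (m : ℤ) + 1) ^ 2) ↔
        ∃ m : ℕ, n = l * (2 * m + 1) ^ 2 := by
      refine exists_congr fun m => ?_
      rw [mul_comm (l : ℤ) e, mul_assoc]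
      constructor
      · intro h
        have := mul_left_cancel₀ he.ne' h
        exact_mod_cast this
      · intro h
        rw [h]
        push_cast
        ring
    by_cases h2 : ∃ m : ℕ, n = l * (2 * m + 1) ^ 2
    · rw [if_pos h2, if_pos (h1.2 h2)]
    · rw [if_neg h2, if_neg (fun h => h2 (h1.1 h))]
  · rw [Phi_coeff_of_notMem e he _ g (fun n hn => hg ⟨n, hn⟩), if_neg]
    rintro ⟨m, hm⟩
    refine hg ⟨l * (2 * m + 1) ^ 2, ?_⟩
    rw [hm]
    push_cast
    ring

theorem Del_eq_one (e : ℤ) (he : 0 < e) : Del 1 e = Phi e he (dl 1) := by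
  have := Del_eq e he 1 one_pos
  rwa [Nat.cast_one, one_mul] at this

/-! ### item 1 -/

theorem item1 (y : KK) (hy : IsAlgebraic kk y) : ∃ c : kk, y = C c := by
  have h1 : IsIntegral kk y := hy.isIntegral
  have h2 := IsAlgClosed.degree_eq_one_of_irreducible kk (minpoly.irreducible h1)
  obtain ⟨c, hc⟩ := minpoly.mem_range_of_degree_eq_one kk y h2
  exact ⟨c, hc.symm⟩

theorem transc (e : ℤ) (he : 0 < e) : Transcendental kk (Del 1 e) := by
  classical
  intro h
  obtain ⟨c, hc⟩ := item1 _ h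
  have h1 : (Del 1 e).coeff e = (C c : KK).coeff e := by rw [hc]
  rw [Del_coeff e he, if_pos ⟨0, by simp⟩, C_apply, coeff_single_of_ne he.ne'] at h1
  exact one_ne_zero h1

/-! ### item 2 -/

open scoped IntermediateField.algebraAdjoinAdjoin in
theorem item2 (D : ℤ) (y : KK) (hy : y ∈ AA D)
    (hi : IsIntegral (Algebra.adjoin kk {Del 1 D}) y) :
    ∃ ρ : Polynomial kk, y = Polynomial.aeval (Del 1 D) ρ := by
  have hsur : Function.Surjective (Polynomial.aeval (Del 1 D) : Polynomial kk →ₐ[kk] KK).rangeRestrict :=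
    AlgHom.rangeRestrict_surjective _
  have hPIR : IsPrincipalIdealRing (Algebra.adjoin kk {Del 1 D}) := by
    rw [Algebra.adjoin_singleton_eq_range_aeval]
    exact IsPrincipalIdealRing.of_surjective _ hsur
  have hy' : y ∈ IntermediateField.adjoin kk {Del 1 D} := hy
  have hi' : IsIntegral (Algebra.adjoin kk {Del 1 D})
      (⟨y, hy'⟩ : IntermediateField.adjoin kk {Del 1 D}) := by
    have h3 := (isIntegral_algebraMap_iff (R := Algebra.adjoin kk {Del 1 D})
      (A := IntermediateField.adjoin kk {Del 1 D}) (B := KK)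
      (x := (⟨y, hy'⟩ : IntermediateField.adjoin kk {Del 1 D}))
      (algebraMap (IntermediateField.adjoin kk {Del 1 D}) KK).injective).1 hi
    exact h3
  obtain ⟨a, ha⟩ := IsIntegrallyClosed.algebraMap_eq_of_integral hi'
  have h4 : (a : KK) = y := congrArg Subtype.val ha
  have h5 : y ∈ Algebra.adjoin kk {Del 1 D} := h4 ▸ a.2
  rw [Algebra.adjoin_singleton_eq_range_aeval] at h5
  obtain ⟨ρ, hρ⟩ := h5
  exact ⟨ρ, hρ.symm⟩

/-! ### item 3 -/

theorem lift (e : ℤ) (he : 0 < e) (ρ : Polynomial kk) :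
    Polynomial.aeval (Del 1 e) ρ = Phi e he (Polynomial.aeval (dl 1) ρ) := by
  rw [Del_eq_one e he, Polynomial.aeval_algHom_apply]

theorem descend (D : ℤ) (hD : 0 < D) (l : ℕ) (hl : 0 < l) (ρ : Polynomial kk)
    (h : Del 1 (l * D) = Polynomial.aeval (Del 1 D) ρ) : dl l = Polynomial.aeval (dl 1) ρ := by
  rw [Del_eq D hD l hl, lift D hD] at h
  exact Phi_injective D hD h

theorem item3 (D e l : ℤ) (ρ : Polynomial kk) (hD : 0 < D) (he : 0 < e) (hl : 0 < l)
    (h : Del 1 (l * D) = Polynomial.aeval (Del 1 D) ρ) :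
    Del 1 (l * e) = Polynomial.aeval (Del 1 e) ρ := by
  obtain ⟨k, rfl⟩ := Int.eq_ofNat_of_zero_le hl.le
  have hk : 0 < k := by exact_mod_cast hl
  have h1 := descend D hD k hk ρ h
  have h2 := Del_eq e he k hk
  rw [h2, h1, lift e he]

/-! ### item 5 -/

theorem pow_one_add {R : Type*} [CommRing R] (a : R) (i : ℕ) :
    ∃ w : R, (1 + a) ^ i = 1 + i * a + a ^ 2 * w := by
  induction i with
  | zero => exact ⟨0, by simp⟩
  | succ i ih =>
    obtain ⟨w, hw⟩ := ih
    refine ⟨i + w + w * a, ?_⟩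
    rw [pow_succ, hw]
    push_cast
    ring

/-- `δ = X (1 + X^8 u)` -/
theorem dl_one : ∃ u : PowerSeries kk, PowerSeries.coeff 0 u = 1 ∧
    dl 1 = PowerSeries.X * (1 + PowerSeries.X ^ 8 * u) := by
  classical
  refine ⟨PowerSeries.mk fun n => PowerSeries.coeff (n + 9) (dl 1), ?_, ?_⟩
  · rw [PowerSeries.coeff_mk, dl, PowerSeries.coeff_mk, if_pos ⟨1, by norm_num⟩]
  · have h1 : PowerSeries.X * (1 + PowerSeries.X ^ 8 *
        (PowerSeries.mk fun n => PowerSeries.coeff (n + 9) (dl 1))) = PowerSeries.X +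
        PowerSeries.X ^ 9 * (PowerSeries.mk fun n => PowerSeries.coeff (n + 9) (dl 1)) := by
      ring
    rw [h1]
    ext n
    rw [map_add, PowerSeries.coeff_X_pow_mul', PowerSeries.coeff_X]
    by_cases hn : 9 ≤ n
    · rw [if_pos hn, if_neg (by omega), zero_add, PowerSeries.coeff_mk, Nat.sub_add_cancel hn]
    · rw [if_neg hn, add_zero, dl, PowerSeries.coeff_mk]
      by_cases h2 : n = 1
      · rw [if_pos h2, if_pos ⟨0, by omega⟩]
      · rw [if_neg h2, if_neg]
        rintro ⟨m, hm⟩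
        rcases Nat.eq_zero_or_pos m with rfl | hm0
        · exact h2 (by omega)
        · have : 9 ≤ 1 * (2 * m + 1) ^ 2 := by nlinarith
          omega

theorem coeff_pow (i : ℕ) : (∀ j < i, PowerSeries.coeff j (dl 1 ^ i) = 0) ∧
    PowerSeries.coeff i (dl 1 ^ i) = 1 ∧ PowerSeries.coeff (i + 8) (dl 1 ^ i) = (i : kk) := by
  obtain ⟨u, hu, h⟩ := dl_one
  obtain ⟨w, hw⟩ := pow_one_add (PowerSeries.X ^ 8 * u) i
  rw [h, mul_pow, hw]
  refine ⟨fun j hj => ?_, ?_, ?_⟩
  · rw [PowerSeries.coeff_X_pow_mul', if_neg (by omega)]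
  · rw [PowerSeries.coeff_X_pow_mul', if_pos le_rfl, Nat.sub_self, map_add, map_add]
    have e1 : (i : PowerSeries kk) * (PowerSeries.X ^ 8 * u) =
        PowerSeries.X ^ 8 * ((i : PowerSeries kk) * u) := by ring
    have e2 : (PowerSeries.X ^ 8 * u) ^ 2 * w = PowerSeries.X ^ 16 * (u ^ 2 * w) := by ring
    rw [e1, e2, PowerSeries.coeff_X_pow_mul', PowerSeries.coeff_X_pow_mul', if_neg (by omega),
      if_neg (by omega), PowerSeries.coeff_one, if_pos rfl, add_zero, add_zero]
  · rw [PowerSeries.coeff_X_pow_mul', if_pos (by omega), Nat.add_sub_cancel_left, map_add, map_add]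
    have e1 : (i : PowerSeries kk) * (PowerSeries.X ^ 8 * u) =
        PowerSeries.X ^ 8 * (PowerSeries.C (i : kk) * u) := by
      rw [map_natCast]; ring
    have e2 : (PowerSeries.X ^ 8 * u) ^ 2 * w = PowerSeries.X ^ 16 * (u ^ 2 * w) := by ring
    rw [e1, e2, PowerSeries.coeff_X_pow_mul', PowerSeries.coeff_X_pow_mul', if_pos le_rfl,
      if_neg (by omega), PowerSeries.coeff_one, if_neg (by omega), add_zero, zero_add,
      Nat.sub_self, PowerSeries.coeff_C_mul, hu, mul_one]

theorem item5 (D : ℤ) (l : ℕ) (ρ : Polynomial kk) (hD : 0 < D) (hodd : Odd l) (hl : 1 < l)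
    (hρ : ρ.natDegree ≤ l) : Del 1 (l * D) ≠ Polynomial.aeval (Del 1 D) ρ := by
  classical
  intro h
  have h1 := descend D hD l (by omega) ρ h
  rw [Polynomial.aeval_eq_sum_range' (Nat.lt_succ_of_le hρ)] at h1
  have hc : ∀ j, PowerSeries.coeff j (dl l) =
      ∑ i ∈ Finset.range (l + 1), ρ.coeff i * PowerSeries.coeff j (dl 1 ^ i) := by
    intro j
    rw [h1, map_sum]
    refine Finset.sum_congr rfl fun i _ => ?_
    rw [map_smul, smul_eq_mul]
  have hdl : ∀ j < l, PowerSeries.coeff j (dl l) = 0 := by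
    intro j hj
    rw [dl, PowerSeries.coeff_mk, if_neg]
    rintro ⟨m, hm⟩
    have : l * 1 ≤ l * (2 * m + 1) ^ 2 := Nat.mul_le_mul_left _ (Nat.one_le_pow _ _ (by omega))
    omega
  have hz : ∀ j < l, ρ.coeff j = 0 := by
    intro j
    induction j using Nat.strong_induction_on with
    | _ j ih =>
      intro hj
      have h2 := hc j
      rw [hdl j hj, Finset.sum_eq_single j] at h2
      · rw [(coeff_pow j).2.1, mul_one] at h2
        exact h2.symm
      · intro i hi hij
        rcases lt_or_gt_of_ne hij with h3 | h3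
        · rw [ih i h3 (h3.trans hj), zero_mul]
        · rw [(coeff_pow i).1 j h3, mul_zero]
      · intro hj'
        exact absurd (Finset.mem_range.2 (by omega)) hj'
  have hl1 : ∀ j, PowerSeries.coeff j (dl l) = ρ.coeff l * PowerSeries.coeff j (dl 1 ^ l) := by
    intro j
    rw [hc j, Finset.sum_range_succ, Finset.sum_eq_zero, zero_add]
    intro i hi
    rw [hz i (Finset.mem_range.1 hi), zero_mul]
  have h3 := hl1 l
  rw [(coeff_pow l).2.1, mul_one, dl, PowerSeries.coeff_mk, if_pos ⟨0, by simp⟩] at h3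
  have h4 := hl1 (l + 8)
  rw [(coeff_pow l).2.2, ← h3, one_mul, dl, PowerSeries.coeff_mk, if_neg] at h4
  · obtain ⟨k, rfl⟩ := hodd
    push_cast at h4
    have h2 : (2 : kk) = 0 := CharTwo.two_eq_zero
    rw [h2, zero_mul, zero_add] at h4
    exact zero_ne_one h4
  · rintro ⟨m, hm⟩
    rcases Nat.eq_zero_or_pos m with rfl | hm0
    · omega
    · have h5 : 9 ≤ (2 * m + 1) ^ 2 := by nlinarith
      have h6 : l * 9 ≤ l * (2 * m + 1) ^ 2 := Nat.mul_le_mul_left _ h5
      omega

/-! ### item 4 -/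

/-- `1, X, ..., X^d` are independent over `kk(ρ)` if `d < deg ρ` -/
theorem indep (ρ : Polynomial kk) (d : ℕ) (hd : d < ρ.natDegree) (f : ℕ → Polynomial kk)
    (h : ∑ i ∈ Finset.range (d + 1), (f i).comp ρ * Polynomial.X ^ i = 0) :
    ∀ i ≤ d, f i = 0 := by
  have hcomp : ∀ i, f i ≠ 0 → (f i).comp ρ ≠ 0 := by
    intro i hi h0
    rcases Polynomial.comp_eq_zero_iff.1 h0 with h1 | ⟨-, h1⟩
    · exact hi h1
    · rw [h1, Polynomial.natDegree_C] at hd
      omega
  have hdeg : ∀ i, f i ≠ 0 → ((f i).comp ρ * Polynomial.X ^ i).degree =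
      (((f i).natDegree * ρ.natDegree + i : ℕ) : WithBot ℕ) := by
    intro i hi
    have h0 : (f i).comp ρ * Polynomial.X ^ i ≠ 0 :=
      mul_ne_zero (hcomp i hi) (pow_ne_zero _ Polynomial.X_ne_zero)
    rw [Polynomial.degree_eq_natDegree h0, Polynomial.natDegree_mul_X_pow _ (hcomp i hi),
      Polynomial.natDegree_comp]
  have hdisj : Set.Pairwise {i | i ∈ Finset.range (d + 1) ∧
      (f i).comp ρ * Polynomial.X ^ i ≠ 0}
      (Function.onFun Ne (Polynomial.degree ∘ fun i => (f i).comp ρ * Polynomial.X ^ i)) := by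
    rintro i ⟨hi, hi0⟩ j ⟨hj, hj0⟩ hij hdd
    have hfi : f i ≠ 0 := by rintro h0; exact hi0 (by rw [h0]; simp)
    have hfj : f j ≠ 0 := by rintro h0; exact hj0 (by rw [h0]; simp)
    simp only [Function.comp] at hdd
    rw [hdeg i hfi, hdeg j hfj] at hdd
    have h2 : (f i).natDegree * ρ.natDegree + i = (f j).natDegree * ρ.natDegree + j := by
      exact_mod_cast hdd
    have hi1 := Finset.mem_range.1 hi
    have hj1 := Finset.mem_range.1 hj
    have h3 := congrArg (fun k => k % ρ.natDegree) h2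
    simp only [Nat.mul_add_mod_self_right] at h3
    rw [Nat.mod_eq_of_lt (by omega), Nat.mod_eq_of_lt (by omega)] at h3
    exact hij h3
  have hs := Polynomial.degree_sum_eq_of_disjoint
    (fun i => (f i).comp ρ * Polynomial.X ^ i) (Finset.range (d + 1)) hdisj
  rw [h, Polynomial.degree_zero] at hs
  intro i hi
  by_contra hne
  have h1 : ((f i).comp ρ * Polynomial.X ^ i).degree ≤ ⊥ := by
    rw [hs]
    exact Finset.le_sup (f := fun i => ((f i).comp ρ * Polynomial.X ^ i).degree)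
      (Finset.mem_range.2 (Nat.lt_succ_of_le hi))
  rw [hdeg i hne, le_bot_iff] at h1
  exact WithBot.coe_ne_bot h1

open scoped IntermediateField.algebraAdjoinAdjoin in
theorem clear (D : ℤ) (s : Finset (IntermediateField.adjoin kk {Del 1 D})) : ∃ b : KK, b ≠ 0 ∧
    ∀ a ∈ s, ∃ f : Polynomial kk, b * (a : KK) = Polynomial.aeval (Del 1 D) f := by
  have h1 := IsLocalization.exist_integer_multiples_of_finset
    (R := Algebra.adjoin kk {Del 1 D}) (S := IntermediateField.adjoin kk {Del 1 D})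
    (nonZeroDivisors (Algebra.adjoin kk {Del 1 D})) s
  obtain ⟨b, hb⟩ := h1
  refine ⟨((b : Algebra.adjoin kk {Del 1 D}) : KK), ?_, ?_⟩
  · intro h0
    have : (b : Algebra.adjoin kk {Del 1 D}) = 0 := Subtype.ext h0
    exact nonZeroDivisors.coe_ne_zero b this
  · intro a ha
    obtain ⟨c, hc⟩ := hb a ha
    obtain ⟨f, hf⟩ : ∃ f : Polynomial kk, Polynomial.aeval (Del 1 D) f = (c : KK) := by
      have h2 : ∀ y ∈ Algebra.adjoin kk {Del 1 D}, ∃ f : Polynomial kk,
          Polynomial.aeval (Del 1 D) f = y := by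
        intro y hy
        rw [Algebra.adjoin_singleton_eq_range_aeval] at hy
        exact hy
      exact h2 _ c.2
    refine ⟨f, ?_⟩
    have h3 : ((algebraMap (Algebra.adjoin kk {Del 1 D})
      (IntermediateField.adjoin kk {Del 1 D}) c : IntermediateField.adjoin kk {Del 1 D}) : KK) =
      (((b : Algebra.adjoin kk {Del 1 D}) • a : IntermediateField.adjoin kk {Del 1 D}) : KK) :=
        congrArg Subtype.val hc
    have h4 : (c : KK) = ((b : Algebra.adjoin kk {Del 1 D}) : KK) * (a : KK) := by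
      rw [Algebra.smul_def] at h3
      exact h3
    rw [← h4]
    exact hf.symm

theorem item4 (D e : ℤ) (ρ : Polynomial kk) (he : 0 < e)
    (h : Del 1 D = Polynomial.aeval (Del 1 e) ρ) (hK : Del 1 e ∈ K0 D) :
    ρ.natDegree ≤ (minpoly (AA D) (Del 1 e)).natDegree := by
  classical
  by_contra hlt
  rw [not_le] at hlt
  set p := minpoly (AA D) (Del 1 e) with hp
  have hint : IsIntegral (AA D) (Del 1 e) := (mem_K0.1 hK).isIntegral
  have hmon : p.Monic := minpoly.monic hint
  obtain ⟨b, hb0, hb⟩ := clear D ((Finset.range (p.natDegree + 1)).image fun i => p.coeff i)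
  have hb' : ∀ i ∈ Finset.range (p.natDegree + 1), ∃ f : Polynomial kk,
      b * (p.coeff i : KK) = Polynomial.aeval (Del 1 D) f :=
    fun i hi => hb _ (Finset.mem_image_of_mem _ hi)
  choose! f hf using hb'
  have hroot : Polynomial.aeval (Del 1 e) p = 0 := minpoly.aeval _ _
  rw [Polynomial.aeval_eq_sum_range] at hroot
  have h1 : Polynomial.aeval (Del 1 e)
      (∑ i ∈ Finset.range (p.natDegree + 1), (f i).comp ρ * Polynomial.X ^ i) = 0 := by
    rw [map_sum]
    have h2 : ∀ i ∈ Finset.range (p.natDegree + 1),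
        Polynomial.aeval (Del 1 e) ((f i).comp ρ * Polynomial.X ^ i) =
          b * (p.coeff i • Del 1 e ^ i) := by
      intro i hi
      rw [map_mul, map_pow, Polynomial.aeval_X, Polynomial.aeval_comp, ← h, ← hf i hi,
        Algebra.smul_def, mul_assoc]
      rfl
    rw [Finset.sum_congr rfl h2, ← Finset.mul_sum, hroot, mul_zero]
  have h3 := (transcendental_iff_injective.1 (transc e he)) (h1.trans (map_zero _).symm)
  have h4 := indep ρ p.natDegree hlt f h3 p.natDegree le_rfl
  have h5 := hf p.natDegree (Finset.mem_range.2 (by omega))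
  rw [h4, map_zero] at h5
  have h6 : p.coeff p.natDegree = 1 := hmon.coeff_natDegree
  rw [h6] at h5
  rcases mul_eq_zero.1 h5 with h7 | h7
  · exact hb0 h7
  · exact one_ne_zero h7

end CST

open CST

theorem blk_CST : Stmt_CST :=
  ⟨item1, fun D y _ hy hi => item2 D y hy hi,
    fun D e l ρ hD he hl h => item3 D e l ρ hD he hl h,
    fun D e ρ _ he h hK => item4 D e ρ he h hK,
    fun D l ρ hD ho hl hρ => item5 D l ρ hD ho hl hρ⟩

end Pool.Agent.Work.P57
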