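import Pool.Agent.Work.P57.Interface

/-! Block CU. -/

set_option autoImplicit false

namespace Pool.Agent.Work.P57

namespace CU

open HahnSeries

/-- series with all coefficients 1 -/
noncomputable abbrev Z {ι : Type} (E : ι → ℤ) : KK := Th E (fun _ => 1)

lemma tame_sub {ι : Type} {E : ι → ℤ} (h : Tame E) (p : ι → Prop) :
    Tame (fun i : {i // p i} => E i) := by
  intro B
  have := (h B).preimage (f := (Subtype.val : {i // p i} → ι)) Subtype.val_injective.injOn
  exact this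

lemma tame_shift {ι : Type} {E : ι → ℤ} (h : Tame E) (g : ℤ) : Tame (fun i => g + E i) := by
  intro B
  apply (h (B - g)).subset
  intro i hi
  simp only [Set.mem_ofPred_eq] at hi ⊢
  omega

lemma tame_k : Tame (fun k : ℤ => k * (k + 1)) := by
  intro B
  apply (Set.finite_Icc (-(B + 1)) (B + 1)).subset
  intro k hk
  simp only [Set.mem_ofPred_eq] at hk
  rw [Set.mem_Icc]
  rcases le_or_gt 0 k with h | h
  · constructor <;> nlinarith
  · constructor <;> nlinarith

lemma abs_pos' (U k : ℤ) : 1 ≤ |2 * U - 2 * k - 1| := by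
  have := abs_pos.2 (by omega : (2 * U - 2 * k - 1 : ℤ) ≠ 0)
  omega

/-- the double sum -/
abbrev EU (U : ℤ) : ℤ × ℕ → ℤ := fun p => p.1 * (p.1 + 1) + (p.2 + 1) * |2 * U - 2 * p.1 - 1|

lemma tame_EU (U : ℤ) : Tame (EU U) := by
  intro B
  apply ((tame_k B).prod (Set.finite_Iic B.toNat)).subset
  rintro ⟨k, n⟩ hk
  simp only [Set.mem_ofPred_eq, EU] at hk
  have h1 := abs_pos' U k
  have h2 : (0 : ℤ) ≤ n := Int.natCast_nonneg n
  have h3 : (n : ℤ) + 1 ≤ ((n : ℤ) + 1) * |2 * U - 2 * k - 1| := by nlinarith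
  have h4 : 0 ≤ k * (k + 1) := by
    rcases le_or_gt 0 k with h | h <;> nlinarith
  simp only [Set.mem_prod, Set.mem_ofPred_eq, Set.mem_Iic]
  constructor
  · linarith
  · omega

section TH

variable (hTH : Stmt_TH)
include hTH

lemma z_equiv {ι ι' : Type} (e : ι ≃ ι') {E : ι → ℤ} {E' : ι' → ℤ}
    (hE : ∀ i, E i = E' (e i)) : Z E = Z E' := by
  unfold Z
  rw [← hTH.2.1 _ _ e E' (fun _ => 1), show E = fun i => E' (e i) from funext hE]

lemma z_split {ι : Type} {E : ι → ℤ} (h : Tame E) (p : ι → Prop) :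
    Z E = Z (fun i : {i // p i} => E i) + Z (fun i : {i // ¬ p i} => E i) :=
  hTH.2.2.2.2.2.1 _ _ (fun _ => 1) p h

lemma z_single {ι : Type} {E : ι → ℤ} (g : ℤ) (h : Tame E) :
    single g 1 * Z E = Z (fun i => g + E i) := by
  have := hTH.2.2.2.2.2.2.1 _ E (fun _ => 1) g 1 h
  simpa using this

lemma z_inv {ι : Type} {E : ι → ℤ} (f : ι → ι) (hf : Function.Involutive f) (hne : ∀ i, f i ≠ i)
    (hE : ∀ i, E (f i) = E i) : Z E = 0 :=
  hTH.2.2.1 _ f E (fun _ => 1) hf hne hE (fun _ => rfl)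

/-- the tail sums -/
lemma z_tail (U : ℤ) : Z (fun k : {k : ℤ // k < U} => (k : ℤ) * (k + 1)) =
    Z (fun k : {k : ℤ // U ≤ k} => (k : ℤ) * (k + 1)) := by
  have h1 : Z (fun k : ℤ => k * (k + 1)) = 0 := by
    apply z_inv hTH (fun k => -1 - k)
    · intro k; simp
    · intro k h; omega
    · intro k; ring
  rw [z_split hTH tame_k (fun k => k < U)] at h1
  have h2 := CharTwo.add_eq_zero.1 h1
  rw [h2]
  refine z_equiv hTH (Equiv.subtypeEquivRight (by intro k; exact not_lt)) ?_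
  intro k
  rfl

/-- the two parts of the double sums -/
lemma step (U : ℤ) : Z (EU (U + 1)) + single (2 * U + 1) 1 * Z (EU U) =
    single (2 * U + 1) 1 * Z (fun k : {k : ℤ // U ≤ k} => (k : ℤ) * (k + 1)) +
      Z (fun k : {k : ℤ // U + 1 ≤ k} => (k : ℤ) * (k + 1)) := by
  have hre : Z (EU (U + 1)) = Z (fun p : ℤ × ℕ => (p.1 + 1) * (p.1 + 2) +
      (p.2 + 1) * |2 * U - 2 * p.1 - 1|) := by
    refine (z_equiv hTH (Equiv.prodCongr (Equiv.addRight (1 : ℤ)) (Equiv.refl ℕ)) ?_).symm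
    rintro ⟨k, n⟩
    simp only [EU, Equiv.prodCongr_apply, Prod.map, Equiv.coe_addRight, Equiv.refl_apply]
    rw [show 2 * (U + 1) - 2 * (k + 1) - 1 = 2 * U - 2 * k - 1 by ring]
    ring
  have hta : Tame (fun p : ℤ × ℕ => (p.1 + 1) * (p.1 + 2) +
      (p.2 + 1) * |2 * U - 2 * p.1 - 1|) := by
    intro B
    have h1 := (tame_EU (U + 1) B).preimage
      (f := fun p : ℤ × ℕ => (p.1 + 1, p.2)) (by
        rintro ⟨k, n⟩ - ⟨k', n'⟩ - h
        simp only [Prod.mk.injEq] at h ⊢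
        omega)
    refine h1.subset ?_
    rintro ⟨k, n⟩ hk
    simp only [Set.mem_ofPred_eq, Set.mem_preimage, EU] at hk ⊢
    rw [show 2 * (U + 1) - 2 * (k + 1) - 1 = 2 * U - 2 * k - 1 by ring]
    linarith
  rw [hre, z_split hTH hta (fun p => p.1 < U ∧ p.2 = 0), z_single hTH _ (tame_EU U),
    z_split hTH (tame_shift (tame_EU U) _) (fun p => U ≤ p.1 ∧ p.2 = 0)]
  -- the bijection
  have hbij : Z (fun i : {p : ℤ × ℕ // ¬ (p.1 < U ∧ p.2 = 0)} => (i.1.1 + 1) * (i.1.1 + 2) +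
        (i.1.2 + 1) * |2 * U - 2 * i.1.1 - 1|) =
      Z (fun i : {p : ℤ × ℕ // ¬ (U ≤ p.1 ∧ p.2 = 0)} => 2 * U + 1 + EU U i.1) := by
    let e : {p : ℤ × ℕ // ¬ (p.1 < U ∧ p.2 = 0)} ≃ {p : ℤ × ℕ // ¬ (U ≤ p.1 ∧ p.2 = 0)} :=
      { toFun := fun p => if h : p.1.1 < U then ⟨(p.1.1, p.1.2 - 1), by simp only; omega⟩
          else ⟨(p.1.1, p.1.2 + 1), by simp only; omega⟩
        invFun := fun p => if h : p.1.1 < U then ⟨(p.1.1, p.1.2 + 1), by simp only; omega⟩
          else ⟨(p.1.1, p.1.2 - 1), by simp only; omega⟩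
        left_inv := by
          rintro ⟨⟨k, n⟩, hp⟩
          simp only at hp ⊢
          by_cases h : k < U
          · simp only [h, ↓reduceDIte, Subtype.mk.injEq, Prod.mk.injEq, true_and]
            omega
          · simp only [h, ↓reduceDIte, Subtype.mk.injEq, Prod.mk.injEq, true_and]
            omega
        right_inv := by
          rintro ⟨⟨k, n⟩, hp⟩
          simp only at hp ⊢
          by_cases h : k < U
          · simp only [h, ↓reduceDIte, Subtype.mk.injEq, Prod.mk.injEq, true_and]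
            omega
          · simp only [h, ↓reduceDIte, Subtype.mk.injEq, Prod.mk.injEq, true_and]
            omega }
    refine z_equiv hTH e ?_
    rintro ⟨⟨k, n⟩, hp⟩
    simp only at hp
    by_cases h : k < U
    · have he : e ⟨⟨k, n⟩, hp⟩ = ⟨(k, n - 1), by simp only; omega⟩ := dif_pos h
      have hn : 1 ≤ n := by omega
      rw [he]
      simp only [EU]
      rw [abs_of_pos (by omega)]
      push_cast [Nat.cast_sub hn]
      ring
    · have he : e ⟨⟨k, n⟩, hp⟩ = ⟨(k, n + 1), by simp only; omega⟩ := dif_neg h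
      rw [he]
      simp only [EU]
      rw [abs_of_neg (by omega)]
      push_cast
      ring
  -- the two boundary terms
  have hp : Z (fun i : {p : ℤ × ℕ // p.1 < U ∧ p.2 = 0} => (i.1.1 + 1) * (i.1.1 + 2) +
        (i.1.2 + 1) * |2 * U - 2 * i.1.1 - 1|) =
      single (2 * U + 1) 1 * Z (fun k : {k : ℤ // U ≤ k} => (k : ℤ) * (k + 1)) := by
    rw [← z_tail hTH, z_single hTH _ (tame_sub tame_k _)]
    let e : {p : ℤ × ℕ // p.1 < U ∧ p.2 = 0} ≃ {k : ℤ // k < U} :=
      { toFun := fun p => ⟨p.1.1, p.2.1⟩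
        invFun := fun k => ⟨(k.1, 0), k.2, rfl⟩
        left_inv := by
          rintro ⟨⟨k, n⟩, hp, hn⟩
          simp only at hn
          subst hn
          rfl
        right_inv := fun k => rfl }
    refine z_equiv hTH e ?_
    rintro ⟨⟨k, n⟩, hk, hn⟩
    simp only at hn hk
    subst hn
    simp only [e, Equiv.coe_fn_mk]
    rw [abs_of_pos (by omega)]
    push_cast
    ring
  have hq : Z (fun i : {p : ℤ × ℕ // U ≤ p.1 ∧ p.2 = 0} => 2 * U + 1 + EU U i.1) =
      Z (fun k : {k : ℤ // U + 1 ≤ k} => (k : ℤ) * (k + 1)) := by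
    let e : {p : ℤ × ℕ // U ≤ p.1 ∧ p.2 = 0} ≃ {k : ℤ // U + 1 ≤ k} :=
      { toFun := fun p => ⟨p.1.1 + 1, by have := p.2.1; omega⟩
        invFun := fun k => ⟨(k.1 - 1, 0), by have := k.2; simp only; omega, rfl⟩
        left_inv := by
          rintro ⟨⟨k, n⟩, hp, hn⟩
          simp only at hn
          subst hn
          simp
        right_inv := fun k => by simp }
    refine z_equiv hTH e ?_
    rintro ⟨⟨k, n⟩, hk, hn⟩
    simp only at hn hk
    subst hn
    simp only [e, Equiv.coe_fn_mk, EU]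
    rw [abs_of_neg (by omega)]
    push_cast
    ring
  rw [hp, hq, hbij]
  generalize single (2 * U + 1) (1 : kk) * Z (fun k : {k : ℤ // U ≤ k} => (k : ℤ) * (k + 1)) = x
  generalize Z (fun k : {k : ℤ // U + 1 ≤ k} => (k : ℤ) * (k + 1)) = y
  generalize Z (fun i : {p : ℤ × ℕ // ¬ (U ≤ p.1 ∧ p.2 = 0)} => 2 * U + 1 + EU U i.1) = w
  have hw : w + w = 0 := CharTwo.add_self_eq_zero w
  linear_combination hw

/-- the identity for natural numbers -/
lemma main_nat (U : ℕ) : Z (fun k : {k : ℤ // (U : ℤ) ≤ k} => (k : ℤ) * (k + 1)) + Z (EU U) =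
    single ((U : ℤ) ^ 2) 1 * Z (fun n : ℕ => (n * (n + 1) : ℤ)) := by
  induction U with
  | zero =>
    have h1 : Z (EU ((0 : ℕ) : ℤ)) = 0 := by
      apply z_inv hTH (fun p : ℤ × ℕ => (-1 - p.1, p.2))
      · rintro ⟨k, n⟩; simp
      · rintro ⟨k, n⟩ h
        simp only [Prod.mk.injEq] at h
        omega
      · rintro ⟨k, n⟩
        simp only [EU, Nat.cast_zero]
        rw [show 2 * (0 : ℤ) - 2 * (-1 - k) - 1 = -(2 * 0 - 2 * k - 1) by ring, abs_neg]
        ring
    rw [h1, add_zero]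
    simp only [Nat.cast_zero, ne_eq, OfNat.ofNat_ne_zero, not_false_eq_true, zero_pow]
    rw [show (single (0 : ℤ) (1 : kk)) = (1 : KK) from rfl, one_mul]
    let e : {k : ℤ // (0 : ℤ) ≤ k} ≃ ℕ :=
      { toFun := fun k => k.1.toNat
        invFun := fun n => ⟨n, Int.natCast_nonneg n⟩
        left_inv := by
          rintro ⟨k, hk⟩
          simp only [Subtype.mk.injEq]
          omega
        right_inv := fun n => by simp }
    refine z_equiv hTH e ?_
    rintro ⟨k, hk⟩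
    simp only [e, Equiv.coe_fn_mk]
    rw [Int.toNat_of_nonneg hk]
  | succ U ih =>
    have h1 := step hTH U
    push_cast
    have h2 : single (((U : ℤ) + 1) ^ 2) (1 : kk) = single (2 * (U : ℤ) + 1) 1 *
        single ((U : ℤ) ^ 2) 1 := by
      rw [single_mul_single, mul_one]
      congr 1
      ring
    rw [h2, mul_assoc, ← ih]
    generalize Z (fun k : {k : ℤ // (U : ℤ) ≤ k} => (k : ℤ) * (k + 1)) = x at *
    generalize Z (fun k : {k : ℤ // (U : ℤ) + 1 ≤ k} => (k : ℤ) * (k + 1)) = y at *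
    generalize Z (EU U) = w at *
    generalize Z (EU (U + 1)) = w' at *
    have h3 : y + y = 0 := CharTwo.add_self_eq_zero y
    have h4 : single (2 * (U : ℤ) + 1) (1 : kk) * w + single (2 * (U : ℤ) + 1) (1 : kk) * w = 0 :=
      CharTwo.add_self_eq_zero _
    linear_combination h1 + h3 - h4

end TH

end CU

theorem blk_CU (hTH : Stmt_TH) : Stmt_CU := by
  intro U
  change CU.Z (fun k : {k : ℤ // |U| ≤ k} => (k : ℤ) * (k + 1)) + CU.Z (CU.EU U) =
    HahnSeries.single (U ^ 2) 1 * CU.Z (fun n : ℕ => (n * (n + 1) : ℤ))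
  obtain ⟨n, hn⟩ : ∃ n : ℕ, (n : ℤ) = |U| := ⟨U.natAbs, by simp⟩
  have h1 := CU.main_nat hTH n
  have h2 : CU.Z (CU.EU U) = CU.Z (CU.EU n) := by
    rw [hn]
    rcases abs_choice U with h | h
    · rw [h]
    · rw [h]
      refine CU.z_equiv hTH (Equiv.prodCongr (Equiv.subLeft (-1 : ℤ)) (Equiv.refl ℕ)) ?_
      rintro ⟨k, m⟩
      simp only [CU.EU, Equiv.prodCongr_apply, Prod.map, Equiv.subLeft_apply, Equiv.refl_apply]
      rw [show 2 * -U - 2 * (-1 - k) - 1 = -(2 * U - 2 * k - 1) by ring, abs_neg]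
      ring
  rw [hn] at h1
  rw [hn] at h2
  rw [h2, h1, sq_abs]

end Pool.Agent.Work.P57
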