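import Pool.Agent.Work.P57.Interface

set_option autoImplicit false

namespace Pool.Agent.Work.P57

open HahnSeries

namespace DLH

theorem nn_mul (s : ℕ) : (2 ^ s + 1) * nn s = n0 s := by
  have h1 : 1 ≤ 2 ^ s := Nat.one_le_two_pow
  obtain ⟨k, hk⟩ : ∃ k, 2 ^ s = k + 1 := ⟨2 ^ s - 1, by omega⟩
  have h4 : 4 ^ s = 2 ^ s * 2 ^ s := by
    rw [← mul_pow]
    norm_num
  unfold nn n0
  rw [h4, hk]
  have : (k + 1) * (k + 1) = (k + 2) * k + 1 := by ring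
  rw [this]
  simp only [Nat.add_sub_cancel]

theorem nn_pos {s : ℕ} (hs : 2 ≤ s) : 3 ≤ nn s := by
  unfold nn
  have : 2 ^ 2 ≤ 2 ^ s := Nat.pow_le_pow_right (by norm_num) hs
  omega

theorem nn_odd {s : ℕ} (hs : 2 ≤ s) : Odd (nn s) := by
  unfold nn
  have h1 : Even (2 ^ s) := by
    rw [Nat.even_pow]
    exact ⟨even_two, by omega⟩
  have h2 : 1 ≤ 2 ^ s := Nat.one_le_two_pow
  obtain ⟨k, hk⟩ := h1
  exact ⟨k - 1, by omega⟩

/-- the embedding of the `n`-torsion -/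
noncomputable def phi (s : ℕ) (x : ZMod (nn s)) : ZMod (n0 s) := (((2 ^ s + 1) * x.val : ℕ) : ZMod (n0 s))

theorem phi_int {s : ℕ} (hs : 2 ≤ s) (z : ℤ) :
    phi s ((z : ℤ) : ZMod (nn s)) = (((2 ^ s + 1) * z : ℤ) : ZMod (n0 s)) := by
  have hn := nn_pos hs
  have : NeZero (nn s) := ⟨by omega⟩
  unfold phi
  rw [← Int.cast_natCast, ZMod.intCast_eq_intCast_iff_dvd_sub]
  push_cast
  rw [ZMod.val_intCast, ← nn_mul s]
  push_cast
  refine ⟨z / (nn s : ℤ), ?_⟩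
  have := Int.emod_add_mul_ediv z (nn s : ℤ)
  calc ((2 : ℤ) ^ s + 1) * z - (2 ^ s + 1) * (z % (nn s : ℤ))
      = (2 ^ s + 1) * (z - z % (nn s : ℤ)) := by ring
    _ = (2 ^ s + 1) * ((nn s : ℤ) * (z / (nn s : ℤ))) := by
        congr 1
        linarith
    _ = _ := by ring

theorem phi_inj {s : ℕ} (hs : 2 ≤ s) {x y : ZMod (nn s)} (h : phi s x = phi s y) : x = y := by
  have hn := nn_pos hs
  have : NeZero (nn s) := ⟨by omega⟩
  obtain ⟨a, rfl⟩ := ZMod.intCast_surjective x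
  obtain ⟨b, rfl⟩ := ZMod.intCast_surjective y
  rw [phi_int hs, phi_int hs, ZMod.intCast_eq_intCast_iff_dvd_sub, ← nn_mul s] at h
  rw [ZMod.intCast_eq_intCast_iff_dvd_sub]
  push_cast at h
  rw [← mul_sub] at h
  exact (mul_dvd_mul_iff_left (by positivity)).mp h

theorem phi_add {s : ℕ} (hs : 2 ≤ s) (x y : ZMod (nn s)) : phi s (x + y) = phi s x + phi s y := by
  have hn := nn_pos hs
  have : NeZero (nn s) := ⟨by omega⟩
  obtain ⟨a, rfl⟩ := ZMod.intCast_surjective x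
  obtain ⟨b, rfl⟩ := ZMod.intCast_surjective y
  rw [← Int.cast_add, phi_int hs, phi_int hs, phi_int hs]
  push_cast
  ring

theorem phi_zero {s : ℕ} (hs : 2 ≤ s) : phi s 0 = 0 := by
  have := phi_int hs 0
  simpa using this

theorem XN_eq (s : ℕ) (ξ : kkˣ) (v : Fin 2 → ZMod (nn s)) :
    XN s ξ v = XP s ξ (phi s (v 0), phi s (v 1)) := rfl

/-- the elements of the cyclic subgroup -/
def hv (s m : ℕ) (α β : ℤ) (l : ℤ) : Fin 2 → ZMod (nn s) :=
  ![((l * (nn s / m : ℕ) * α : ℤ) : ZMod (nn s)), ((l * (nn s / m : ℕ) * β : ℤ) : ZMod (nn s))]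

theorem hv_neg (s m : ℕ) (α β l : ℤ) : hv s m α β (-l) = -hv s m α β l := by
  funext i
  fin_cases i
  · simp [hv]
  · simp [hv]

theorem hv_mul (s m : ℕ) (α β l c : ℤ) : hv s m α β (c * l) = fun i => (c : ZMod (nn s)) * hv s m α β l i := by
  funext i
  fin_cases i
  · simp [hv]
    ring
  · simp [hv]
    ring

theorem div_eq {s m : ℕ} (hm : m ∣ nn s) : n0 s / m = (2 ^ s + 1) * (nn s / m) := by
  rw [← nn_mul s, Nat.mul_div_assoc _ hm]

theorem YH_eq {s : ℕ} (hs : 2 ≤ s) (ξ : kkˣ) {m : ℕ} (hm : m ∣ nn s) (α β : ℤ)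
    (v : Fin 2 → ZMod (nn s)) :
    YH s ξ m α β (phi s (v 0), phi s (v 1)) =
      ∑ l ∈ Finset.range m, XN s ξ (v + hv s m α β (l : ℤ)) := by
  unfold YH
  refine Finset.sum_congr rfl (fun l _ => ?_)
  rw [XN_eq]
  congr 1
  simp only [Pi.add_apply, hv, Matrix.cons_val_zero, Matrix.cons_val_one]
  rw [phi_add hs, phi_add hs, phi_int hs, phi_int hs, div_eq hm]
  push_cast
  ext <;> simp only <;> ring

theorem InH_iff {s : ℕ} (hs : 2 ≤ s) {m : ℕ} (hm : m ∣ nn s) (α β : ℤ)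
    (v : Fin 2 → ZMod (nn s)) (h : InH s m α β (phi s (v 0), phi s (v 1))) :
    ∃ l : ℤ, v = hv s m α β l := by
  obtain ⟨l, hl⟩ := h
  refine ⟨l, ?_⟩
  have h1 := congrArg Prod.fst hl
  have h2 := congrArg Prod.snd hl
  simp only at h1 h2
  rw [div_eq hm] at h1 h2
  funext i
  apply phi_inj hs
  fin_cases i
  · simp only [hv, Fin.zero_eta, Matrix.cons_val_zero]
    rw [h1, phi_int hs]
    push_cast
    ring
  · change phi s (v 1) = phi s ((l * (nn s / m : ℕ) * β : ℤ) : ZMod (nn s))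
    rw [h2, phi_int hs]
    push_cast
    ring

/-- ISO on the `n`-torsion -/
theorem iso {s : ℕ} (hs : 2 ≤ s) {ξ : kkˣ} (hξ : IsPrimitiveRoot ξ (D0 s)) (hI : Stmt_ISO)
    {m : ℕ} {α β j : ℤ} (hm : m ∣ nn s) (hm0 : 0 < m) (hg : Int.gcd (Int.gcd α β) m = 1)
    (hj : (m : ℤ) ∣ j * β - Int.gcd β m) {v : Fin 2 → ZMod (nn s)}
    (hv' : ∀ l : ℤ, v ≠ hv s m α β l) :
    Del (ξ ^ (3 * (n0 s / m : ℕ) * j * α * Int.gcd β m)) (3 * (n0 s / m : ℕ) * (Int.gcd β m) ^ 2) =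
    (∑ l ∈ Finset.range m, XN s ξ (v + hv s m α β (l : ℤ))) ^ 2 *
      (∑ l ∈ Finset.range m, XN s ξ (v + v + hv s m α β (l : ℤ)) +
        (∑ l ∈ Finset.range m, XN s ξ (v + hv s m α β (l : ℤ))) ^ 2) := by
  have hmn0 : m ∣ n0 s := by
    rw [← nn_mul s]
    exact hm.mul_left _
  have h1 := hI s ξ (by omega) hξ m α β j hmn0 hm0 hg hj (phi s (v 0), phi s (v 1))
    (fun h => by
      obtain ⟨l, hl⟩ := InH_iff hs hm α β v h
      exact hv' l hl)
  have h2 : ((phi s (v 0), phi s (v 1)) + (phi s (v 0), phi s (v 1)) :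
      ZMod (n0 s) × ZMod (n0 s)) = (phi s ((v + v) 0), phi s ((v + v) 1)) := by
    simp only [Pi.add_apply, phi_add hs, Prod.mk_add_mk]
  rw [h2, YH_eq hs ξ hm, YH_eq hs ξ hm] at h1
  exact h1.symm

theorem exists_v {s : ℕ} (hs : 2 ≤ s) (m : ℕ) (α β : ℤ) :
    ∃ v : Fin 2 → ZMod (nn s), ∀ l : ℤ, v ≠ hv s m α β l := by
  have hn := nn_pos hs
  by_contra hcon
  push Not at hcon
  obtain ⟨l, hl⟩ := hcon ![1, 0]
  obtain ⟨k, hk⟩ := hcon ![0, 1]
  have e1 := congrFun hl 0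
  have e2 := congrFun hl 1
  have e3 := congrFun hk 0
  have e4 := congrFun hk 1
  simp only [hv, Matrix.cons_val_zero, Matrix.cons_val_one] at e1 e2 e3 e4
  have h : (1 : ZMod (nn s)) = 0 := by
    calc (1 : ZMod (nn s)) = 1 * 1 - 0 * 0 := by ring
      _ = ((l * (nn s / m : ℕ) * α : ℤ) : ZMod (nn s)) * ((k * (nn s / m : ℕ) * β : ℤ) : ZMod (nn s))
          - ((l * (nn s / m : ℕ) * β : ℤ) : ZMod (nn s)) * ((k * (nn s / m : ℕ) * α : ℤ) : ZMod (nn s)) := by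
          rw [← e1, ← e4, ← e2, ← e3]
      _ = 0 := by
          push_cast
          ring
  have h1 : ((1 : ℕ) : ZMod (nn s)) = 0 := by exact_mod_cast h
  rw [ZMod.natCast_eq_zero_iff] at h1
  have := Nat.le_of_dvd one_pos h1
  omega

theorem ne_one {s : ℕ} (m : ℕ) (α β : ℤ) {v : Fin 2 → ZMod (nn s)}
    (hv' : ∀ l : ℤ, v ≠ hv s m α β l) (l : ℤ) : v + hv s m α β l ≠ 0 := by
  intro h
  apply hv' (-l)
  rw [hv_neg]
  exact eq_neg_of_add_eq_zero_left h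

theorem ne_two {s : ℕ} (hs : 2 ≤ s) (m : ℕ) (α β : ℤ) {v : Fin 2 → ZMod (nn s)}
    (hv' : ∀ l : ℤ, v ≠ hv s m α β l) (l : ℤ) : v + v + hv s m α β l ≠ 0 := by
  intro h
  have h1 : v + v = hv s m α β (-l) := by
    rw [hv_neg]
    exact eq_neg_of_add_eq_zero_left h
  obtain ⟨k, hk⟩ := nn_odd hs
  apply hv' (((k + 1 : ℕ) : ℤ) * (-l))
  rw [hv_mul, ← h1]
  funext i
  simp only [Pi.add_apply]
  push_cast
  have h3 : (k + 1 : ZMod (nn s)) * (v i + v i) = (2 * k + 1) * v i + v i := by ring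
  have h4 : (2 * (k : ZMod (nn s)) + 1) = 0 := by
    have h5 : ((nn s : ℕ) : ZMod (nn s)) = 0 := ZMod.natCast_self _
    have h6 : ((2 * k + 1 : ℕ) : ZMod (nn s)) = 0 := by rw [← hk]; exact h5
    exact_mod_cast h6
  rw [h3, h4, zero_mul, zero_add]

theorem hv_map {s m : ℕ} (hs : 2 ≤ s) (hm : m ∣ nn s)
    (M : Matrix (Fin 2) (Fin 2) (ZMod (nn s))) {α β α' β' : ℤ}
    (h1 : (m : ℤ) ∣ α' - ((M 0 0).val * α + (M 0 1).val * β))
    (h2 : (m : ℤ) ∣ β' - ((M 1 0).val * α + (M 1 1).val * β)) (l : ℤ) :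
    hv s m α' β' l = M.mulVec (hv s m α β l) := by
  have hn := nn_pos hs
  have : NeZero (nn s) := ⟨by omega⟩
  have key : ∀ (γ' : ℤ) (x y : ZMod (nn s)), (m : ℤ) ∣ γ' - (x.val * α + y.val * β) →
      ((l * (nn s / m : ℕ) * γ' : ℤ) : ZMod (nn s)) =
        x * ((l * (nn s / m : ℕ) * α : ℤ) : ZMod (nn s)) +
          y * ((l * (nn s / m : ℕ) * β : ℤ) : ZMod (nn s)) := by
    intro γ' x y hxy
    obtain ⟨q, hq⟩ := hxy
    have e1 : γ' = (x.val * α + y.val * β) + m * q := by linarith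
    have e2 : (l * (nn s / m : ℕ) * γ' : ℤ) = (x.val : ℤ) * (l * (nn s / m : ℕ) * α)
        + (y.val : ℤ) * (l * (nn s / m : ℕ) * β) + ((nn s / m * m : ℕ) : ℤ) * (l * q) := by
      rw [e1]
      push_cast
      ring
    rw [e2, Nat.div_mul_cancel hm]
    have e3 : ((nn s : ℕ) : ZMod (nn s)) = 0 := ZMod.natCast_self _
    have e4 : (((x.val : ℕ) : ℤ) : ZMod (nn s)) = x := by
      rw [Int.cast_natCast, ZMod.natCast_zmod_val]
    have e5 : (((y.val : ℕ) : ℤ) : ZMod (nn s)) = y := by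
      rw [Int.cast_natCast, ZMod.natCast_zmod_val]
    rw [Int.cast_add, Int.cast_add, Int.cast_mul, Int.cast_mul ((y.val : ℕ) : ℤ), e4, e5,
      Int.cast_mul ((nn s : ℕ) : ℤ), Int.cast_natCast (nn s), e3, zero_mul, add_zero]
  funext i
  fin_cases i
  · have := key α' (M 0 0) (M 0 1) h1
    simpa [Matrix.mulVec, dotProduct, Fin.sum_univ_two, hv] using this
  · have := key β' (M 1 0) (M 1 1) h2
    simpa [Matrix.mulVec, dotProduct, Fin.sum_univ_two, hv] using this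

theorem gcd_map {s m : ℕ} (hs : 2 ≤ s) (hm : m ∣ nn s)
    (M : Matrix (Fin 2) (Fin 2) (ZMod (nn s))) (hM : IsUnit M.det) {α β α' β' : ℤ}
    (hg : Int.gcd (Int.gcd α β) m = 1)
    (h1 : (m : ℤ) ∣ α' - ((M 0 0).val * α + (M 0 1).val * β))
    (h2 : (m : ℤ) ∣ β' - ((M 1 0).val * α + (M 1 1).val * β)) :
    Int.gcd (Int.gcd α' β') m = 1 := by
  have hn := nn_pos hs
  have : NeZero (nn s) := ⟨by omega⟩
  set g := Int.gcd (Int.gcd α' β') m with hgdef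
  have g1 : (g : ℤ) ∣ (Int.gcd α' β' : ℤ) := Int.gcd_dvd_left _ _
  have g2 : (g : ℤ) ∣ (m : ℤ) := Int.gcd_dvd_right _ _
  have g3 : (g : ℤ) ∣ α' := g1.trans (Int.gcd_dvd_left _ _)
  have g4 : (g : ℤ) ∣ β' := g1.trans (Int.gcd_dvd_right _ _)
  set δ : ℤ := (M 0 0).val * (M 1 1).val - (M 0 1).val * (M 1 0).val with hδ
  have hδc : ((δ : ℤ) : ZMod (nn s)) = M.det := by
    rw [Matrix.det_fin_two, hδ]
    push_cast
    simp only [ZMod.natCast_val, ZMod.cast_id', id_eq]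
  have hcop : IsCoprime ((nn s : ℕ) : ℤ) δ := by
    rw [← ZMod.coe_int_isUnit_iff_isCoprime, hδc]
    exact hM
  have hgn : (g : ℤ) ∣ ((nn s : ℕ) : ℤ) := g2.trans (by exact_mod_cast hm)
  have hcg : IsCoprime (g : ℤ) δ := hcop.of_isCoprime_of_dvd_left hgn
  obtain ⟨q1, hq1⟩ := h1
  obtain ⟨q2, hq2⟩ := h2
  have ea : δ * α = (M 1 1).val * (α' - m * q1) - (M 0 1).val * (β' - m * q2) := by
    have e1 : α' - m * q1 = (M 0 0).val * α + (M 0 1).val * β := by linarith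
    have e2 : β' - m * q2 = (M 1 0).val * α + (M 1 1).val * β := by linarith
    rw [e1, e2, hδ]
    ring
  have eb : δ * β = (M 0 0).val * (β' - m * q2) - (M 1 0).val * (α' - m * q1) := by
    have e1 : α' - m * q1 = (M 0 0).val * α + (M 0 1).val * β := by linarith
    have e2 : β' - m * q2 = (M 1 0).val * α + (M 1 1).val * β := by linarith
    rw [e1, e2, hδ]
    ring
  have d1 : (g : ℤ) ∣ α' - m * q1 := dvd_sub g3 (g2.mul_right _)
  have d2 : (g : ℤ) ∣ β' - m * q2 := dvd_sub g4 (g2.mul_right _)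
  have da : (g : ℤ) ∣ α := by
    refine hcg.dvd_of_dvd_mul_left ?_
    rw [ea]
    exact dvd_sub (d1.mul_left _) (d2.mul_left _)
  have db : (g : ℤ) ∣ β := by
    refine hcg.dvd_of_dvd_mul_left ?_
    rw [eb]
    exact dvd_sub (d2.mul_left _) (d1.mul_left _)
  have dg : (g : ℤ) ∣ (1 : ℕ) := by
    rw [← hg]
    exact Int.dvd_coe_gcd (Int.dvd_coe_gcd da db) g2
  have : g ∣ 1 := by exact_mod_cast dg
  exact Nat.dvd_one.mp this

theorem rel {s : ℕ} (hs : 2 ≤ s) {ξ : kkˣ} (hξ : IsPrimitiveRoot ξ (D0 s)) (hI : Stmt_ISO)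
    {m : ℕ} {α β j : ℤ} (hm : m ∣ nn s) (hm0 : 0 < m) (hg : Int.gcd (Int.gcd α β) m = 1)
    (hj : (m : ℤ) ∣ j * β - Int.gcd β m) (M : Matrix (Fin 2) (Fin 2) (ZMod (nn s)))
    (hM : IsUnit M.det) {α' β' j' : ℤ}
    (h1 : (m : ℤ) ∣ α' - ((M 0 0).val * α + (M 0 1).val * β))
    (h2 : (m : ℤ) ∣ β' - ((M 1 0).val * α + (M 1 1).val * β))
    (hj' : (m : ℤ) ∣ j' * β' - Int.gcd β' m) (R : KK → KK → Prop) (hR0 : R 0 0)
    (hRa : ∀ y y' u u', R y y' → R u u' → R (y + u) (y' + u'))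
    (hRm : ∀ y y' u u', R y y' → R u u' → R (y * u) (y' * u'))
    (hR : ∀ v : Fin 2 → ZMod (nn s), v ≠ 0 → R (XN s ξ v) (XN s ξ (M.mulVec v))) :
    R (Del (ξ ^ (3 * (n0 s / m : ℕ) * j * α * Int.gcd β m))
        (3 * (n0 s / m : ℕ) * (Int.gcd β m) ^ 2))
      (Del (ξ ^ (3 * (n0 s / m : ℕ) * j' * α' * Int.gcd β' m))
        (3 * (n0 s / m : ℕ) * (Int.gcd β' m) ^ 2)) := by
  obtain ⟨v, hv'⟩ := exists_v hs m α β
  have hinj : Function.Injective M.mulVec :=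
    Matrix.mulVec_injective_of_isUnit ((Matrix.isUnit_iff_isUnit_det M).mpr hM)
  have hMv : ∀ l : ℤ, M.mulVec v ≠ hv s m α' β' l := by
    intro l hl
    rw [hv_map hs hm M h1 h2 l] at hl
    exact hv' l (hinj hl)
  have hg' := gcd_map hs hm M hM hg h1 h2
  have hsum : ∀ (f f' : ℕ → KK) (k : ℕ), (∀ l, R (f l) (f' l)) →
      R (∑ l ∈ Finset.range k, f l) (∑ l ∈ Finset.range k, f' l) := by
    intro f f' k hf
    induction k with
    | zero => simpa using hR0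
    | succ k ih =>
      rw [Finset.sum_range_succ, Finset.sum_range_succ]
      exact hRa _ _ _ _ ih (hf k)
  rw [iso hs hξ hI hm hm0 hg hj hv', iso hs hξ hI hm hm0 hg' hj' hMv]
  have r1 : R (∑ l ∈ Finset.range m, XN s ξ (v + hv s m α β (l : ℤ)))
      (∑ l ∈ Finset.range m, XN s ξ (M.mulVec v + hv s m α' β' (l : ℤ))) := by
    refine hsum _ _ _ (fun l => ?_)
    rw [hv_map hs hm M h1 h2, ← Matrix.mulVec_add]
    exact hR _ (ne_one m α β hv' l)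
  have r2 : R (∑ l ∈ Finset.range m, XN s ξ (v + v + hv s m α β (l : ℤ)))
      (∑ l ∈ Finset.range m, XN s ξ (M.mulVec v + M.mulVec v + hv s m α' β' (l : ℤ))) := by
    refine hsum _ _ _ (fun l => ?_)
    rw [hv_map hs hm M h1 h2, ← Matrix.mulVec_add, ← Matrix.mulVec_add]
    exact hR _ (ne_two hs m α β hv' l)
  rw [pow_two, pow_two]
  exact hRm _ _ _ _ (hRm _ _ _ _ r1 r1) (hRa _ _ _ _ r2 (hRm _ _ _ _ r1 r1))

theorem XN_integral {s : ℕ} (hs : 2 ≤ s) {ξ : kkˣ} (hξ : IsPrimitiveRoot ξ (D0 s))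
    (hD : Stmt_DYN) (v : Fin 2 → ZMod (nn s)) (hv0 : v ≠ 0) :
    IsIntegral (Algebra.adjoin kk {Del 1 (D0 s)}) (XN s ξ v) := by
  obtain ⟨p, hp, hroot, -, -⟩ := hD s ξ (by omega) hξ
  have hn := nn_pos hs
  have : NeZero (nn s) := ⟨by omega⟩
  have h0 : (p.map (Polynomial.aeval (Del 1 (D0 s))).toRingHom).eval (XN s ξ v) = 0 := by
    rw [hroot]
    refine ⟨(phi s (v 0), phi s (v 1)), ?_, Or.inl ?_, rfl⟩
    · intro h
      apply hv0
      have e1 := congrArg Prod.fst h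
      have e2 := congrArg Prod.snd h
      simp only [Prod.fst_zero, Prod.snd_zero] at e1 e2
      funext i
      apply phi_inj hs
      rw [Pi.zero_apply, phi_zero hs]
      fin_cases i
      · exact e1
      · exact e2
    · have hz : ∀ x : ZMod (nn s), (2 ^ s - 1) • phi s x = 0 := by
        intro x
        unfold phi
        rw [nsmul_eq_mul, ← Nat.cast_mul, ZMod.natCast_eq_zero_iff]
        refine ⟨x.val, ?_⟩
        have := nn_mul s
        unfold nn at this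
        rw [← this]
        ring
      rw [Prod.smul_mk, hz, hz]
      rfl
  set A := Algebra.adjoin kk {Del 1 (D0 s)} with hA
  have hmem : Del 1 (D0 s) ∈ A := Algebra.subset_adjoin rfl
  refine ⟨p.map (Polynomial.aeval (⟨Del 1 (D0 s), hmem⟩ : A)).toRingHom, hp.map _, ?_⟩
  rw [Polynomial.eval₂_map]
  rw [Polynomial.eval_map] at h0
  rw [← h0]
  congr 1
  apply RingHom.ext
  intro q
  change (algebraMap A KK) (Polynomial.aeval (⟨Del 1 (D0 s), hmem⟩ : A) q) =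
    Polynomial.aeval (Del 1 (D0 s)) q
  rw [← Polynomial.aeval_algebraMap_apply]
  rfl

end DLH

theorem blk_DLH (hELL : Stmt_ELL) (hISO : Stmt_ISO) (hMAPS : Stmt_MAPS) (hDYN : Stmt_DYN)
    (hFIX : Stmt_FIX) (hGGC : Stmt_GGC) : Stmt_DLH := by
  intro s ξ hs hξ m α β j hm hm0 hg hj
  have hn := DLH.nn_pos hs
  have hD0 : (0 : ℤ) < (D0 s : ℕ) := by
    have h1 := DLH.nn_mul s
    have h2 : 0 < n0 s := by
      rw [← h1]
      positivity
    have h3 : 0 < D0 s := by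
      unfold D0
      omega
    exact_mod_cast h3
  obtain ⟨v, hv'⟩ := DLH.exists_v hs m α β
  refine ⟨?_, ?_, ?_⟩
  · rw [DLH.iso hs hξ hISO hm hm0 hg hj hv']
    have hmem : ∀ w : Fin 2 → ZMod (nn s), w ≠ 0 → XN s ξ w ∈
        IntermediateField.adjoin (AA (D0 s)) {x | ∃ v, v ≠ 0 ∧ x = XN s ξ v} := fun w hw =>
      IntermediateField.subset_adjoin _ _ ⟨w, hw, rfl⟩
    have m1 : (∑ l ∈ Finset.range m, XN s ξ (v + DLH.hv s m α β (l : ℤ))) ∈
        IntermediateField.adjoin (AA (D0 s)) {x | ∃ v, v ≠ 0 ∧ x = XN s ξ v} :=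
      sum_mem (fun l _ => hmem _ (DLH.ne_one m α β hv' (l : ℤ)))
    have m2 : (∑ l ∈ Finset.range m, XN s ξ (v + v + DLH.hv s m α β (l : ℤ))) ∈
        IntermediateField.adjoin (AA (D0 s)) {x | ∃ v, v ≠ 0 ∧ x = XN s ξ v} :=
      sum_mem (fun l _ => hmem _ (DLH.ne_two hs m α β hv' (l : ℤ)))
    exact mul_mem (pow_mem m1 2) (add_mem m2 (pow_mem m1 2))
  · rw [DLH.iso hs hξ hISO hm hm0 hg hj hv']
    have m1 : IsIntegral (Algebra.adjoin kk {Del 1 (D0 s)})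
        (∑ l ∈ Finset.range m, XN s ξ (v + DLH.hv s m α β (l : ℤ))) :=
      IsIntegral.sum _ (fun l _ => DLH.XN_integral hs hξ hDYN _ (DLH.ne_one m α β hv' (l : ℤ)))
    have m2 : IsIntegral (Algebra.adjoin kk {Del 1 (D0 s)})
        (∑ l ∈ Finset.range m, XN s ξ (v + v + DLH.hv s m α β (l : ℤ))) :=
      IsIntegral.sum _ (fun l _ => DLH.XN_integral hs hξ hDYN _ (DLH.ne_two hs m α β hv' (l : ℤ)))
    exact (m1.pow 2).mul (m2.add (m1.pow 2))
  · intro τ M hM hA α' β' j' h1 h2 hj'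
    obtain ⟨a1, -, a3, -⟩ := hMAPS (D0 s) hD0 τ
    refine ⟨DLH.rel hs hξ hISO hm hm0 hg hj M hM h1 h2 hj' (Maps τ) ?_
      (fun _ _ _ _ p q => (a3 _ _ _ _ p q).1) (fun _ _ _ _ p q => (a3 _ _ _ _ p q).2) hA, ?_⟩
    · have := a1 0
      rwa [map_zero] at this
    · intro t hGG
      obtain ⟨b1, b2, -⟩ := hGGC (D0 s) hD0 τ t
      refine DLH.rel hs hξ hISO hm hm0 hg hj M hM h1 h2 hj' (GG τ t) ?_
        (fun _ _ _ _ p q => (b2 _ _ _ _ p q).1) (fun _ _ _ _ p q => (b2 _ _ _ _ p q).2) hGG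
      have := b1 0
      rwa [map_zero] at this

end Pool.Agent.Work.P57
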