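import Pool.Agent.Work.P57.Interface

set_option autoImplicit false

namespace Pool.Agent.Work.P57

open Polynomial

namespace DYN

/-- numerator and denominator of multiplication by `2^i` -/
noncomputable def AB : ℕ → Polynomial (Polynomial kk) × Polynomial (Polynomial kk)
  | 0 => (X, 1)
  | i + 1 => ((AB i).1 ^ 4 + C X * (AB i).2 ^ 4, (AB i).1 ^ 2 * (AB i).2 ^ 2)

lemma AB_deg (i : ℕ) : (AB i).1.Monic ∧ (AB i).1.natDegree = 4 ^ i ∧
    (AB i).2.natDegree + 2 ^ i ≤ 4 ^ i := by
  induction i with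
  | zero => simp [AB, monic_X]
  | succ i ih =>
    obtain ⟨h1, h2, h3⟩ := ih
    have hm4 : ((AB i).1 ^ 4).Monic := h1.pow 4
    have hd4 : ((AB i).1 ^ 4).natDegree = 4 * 4 ^ i := by rw [h1.natDegree_pow, h2]
    have h2i : 0 < 2 ^ i := by positivity
    have hb : (C X * (AB i).2 ^ 4 : Polynomial (Polynomial kk)).natDegree ≤
        4 * (AB i).2.natDegree := by
      refine (natDegree_C_mul_le _ _).trans ?_
      exact natDegree_pow_le
    have hlt : (C X * (AB i).2 ^ 4 : Polynomial (Polynomial kk)).natDegree <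
        ((AB i).1 ^ 4).natDegree := by
      rw [hd4]; omega
    refine ⟨?_, ?_, ?_⟩
    · exact hm4.add_of_left (degree_lt_degree hlt)
    · show ((AB i).1 ^ 4 + C X * (AB i).2 ^ 4).natDegree = _
      rw [natDegree_add_eq_left_of_natDegree_lt hlt, hd4, pow_succ]
      ring
    · show ((AB i).1 ^ 2 * (AB i).2 ^ 2).natDegree + _ ≤ _
      have e1 : ((AB i).1 ^ 2 * (AB i).2 ^ 2).natDegree ≤ 2 * 4 ^ i + 2 * (AB i).2.natDegree := by
        refine natDegree_mul_le.trans ?_
        have e2 : ((AB i).1 ^ 2).natDegree = 2 * 4 ^ i := by rw [h1.natDegree_pow, h2]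
        have e3 : ((AB i).2 ^ 2).natDegree ≤ 2 * (AB i).2.natDegree := natDegree_pow_le
        omega
      have e4 : 4 ^ (i + 1) = 4 * 4 ^ i := by rw [pow_succ, mul_comm]
      have e5 : 2 ^ (i + 1) = 2 * 2 ^ i := by rw [pow_succ, mul_comm]
      omega

end DYN

open DYN in
theorem blk_DYN (hELL : Stmt_ELL) : Stmt_DYN := by
  classical
  intro s ξ hs hξ
  obtain ⟨-, hx0, hneg, hinj, hdup, -, -⟩ := hELL s ξ hs hξ
  set φ : Polynomial kk →+* KK := (Polynomial.aeval (Del 1 (D0 s))).toRingHom with hφ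
  have hφX : φ X = Del 1 (D0 s) := by simp [hφ]
  set n := n0 s with hn
  have h4 : 4 ^ s = 2 ^ s * 2 ^ s := by
    rw [show (4 : ℕ) = 2 * 2 by norm_num, mul_pow]
  have h2s : 2 ≤ 2 ^ s := by
    calc 2 = 2 ^ 1 := by norm_num
      _ ≤ 2 ^ s := Nat.pow_le_pow_right (by norm_num) hs
  have hnn : n = (2 ^ s - 1) * (2 ^ s + 1) := by
    rw [hn]
    show 4 ^ s - 1 = _
    rw [h4]
    obtain ⟨k, hk⟩ := Nat.exists_eq_add_of_le h2s
    rw [hk, show 2 + k - 1 = 1 + k by omega]
    have : (2 + k) * (2 + k) = (1 + k) * (2 + k + 1) + 1 := by ring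
    omega
  have hnpos : 0 < n := by
    rw [hnn]; apply Nat.mul_pos <;> omega
  have : NeZero n := ⟨hnpos.ne'⟩
  have hodd : Odd n := by
    rw [hn]
    show Odd (4 ^ s - 1)
    have he : Even (4 ^ s) := by
      rw [Nat.even_pow]; exact ⟨by decide, by omega⟩
    exact Nat.Even.sub_odd (by have : 0 < 4 ^ s := by positivity
                               omega) he odd_one
  have hdbl : ∀ R : ZMod n × ZMod n, R ≠ 0 → R + R ≠ 0 := by
    intro R hR h
    apply hR
    have h1 := congrArg Prod.fst h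
    have h2 := congrArg Prod.snd h
    exact Prod.ext ((ZMod.add_self_eq_zero_iff_eq_zero hodd).mp h1)
      ((ZMod.add_self_eq_zero_iff_eq_zero hodd).mp h2)
  have hpow : ∀ (i : ℕ) (P : ZMod n × ZMod n), P ≠ 0 → 2 ^ i • P ≠ 0 := by
    intro i
    induction i with
    | zero => intro P hP; simpa using hP
    | succ i ih =>
      intro P hP
      have : 2 ^ (i + 1) • P = 2 ^ i • P + 2 ^ i • P := by
        rw [pow_succ, mul_smul, two_smul, smul_add]
      rw [this]
      exact hdbl _ (ih P hP)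
  -- the key formula
  have key : ∀ (P : ZMod n × ZMod n), P ≠ 0 → ∀ i : ℕ,
      eval₂ φ (XP s ξ P) (AB i).1 = XP s ξ (2 ^ i • P) * eval₂ φ (XP s ξ P) (AB i).2 := by
    intro P hP i
    induction i with
    | zero => simp [AB]
    | succ i ih =>
      have hR := hpow i P hP
      have h1 := hdup (2 ^ i • P) hR
      have h2 : 2 ^ (i + 1) • P = 2 ^ i • P + 2 ^ i • P := by
        rw [pow_succ, mul_smul, two_smul, smul_add]
      show eval₂ φ (XP s ξ P) ((AB i).1 ^ 4 + C X * (AB i).2 ^ 4) =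
        XP s ξ (2 ^ (i + 1) • P) * eval₂ φ (XP s ξ P) ((AB i).1 ^ 2 * (AB i).2 ^ 2)
      rw [h2, eval₂_add, eval₂_mul, eval₂_mul, eval₂_pow, eval₂_pow, eval₂_pow, eval₂_pow, eval₂_C,
        hφX, ih]
      calc (XP s ξ (2 ^ i • P) * eval₂ φ (XP s ξ P) (AB i).2) ^ 4 +
            Del 1 (D0 s) * eval₂ φ (XP s ξ P) (AB i).2 ^ 4
          = (XP s ξ (2 ^ i • P) ^ 4 + Del 1 (D0 s)) * eval₂ φ (XP s ξ P) (AB i).2 ^ 4 := by ring
        _ = XP s ξ (2 ^ i • P + 2 ^ i • P) *
            ((XP s ξ (2 ^ i • P) * eval₂ φ (XP s ξ P) (AB i).2) ^ 2 *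
              eval₂ φ (XP s ξ P) (AB i).2 ^ 2) := by rw [← h1]; ring
  -- the polynomial
  obtain ⟨hm, hd, hbd⟩ := AB_deg s
  set p : Polynomial (Polynomial kk) := (AB s).1 + X * (AB s).2 with hp
  have hlt : (X * (AB s).2 : Polynomial (Polynomial kk)).natDegree < (AB s).1.natDegree := by
    rw [hd]
    have h1 : (X * (AB s).2 : Polynomial (Polynomial kk)).natDegree ≤
        1 + (AB s).2.natDegree := by
      refine natDegree_mul_le.trans ?_
      rw [natDegree_X]
    omega
  have hpm : p.Monic := hm.add_of_left (degree_lt_degree hlt)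
  have hpd : p.natDegree = 4 ^ s := by
    rw [hp, natDegree_add_eq_left_of_natDegree_lt hlt, hd]
  set q : Polynomial KK := p.map φ with hq
  have hqm : q.Monic := hpm.map φ
  have hqd : q.natDegree = 4 ^ s := by rw [hq, hpm.natDegree_map, hpd]
  -- roots
  let good : ZMod n × ZMod n → Prop := fun P =>
    P ≠ 0 ∧ ((2 ^ s - 1) • P = 0 ∨ (2 ^ s + 1) • P = 0)
  have hroot : ∀ P, good P → q.eval (XP s ξ P) = 0 := by
    rintro P ⟨hP, h⟩
    have h1 : XP s ξ (2 ^ s • P) = XP s ξ P := by
      rcases h with h | h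
      · have : 2 ^ s • P = P := by
          conv_lhs => rw [show 2 ^ s = (2 ^ s - 1) + 1 by omega]
          rw [add_smul, h, zero_add, one_smul]
        rw [this]
      · have : 2 ^ s • P = -P := by
          rw [add_smul, one_smul] at h
          exact eq_neg_of_add_eq_zero_left h
        rw [this, hneg P hP]
    rw [hq, eval_map, hp, eval₂_add, eval₂_mul, eval₂_X, key P hP s, h1]
    exact CharTwo.add_self_eq_zero _
  -- counting
  set G1 : Finset (ZMod n × ZMod n) := Finset.univ.filter (fun P => (2 ^ s - 1) • P = 0) with hG1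
  set G2 : Finset (ZMod n × ZMod n) := Finset.univ.filter (fun P => (2 ^ s + 1) • P = 0) with hG2
  have hcastinj : ∀ a b : ℕ, 0 < a → a * b = n → ∀ i < b, ∀ j < b,
      ((a * i : ℕ) : ZMod n) = ((a * j : ℕ) : ZMod n) → i = j := by
    intro a b ha hab i hi j hj h
    rw [ZMod.natCast_eq_natCast_iff'] at h
    have h1 : a * i < n := by rw [← hab]; exact Nat.mul_lt_mul_of_pos_left hi ha
    have h2 : a * j < n := by rw [← hab]; exact Nat.mul_lt_mul_of_pos_left hj ha
    rw [Nat.mod_eq_of_lt h1, Nat.mod_eq_of_lt h2] at h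
    exact Nat.eq_of_mul_eq_mul_left ha h
  have hcount : ∀ a b : ℕ, 0 < a → a * b = n →
      b ^ 2 ≤ (Finset.univ.filter (fun P : ZMod n × ZMod n => b • P = 0)).card := by
    intro a b ha hab
    have h1 : ((Finset.range b) ×ˢ (Finset.range b)).card = b ^ 2 := by
      rw [Finset.card_product, Finset.card_range, sq]
    rw [← h1]
    apply Finset.card_le_card_of_injOn
      (fun p : ℕ × ℕ => (((a * p.1 : ℕ) : ZMod n), ((a * p.2 : ℕ) : ZMod n)))
    · intro p _
      rw [Finset.mem_coe, Finset.mem_filter]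
      refine ⟨Finset.mem_univ _, ?_⟩
      have h2 : ∀ i : ℕ, b • ((a * i : ℕ) : ZMod n) = 0 := by
        intro i
        rw [nsmul_eq_mul, ← Nat.cast_mul, show b * (a * i) = n * i by rw [← hab]; ring,
          Nat.cast_mul, ZMod.natCast_self, zero_mul]
      exact Prod.ext (h2 _) (h2 _)
    · intro p hp p' hp' h
      rw [Finset.mem_coe, Finset.mem_product, Finset.mem_range, Finset.mem_range] at hp hp'
      have h2 := congrArg Prod.fst h
      have h3 := congrArg Prod.snd h
      exact Prod.ext (hcastinj a b ha hab _ hp.1 _ hp'.1 h2)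
        (hcastinj a b ha hab _ hp.2 _ hp'.2 h3)
  have hc1 : (2 ^ s - 1) ^ 2 ≤ G1.card := hcount (2 ^ s + 1) (2 ^ s - 1) (by omega)
    (by rw [hnn, mul_comm])
  have hc2 : (2 ^ s + 1) ^ 2 ≤ G2.card := hcount (2 ^ s - 1) (2 ^ s + 1) (by omega) hnn.symm
  have hinter : G1 ∩ G2 ⊆ {0} := by
    intro P hP
    rw [Finset.mem_inter, hG1, hG2, Finset.mem_filter, Finset.mem_filter] at hP
    rw [Finset.mem_singleton]
    by_contra hP0
    apply hdbl P hP0
    have h1 := hP.2.2
    rw [show 2 ^ s + 1 = (2 ^ s - 1) + 2 by omega, add_smul, hP.1.2, zero_add, two_smul] at h1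
    exact h1
  set S : Finset (ZMod n × ZMod n) := (G1 ∪ G2).erase 0 with hS
  have hSmem : ∀ P, P ∈ S ↔ good P := by
    intro P
    rw [hS, Finset.mem_erase, Finset.mem_union, hG1, hG2, Finset.mem_filter, Finset.mem_filter]
    simp only [Finset.mem_univ, true_and]
    rfl
  have hScard : 2 * 4 ^ s ≤ S.card := by
    have h1 := Finset.card_union_add_card_inter G1 G2
    have h2 := Finset.card_le_card hinter
    rw [Finset.card_singleton] at h2
    have h3 := Finset.pred_card_le_card_erase (s := G1 ∪ G2) (a := (0 : ZMod n × ZMod n))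
    have h5 : (2 ^ s - 1) ^ 2 + (2 ^ s + 1) ^ 2 = 2 * 4 ^ s + 2 := by
      rw [h4]
      obtain ⟨k, hk⟩ := Nat.exists_eq_add_of_le h2s
      rw [hk, show 2 + k - 1 = 1 + k by omega]
      ring
    have h6 : S.card = ((G1 ∪ G2).erase 0).card := rfl
    omega
  set T : Finset KK := S.image (XP s ξ) with hT
  have hTcard : 4 ^ s ≤ T.card := by
    have h1 : S.card ≤ 2 * T.card := by
      apply Finset.card_le_mul_card_image
      intro b hb
      rw [Finset.mem_image] at hb
      obtain ⟨P, hP, rfl⟩ := hb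
      have hP0 : P ≠ 0 := ((hSmem P).mp hP).1
      have hsub : S.filter (fun a => XP s ξ a = XP s ξ P) ⊆ {P, -P} := by
        intro R hR
        rw [Finset.mem_filter] at hR
        have hR0 : R ≠ 0 := ((hSmem R).mp hR.1).1
        rw [Finset.mem_insert, Finset.mem_singleton]
        exact hinj P R hP0 hR0 hR.2.symm
      exact (Finset.card_le_card hsub).trans Finset.card_le_two
    omega
  have hTroots : T ⊆ q.roots.toFinset := by
    intro y hy
    rw [hT, Finset.mem_image] at hy
    obtain ⟨P, hP, rfl⟩ := hy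
    rw [Multiset.mem_toFinset, mem_roots hqm.ne_zero]
    exact hroot P ((hSmem P).mp hP)
  have hk1 : T.card ≤ q.roots.toFinset.card := Finset.card_le_card hTroots
  have hk2 : q.roots.toFinset.card ≤ q.roots.card := Multiset.toFinset_card_le _
  have hk3 : q.roots.card ≤ q.natDegree := card_roots' q
  have hTeq : T = q.roots.toFinset := Finset.eq_of_subset_of_card_le hTroots (by omega)
  have hnodup : q.roots.Nodup := Multiset.toFinset_card_eq_card_iff_nodup.mp (by omega)
  have hsplit : q.Splits := by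
    rw [splits_iff_card_roots]; omega
  refine ⟨p, hpm, ?_, ?_, hsplit⟩
  · intro y
    constructor
    · intro hy
      have h1 : y ∈ q.roots.toFinset := by
        rw [Multiset.mem_toFinset, mem_roots hqm.ne_zero]; exact hy
      rw [← hTeq, hT, Finset.mem_image] at h1
      obtain ⟨P, hP, rfl⟩ := h1
      have h2 := (hSmem P).mp hP
      exact ⟨P, h2.1, h2.2, rfl⟩
    · rintro ⟨P, hP, h, rfl⟩
      exact hroot P ⟨hP, h⟩
  · intro P hP h hder
    have h1 := hroot P ⟨hP, h⟩
    have h2 : 1 < rootMultiplicity (XP s ξ P) q :=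
      (one_lt_rootMultiplicity_iff_isRoot hqm.ne_zero).mpr ⟨h1, hder⟩
    rw [← count_roots] at h2
    have h3 := Multiset.nodup_iff_count_le_one.mp hnodup (XP s ξ P)
    omega

end Pool.Agent.Work.P57
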