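import Pool.Agent.Work.P57.Interface

set_option autoImplicit false

namespace Pool.Agent.Work.P57

open HahnSeries

namespace EIN

theorem mem_K0_of_quad {D : ℤ} {x s p : KK} (hs : s ∈ K0 D) (hp : p ∈ K0 D)
    (h : x ^ 2 + s * x + p = 0) : x ∈ K0 D := by
  rw [mem_K0]
  have hx : IsAlgebraic (K0 D) x := by
    refine ⟨Polynomial.X ^ 2 + Polynomial.C (⟨s, hs⟩ : K0 D) * Polynomial.X
      + Polynomial.C (⟨p, hp⟩ : K0 D), ?_, ?_⟩
    · intro h0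
      have := congrArg (fun q => Polynomial.coeff q 2) h0
      simp at this
    · simp only [map_add, map_mul, map_pow, Polynomial.aeval_X, Polynomial.aeval_C]
      exact h
  exact hx.restrictScalars (AA D)

theorem quad {D : ℤ} {τ : Gam D} {x₁ x₂ y₁ y₂ : KK} (hs : Maps τ (x₁ + x₂) (y₁ + y₂))
    (hp : Maps τ (x₁ * x₂) (y₁ * y₂)) :
    (Maps τ x₁ y₁ ∧ Maps τ x₂ y₂) ∨ (Maps τ x₁ y₂ ∧ Maps τ x₂ y₁) := by
  obtain ⟨hs1, hs2, hs3⟩ := hs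
  obtain ⟨hp1, hp2, hp3⟩ := hp
  have e2 : ∀ u : KK, u + u = 0 := fun u => CharTwo.add_self_eq_zero u
  have hx1 : x₁ ∈ K0 D := mem_K0_of_quad hs1 hp1 (by
    have : x₁ ^ 2 + (x₁ + x₂) * x₁ + x₁ * x₂ = (x₁ ^ 2 + x₁ ^ 2) + (x₁ * x₂ + x₁ * x₂) := by ring
    rw [this, e2, e2, add_zero])
  have hx2 : x₂ ∈ K0 D := mem_K0_of_quad hs1 hp1 (by
    have : x₂ ^ 2 + (x₁ + x₂) * x₂ + x₁ * x₂ = (x₂ ^ 2 + x₂ ^ 2) + (x₁ * x₂ + x₁ * x₂) := by ring
    rw [this, e2, e2, add_zero])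
  have hy1 : y₁ ∈ K0 D := mem_K0_of_quad hs2 hp2 (by
    have : y₁ ^ 2 + (y₁ + y₂) * y₁ + y₁ * y₂ = (y₁ ^ 2 + y₁ ^ 2) + (y₁ * y₂ + y₁ * y₂) := by ring
    rw [this, e2, e2, add_zero])
  have hy2 : y₂ ∈ K0 D := mem_K0_of_quad hs2 hp2 (by
    have : y₂ ^ 2 + (y₁ + y₂) * y₂ + y₁ * y₂ = (y₂ ^ 2 + y₂ ^ 2) + (y₁ * y₂ + y₁ * y₂) := by ring
    rw [this, e2, e2, add_zero])
  set f : K0 D →+* Om D := algebraMap (K0 D) (Om D) with hf
  have es : τ (f ⟨x₁, hx1⟩) + τ (f ⟨x₂, hx2⟩) = f ⟨y₁, hy1⟩ + f ⟨y₂, hy2⟩ := by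
    rw [← map_add, ← map_add, ← map_add]
    exact hs3
  have ep : τ (f ⟨x₁, hx1⟩) * τ (f ⟨x₂, hx2⟩) = f ⟨y₁, hy1⟩ * f ⟨y₂, hy2⟩ := by
    rw [← map_mul, ← map_mul, ← map_mul]
    exact hp3
  have hz : (τ (f ⟨x₁, hx1⟩) - f ⟨y₁, hy1⟩) * (τ (f ⟨x₁, hx1⟩) - f ⟨y₂, hy2⟩) = 0 := by
    have : (τ (f ⟨x₁, hx1⟩) - f ⟨y₁, hy1⟩) * (τ (f ⟨x₁, hx1⟩) - f ⟨y₂, hy2⟩) =
      τ (f ⟨x₁, hx1⟩) * τ (f ⟨x₁, hx1⟩) - (f ⟨y₁, hy1⟩ + f ⟨y₂, hy2⟩) * τ (f ⟨x₁, hx1⟩)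
        + f ⟨y₁, hy1⟩ * f ⟨y₂, hy2⟩ := by ring
    rw [this, ← es, ← ep]
    ring
  rcases mul_eq_zero.mp hz with h | h
  · left
    have h1 := sub_eq_zero.mp h
    refine ⟨⟨hx1, hy1, h1⟩, ⟨hx2, hy2, ?_⟩⟩
    rw [h1] at es
    exact add_left_cancel es
  · right
    have h1 := sub_eq_zero.mp h
    refine ⟨⟨hx1, hy2, h1⟩, ⟨hx2, hy1, ?_⟩⟩
    rw [h1, add_comm (f ⟨y₁, hy1⟩)] at es
    exact add_left_cancel es

theorem tame_two {ι : Type} {E : ι → ℤ} (h : Tame E) : Tame (fun i => 2 * E i) := by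
  intro B
  refine (h (max B 0)).subset ?_
  intro i hi
  simp only [Set.mem_ofPred_eq] at hi ⊢
  omega

theorem frob (hTH : Stmt_TH) {ι : Type} {E : ι → ℤ} (h : Tame E) (k : ℕ) :
    Tame (fun i => 2 ^ k * E i) ∧
      Th E (fun _ => (1 : kk)) ^ (2 ^ k) = Th (fun i => 2 ^ k * E i) (fun _ => (1 : kk)) := by
  obtain ⟨-, -, -, -, h5, -, -, -, -⟩ := hTH
  induction k with
  | zero => simpa using h
  | succ k ih =>
    obtain ⟨ih1, ih2⟩ := ih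
    have e1 : (fun i => 2 ^ (k + 1) * E i) = fun i => 2 * (2 ^ k * E i) := by
      funext i
      ring
    refine ⟨?_, ?_⟩
    · rw [e1]
      exact tame_two ih1
    · rw [e1, pow_succ, pow_mul, ih2, h5 _ _ _ ih1]
      simp

theorem vth_shift (hTH : Stmt_TH) (D : ℤ) (t : ℕ) (a k : ℤ) :
    vth D t (a + 2 ^ t * k) = vth D t a := by
  obtain ⟨-, h2, -⟩ := hTH
  have := h2 ℤ ℤ (Equiv.addRight k) (fun n => D * (a + 2 ^ t * n) ^ 2) (fun _ => 1)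
  unfold vth
  rw [← this]
  congr 1
  funext n
  simp only [Equiv.coe_addRight]
  ring

theorem vth_neg (hTH : Stmt_TH) (D : ℤ) (t : ℕ) (a : ℤ) :
    vth D t (-a) = vth D t a := by
  obtain ⟨-, h2, -⟩ := hTH
  have := h2 ℤ ℤ (Equiv.neg ℤ) (fun n => D * (a + 2 ^ t * n) ^ 2) (fun _ => 1)
  unfold vth
  rw [← this]
  congr 1
  funext n
  simp only [Equiv.neg_apply]
  ring

theorem del_eq (D : ℤ) : Del 1 D = Th (fun n : ℕ => D * (2 * n + 1) ^ 2) (fun _ => (1 : kk)) := by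
  unfold Del
  congr 1
  funext n
  simp

theorem vth_two (hTH : Stmt_TH) (D : ℤ) : vth D 2 1 = Del 1 D := by
  obtain ⟨-, h2, -⟩ := hTH
  have := h2 ℤ ℕ Equiv.intEquivNat (fun n => D * (2 * n + 1) ^ 2) (fun _ => (1 : kk))
  rw [del_eq, ← this]
  unfold vth
  congr 1
  funext n
  rcases n with n | n
  · have : (Equiv.intEquivNat (Int.ofNat n)) = 2 * n := rfl
    rw [this]
    push_cast
    simp only [Int.ofNat_eq_natCast]
    ring
  · have : (Equiv.intEquivNat (Int.negSucc n)) = 2 * n + 1 := rfl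
    rw [this, Int.negSucc_eq]
    push_cast
    ring

theorem vth_two_odd (hTH : Stmt_TH) (D : ℤ) (a : ℤ) (ha : Odd a) : vth D 2 a = Del 1 D := by
  obtain ⟨k, rfl⟩ := ha
  rcases Int.even_or_odd k with ⟨l, rfl⟩ | ⟨l, rfl⟩
  · have : (2 * (l + l) + 1 : ℤ) = 1 + 2 ^ 2 * l := by ring
    rw [this, vth_shift hTH, vth_two hTH]
  · have : (2 * (2 * l + 1) + 1 : ℤ) = -1 + 2 ^ 2 * (l + 1) := by ring
    rw [this, vth_shift hTH, vth_neg hTH, vth_two hTH]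

/-- even / odd -/
def eo : ℤ ⊕ ℤ ≃ ℤ where
  toFun := Sum.elim (fun n => 2 * n) (fun n => 2 * n + 1)
  invFun m := if m % 2 = 0 then Sum.inl (m / 2) else Sum.inr (m / 2)
  left_inv := by
    rintro (n | n)
    · have h1 : (2 * n) % 2 = 0 := by omega
      have h2 : (2 * n) / 2 = n := by omega
      simp [h1, h2]
    · have h1 : ¬ ((2 * n + 1) % 2 = 0) := by omega
      have h2 : (2 * n + 1) / 2 = n := by omega
      change (if (2 * n + 1) % 2 = 0 then (Sum.inl ((2 * n + 1) / 2) : ℤ ⊕ ℤ)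
        else Sum.inr ((2 * n + 1) / 2)) = Sum.inr n
      rw [if_neg h1, h2]
  right_inv := by
    intro m
    by_cases h : m % 2 = 0
    · simp only [h, if_true, Sum.elim_inl]
      omega
    · simp only [h, if_false, Sum.elim_inr]
      omega

theorem vth_add (hTH : Stmt_TH) {D : ℤ} (hD : 0 < D) (u : ℕ) (a : ℤ) :
    vth D (u + 1) a + vth D (u + 1) (a + 2 ^ u) = vth D u a := by
  obtain ⟨-, h2, -, h4, -, -, -, -, h9⟩ := hTH
  have t1 := (h9 D hD).2.2.2 (u + 1) a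
  have t2 := (h9 D hD).2.2.2 (u + 1) (a + 2 ^ u)
  have e1 := (h4 ℤ ℤ _ _ (fun _ => (1 : kk)) (fun _ => (1 : kk)) t1 t2).2
  have e2 := h2 (ℤ ⊕ ℤ) ℤ eo (fun n => D * (a + 2 ^ u * n) ^ 2) (fun _ => (1 : kk))
  unfold vth
  rw [← e1, ← e2]
  congr 1
  · funext i
    rcases i with n | n
    · simp only [Sum.elim_inl, eo, Equiv.coe_fn_mk]
      ring
    · simp only [Sum.elim_inr, eo, Equiv.coe_fn_mk]
      ring
  · funext i
    rcases i with n | n <;> rfl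

/-- sum and absolute difference -/
def sd : ℤ × ℤ ≃ ℤ × ℕ where
  toFun p := (p.1 + p.2, if 1 ≤ p.1 - p.2 then (p.1 - p.2 - 1).toNat else (p.2 - p.1).toNat)
  invFun q := if (q.1 + q.2 + 1) % 2 = 0 then ((q.1 + q.2 + 1) / 2, (q.1 - q.2 - 1) / 2)
    else ((q.1 - q.2) / 2, (q.1 + q.2) / 2)
  left_inv := by
    rintro ⟨n, m⟩
    by_cases h : 1 ≤ n - m
    · have h1 : (((n - m - 1).toNat : ℕ) : ℤ) = n - m - 1 := Int.toNat_of_nonneg (by omega)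
      simp only [h, if_true, h1]
      rw [if_pos (by omega)]
      ext <;> simp only <;> omega
    · have h1 : (((m - n).toNat : ℕ) : ℤ) = m - n := Int.toNat_of_nonneg (by omega)
      simp only [h, if_false, h1]
      rw [if_neg (by omega)]
      ext <;> simp only <;> omega
  right_inv := by
    rintro ⟨x, k⟩
    by_cases h : (x + k + 1) % 2 = 0
    · simp only [h, if_true]
      rw [if_pos (by omega)]
      ext <;> simp only <;> omega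
    · simp only [h, if_false]
      by_cases h2 : 1 ≤ (x - k) / 2 - (x + k) / 2
      · exfalso
        omega
      · rw [if_neg h2]
        ext <;> simp only <;> omega

theorem vth_mul (hTH : Stmt_TH) {D : ℤ} (hD : 0 < D) (u : ℕ) (a : ℤ) :
    vth D (u + 2) a * vth D (u + 2) (a + 2 ^ (u + 1)) =
      vth D (u + 1) (a + 2 ^ u) ^ 2 * Del 1 D ^ (2 ^ (2 * u + 1)) := by
  have hTH' := hTH
  obtain ⟨h1, h2, -, h4, h5, -, -, -, h9⟩ := hTH
  have t1 := (h9 D hD).2.2.2 (u + 2) a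
  have t2 := (h9 D hD).2.2.2 (u + 2) (a + 2 ^ (u + 1))
  have t3 := (h9 D hD).2.2.2 (u + 1) (a + 2 ^ u)
  have t4 := (h9 D hD).2.1
  obtain ⟨t5, e5⟩ := frob hTH' t4 (2 * u + 1)
  rw [del_eq, e5]
  have e6 : vth D (u + 1) (a + 2 ^ u) ^ 2 =
      Th (fun n : ℤ => 2 * (D * (a + 2 ^ u + 2 ^ (u + 1) * n) ^ 2)) (fun _ => (1 : kk)) := by
    unfold vth
    rw [h5 _ _ _ t3]
    simp
  rw [e6, (h1 _ _ _ _ _ _ (tame_two t3) t5).2]
  unfold vth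
  rw [(h1 _ _ _ _ _ _ t1 t2).2]
  rw [← h2 _ _ sd]
  congr 1
  funext p
  obtain ⟨n, m⟩ := p
  have hk : (2 * (((sd (n, m)).2 : ℕ) : ℤ) + 1) ^ 2 = (2 * (n - m) - 1) ^ 2 := by
    simp only [sd, Equiv.coe_fn_mk]
    by_cases h : 1 ≤ n - m
    · rw [if_pos h, Int.toNat_of_nonneg (by omega)]
      ring
    · rw [if_neg h, Int.toNat_of_nonneg (by omega)]
      ring
  have hs : (sd (n, m)).1 = n + m := rfl
  simp only
  rw [hk, hs]
  ring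

theorem maps_pow (hM : Stmt_MAPS) {D : ℤ} (hD : 0 < D) (τ : Gam D) {y y' : KK} (h : Maps τ y y')
    (n : ℕ) : Maps τ (y ^ n) (y' ^ n) := by
  obtain ⟨m1, -, m3, -⟩ := hM D hD τ
  induction n with
  | zero =>
    have := m1 1
    rw [map_one] at this
    simpa using this
  | succ n ih =>
    rw [pow_succ, pow_succ]
    exact (m3 _ _ _ _ ih h).2

theorem main (hTH : Stmt_TH) (hM : Stmt_MAPS) {D : ℤ} (hD : 0 < D) (τ : Gam D) (u : ℕ) :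
    ∀ a : ℤ, Odd a → ∃ b : ℤ, Odd b ∧ Maps τ (vth D (u + 2) a) (vth D (u + 2) b) ∧
      Maps τ (vth D (u + 2) (a + 2 ^ (u + 1))) (vth D (u + 2) (b + 2 ^ (u + 1))) := by
  obtain ⟨-, m2, m3, -⟩ := hM D hD τ
  induction u with
  | zero =>
    intro a ha
    refine ⟨1, odd_one, ?_, ?_⟩
    · rw [vth_two_odd hTH D a ha, vth_two_odd hTH D 1 odd_one]
      exact m2
    · have h1 : Odd (a + 2 ^ (0 + 1)) := by
        obtain ⟨k, rfl⟩ := ha
        exact ⟨k + 1, by ring⟩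
      have h2 : Odd (1 + 2 ^ (0 + 1) : ℤ) := ⟨1, by ring⟩
      rw [vth_two_odd hTH D _ h1, vth_two_odd hTH D _ h2]
      exact m2
  | succ u ih =>
    intro a ha
    obtain ⟨b, hb, hb1, hb2⟩ := ih a ha
    have hs : Maps τ (vth D (u + 3) a + vth D (u + 3) (a + 2 ^ (u + 2)))
        (vth D (u + 3) b + vth D (u + 3) (b + 2 ^ (u + 2))) := by
      rw [vth_add hTH hD (u + 2) a, vth_add hTH hD (u + 2) b]
      exact hb1
    have hp : Maps τ (vth D (u + 3) a * vth D (u + 3) (a + 2 ^ (u + 2)))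
        (vth D (u + 3) b * vth D (u + 3) (b + 2 ^ (u + 2))) := by
      rw [vth_mul hTH hD (u + 1) a, vth_mul hTH hD (u + 1) b]
      exact (m3 _ _ _ _ (maps_pow hM hD τ hb2 2) (maps_pow hM hD τ m2 _)).2
    rcases quad hs hp with ⟨g1, g2⟩ | ⟨g1, g2⟩
    · exact ⟨b, hb, g1, g2⟩
    · refine ⟨b + 2 ^ (u + 2), ?_, g1, ?_⟩
      · obtain ⟨k, rfl⟩ := hb
        exact ⟨k + 2 ^ (u + 1), by ring⟩
      · have : b + 2 ^ (u + 2) + 2 ^ (u + 1 + 1) = b + 2 ^ (u + 1 + 2) * 1 := by ring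
        rw [this, vth_shift hTH]
        exact g2

end EIN

theorem blk_EIN (hTH : Stmt_TH) (hM : Stmt_MAPS) : Stmt_EIN := by
  intro D hD τ t ht a ha
  obtain ⟨u, rfl⟩ : ∃ u, t = u + 2 := ⟨t - 2, by omega⟩
  obtain ⟨b, hb, h1, -⟩ := EIN.main hTH hM hD τ u a ha
  exact ⟨b, hb, h1⟩

end Pool.Agent.Work.P57
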