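import Pool.Agent.Work.P57.Interface

/-!
# Block ELL: the elliptic curve
-/

set_option autoImplicit false

namespace Pool.Agent.Work.P57

open HahnSeries

namespace ELL

/-- the monomial `η z^j` -/
noncomputable def mo (η : kkˣ) (j : ℤ) : KK := single j (η : kk)

theorem mo_ne (η : kkˣ) (j : ℤ) : mo η j ≠ 0 := single_ne_zero η.ne_zero

theorem mo_mul (η η' : kkˣ) (j j' : ℤ) : mo η j * mo η' j' = mo (η * η') (j + j') := by
  unfold mo
  rw [single_mul_single, Units.val_mul]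

theorem mo_one : mo 1 0 = 1 := by
  unfold mo
  simp

section per

variable (hIDB : Stmt_IDB)
include hIDB

theorem per1 (η : kkˣ) (j D : ℤ) (hD : 0 < D) : xT η (j + D) 1 D = xT η j 1 D := by
  obtain ⟨-, -, h3, h4, -, -⟩ := hIDB 1 η D j hD
  rw [mul_one, one_mul] at h3 h4
  have h3' : mo (η ^ 2) (D + 2 * j) * aT η (j + D) 1 D = aT η j 1 D := h3
  have h4' : mo η (D + j) * tT η (j + D) 1 D = tT η j 1 D := h4
  have hs : mo η j * (mo η (D + j) * mo η (D + j)) = mo (η ^ 2) (D + 2 * j) * mo η (j + D) := by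
    rw [mo_mul, mo_mul, mo_mul]
    congr 1
    · rw [pow_two]; exact (mul_assoc _ _ _).symm
    · ring
  change Psi 1 D ^ 2 * aT η (j + D) 1 D / (mo η (j + D) * tT η (j + D) 1 D ^ 2)
    = Psi 1 D ^ 2 * aT η j 1 D / (mo η j * tT η j 1 D ^ 2)
  rw [← h3', ← h4']
  have e1 : Psi 1 D ^ 2 * (mo (η ^ 2) (D + 2 * j) * aT η (j + D) 1 D)
      = mo (η ^ 2) (D + 2 * j) * (Psi 1 D ^ 2 * aT η (j + D) 1 D) := by ring
  have e2 : mo η j * (mo η (D + j) * tT η (j + D) 1 D) ^ 2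
      = mo (η ^ 2) (D + 2 * j) * (mo η (j + D) * tT η (j + D) 1 D ^ 2) := by
    calc mo η j * (mo η (D + j) * tT η (j + D) 1 D) ^ 2
        = (mo η j * (mo η (D + j) * mo η (D + j))) * tT η (j + D) 1 D ^ 2 := by ring
      _ = _ := by rw [hs]; ring
  rw [e1, e2, mul_div_mul_left _ _ (mo_ne _ _)]

theorem per (η : kkˣ) (j D : ℤ) (hD : 0 < D) (k : ℤ) : xT η (j + D * k) 1 D = xT η j 1 D := by
  induction k with
  | zero => simp
  | succ k ih =>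
    rw [show j + D * ((k : ℤ) + 1) = (j + D * k) + D by ring, per1 hIDB η _ D hD, ih]
  | pred k ih =>
    rw [← ih]
    have := per1 hIDB η (j + D * (-(k : ℤ) - 1)) D hD
    rw [show j + D * (-(k : ℤ) - 1) + D = j + D * (-(k : ℤ)) by ring] at this
    exact this.symm

theorem bT_neg (η : kkˣ) (j D : ℤ) (hD : 0 < D) : bT η⁻¹ (-j) 1 D = bT η j 1 D := by
  obtain ⟨-, h2, -, -, -, -⟩ := hIDB 1 η D j hD
  have h2' : tT η⁻¹ (-j) 1 D = mo η j * tT η j 1 D := h2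
  change mo η⁻¹ (-j) * tT η⁻¹ (-j) 1 D ^ 2 = mo η j * tT η j 1 D ^ 2
  rw [h2']
  have hs : mo η⁻¹ (-j) * mo η j = 1 := by
    rw [mo_mul, inv_mul_cancel, neg_add_cancel, mo_one]
  calc mo η⁻¹ (-j) * (mo η j * tT η j 1 D) ^ 2
      = (mo η⁻¹ (-j) * mo η j) * (mo η j * tT η j 1 D ^ 2) := by ring
    _ = _ := by rw [hs, one_mul]

theorem xT_neg (η : kkˣ) (j D : ℤ) (hD : 0 < D) : xT η⁻¹ (-j) 1 D = xT η j 1 D := by
  unfold xT
  rw [bT_neg hIDB η j D hD, (hIDB 1 η D j hD).1]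

end per

theorem bT_eq (η : kkˣ) (j D : ℤ) : bT η j 1 D = mo η j * tT η j 1 D ^ 2 := rfl

/-- duplication -/
theorem dup (hIDA : Stmt_IDA) (η : kkˣ) (j D : ℤ) (hD : 0 < D) (ha : aT η j 1 D ≠ 0)
    (ht : tT η j 1 D ≠ 0) :
    xT (η ^ 2) (2 * j) 1 D * xT η j 1 D ^ 2 = xT η j 1 D ^ 4 + Del 1 D := by
  obtain ⟨-, h2, -, h4, h5, h6⟩ := hIDA 1 η η D j j hD
  have h4' : aT (η ^ 2) (2 * j) 1 D = aT η j 1 D ^ 4 + mo 1 D * bT η j 1 D ^ 4 := h4
  have h5' : Del 1 D = mo 1 D * Psi 1 D ^ 8 := h5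
  have hb : bT η j 1 D ≠ 0 := by
    rw [bT_eq]
    exact mul_ne_zero (mo_ne _ _) (pow_ne_zero _ ht)
  have hb2 : Psi 1 D ^ 2 * bT (η ^ 2) (2 * j) 1 D = aT η j 1 D ^ 2 * bT η j 1 D ^ 2 := by
    rw [bT_eq, bT_eq]
    have hm : mo (η ^ 2) (2 * j) = mo η j * mo η j := by
      rw [mo_mul, pow_two, two_mul]
    rw [hm]
    calc Psi 1 D ^ 2 * (mo η j * mo η j * tT (η ^ 2) (2 * j) 1 D ^ 2)
        = mo η j * mo η j * (Psi 1 D * tT (η ^ 2) (2 * j) 1 D) ^ 2 := by ring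
      _ = _ := by rw [h2]; ring
  have hb2' : bT (η ^ 2) (2 * j) 1 D = aT η j 1 D ^ 2 * bT η j 1 D ^ 2 / Psi 1 D ^ 2 := by
    rw [eq_div_iff (pow_ne_zero _ h6), mul_comm]
    exact hb2
  unfold xT
  rw [hb2', h4', h5']
  field_simp

/-- addition -/
theorem addn (hIDA : Stmt_IDA) (η η' : kkˣ) (j j' D : ℤ) (hD : 0 < D)
    (hu : tT η j 1 D ≠ 0) (hv : tT η' j' 1 D ≠ 0)
    (huv : tT (η * η') (j + j') 1 D ≠ 0) (hu'v : tT (η * η'⁻¹) (j - j') 1 D ≠ 0) :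
    (xT (η * η') (j + j') 1 D + xT (η * η'⁻¹) (j - j') 1 D) *
        (xT η j 1 D + xT η' j' 1 D) ^ 2 = xT η j 1 D * xT η' j' 1 D ∧
    xT (η * η') (j + j') 1 D * xT (η * η'⁻¹) (j - j') 1 D *
        (xT η j 1 D + xT η' j' 1 D) ^ 2 = xT η j 1 D ^ 2 * xT η' j' 1 D ^ 2 + Del 1 D := by
  obtain ⟨h1, h2, h3, -, h5, h6⟩ := hIDA 1 η η' D j j' hD
  obtain ⟨-, h2', -, -, -, -⟩ := hIDA 1 η' η' D j' j' hD
  obtain ⟨h1', -, -, -, -, -⟩ := hIDA 1 (η * η') (η * η'⁻¹) D (j + j') (j - j') hD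
  have e1 : η * η' * (η * η'⁻¹) = η ^ 2 := by
    rw [pow_two, mul_mul_mul_comm, mul_inv_cancel, mul_one]
  have e2 : η * η' * (η * η'⁻¹)⁻¹ = η' ^ 2 := by
    rw [mul_inv, inv_inv, mul_mul_mul_comm, mul_inv_cancel, one_mul, pow_two]
  have e3 : j + j' + (j - j') = 2 * j := by ring
  have e4 : j + j' - (j - j') = 2 * j' := by ring
  rw [e1, e2, e3, e4] at h1'
  have h1m : mo η j * tT (η * η') (j + j') 1 D * tT (η * η'⁻¹) (j - j') 1 D =
    aT η j 1 D * bT η' j' 1 D + aT η' j' 1 D * bT η j 1 D := h1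
  have h1m' : mo (η * η') (j + j') * tT (η ^ 2) (2 * j) 1 D * tT (η' ^ 2) (2 * j') 1 D =
    aT (η * η') (j + j') 1 D * bT (η * η'⁻¹) (j - j') 1 D +
      aT (η * η'⁻¹) (j - j') 1 D * bT (η * η') (j + j') 1 D := h1'
  have h3m : aT (η * η') (j + j') 1 D * aT (η * η'⁻¹) (j - j') 1 D =
    aT η j 1 D ^ 2 * aT η' j' 1 D ^ 2 + mo 1 D * (bT η j 1 D ^ 2 * bT η' j' 1 D ^ 2) := h3
  have h5m : Del 1 D = mo 1 D * Psi 1 D ^ 8 := h5
  have hU := mo_ne η j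
  have hV := mo_ne η' j'
  have hmul : mo (η * η') (j + j') = mo η j * mo η' j' := (mo_mul _ _ _ _).symm
  have hdiv : mo (η * η'⁻¹) (j - j') * mo η' j' = mo η j := by
    rw [mo_mul, mul_assoc, inv_mul_cancel, mul_one, sub_add_cancel]
  have hdiv' : mo (η * η'⁻¹) (j - j') = mo η j / mo η' j' := by
    rw [eq_div_iff hV]; exact hdiv
  -- abbreviations
  set a := aT η j 1 D
  set a' := aT η' j' 1 D
  set t := tT η j 1 D
  set t' := tT η' j' 1 D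
  set U := mo η j
  set V := mo η' j'
  set P := Psi 1 D
  set w := mo 1 D
  have hb : bT η j 1 D = U * t ^ 2 := rfl
  have hb' : bT η' j' 1 D = V * t' ^ 2 := rfl
  set T1 := tT (η * η') (j + j') 1 D
  set T2 := tT (η * η'⁻¹) (j - j') 1 D
  set A1 := aT (η * η') (j + j') 1 D
  set A2 := aT (η * η'⁻¹) (j - j') 1 D
  have hB1 : bT (η * η') (j + j') 1 D = U * V * T1 ^ 2 := by
    rw [bT_eq, hmul]
  have hB2 : bT (η * η'⁻¹) (j - j') 1 D = U / V * T2 ^ 2 := by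
    rw [bT_eq, hdiv']
  rw [hb, hb'] at h1m h3m
  rw [hB1, hB2, hmul] at h1m'
  have hx1 : xT (η * η') (j + j') 1 D = P ^ 2 * A1 / (U * V * T1 ^ 2) := by
    unfold xT; rw [hB1]
  have hx2 : xT (η * η'⁻¹) (j - j') 1 D = P ^ 2 * A2 / (U / V * T2 ^ 2) := by
    unfold xT; rw [hB2]
  have hxu : xT η j 1 D = P ^ 2 * a / (U * t ^ 2) := rfl
  have hxv : xT η' j' 1 D = P ^ 2 * a' / (V * t' ^ 2) := rfl
  rw [hx1, hx2, hxu, hxv, h5m]
  -- the sum of the two x-coordinates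
  have hsum : P ^ 2 * a / (U * t ^ 2) + P ^ 2 * a' / (V * t' ^ 2)
      = P ^ 2 * (U * T1 * T2) / (U * t ^ 2 * (V * t' ^ 2)) := by
    rw [h1m]
    field_simp
  have hsum1 : P ^ 2 * A1 / (U * V * T1 ^ 2) + P ^ 2 * A2 / (U / V * T2 ^ 2)
      = (P * tT (η ^ 2) (2 * j) 1 D) * (P * tT (η' ^ 2) (2 * j') 1 D) * (U * V)
        / (U ^ 2 * T1 ^ 2 * T2 ^ 2) := by
    have : (P * tT (η ^ 2) (2 * j) 1 D) * (P * tT (η' ^ 2) (2 * j') 1 D) * (U * V)
        = P ^ 2 * (U * V * tT (η ^ 2) (2 * j) 1 D * tT (η' ^ 2) (2 * j') 1 D) := by ring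
    rw [this, h1m']
    field_simp
  have hprod : P ^ 2 * A1 / (U * V * T1 ^ 2) * (P ^ 2 * A2 / (U / V * T2 ^ 2))
      = P ^ 4 * (A1 * A2) / (U ^ 2 * T1 ^ 2 * T2 ^ 2) := by
    field_simp
  constructor
  · rw [hsum1, hsum, h2, h2']
    field_simp
  · rw [hprod, h3m, hsum]
    field_simp

/-- equality of x-coordinates -/
theorem xeq (hIDA : Stmt_IDA) (η η' : kkˣ) (j j' D : ℤ) (hD : 0 < D)
    (hu : tT η j 1 D ≠ 0) (hv : tT η' j' 1 D ≠ 0) (hx : xT η j 1 D = xT η' j' 1 D) :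
    tT (η * η') (j + j') 1 D = 0 ∨ tT (η * η'⁻¹) (j - j') 1 D = 0 := by
  obtain ⟨h1, -, -, -, -, h6⟩ := hIDA 1 η η' D j j' hD
  have h1m : mo η j * tT (η * η') (j + j') 1 D * tT (η * η'⁻¹) (j - j') 1 D =
    aT η j 1 D * bT η' j' 1 D + aT η' j' 1 D * bT η j 1 D := h1
  have hb : bT η j 1 D ≠ 0 := mul_ne_zero (mo_ne _ _) (pow_ne_zero _ hu)
  have hb' : bT η' j' 1 D ≠ 0 := mul_ne_zero (mo_ne _ _) (pow_ne_zero _ hv)
  unfold xT at hx
  rw [div_eq_div_iff hb hb'] at hx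
  have h2 : aT η j 1 D * bT η' j' 1 D = aT η' j' 1 D * bT η j 1 D := by
    have hP : Psi 1 D ^ 2 ≠ 0 := pow_ne_zero _ h6
    apply mul_left_cancel₀ hP
    rw [← mul_assoc, ← mul_assoc]
    exact hx
  rw [h2, CharTwo.add_self_eq_zero] at h1m
  rcases mul_eq_zero.mp h1m with h | h
  · rcases mul_eq_zero.mp h with h | h
    · exact absurd h (mo_ne _ _)
    · exact Or.inl h
  · exact Or.inr h

/-- rescaling -/
theorem resc_xT (hTH : Stmt_TH) (hRG : Stmt_RG) (ξ η : kkˣ) (j D : ℤ) (hD : 0 < D)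
    (hξ : ξ ^ D = 1) : resc ξ (xT η j 1 D) = xT (η * ξ ^ j) j 1 D := by
  obtain ⟨hr1, hr2, hr3, -⟩ := hRG
  obtain ⟨-, -, -, -, -, -, -, ht1, ht2⟩ := hTH
  have hmul : ∀ f g : KK, resc ξ (f * g) = resc ξ f * resc ξ g := fun f g => (hr1 ξ f g).2.1
  have hinv : ∀ f : KK, resc ξ f⁻¹ = (resc ξ f)⁻¹ := fun f => (hr1 ξ f f).2.2.2.1
  have hpow : ∀ (m : ℤ), ξ ^ (D * m) = 1 := by
    intro m
    rw [zpow_mul, hξ, one_zpow]
  have hPsi : resc ξ (Psi 1 D) = Psi 1 D := by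
    unfold Psi
    rw [hr3 ξ ℕ _ _ (ht2 D hD).1]
    congr 1
    funext n
    rw [hpow]
    simp
  have ha : resc ξ (aT η j 1 D) = aT (η * ξ ^ j) j 1 D := by
    unfold aT
    rw [hr3 ξ ℤ _ _ (ht1 D j hD).1]
    congr 1
    funext n
    rw [← Units.val_mul]
    congr 1
    rw [zpow_add, hpow, one_mul, one_zpow, one_mul, one_mul, mul_zpow, mul_comm, ← zpow_mul]
    congr 2
    ring
  have ht : resc ξ (tT η j 1 D) = tT (η * ξ ^ j) j 1 D := by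
    unfold tT
    rw [hr3 ξ ℤ _ _ (ht1 D j hD).2]
    congr 1
    funext n
    rw [← Units.val_mul]
    congr 1
    rw [zpow_add, hpow, one_mul, one_zpow, one_mul, one_mul, mul_zpow, mul_comm, ← zpow_mul]
  have hs : resc ξ (mo η j) = mo (η * ξ ^ j) j := by
    unfold mo
    rw [hr2 ξ j, ← Units.val_mul, mul_comm]
  have hb : resc ξ (bT η j 1 D) = bT (η * ξ ^ j) j 1 D := by
    rw [bT_eq, bT_eq, hmul, hs, pow_two, hmul, ht, pow_two]
  unfold xT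
  rw [div_eq_mul_inv, hmul, hmul, hinv, hb, ha, pow_two, hmul, hPsi, div_eq_mul_inv]

end ELL

open ELL in
theorem blk_ELL (hTH : Stmt_TH) (hIDA : Stmt_IDA) (hIDB : Stmt_IDB) (hRG : Stmt_RG) :
    Stmt_ELL := by
  intro s ξ hs hξ
  have h4 : 4 ^ 1 ≤ 4 ^ s := Nat.pow_le_pow_right (by norm_num) hs
  have hn0 : 3 ≤ n0 s := by
    change 3 ≤ 4 ^ s - 1
    omega
  have hne : NeZero (n0 s) := ⟨by omega⟩
  set n : ℕ := n0 s with hn
  have hDn : D0 s = 3 * n := rfl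
  set D : ℤ := ((D0 s : ℕ) : ℤ) with hD
  have hDn' : D = 3 * (n : ℤ) := by
    rw [hD, hDn]; push_cast; ring
  have hD0 : 0 < D := by
    rw [hDn']; omega
  have hξD : ξ ^ D = 1 := by
    rw [hD, zpow_natCast]
    exact hξ.pow_eq_one
  have hnodd : Odd (n : ℤ) := by
    have h2 : (n : ℤ) + 1 = 4 ^ s := by
      have : n + 1 = 4 ^ s := by
        change 4 ^ s - 1 + 1 = 4 ^ s
        omega
      exact_mod_cast this
    obtain ⟨s', rfl⟩ : ∃ s', s = s' + 1 := ⟨s - 1, by omega⟩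
    rw [pow_succ] at h2
    exact ⟨2 * 4 ^ s' - 1, by linarith⟩
  -- non-vanishing
  have haT : ∀ a b : ℤ, aT (ξ ^ (3 * a)) (3 * b) 1 D ≠ 0 := by
    intro a b
    refine (hIDB 1 (ξ ^ (3 * a)) D (3 * b) hD0).2.2.2.2.2 ?_
    intro i hi
    have h1 : Odd (D * (2 * i + 1)) := by
      rw [hDn']
      exact ((by decide : Odd (3 : ℤ)).mul hnodd).mul ⟨i, rfl⟩
    rw [← hi] at h1
    exact (Int.not_odd_iff_even.mpr ⟨3 * b, by ring⟩) h1
  have htT : ∀ a b : ℤ, tT (ξ ^ (3 * a)) (3 * b) 1 D = 0 → (n : ℤ) ∣ a ∧ (n : ℤ) ∣ b := by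
    intro a b h0
    by_contra hcon
    apply (hIDB 1 (ξ ^ (3 * a)) D (3 * b) hD0).2.2.2.2.1 _ h0
    rintro i ⟨hi1, hi2⟩
    apply hcon
    rw [one_zpow] at hi2
    have h3 : ((D0 s : ℕ) : ℤ) ∣ 3 * a := (hξ.zpow_eq_one_iff_dvd (3 * a)).mp hi2
    rw [← hD, hDn'] at h3
    refine ⟨Int.dvd_of_mul_dvd_mul_left (by norm_num) h3, ⟨i, ?_⟩⟩
    rw [hDn'] at hi1
    linarith
  -- (i)
  have hX : ∀ a b : ℤ, xT (ξ ^ (3 * a)) (3 * b) 1 D
      = XP s ξ ((a : ZMod n), (b : ZMod n)) := by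
    intro a b
    unfold XP
    change _ = xT (ξ ^ (3 * (a : ZMod n).val)) (3 * ((b : ZMod n).val : ℤ)) 1 D
    have ha : (((a : ZMod n).val : ℕ) : ℤ) = a % n := ZMod.val_intCast a
    have hb : (((b : ZMod n).val : ℕ) : ℤ) = b % n := ZMod.val_intCast b
    have ha2 : ξ ^ (3 * (a : ZMod n).val) = ξ ^ (3 * a) := by
      rw [← zpow_natCast]
      push_cast
      rw [ha]
      have : 3 * a = 3 * (a % n) + D * (a / n) := by
        rw [hDn']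
        have := Int.emod_add_mul_ediv a n
        linarith
      conv_rhs => rw [this, zpow_add, zpow_mul ξ D, hξD, one_zpow, mul_one]
    rw [ha2, hb]
    have hb2 : 3 * b = 3 * (b % n) + D * (b / n) := by
      rw [hDn']
      have := Int.emod_add_mul_ediv b n
      linarith
    rw [hb2, per hIDB _ _ D hD0]
  -- coordinates of a point
  have hval : ∀ P : ZMod n × ZMod n, P = (((P.1.val : ℤ) : ZMod n), ((P.2.val : ℤ) : ZMod n)) := by
    intro P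
    apply Prod.ext
    · simp
    · simp
  have hXP : ∀ P : ZMod n × ZMod n, XP s ξ P = xT (ξ ^ (3 * (P.1.val : ℤ))) (3 * (P.2.val : ℤ)) 1 D := by
    intro P
    rw [hX, ← hval P]
  have hnt : ∀ P : ZMod n × ZMod n, P ≠ 0 → tT (ξ ^ (3 * (P.1.val : ℤ))) (3 * (P.2.val : ℤ)) 1 D ≠ 0 := by
    intro P hP h0
    obtain ⟨h1, h2⟩ := htT _ _ h0
    apply hP
    rw [hval P]
    apply Prod.ext
    · exact (ZMod.intCast_zmod_eq_zero_iff_dvd _ _).mpr h1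
    · exact (ZMod.intCast_zmod_eq_zero_iff_dvd _ _).mpr h2
  have hadd : ∀ P R : ZMod n × ZMod n, XP s ξ (P + R)
      = xT (ξ ^ (3 * (P.1.val : ℤ)) * ξ ^ (3 * (R.1.val : ℤ)))
          (3 * (P.2.val : ℤ) + 3 * (R.2.val : ℤ)) 1 D := by
    intro P R
    rw [← zpow_add, ← mul_add, ← mul_add, hX]
    congr 1
    apply Prod.ext
    · simp
    · simp
  have hsub : ∀ P R : ZMod n × ZMod n, XP s ξ (P - R)
      = xT (ξ ^ (3 * (P.1.val : ℤ)) * (ξ ^ (3 * (R.1.val : ℤ)))⁻¹)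
          (3 * (P.2.val : ℤ) - 3 * (R.2.val : ℤ)) 1 D := by
    intro P R
    rw [← zpow_neg, ← zpow_add, ← sub_eq_add_neg, ← mul_sub, ← mul_sub, hX]
    congr 1
    apply Prod.ext
    · simp
    · simp
  have htadd : ∀ P R : ZMod n × ZMod n, tT (ξ ^ (3 * (P.1.val : ℤ)) * ξ ^ (3 * (R.1.val : ℤ)))
          (3 * (P.2.val : ℤ) + 3 * (R.2.val : ℤ)) 1 D = 0 → R = -P := by
    intro P R h0
    rw [← zpow_add, ← mul_add, ← mul_add] at h0
    obtain ⟨h1, h2⟩ := htT _ _ h0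
    have h1' := (ZMod.intCast_zmod_eq_zero_iff_dvd _ _).mpr h1
    have h2' := (ZMod.intCast_zmod_eq_zero_iff_dvd _ _).mpr h2
    push_cast at h1' h2'
    simp only [ZMod.natCast_zmod_val] at h1' h2'
    apply Prod.ext
    · exact (neg_eq_of_add_eq_zero_right h1').symm
    · exact (neg_eq_of_add_eq_zero_right h2').symm
  have htsub : ∀ P R : ZMod n × ZMod n, tT (ξ ^ (3 * (P.1.val : ℤ)) * (ξ ^ (3 * (R.1.val : ℤ)))⁻¹)
          (3 * (P.2.val : ℤ) - 3 * (R.2.val : ℤ)) 1 D = 0 → R = P := by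
    intro P R h0
    rw [← zpow_neg, ← zpow_add, ← sub_eq_add_neg, ← mul_sub, ← mul_sub] at h0
    obtain ⟨h1, h2⟩ := htT _ _ h0
    have h1' := (ZMod.intCast_zmod_eq_zero_iff_dvd _ _).mpr h1
    have h2' := (ZMod.intCast_zmod_eq_zero_iff_dvd _ _).mpr h2
    push_cast at h1' h2'
    simp only [ZMod.natCast_zmod_val] at h1' h2'
    apply Prod.ext
    · exact (sub_eq_zero.mp h1').symm
    · exact (sub_eq_zero.mp h2').symm
  refine ⟨fun a b _ => hX a b, ?_, ?_, ?_, ?_, ?_, ?_⟩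
  · intro P hP
    rw [hXP]
    have h6 := (hIDA 1 1 1 D 0 0 hD0).2.2.2.2.2
    exact div_ne_zero (mul_ne_zero (pow_ne_zero _ h6) (haT _ _))
      (mul_ne_zero (mo_ne _ _) (pow_ne_zero _ (hnt P hP)))
  · intro P _
    have h1 : XP s ξ (-P) = xT (ξ ^ (3 * (P.1.val : ℤ)))⁻¹ (-(3 * (P.2.val : ℤ))) 1 D := by
      rw [← zpow_neg, ← mul_neg, ← mul_neg, hX]
      congr 1
      apply Prod.ext
      · simp
      · simp
    rw [h1, xT_neg hIDB _ _ D hD0, hXP]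
  · intro P R hP hR h
    rw [hXP P, hXP R] at h
    rcases xeq hIDA _ _ _ _ D hD0 (hnt P hP) (hnt R hR) h with h1 | h1
    · exact Or.inr (htadd P R h1)
    · exact Or.inl (htsub P R h1)
  · intro P hP
    rw [hadd P P, hXP P, ← pow_two, ← two_mul]
    exact dup hIDA _ _ D hD0 (haT _ _) (hnt P hP)
  · intro P R hP hR h1 h2
    rw [hadd P R, hsub P R, hXP P, hXP R]
    exact addn hIDA _ _ _ _ D hD0 (hnt P hP) (hnt R hR) (fun h => h2 (htadd P R h))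
      (fun h => h1 (htsub P R h))
  · intro P _
    rw [hXP P, resc_xT hTH hRG ξ _ _ D hD0 hξD]
    rw [← zpow_add, ← mul_add, hX]
    congr 1
    apply Prod.ext
    · simp
    · simp

end Pool.Agent.Work.P57
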