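import Pool.Agent.Work.P57.Interface

/-!
# Block EM: the sum of `e (ζ u)` over the roots of unity `ζ` of odd order
-/

set_option autoImplicit false

namespace Pool.Agent.Work.P57

open HahnSeries

namespace EM

section field

variable {F : Type*} [Field F] [CharP F 2]

theorem sum_pow_eq_zero {m : ℕ} {ζ : F} (hζ : IsPrimitiveRoot ζ m) {l : ℕ} (h0 : 0 < l)
    (hl : l < m) : ∑ i ∈ Finset.range m, (ζ ^ l) ^ i = 0 := by
  have hne : ζ ^ l ≠ 1 := hζ.pow_ne_one_of_pos_of_lt h0.ne' hl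
  have h1 := mul_neg_geom_sum (ζ ^ l) m
  have h2 : (ζ ^ l) ^ m = 1 := by
    rw [← pow_mul, mul_comm, pow_mul, hζ.pow_eq_one, one_pow]
  rw [h2, sub_self] at h1
  rcases mul_eq_zero.1 h1 with h | h
  · exact absurd (sub_eq_zero.1 h).symm hne
  · exact h

theorem sum_inv {m : ℕ} {ζ u : F} (hζ : IsPrimitiveRoot ζ m) (hm : Odd m) (hu : u ^ m ≠ 1) :
    ∑ i ∈ Finset.range m, (1 + ζ ^ i * u)⁻¹ = (1 + u ^ m)⁻¹ := by
  have hum : (1 + u ^ m : F) ≠ 0 := by
    intro h
    apply hu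
    have := CharTwo.add_eq_zero.1 h
    exact this.symm
  have hi : ∀ i ∈ Finset.range m, (1 + ζ ^ i * u)⁻¹ =
      (∑ l ∈ Finset.range m, (ζ ^ i * u) ^ l) * (1 + u ^ m)⁻¹ := by
    intro i _
    have hv : (ζ ^ i * u) ^ m = u ^ m := by
      rw [mul_pow, ← pow_mul, mul_comm i m, pow_mul, hζ.pow_eq_one, one_pow, one_mul]
    have h1 := mul_neg_geom_sum (ζ ^ i * u) m
    rw [hv, CharTwo.sub_eq_add, CharTwo.sub_eq_add] at h1
    have h2 : (1 + ζ ^ i * u : F) ≠ 0 := by
      intro h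
      rw [h, zero_mul] at h1
      exact hum h1.symm
    rw [← h1]
    rw [mul_inv, mul_comm (1 + ζ ^ i * u)⁻¹, ← mul_assoc, mul_inv_cancel₀, one_mul]
    intro h
    rw [h, mul_zero] at h1
    exact hum h1.symm
  rw [Finset.sum_congr rfl hi, ← Finset.sum_mul, Finset.sum_comm]
  have hmpos : 0 < m := hm.pos
  have h3 : ∑ l ∈ Finset.range m, ∑ i ∈ Finset.range m, (ζ ^ i * u) ^ l = 1 := by
    rw [Finset.sum_eq_single 0]
    · rw [Finset.sum_congr rfl (fun i _ => pow_zero (ζ ^ i * u)), Finset.sum_const,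
        Finset.card_range, nsmul_one]
      obtain ⟨k, rfl⟩ := hm
      rw [Nat.cast_add, Nat.cast_mul, Nat.cast_two, CharTwo.two_eq_zero, zero_mul, zero_add,
        Nat.cast_one]
    · intro l hl hl0
      have h4 : ∀ i ∈ Finset.range m, (ζ ^ i * u) ^ l = u ^ l * (ζ ^ l) ^ i := by
        intro i _
        rw [mul_pow, ← pow_mul, ← pow_mul, mul_comm i l, mul_comm]
      rw [Finset.sum_congr rfl h4, ← Finset.mul_sum,
        sum_pow_eq_zero hζ (Nat.pos_of_ne_zero hl0) (Finset.mem_range.1 hl), mul_zero]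
    · intro h
      exact absurd (Finset.mem_range.2 hmpos) h
  rw [h3, one_mul]

theorem ediv {v : F} (hv : 1 + v ≠ 0) : v / (1 + v) ^ 2 = (1 + v)⁻¹ + (1 + v)⁻¹ ^ 2 := by
  have h : v = (1 + v) + 1 := by
    rw [add_comm (1 + v) 1, ← add_assoc, CharTwo.add_self_eq_zero, zero_add]
  rw [div_eq_iff (pow_ne_zero 2 hv), add_mul, ← mul_pow, inv_mul_cancel₀ hv, one_pow, pow_two,
    ← mul_assoc, inv_mul_cancel₀ hv, one_mul]
  exact h

theorem sum_e {m : ℕ} {ζ u : F} (hζ : IsPrimitiveRoot ζ m) (hm : Odd m) (hu : u ^ m ≠ 1) :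
    ∑ i ∈ Finset.range m, (ζ ^ i * u) / (1 + ζ ^ i * u) ^ 2 = u ^ m / (1 + u ^ m) ^ 2 := by
  have hum : (1 + u ^ m : F) ≠ 0 := by
    intro h
    apply hu
    have := CharTwo.add_eq_zero.1 h
    exact this.symm
  have hi : ∀ i ∈ Finset.range m, (ζ ^ i * u) / (1 + ζ ^ i * u) ^ 2 =
      (1 + ζ ^ i * u)⁻¹ + (1 + ζ ^ i * u)⁻¹ ^ 2 := by
    intro i _
    apply ediv
    intro h
    have h5 : ζ ^ i * u = 1 := (CharTwo.add_eq_zero.1 h).symm
    apply hu
    have hv : (ζ ^ i * u) ^ m = u ^ m := by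
      rw [mul_pow, ← pow_mul, mul_comm i m, pow_mul, hζ.pow_eq_one, one_pow, one_mul]
    rw [← hv, h5, one_pow]
  rw [Finset.sum_congr rfl hi, Finset.sum_add_distrib, ediv hum, sum_inv hζ hm hu]
  congr 1
  rw [← sum_inv hζ hm hu, CharTwo.sum_sq]

end field

theorem single_pow' (η : kkˣ) (j : ℤ) (m : ℕ) :
    (single j (η : kk) : KK) ^ m = single (m * j) ((η ^ m : kkˣ) : kk) := by
  rw [single_pow, Units.val_pow_eq_pow_val, nsmul_eq_mul]

end EM

theorem blk_EM : Stmt_EM := by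
  intro m ζ η j hζ hm hcond
  have hC : IsPrimitiveRoot (C (ζ : kk) : KK) m := by
    have h1 : IsPrimitiveRoot (ζ : kk) m := IsPrimitiveRoot.coe_units_iff.2 hζ
    exact h1.map_of_injective (f := (C : kk →+* KK)) C_injective
  have hs : ∀ i : ℕ, (single j ((ζ ^ i * η : kkˣ) : kk) : KK) = C (ζ : kk) ^ i * single j (η : kk) := by
    intro i
    rw [← map_pow, C_apply, single_mul_single, zero_add, Units.val_mul, Units.val_pow_eq_pow_val]
  have hu : (single j (η : kk) : KK) ^ m ≠ 1 := by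
    rw [EM.single_pow']
    intro h
    have h0 : (m : ℤ) ≠ 0 := by
      exact_mod_cast hm.pos.ne'
    by_cases hj : j = 0
    · subst hj
      rcases hcond with h' | h'
      · exact h' rfl
      · apply h'
        have h2 := congrArg (fun f : KK => f.coeff 0) h
        simp only [mul_zero, coeff_single_same, coeff_one, if_true] at h2
        exact Units.ext h2
    · have h2 := congrArg (fun f : KK => f.coeff 0) h
      simp only [coeff_one, if_true] at h2
      rw [coeff_single_of_ne (mul_ne_zero h0 hj).symm] at h2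
      exact one_ne_zero h2.symm
  unfold eM
  rw [Finset.sum_congr rfl (fun i _ => by rw [hs i]), ← EM.single_pow']
  exact EM.sum_e hC hm hu

end Pool.Agent.Work.P57
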