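import Pool.Agent.Work.P57.Interface

/-!
# Block EXT: the automorphism which moves the cusp
-/

set_option autoImplicit false

namespace Pool.Agent.Work.P57

namespace EXT

lemma nn_mul (s : ℕ) : (2 ^ s + 1) * nn s = n0 s := by
  show (2 ^ s + 1) * (2 ^ s - 1) = 4 ^ s - 1
  have h1 : 1 ≤ 2 ^ s := Nat.one_le_two_pow
  have h2 : (4 : ℕ) ^ s = 2 ^ s * 2 ^ s := by
    rw [← mul_pow]; norm_num
  obtain ⟨k, hk⟩ := Nat.exists_eq_add_of_le h1
  rw [h2, hk]
  have e1 : 1 + k - 1 = k := by omega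
  have e2 : (1 + k + 1) * k = (1 + k) * (1 + k) - 1 := by
    have : (1 + k) * (1 + k) = (1 + k + 1) * k + 1 := by ring
    omega
  rw [e1, e2]

lemma cast_val_add (s : ℕ) (hs : 2 ≤ s) (a b : ZMod (nn s)) :
    (((2 ^ s + 1) * (a + b).val : ℕ) : ZMod (n0 s)) =
      (((2 ^ s + 1) * a.val : ℕ) : ZMod (n0 s)) + (((2 ^ s + 1) * b.val : ℕ) : ZMod (n0 s)) := by
  rw [← Nat.cast_add, ZMod.natCast_eq_natCast_iff, ← nn_mul s, ← mul_add]
  apply Nat.ModEq.mul_left'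
  have hn : nn s ≠ 0 := by
    have : 2 ^ 2 ≤ 2 ^ s := Nat.pow_le_pow_right (by norm_num) hs
    show 2 ^ s - 1 ≠ 0
    omega
  have : NeZero (nn s) := ⟨hn⟩
  rw [ZMod.val_add]
  exact Nat.mod_modEq _ _

lemma maps_one {D : ℤ} {y : KK} (h : y ∈ K0 D) : Maps (1 : Gam D) y y :=
  ⟨h, h, rfl⟩

lemma mulVec_ne {n : ℕ} (M : Matrix (Fin 2) (Fin 2) (ZMod n)) (hM : IsUnit M.det)
    {v : Fin 2 → ZMod n} (hv : v ≠ 0) : M.mulVec v ≠ 0 := by
  intro h
  apply hv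
  have h1 : M⁻¹.mulVec (M.mulVec v) = v := by
    rw [Matrix.mulVec_mulVec, Matrix.nonsing_inv_mul _ hM, Matrix.one_mulVec]
  rw [← h1, h, Matrix.mulVec_zero]

/-- `τ` fixes the theta series -/
def Fx {D : ℤ} (τ : Gam D) : Prop :=
  ∀ (t : ℕ) (a : ℤ), 2 ≤ t → Odd a → Maps τ (vth D t a) (vth D t a)

end EXT

open EXT in
theorem blk_EXT (hTH : Stmt_TH) (hRG : Stmt_RG) (hMAPS : Stmt_MAPS) (hELL : Stmt_ELL)
    (hACT : Stmt_ACT) (hRSG : Stmt_RSG) (hEIN : Stmt_EIN) (hIRR : Stmt_IRR) (hSLG : Stmt_SLG) :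
    Stmt_EXT := by
  intro s ξ hs hξ r
  have h4 : 2 ^ 2 ≤ 2 ^ s := Nat.pow_le_pow_right (by norm_num) hs
  have hnn1 : 1 < nn s := by
    show 1 < 2 ^ s - 1
    omega
  have hodd : Odd (nn s) := by
    show Odd (2 ^ s - 1)
    have he : Even (2 ^ s) := (Nat.even_pow.2 ⟨even_two, by omega⟩)
    exact Nat.Even.sub_odd (by omega) he odd_one
  have hn0 : 0 < n0 s := by
    rw [← nn_mul s]
    positivity
  have hD : (0 : ℤ) < (D0 s : ℕ) := by
    have : 0 < 3 * n0 s := by omega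
    exact_mod_cast this
  have comp : ∀ (τ σ : Gam (D0 s)) (y y' y'' : KK), Maps σ y y' → Maps τ y' y'' →
      Maps (τ * σ) y y'' := fun τ σ y y' y'' h1 h2 =>
    (hMAPS _ hD τ).2.2.2.2.2.1 σ y y' y'' h1 h2
  have inv : ∀ (τ : Gam (D0 s)) (y y' : KK), Maps τ y y' → Maps τ⁻¹ y' y := fun τ y y' h =>
    ((hMAPS _ hD τ).2.2.2.1 y y' h).2.2
  have hXN : ∀ v, v ≠ 0 → XN s ξ v ∈ K0 (D0 s) := by
    intro v hv
    obtain ⟨M, -, hM⟩ := hACT s ξ hs hξ 1
    exact (hM v hv).1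
  have hV : ∀ (t : ℕ) (a : ℤ), 2 ≤ t → Odd a → vth (D0 s) t a ∈ K0 (D0 s) := by
    intro t a ht ha
    obtain ⟨b, -, hb⟩ := hEIN (D0 s) hD 1 t ht a ha
    exact hb.1
  set A : Set (Matrix (Fin 2) (Fin 2) (ZMod (nn s))) :=
    {M | IsUnit M.det ∧ ∃ τ : Gam (D0 s), Acts ξ τ M} with hA
  set N : Set (Matrix (Fin 2) (Fin 2) (ZMod (nn s))) :=
    {M | IsUnit M.det ∧ ∃ τ : Gam (D0 s), Acts ξ τ M ∧ Fx τ} with hN
  have key := hSLG (nn s) hodd hnn1 A N (fun M hM => hM.1) ?_ ?_ ?_ ?_ ?_ ?_ r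
  · obtain ⟨-, τ, h1, h2⟩ := key
    exact ⟨τ, h1, h2⟩
  · -- one
    refine ⟨by simp, 1, ?_, ?_⟩
    · intro v hv
      rw [Matrix.one_mulVec]
      exact maps_one (hXN v hv)
    · intro t a ht ha
      exact maps_one (hV t a ht ha)
  · -- products
    rintro X ⟨hX, τ, hτ, hτ'⟩ Y ⟨hY, σ, hσ, hσ'⟩
    refine ⟨by rw [Matrix.det_mul]; exact hX.mul hY, τ * σ, ?_, ?_⟩
    · intro v hv
      rw [← Matrix.mulVec_mulVec]
      exact comp τ σ _ _ _ (hσ v hv) (hτ _ (mulVec_ne Y hY hv))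
    · intro t a ht ha
      exact comp τ σ _ _ _ (hσ' t a ht ha) (hτ' t a ht ha)
  · -- the unipotent matrix
    obtain ⟨σ, hσ⟩ := hRSG (D0 s) ξ hD (by exact_mod_cast hξ.pow_eq_one)
    refine ⟨by simp [Matrix.det_fin_two], σ, ?_, ?_⟩
    · intro v hv
      have h1 := hσ _ (hXN v hv)
      have h2 : resc ξ (XN s ξ v) = XN s ξ (!![1, 1; 0, 1].mulVec v) := by
        set P : ZMod (n0 s) × ZMod (n0 s) :=
          (((2 ^ s + 1) * (v 0).val : ℕ), ((2 ^ s + 1) * (v 1).val : ℕ)) with hP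
        have hP0 : P ≠ 0 := by
          intro h0
          apply hv
          have hz : ∀ a : ZMod (nn s), (((2 ^ s + 1) * a.val : ℕ) : ZMod (n0 s)) = 0 → a = 0 := by
            intro a ha
            rw [ZMod.natCast_eq_zero_iff, ← nn_mul s] at ha
            have h5 : nn s ∣ a.val := Nat.dvd_of_mul_dvd_mul_left (by positivity) ha
            have : NeZero (nn s) := ⟨by omega⟩
            have h6 := ZMod.val_lt a
            have h7 : a.val = 0 := Nat.eq_zero_of_dvd_of_lt h5 h6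
            exact (ZMod.val_eq_zero a).1 h7
          have e0 := hz _ (congrArg Prod.fst h0)
          have e1 := hz _ (congrArg Prod.snd h0)
          funext i
          fin_cases i
          · exact e0
          · exact e1
        have h3 := (hELL s ξ (by omega) hξ).2.2.2.2.2.2 P hP0
        have h4 : XN s ξ v = XP s ξ P := rfl
        rw [h4, h3, XN]
        congr 1
        have m0 : (!![1, 1; 0, 1].mulVec v) 0 = v 0 + v 1 := by
          simp [Matrix.mulVec, dotProduct, Fin.sum_univ_two]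
        have m1 : (!![1, 1; 0, 1].mulVec v) 1 = v 1 := by
          simp [Matrix.mulVec, dotProduct, Fin.sum_univ_two]
        rw [m0, m1, cast_val_add s hs]
      rw [h2] at h1
      exact h1
    · intro t a ht ha
      have h1 := hσ _ (hV t a ht ha)
      have h2 : resc ξ (vth (D0 s) t a) = vth (D0 s) t a := by
        have ht1 : Tame (fun n : ℤ => (D0 s : ℤ) * (a + 2 ^ t * n) ^ 2) :=
          (hTH.2.2.2.2.2.2.2.2 (D0 s) hD).2.2.2 t a
        have h3 := hRG.2.2.1 ξ ℤ _ (fun _ => 1) ht1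
        rw [vth, h3]
        congr 1
        funext i
        have h4 : ξ ^ ((D0 s : ℤ) * (a + 2 ^ t * i) ^ 2) = 1 := by
          rw [zpow_mul, zpow_natCast, hξ.pow_eq_one, one_zpow]
        rw [h4]
        simp
      rw [h2] at h1
      exact h1
  · -- N is contained in A
    rintro M ⟨h1, τ, h2, -⟩
    exact ⟨h1, τ, h2⟩
  · -- normality
    rintro M ⟨hM, τ, hτ⟩ X ⟨hX, σ, hσ, hσ'⟩
    have hMi : IsUnit M⁻¹.det := Matrix.isUnit_nonsing_inv_det M hM
    refine ⟨by rw [Matrix.det_mul, Matrix.det_mul]; exact (hM.mul hX).mul hMi,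
      τ * σ * τ⁻¹, ?_, ?_⟩
    · intro v hv
      have hu : M⁻¹.mulVec v ≠ 0 := mulVec_ne _ hMi hv
      have h1 := hτ _ hu
      rw [Matrix.mulVec_mulVec, Matrix.mul_nonsing_inv _ hM, Matrix.one_mulVec] at h1
      have h2 := inv τ _ _ h1
      have h3 := hσ _ hu
      have h4 := hτ _ (mulVec_ne X hX hu)
      rw [← Matrix.mulVec_mulVec, ← Matrix.mulVec_mulVec]
      exact comp _ _ _ _ _ h2 (comp _ _ _ _ _ h3 h4)
    · intro t a ht ha
      obtain ⟨b, hb, hab⟩ := hEIN (D0 s) hD τ⁻¹ t ht a ha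
      have h2 := inv τ⁻¹ _ _ hab
      rw [inv_inv] at h2
      exact comp _ _ _ _ _ hab (comp _ _ _ _ _ (hσ' t b ht hb) h2)
  · -- the lines are moved
    intro l hl hln
    obtain ⟨τ, M, h1, h2, h3⟩ := hIRR s ξ hs hξ l hl hln
    exact ⟨M, ⟨h1, τ, h2⟩, h3⟩

end Pool.Agent.Work.P57

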