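import Pool.Agent.Work.P57.Interface

/-!
# Block FIN2: transcendence of the sieved series
-/

set_option autoImplicit false

namespace Pool.Agent.Work.P57

open HahnSeries

namespace FIN2aux

theorem natCast_odd (n : ℕ) (hn : Odd n) : (n : kk) = 1 := by
  obtain ⟨m, rfl⟩ := hn
  push_cast
  rw [CharTwo.two_eq_zero]
  ring

theorem exists_prim (n : ℕ) (hn : Odd n) : ∃ ζ : kkˣ, IsPrimitiveRoot ζ n := by
  have : NeZero (n : kk) := ⟨by rw [natCast_odd n hn]; exact one_ne_zero⟩
  obtain ⟨ζ, hζ⟩ := HasEnoughRootsOfUnity.exists_primitiveRoot kk n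
  have hn0 : n ≠ 0 := by
    rintro rfl
    simp at hn
  have hu : IsUnit ζ := hζ.isUnit hn0
  refine ⟨hu.unit, IsPrimitiveRoot.coe_units_iff.mp ?_⟩
  simpa using hζ

/-- `n ↦ c n` -/
def mulc (c : ℕ) : ℕ →+ ℤ where
  toFun n := (c : ℤ) * n
  map_zero' := by simp
  map_add' := by intros; push_cast; ring

theorem mulc_inj (c : ℕ) (hc : 0 < c) : Function.Injective (mulc c) := by
  intro a b h
  have h' : (c : ℤ) * a = c * b := h
  have hc' : (c : ℤ) ≠ 0 := by exact_mod_cast hc.ne'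
  exact_mod_cast mul_left_cancel₀ hc' h'

theorem mulc_le (c : ℕ) (hc : 0 < c) (a b : ℕ) : mulc c a ≤ mulc c b ↔ a ≤ b := by
  change (c : ℤ) * a ≤ c * b ↔ a ≤ b
  have hc' : (0 : ℤ) < c := by exact_mod_cast hc
  rw [mul_le_mul_iff_right₀ hc']
  exact Int.ofNat_le

noncomputable def emb (c : ℕ) (hc : 0 < c) : HahnSeries ℕ kk →+* KK :=
  embDomainRingHom (mulc c) (mulc_inj c hc) (mulc_le c hc)

noncomputable def rho (c : ℕ) (hc : 0 < c) (η : kk) : PowerSeries (ZMod 2) →+* KK :=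
  (emb c hc).comp ((HahnSeries.toPowerSeries (R := kk)).symm.toRingHom.comp
    ((PowerSeries.rescale η).comp (PowerSeries.map (ZMod.castHom (dvd_refl 2) kk))))

theorem rho_coeff (c : ℕ) (hc : 0 < c) (η : kk) (f : PowerSeries (ZMod 2)) (n : ℕ) :
    (rho c hc η f).coeff ((c : ℤ) * n) =
      η ^ n * ZMod.castHom (dvd_refl 2) kk (PowerSeries.coeff n f) := by
  have h : (rho c hc η f).coeff ((c : ℤ) * n) = ((HahnSeries.toPowerSeries (R := kk)).symm
    (PowerSeries.rescale η (PowerSeries.map (ZMod.castHom (dvd_refl 2) kk) f))).coeff n :=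
    embDomain_coeff (f := ⟨⟨mulc c, mulc_inj c hc⟩, mulc_le c hc _ _⟩)
  rw [h, HahnSeries.coeff_toPowerSeries_symm, PowerSeries.coeff_rescale, PowerSeries.coeff_map]

theorem rho_coeff_notin (c : ℕ) (hc : 0 < c) (η : kk) (f : PowerSeries (ZMod 2)) (g : ℤ)
    (hg : ∀ n : ℕ, (c : ℤ) * n ≠ g) : (rho c hc η f).coeff g = 0 := by
  refine embDomain_of_notMem_range (f := ⟨⟨mulc c, mulc_inj c hc⟩, mulc_le c hc _ _⟩) ?_
  rintro ⟨n, hn⟩
  exact hg n hn

theorem rho_inj (c : ℕ) (hc : 0 < c) (η : kk) (hη : η ≠ 0) : Function.Injective (rho c hc η) := by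
  rw [injective_iff_map_eq_zero]
  intro f hf
  ext n
  have h := rho_coeff c hc η f n
  rw [hf, HahnSeries.coeff_zero] at h
  have h2 : ZMod.castHom (dvd_refl 2) kk (PowerSeries.coeff n f) = 0 := by
    rcases mul_eq_zero.mp h.symm with h3 | h3
    · exact absurd h3 (pow_ne_zero n hη)
    · exact h3
  rw [map_zero]
  exact (map_eq_zero (ZMod.castHom (dvd_refl 2) kk)).mp h2

theorem rho_X (c : ℕ) (hc : 0 < c) (η : kk) : rho c hc η PowerSeries.X = single (c : ℤ) η := by
  ext g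
  by_cases hg : ∃ n : ℕ, (c : ℤ) * n = g
  · obtain ⟨n, rfl⟩ := hg
    rw [rho_coeff, PowerSeries.coeff_X]
    have hc' : (c : ℤ) ≠ 0 := by exact_mod_cast hc.ne'
    by_cases hn : n = 1
    · subst hn
      simp
    · rw [if_neg hn, map_zero, mul_zero, HahnSeries.coeff_single_of_ne]
      intro h
      apply hn
      have h2 : (c : ℤ) * n = c * 1 := by rw [mul_one]; exact h
      exact_mod_cast mul_left_cancel₀ hc' h2
  · push Not at hg
    rw [rho_coeff_notin c hc η _ g hg, HahnSeries.coeff_single_of_ne]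
    intro h
    apply hg 1
    rw [h]; simp

/-- `kk(z)` -/
noncomputable abbrev L1 : IntermediateField kk KK :=
  IntermediateField.adjoin kk {(single (1 : ℤ) (1 : kk) : KK)}

theorem C_mem_L1 (c : kk) : (C c : KK) ∈ L1 := by
  rw [HahnSeries.C_eq_algebraMap]
  exact L1.algebraMap_mem c

theorem single_nat_mem (n : ℕ) : (single (n : ℤ) (1 : kk) : KK) ∈ L1 := by
  have h : (single (n : ℤ) (1 : kk) : KK) = (single (1 : ℤ) (1 : kk)) ^ n := by
    rw [HahnSeries.single_pow]
    simp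
  rw [h]
  exact pow_mem (IntermediateField.mem_adjoin_simple_self kk _) n

theorem single_mem (n : ℤ) (a : kk) : (single n a : KK) ∈ L1 := by
  have h1 : (single n (1 : kk) : KK) ∈ L1 := by
    rcases Int.eq_nat_or_neg n with ⟨m, rfl | rfl⟩
    · exact single_nat_mem m
    · have h : (single (-(m : ℤ)) (1 : kk) : KK) = (single (m : ℤ) (1 : kk))⁻¹ := by
        rw [eq_comm, inv_eq_iff_eq_inv, eq_comm]
        apply inv_eq_of_mul_eq_one_left
        rw [HahnSeries.single_mul_single]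
        simp
      rw [h]
      exact inv_mem (single_nat_mem m)
  have h2 : (single n a : KK) = C a * single n 1 := by
    rw [C_apply, HahnSeries.single_mul_single]
    simp
  rw [h2]
  exact mul_mem (C_mem_L1 a) h1

noncomputable def phi (c : ℕ) (η : kk) : Polynomial (ZMod 2) →+* L1 :=
  Polynomial.eval₂RingHom ((algebraMap kk L1).comp (ZMod.castHom (dvd_refl 2) kk))
    ⟨single (c : ℤ) η, single_mem c η⟩

theorem phi_comp (c : ℕ) (hc : 0 < c) (η : kk) :
    RingHom.comp (algebraMap L1 KK) (phi c η) =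
      RingHom.comp (rho c hc η) (algebraMap (Polynomial (ZMod 2)) (PowerSeries (ZMod 2))) := by
  refine Polynomial.ringHom_ext' (Subsingleton.elim _ _) ?_
  rw [RingHom.comp_apply, RingHom.comp_apply]
  have h1 : algebraMap (Polynomial (ZMod 2)) (PowerSeries (ZMod 2)) Polynomial.X
      = PowerSeries.X := by
    rw [PowerSeries.algebraMap_apply']
    simp
  rw [h1, rho_X]
  unfold phi
  rw [Polynomial.coe_eval₂RingHom, Polynomial.eval₂_X]
  rfl

theorem phi_inj (c : ℕ) (hc : 0 < c) (η : kk) (hη : η ≠ 0) : Function.Injective (phi c η) := by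
  have h : Function.Injective (RingHom.comp (algebraMap L1 KK) (phi c η)) := by
    rw [phi_comp c hc η]
    refine (rho_inj c hc η hη).comp ?_
    intro p q hpq
    rw [PowerSeries.algebraMap_apply', PowerSeries.algebraMap_apply'] at hpq
    simpa using hpq
  intro p q hpq
  apply h
  rw [RingHom.comp_apply, RingHom.comp_apply, hpq]

theorem alg_rho (c : ℕ) (hc : 0 < c) (η : kk) (hη : η ≠ 0) (f : PowerSeries (ZMod 2))
    (hf : IsAlgebraic (Polynomial (ZMod 2)) f) : IsAlgebraic L1 (rho c hc η f) :=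
  hf.ringHom_of_comp_eq (phi c η) (rho c hc η) (phi_inj c hc η hη) (phi_comp c hc η)

theorem geom_root (l : ℕ) (hl : Odd l) (ω : kkˣ) (hω : IsPrimitiveRoot ω l) (m : ℕ) :
    ∑ i ∈ Finset.range l, ((ω ^ i : kkˣ) : kk) ^ m = if l ∣ m then 1 else 0 := by
  have h1 : ∀ i : ℕ, ((ω ^ i : kkˣ) : kk) ^ m = (((ω : kk)) ^ m) ^ i := by
    intro i
    rw [Units.val_pow_eq_pow_val, ← pow_mul, ← pow_mul, mul_comm]
  rw [Finset.sum_congr rfl fun i _ => h1 i]
  have hω' : IsPrimitiveRoot (ω : kk) l := IsPrimitiveRoot.coe_units_iff.mpr hω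
  by_cases hm : l ∣ m
  · rw [if_pos hm]
    have h2 : (ω : kk) ^ m = 1 := (hω'.pow_eq_one_iff_dvd m).mpr hm
    simp only [h2, one_pow]
    rw [Finset.sum_const, Finset.card_range, nsmul_eq_mul, mul_one, natCast_odd l hl]
  · rw [if_neg hm]
    have h2 : (ω : kk) ^ m ≠ 1 := fun h => hm ((hω'.pow_eq_one_iff_dvd m).mp h)
    have h3 : (∑ i ∈ Finset.range l, ((ω : kk) ^ m) ^ i) * ((ω : kk) ^ m - 1) = 0 := by
      rw [geom_sum_mul, ← pow_mul, mul_comm, pow_mul, hω'.pow_eq_one, one_pow, sub_self]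
    rcases mul_eq_zero.mp h3 with h4 | h4
    · exact h4
    · exact absurd (sub_eq_zero.mp h4) h2

/-- the sieved sum -/
noncomputable def HH (c : ℕ) (hc : 0 < c) (l : ℕ) (ω : kkˣ) (f : PowerSeries (ZMod 2)) : KK :=
  ∑ i ∈ Finset.range l, rho c hc ((ω ^ i : kkˣ) : kk) f

theorem HH_alg (c : ℕ) (hc : 0 < c) (l : ℕ) (ω : kkˣ) (f : PowerSeries (ZMod 2))
    (hf : IsAlgebraic (Polynomial (ZMod 2)) f) : IsAlgebraic L1 (HH c hc l ω f) := by
  unfold HH
  rw [← mem_algebraicClosure_iff]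
  refine sum_mem fun i _ => ?_
  rw [mem_algebraicClosure_iff]
  exact alg_rho c hc _ (Units.ne_zero _) f hf

theorem coeff_sum' {ι : Type} (I : Finset ι) (x : ι → KK) (g : ℤ) :
    (∑ i ∈ I, x i).coeff g = ∑ i ∈ I, (x i).coeff g := by
  classical
  induction I using Finset.induction_on with
  | empty => simp
  | insert a s ha ih =>
    rw [Finset.sum_insert ha, Finset.sum_insert ha, HahnSeries.coeff_add, ih]

theorem HH_coeff (c : ℕ) (hc : 0 < c) (l : ℕ) (hl : Odd l) (ω : kkˣ) (hω : IsPrimitiveRoot ω l)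
    (f : PowerSeries (ZMod 2)) (m : ℕ) : (HH c hc l ω f).coeff ((c : ℤ) * m) =
      if l ∣ m then ZMod.castHom (dvd_refl 2) kk (PowerSeries.coeff m f) else 0 := by
  unfold HH
  rw [coeff_sum']
  simp only [rho_coeff]
  rw [← Finset.sum_mul, geom_root l hl ω hω m, ite_mul, one_mul, zero_mul]

theorem HH_coeff_notin (c : ℕ) (hc : 0 < c) (l : ℕ) (ω : kkˣ)
    (f : PowerSeries (ZMod 2)) (g : ℤ) (hg : ∀ n : ℕ, (c : ℤ) * n ≠ g) :
    (HH c hc l ω f).coeff g = 0 := by
  unfold HH
  rw [coeff_sum']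
  exact Finset.sum_eq_zero fun i _ => rho_coeff_notin c hc _ f g hg

theorem Th_coeff_mul (e : ℤ) (he : 0 < e) (hT : Tame fun n : ℕ => e * (n : ℤ)) (r : ℕ → kk)
    (n : ℕ) : (Th (fun n : ℕ => e * (n : ℤ)) r).coeff (e * n) = r n := by
  classical
  rw [coeff_Th hT]
  rw [finsum_eq_single _ n]
  · simp
  · intro m hm
    rw [if_neg]
    intro h
    exact hm (by exact_mod_cast mul_left_cancel₀ he.ne' h)

theorem Th_coeff_notin (e : ℤ) (hT : Tame fun n : ℕ => e * (n : ℤ)) (r : ℕ → kk)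
    (g : ℤ) (hg : ∀ n : ℕ, e * (n : ℤ) ≠ g) : (Th (fun n : ℕ => e * (n : ℤ)) r).coeff g = 0 := by
  classical
  rw [coeff_Th hT]
  have h : (fun n : ℕ => if e * (n : ℤ) = g then r n else 0) = fun _ => 0 := by
    funext n
    rw [if_neg (hg n)]
  rw [h, finsum_zero]

theorem R_eq (e : ℕ) (he : 0 < e) (A l B : ℕ) (hA : 0 < A) (hl : Odd l) (ω : kkˣ)
    (hω : IsPrimitiveRoot ω l) (hT : Tame fun n : ℕ => (e : ℤ) * (n : ℤ)) :
    Th (fun n : ℕ => (e : ℤ) * (n : ℤ))
      (fun n => if n % (A * l) = B % (A * l) then (pa n : kk) else 0) =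
    single ((e : ℤ) * B) 1 * HH (e * A) (Nat.mul_pos he hA) l ω
        (PowerSeries.mk fun m => (pa (A * m + B) : ZMod 2)) +
      ∑ n ∈ Finset.range B, single ((e : ℤ) * n)
        (if n % (A * l) = B % (A * l) then (pa n : kk) else 0) := by
  set r : ℕ → kk := fun n => if n % (A * l) = B % (A * l) then (pa n : kk) else 0 with hr
  have he' : (0 : ℤ) < e := by exact_mod_cast he
  ext g
  rw [HahnSeries.coeff_add, coeff_sum']
  have hshift : (single ((e : ℤ) * B) (1 : kk) * HH (e * A) (Nat.mul_pos he hA) l ω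
      (PowerSeries.mk fun m => (pa (A * m + B) : ZMod 2))).coeff g =
      (HH (e * A) (Nat.mul_pos he hA) l ω
        (PowerSeries.mk fun m => (pa (A * m + B) : ZMod 2))).coeff (g - e * B) := by
    have h : g = (g - e * B) + e * B := by ring
    conv_lhs => rw [h]
    rw [HahnSeries.coeff_single_mul_add, one_mul]
  rw [hshift]
  by_cases hg : ∃ n : ℕ, (e : ℤ) * n = g
  · obtain ⟨n, rfl⟩ := hg
    rw [Th_coeff_mul (e : ℤ) he' hT r n]
    rcases lt_or_ge n B with hn | hn
    · rw [HH_coeff_notin, zero_add, Finset.sum_eq_single n]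
      · rw [HahnSeries.coeff_single_same]
      · intro m _ hm
        rw [HahnSeries.coeff_single_of_ne]
        intro h
        exact hm (by exact_mod_cast (mul_left_cancel₀ he'.ne' h).symm)
      · intro h
        exact absurd (Finset.mem_range.mpr hn) h
      · intro m h
        have h1 : (0 : ℤ) ≤ ((e * A : ℕ) : ℤ) * m := by positivity
        have h2 : (e : ℤ) * n - e * B < 0 := by
          have h3 : (n : ℤ) < B := by exact_mod_cast hn
          nlinarith
        omega
    · have hz : ∑ m ∈ Finset.range B, (single ((e : ℤ) * m) (r m)).coeff ((e : ℤ) * n) = 0 := by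
        refine Finset.sum_eq_zero fun m hm => ?_
        rw [HahnSeries.coeff_single_of_ne]
        intro h
        have h2 : (n : ℤ) = m := mul_left_cancel₀ he'.ne' h
        rw [Finset.mem_range] at hm
        have h3 : n = m := by exact_mod_cast h2
        omega
      rw [hz, add_zero]
      obtain ⟨d, rfl⟩ := Nat.exists_eq_add_of_le hn
      by_cases hd : A ∣ d
      · obtain ⟨m, rfl⟩ := hd
        have h1 : (e : ℤ) * ((B + A * m : ℕ) : ℤ) - e * B = ((e * A : ℕ) : ℤ) * m := by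
          push_cast
          ring
        rw [h1, HH_coeff _ _ l hl ω hω, PowerSeries.coeff_mk, map_natCast]
        have h2 : (B + A * m) % (A * l) = B % (A * l) ↔ l ∣ m := by
          have h3 : (B + A * m) % (A * l) = B % (A * l) ↔ A * l ∣ A * m := by
            constructor
            · intro h
              have h4 : B + 0 ≡ B + A * m [MOD A * l] := by
                rw [add_zero]
                exact h.symm
              have h5 : 0 ≡ A * m [MOD A * l] := Nat.ModEq.add_left_cancel' B h4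
              exact (Nat.modEq_zero_iff_dvd).mp h5.symm
            · intro h
              have h5 : 0 ≡ A * m [MOD A * l] := ((Nat.modEq_zero_iff_dvd).mpr h).symm
              have h4 := h5.add_left B
              rw [add_zero] at h4
              exact h4.symm
          rw [h3]
          exact Nat.mul_dvd_mul_iff_left hA
        simp only [hr]
        by_cases h5 : l ∣ m
        · rw [if_pos (h2.mpr h5), if_pos h5, add_comm B]
        · rw [if_neg (fun h => h5 (h2.mp h)), if_neg h5]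
      · rw [HH_coeff_notin]
        · simp only [hr]
          rw [if_neg]
          intro h
          apply hd
          have h4 : B + 0 ≡ B + d [MOD A * l] := by
            rw [add_zero]
            exact h.symm
          have h5 : 0 ≡ d [MOD A * l] := Nat.ModEq.add_left_cancel' B h4
          exact dvd_trans (Nat.dvd_mul_right A l) ((Nat.modEq_zero_iff_dvd).mp h5.symm)
        · intro m h
          apply hd
          refine ⟨m, ?_⟩
          have h2 : (e : ℤ) * ((A * m : ℕ) : ℤ) = e * d := by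
            push_cast at h ⊢
            linarith
          exact_mod_cast (mul_left_cancel₀ he'.ne' h2).symm
  · push Not at hg
    rw [Th_coeff_notin _ hT r g hg, HH_coeff_notin, zero_add, Finset.sum_eq_zero]
    · intro m _
      rw [HahnSeries.coeff_single_of_ne]
      intro h
      exact hg m h.symm
    · intro m h
      apply hg (B + A * m)
      push_cast at h ⊢
      linarith

theorem R_alg (e : ℕ) (he : 0 < e) (A l B : ℕ) (hA : 0 < A) (hl : Odd l)
    (hT : Tame fun n : ℕ => (e : ℤ) * (n : ℤ))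
    (hf : IsAlgebraic (Polynomial (ZMod 2))
      (PowerSeries.mk fun m => (pa (A * m + B) : ZMod 2))) :
    IsAlgebraic L1 (Th (fun n : ℕ => (e : ℤ) * (n : ℤ))
      (fun n => if n % (A * l) = B % (A * l) then (pa n : kk) else 0)) := by
  obtain ⟨ω, hω⟩ := exists_prim l hl
  rw [R_eq e he A l B hA hl ω hω hT, ← mem_algebraicClosure_iff]
  have h1 : ∀ (n : ℤ) (a : kk), (single n a : KK) ∈ algebraicClosure L1 KK := by
    intro n a
    rw [mem_algebraicClosure_iff]
    exact isAlgebraic_algebraMap (⟨single n a, single_mem n a⟩ : L1)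
  refine add_mem (mul_mem (h1 _ _) ?_) (sum_mem fun n _ => h1 _ _)
  rw [mem_algebraicClosure_iff]
  exact HH_alg _ _ l ω _ hf

theorem smul_mem_K0 {D : ℤ} (a : kk) (x : KK) (hx : x ∈ K0 D) : a • x ∈ K0 D := by
  rw [← HahnSeries.C_mul_eq_smul]
  refine mul_mem ?_ hx
  rw [mem_K0]
  have hm : (C a : KK) ∈ AA D := by
    rw [HahnSeries.C_eq_algebraMap]
    exact (AA D).algebraMap_mem a
  exact isAlgebraic_algebraMap (⟨C a, hm⟩ : AA D)

theorem n0_odd (s : ℕ) (hs : 1 ≤ s) : Odd (n0 s) := by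
  unfold n0
  have h : Even (4 ^ s) := by
    apply Even.pow_of_ne_zero ⟨2, rfl⟩
    omega
  have h2 : 1 ≤ 4 ^ s := Nat.one_le_pow _ _ (by norm_num)
  obtain ⟨a, ha⟩ := h
  refine ⟨a - 1, ?_⟩
  omega

theorem n0_pos (s : ℕ) (hs : 1 ≤ s) : 0 < n0 s := (n0_odd s hs).pos

theorem nn_dvd_n0 (s : ℕ) : nn s ∣ n0 s := by
  unfold nn n0
  refine ⟨2 ^ s + 1, ?_⟩
  have h2 : 1 ≤ 2 ^ s := Nat.one_le_pow _ _ (by norm_num)
  obtain ⟨a, ha⟩ := Nat.exists_eq_add_of_le h2
  have h4 : 4 ^ s = (2 ^ s) * (2 ^ s) := by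
    rw [← mul_pow]
    norm_num
  rw [h4, ha]
  have e1 : 1 + a - 1 = a := by omega
  have e2 : (1 + a) * (1 + a) - 1 = a * (1 + a + 1) := by
    have : (1 + a) * (1 + a) = a * (1 + a + 1) + 1 := by ring
    omega
  rw [e1, e2]

end FIN2aux

open FIN2aux in
theorem blk_FIN2 (hTH : Stmt_TH) (_hRG : Stmt_RG) (hSQ : Stmt_SQ) (hSIV : Stmt_SIV)
    (hGS : Stmt_GS) (hALG : Stmt_ALG) (hFIN1 : Stmt_FIN1) (hTR : Stmt_TR) (_hCST : Stmt_CST) :
    Stmt_FIN2 := by
  intro k M0 B hk hM0 hB hf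
  obtain ⟨M, s, hM0M, hM, hs, hMs, -, -⟩ := hSQ k M0 B hk hM0 hB
  obtain ⟨l, rfl⟩ := hM0M
  have hl : Odd l := (Nat.odd_mul.mp hM).2
  have hMpos : 0 < M0 * l := hM.pos
  have hs1 : 1 ≤ s := by omega
  have hdvd : 3 * (M0 * l) ∣ n0 s := dvd_trans hMs (nn_dvd_n0 s)
  have hD0 : Odd (D0 s) := by
    unfold D0
    exact Nat.odd_mul.mpr ⟨by decide, n0_odd s hs1⟩
  obtain ⟨ξ, hξ⟩ := exists_prim (D0 s) hD0
  obtain ⟨y, -, hy2, hy3⟩ := hSIV hGS s ξ (M0 * l) k B hs1 hξ hdvd hMpos
  set m0 : ℕ := n0 s / (3 * (M0 * l)) with hm0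
  have hm0mul : 3 * (M0 * l) * m0 = n0 s := Nat.mul_div_cancel' hdvd
  have hm0odd : Odd m0 := by
    have h := n0_odd s hs1
    rw [← hm0mul] at h
    exact (Nat.odd_mul.mp h).2
  have hm0pos : 0 < m0 := hm0odd.pos
  set R : KK := Th (fun n : ℕ => 3 * (m0 : ℕ) * (n : ℤ))
      (fun n => if n % (2 ^ k * (M0 * l)) = B % (2 ^ k * (M0 * l)) then (pa n : kk) else 0)
    with hR
  -- R is algebraic over kk(z)
  have hT : Tame fun n : ℕ => ((3 * m0 : ℕ) : ℤ) * (n : ℤ) := by
    obtain ⟨-, -, -, -, -, -, -, -, h9⟩ := hTH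
    exact (h9 ((3 * m0 : ℕ) : ℤ) (by positivity)).2.2.1
  have hRe : R = Th (fun n : ℕ => ((3 * m0 : ℕ) : ℤ) * (n : ℤ))
      (fun n => if n % (2 ^ k * M0 * l) = B % (2 ^ k * M0 * l) then (pa n : kk) else 0) := by
    rw [hR]
    congr 1
    · funext n
      rw [mul_assoc]
  have hRalg : IsAlgebraic L1 R := by
    rw [hRe]
    exact R_alg (3 * m0) (by positivity) (2 ^ k * M0) l B (by have := hM0.pos; positivity) hl hT hf
  have hZalg : IsAlgebraic L1 (single (-4 * (m0 : ℕ) : ℤ) 1 * R ^ 8) := by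
    rw [← mem_algebraicClosure_iff] at hRalg ⊢
    refine mul_mem ?_ (pow_mem hRalg 8)
    rw [mem_algebraicClosure_iff]
    exact isAlgebraic_algebraMap (⟨single (-4 * (m0 : ℕ) : ℤ) 1, single_mem _ 1⟩ : L1)
  have hZK0 : single (-4 * (m0 : ℕ) : ℤ) 1 * R ^ 8 ∈ K0 (D0 s) := by
    rw [← hy3]
    refine sum_mem fun i _ => ?_
    apply smul_mem_K0
    exact hALG s ξ hs hξ (3 * (M0 * l)) (k + 3) hMs (Nat.dvd_mul_right 3 _) i (y i) _ (hy2 i)
  obtain ⟨c, hc⟩ := hTR (D0 s) 1 _ (by exact_mod_cast hD0.pos) one_pos hZK0 hZalg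
  have hR0 : R = 0 := by
    by_contra hne
    have h1 : R ^ 8 = single (4 * (m0 : ℕ) : ℤ) c := by
      have h2 : single (4 * (m0 : ℕ) : ℤ) (1 : kk) * (single (-4 * (m0 : ℕ) : ℤ) 1 * R ^ 8)
          = single (4 * (m0 : ℕ) : ℤ) (1 : kk) * C c := by rw [hc]
      rw [← mul_assoc, HahnSeries.single_mul_single, C_apply, HahnSeries.single_mul_single,
        one_mul, add_zero, one_mul] at h2
      have h3 : (4 * (m0 : ℕ) : ℤ) + -4 * (m0 : ℕ) = 0 := by ring
      rw [h3] at h2
      have h4 : (single (0 : ℤ) (1 : kk) : KK) = 1 := rfl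
      rw [h4, one_mul] at h2
      exact h2
    have hc0 : c ≠ 0 := by
      rintro rfl
      rw [map_zero] at h1
      exact hne (pow_eq_zero_iff (by norm_num) |>.mp h1)
    have h5 := congrArg HahnSeries.order h1
    rw [HahnSeries.order_pow, HahnSeries.order_single hc0, nsmul_eq_mul] at h5
    obtain ⟨a, ha⟩ := hm0odd
    push_cast at h5
    omega
  -- contradiction with FIN1
  obtain ⟨n, hn1, hn2⟩ := hFIN1 k (M0 * l) B hk hM hB
  have h6 : R.coeff (((3 * m0 : ℕ) : ℤ) * n) = (pa n : kk) := by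
    rw [hRe, Th_coeff_mul _ (by positivity) hT, if_pos]
    rw [mul_assoc]
    exact hn1
  rw [hR0, HahnSeries.coeff_zero, natCast_odd _ hn2] at h6
  exact zero_ne_one h6

end Pool.Agent.Work.P57
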