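import Pool.Agent.Work.P57.Interface

/-!
# Block FIX: elements of the torsion field fixed by the Galois group (helper58)
-/

set_option autoImplicit false

namespace Pool.Agent.Work.P57

namespace FIX

open Polynomial

/-- a simple root of a polynomial is a separable element -/
theorem sep_of_simple {F E : Type} [Field F] [Field E] [Algebra F E] (q : Polynomial F) (y : E)
    (h0 : aeval y q = 0) (h1 : aeval y (derivative q) ≠ 0) : IsSeparable F y := by
  have hq : q ≠ 0 := by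
    rintro rfl
    simp at h1
  have hint : IsIntegral F y := IsAlgebraic.isIntegral ⟨q, hq, h0⟩
  obtain ⟨r, hr⟩ := minpoly.dvd F y h0
  have h2 : aeval y (derivative q) = aeval y (derivative (minpoly F y)) * aeval y r := by
    rw [hr, derivative_mul, map_add, map_mul, map_mul, minpoly.aeval, zero_mul, add_zero]
  have h3 : derivative (minpoly F y) ≠ 0 := by
    intro h
    rw [h, map_zero, zero_mul] at h2
    exact h1 h2
  exact (separable_iff_derivative_ne_zero (minpoly.irreducible hint)).2 h3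

/-- the point of `XN` -/
def PN (s : ℕ) (v : Fin 2 → ZMod (nn s)) : ZMod (n0 s) × ZMod (n0 s) :=
  (((2 ^ s + 1) * (v 0).val : ℕ), ((2 ^ s + 1) * (v 1).val : ℕ))

theorem n0_eq (s : ℕ) : n0 s = (2 ^ s + 1) * nn s := by
  have h1 : 1 ≤ 2 ^ s := Nat.one_le_two_pow
  have h2 : (4 : ℕ) ^ s = 2 ^ s * 2 ^ s := by
    rw [← mul_pow]
    norm_num
  unfold n0 nn
  rw [h2]
  obtain ⟨t, ht⟩ := Nat.exists_eq_add_of_le h1
  rw [ht]
  rw [Nat.add_sub_cancel_left]
  have : (1 + t) * (1 + t) = (1 + t + 1) * t + 1 := by ring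
  rw [this, Nat.add_sub_cancel]

theorem nn_pos {s : ℕ} (hs : 2 ≤ s) : 0 < nn s := by
  have : 2 ^ 2 ≤ 2 ^ s := Nat.pow_le_pow_right (by norm_num) hs
  unfold nn
  omega

theorem cast_eq_zero {s : ℕ} (hs : 2 ≤ s) (x : ZMod (nn s))
    (h : (((2 ^ s + 1) * x.val : ℕ) : ZMod (n0 s)) = 0) : x = 0 := by
  have : NeZero (nn s) := ⟨(nn_pos hs).ne'⟩
  rw [ZMod.natCast_eq_zero_iff, n0_eq] at h
  have h2 : nn s ∣ x.val := Nat.dvd_of_mul_dvd_mul_left (by positivity) h
  have h3 : x.val < nn s := ZMod.val_lt x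
  have h4 : x.val = 0 := Nat.eq_zero_of_dvd_of_lt h2 h3
  exact (ZMod.val_eq_zero x).1 h4

theorem PN_ne {s : ℕ} (hs : 2 ≤ s) {v : Fin 2 → ZMod (nn s)} (hv : v ≠ 0) : PN s v ≠ 0 := by
  intro h
  apply hv
  have h1 := congrArg Prod.fst h
  have h2 := congrArg Prod.snd h
  simp only [PN, Prod.fst_zero, Prod.snd_zero] at h1 h2
  funext i
  fin_cases i
  · exact cast_eq_zero hs _ h1
  · exact cast_eq_zero hs _ h2

theorem PN_smul (s : ℕ) (v : Fin 2 → ZMod (nn s)) : (2 ^ s - 1) • PN s v = 0 := by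
  have h : ∀ a : ℕ, (2 ^ s - 1) • (((2 ^ s + 1) * a : ℕ) : ZMod (n0 s)) = 0 := by
    intro a
    rw [nsmul_eq_mul, ← Nat.cast_mul, ZMod.natCast_eq_zero_iff, n0_eq]
    refine ⟨a, ?_⟩
    unfold nn
    ring
  unfold PN
  rw [Prod.smul_mk, h, h]
  rfl

end FIX

open FIX Polynomial in
/-- **Block FIX** -/
theorem blk_FIX (_hELL : Stmt_ELL) (hDYN : Stmt_DYN) (_hMAPS : Stmt_MAPS) : Stmt_FIX := by
  intro s ξ hs hξ y hy
  have hs1 : 1 ≤ s := by omega
  obtain ⟨p, hpm, hroot, hder, hsplit⟩ := hDYN s ξ hs1 hξ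
  -- the values are separable
  have hDel : Del 1 (D0 s) ∈ AA (D0 s) := IntermediateField.subset_adjoin _ _ rfl
  have hsepXN : ∀ v : Fin 2 → ZMod (nn s), v ≠ 0 → IsSeparable (AA (D0 s)) (XN s ξ v) := by
    intro v hv
    set δ : AA (D0 s) := ⟨Del 1 (D0 s), hDel⟩ with hδ
    have hcomp : ∀ q : Polynomial kk, algebraMap (AA (D0 s)) KK (aeval δ q) =
        aeval (Del 1 (D0 s)) q := by
      intro q
      rw [← aeval_algebraMap_apply]
      rfl
    have hmap : (p.map (aeval δ : Polynomial kk →ₐ[kk] AA (D0 s)).toRingHom).map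
        (algebraMap (AA (D0 s)) KK) = p.map (aeval (Del 1 (D0 s))).toRingHom := by
      rw [Polynomial.map_map]
      congr 1
      exact RingHom.ext fun q => hcomp q
    have hne := PN_ne hs hv
    have hsm : (2 ^ s - 1) • PN s v = 0 ∨ (2 ^ s + 1) • PN s v = 0 := Or.inl (PN_smul s v)
    have hXN : XN s ξ v = XP s ξ (PN s v) := rfl
    refine sep_of_simple (p.map (aeval δ : Polynomial kk →ₐ[kk] AA (D0 s)).toRingHom) _ ?_ ?_
    · rw [aeval_def, ← eval_map, hmap]
      exact (hroot _).2 ⟨PN s v, hne, hsm, hXN⟩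
    · rw [aeval_def, ← eval_map, ← derivative_map, hmap, hXN]
      exact hder _ hne hsm
  have hsepall : Algebra.IsSeparable (AA (D0 s))
      (IntermediateField.adjoin (AA (D0 s)) {x | ∃ v, v ≠ 0 ∧ x = XN s ξ v}) := by
    rw [IntermediateField.isSeparable_adjoin_iff_isSeparable]
    rintro x ⟨v, hv, rfl⟩
    exact hsepXN v hv
  have hsep : IsSeparable (AA (D0 s)) y := by
    have h1 := Algebra.IsSeparable.isSeparable (AA (D0 s))
      (⟨y, hy⟩ : IntermediateField.adjoin (AA (D0 s)) {x | ∃ v, v ≠ 0 ∧ x = XN s ξ v})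
    unfold IsSeparable at h1 ⊢
    have h2 : minpoly (AA (D0 s)) (⟨y, hy⟩ : IntermediateField.adjoin (AA (D0 s))
        {x | ∃ v, v ≠ 0 ∧ x = XN s ξ v}) = minpoly (AA (D0 s)) y :=
      (minpoly.algebraMap_eq (Subtype.val_injective) _).symm
    rwa [h2] at h1
  have hyK : y ∈ K0 (D0 s) := mem_K0.2 hsep.isIntegral.isAlgebraic
  set Y : Om (D0 s) := algebraMap (K0 (D0 s)) (Om (D0 s)) ⟨y, hyK⟩ with hY
  have hmin : minpoly (AA (D0 s)) Y = minpoly (AA (D0 s)) y := by
    rw [hY, minpoly.algebraMap_eq (algebraMap (K0 (D0 s)) (Om (D0 s))).injective]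
    exact (minpoly.algebraMap_eq (B' := KK) (algebraMap (K0 (D0 s)) KK).injective _).symm
  have hYalg : IsAlgebraic (AA (D0 s)) Y := Algebra.IsAlgebraic.isAlgebraic Y
  have hconj : ∀ z : Om (D0 s), aeval z (minpoly (AA (D0 s)) Y) = 0 →
      ∃ τ : Gam (D0 s), τ Y = z := fun z hz => minpoly.exists_algEquiv_of_root' hYalg hz
  have hsepm : (minpoly (AA (D0 s)) Y).Separable := by
    rw [hmin]
    exact hsep
  have hcard : Fintype.card ((minpoly (AA (D0 s)) Y).rootSet (Om (D0 s))) =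
      (minpoly (AA (D0 s)) Y).natDegree :=
    card_rootSet_eq_natDegree hsepm (IsAlgClosed.splits _)
  have hmem : ∀ z ∈ (minpoly (AA (D0 s)) Y).rootSet (Om (D0 s)),
      aeval z (minpoly (AA (D0 s)) Y) = 0 := fun z hz => aeval_eq_zero_of_mem_rootSet hz
  have hT : ∀ T : Finset KK, (∀ τ : Gam (D0 s), ∃ y' ∈ T, Maps τ y y') →
      (minpoly (AA (D0 s)) y).natDegree ≤ T.card := by
    intro T hT
    rw [← hmin, ← hcard]
    classical
    have hch : ∀ z : (minpoly (AA (D0 s)) Y).rootSet (Om (D0 s)), ∃ y' : T,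
        ∃ h' : (y' : KK) ∈ K0 (D0 s),
          algebraMap (K0 (D0 s)) (Om (D0 s)) ⟨(y' : KK), h'⟩ = z.1 := by
      intro z
      obtain ⟨τ, hτ⟩ := hconj z.1 (hmem z.1 z.2)
      obtain ⟨y', hy', h, h', hm⟩ := hT τ
      refine ⟨⟨y', hy'⟩, h', ?_⟩
      rw [← hτ, ← hm]
    choose g hg1 hg2 using hch
    have hinj : Function.Injective g := by
      intro z1 z2 h
      apply Subtype.ext
      rw [← hg2 z1, ← hg2 z2]
      congr 2
      exact congrArg Subtype.val h
    have := Fintype.card_le_of_injective g hinj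
    rwa [Fintype.card_coe] at this
  refine ⟨hyK, hsep, ?_, hT⟩
  intro hfix
  have hdeg : (minpoly (AA (D0 s)) y).natDegree ≤ 1 := by
    have := hT {y} (fun τ => ⟨y, Finset.mem_singleton_self y, hfix τ⟩)
    rwa [Finset.card_singleton] at this
  have hpos : 0 < (minpoly (AA (D0 s)) y).natDegree := minpoly.natDegree_pos hsep.isIntegral
  have h1 : (minpoly (AA (D0 s)) y).natDegree = 1 := by omega
  obtain ⟨a, ha⟩ := minpoly.natDegree_eq_one_iff.1 h1
  rw [← ha]
  exact a.2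

end Pool.Agent.Work.P57
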