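import Pool.Agent.Work.P57.Interface

/-!
# Block GGC: closure properties of `GG`, the simple root lemma, cube roots
-/

set_option autoImplicit false

namespace Pool.Agent.Work.P57

open HahnSeries

namespace GGC

/-! ### The group algebra of `ℤ/2^t` over a field of characteristic two -/

/-- the group algebra -/
abbrev AG (t : ℕ) (F : Type) [Field F] : Type := AddMonoidAlgebra F (ZMod (2 ^ t))

variable {F F' : Type} [Field F] [Field F']

theorem ag_ext {t : ℕ} {x y : AG t F} (h : ∀ c : ZMod (2 ^ t), x.coeff c = y.coeff c) :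
    x = y := by
  ext c
  exact h c

/-- the augmentation -/
noncomputable def aug {t : ℕ} (x : AG t F) : F := ∑ c : ZMod (2 ^ t), x.coeff c

theorem sum_single_coeff {t : ℕ} (x : AG t F) :
    ∑ c : ZMod (2 ^ t), AddMonoidAlgebra.single c (x.coeff c) = x := by
  ext d
  rw [AddMonoidAlgebra.coeff_sum, Finsupp.finsetSum_apply, Finset.sum_eq_single d]
  · rw [AddMonoidAlgebra.coeff_single, Finsupp.single_eq_same]
  · intro b _ hb
    rw [AddMonoidAlgebra.coeff_single, Finsupp.single_eq_of_ne (Ne.symm hb)]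
  · intro h
    exact absurd (Finset.mem_univ _) h

theorem pow_two_pow {t : ℕ} [CharP F 2] (x : AG t F) :
    x ^ (2 ^ t) = AddMonoidAlgebra.single 0 (aug x ^ (2 ^ t)) := by
  have : CharP (AG t F) 2 := charP_of_injective_algebraMap (algebraMap F (AG t F)).injective 2
  have : ExpChar (AG t F) 2 := ExpChar.prime Nat.prime_two
  have : ExpChar F 2 := ExpChar.prime Nat.prime_two
  have h1 : x ^ (2 ^ t) =
      (∑ c : ZMod (2 ^ t), AddMonoidAlgebra.single c (x.coeff c)) ^ (2 ^ t) := by
    rw [sum_single_coeff]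
  rw [h1, sum_pow_char_pow]
  have h2 : ∀ c : ZMod (2 ^ t), (AddMonoidAlgebra.single c (x.coeff c) : AG t F) ^ (2 ^ t) =
      AddMonoidAlgebra.single 0 (x.coeff c ^ (2 ^ t)) := by
    intro c
    rw [AddMonoidAlgebra.single_pow, nsmul_eq_mul, ZMod.natCast_self, zero_mul]
  rw [Finset.sum_congr rfl (fun c _ => h2 c), aug, sum_pow_char_pow]
  ext d
  rw [AddMonoidAlgebra.coeff_sum, Finsupp.finsetSum_apply]
  by_cases hd : d = 0
  · rw [hd, AddMonoidAlgebra.coeff_single, Finsupp.single_eq_same]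
    apply Finset.sum_congr rfl
    intro c _
    rw [AddMonoidAlgebra.coeff_single, Finsupp.single_eq_same]
  · rw [AddMonoidAlgebra.coeff_single, Finsupp.single_eq_of_ne hd]
    apply Finset.sum_eq_zero
    intro c _
    rw [AddMonoidAlgebra.coeff_single, Finsupp.single_eq_of_ne hd]

theorem nilp_iff {t : ℕ} [CharP F 2] (x : AG t F) : IsNilpotent x ↔ aug x = 0 := by
  constructor
  · rintro ⟨n, hn⟩
    have h1 : x ^ (2 ^ t) ^ 1 = AddMonoidAlgebra.single 0 (aug x ^ (2 ^ t)) := by
      rw [pow_one, pow_two_pow]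
    have h2 : (x ^ (2 ^ t)) ^ n = 0 := by
      rw [← pow_mul, mul_comm, pow_mul, hn, zero_pow (by positivity)]
    rw [pow_two_pow, AddMonoidAlgebra.single_pow] at h2
    have h3 := congrArg (fun z : AG t F => z.coeff (n • 0)) h2
    simp only [AddMonoidAlgebra.coeff_single, Finsupp.single_eq_same] at h3
    have h4 : (aug x ^ (2 ^ t)) ^ n = 0 := h3
    by_contra hne
    exact pow_ne_zero _ (pow_ne_zero _ hne) h4
  · intro h
    refine ⟨2 ^ t, ?_⟩
    rw [pow_two_pow, h, zero_pow (by positivity), AddMonoidAlgebra.single_zero]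

theorem unit_iff {t : ℕ} [CharP F 2] (x : AG t F) : IsUnit x ↔ aug x ≠ 0 := by
  constructor
  · intro hu h0
    have := (nilp_iff x).2 h0
    exact (hu.not_isNilpotent) this
  · intro h
    have h1 : IsUnit (x ^ (2 ^ t)) := by
      rw [pow_two_pow]
      refine IsUnit.of_mul_eq_one
        (AddMonoidAlgebra.single 0 ((aug x ^ (2 ^ t))⁻¹)) ?_
      rw [AddMonoidAlgebra.single_mul_single, add_zero,
        mul_inv_cancel₀ (pow_ne_zero _ h), AddMonoidAlgebra.one_def]
    exact (isUnit_pow_iff (by positivity)).1 h1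

theorem aug_sub {t : ℕ} (x y : AG t F) : aug (x - y) = aug x - aug y := by
  unfold aug
  rw [← Finset.sum_sub_distrib]
  rfl

theorem aug_single {t : ℕ} (a : F) : aug (AddMonoidAlgebra.single (0 : ZMod (2 ^ t)) a) = a := by
  unfold aug
  rw [Finset.sum_eq_single 0]
  · rw [AddMonoidAlgebra.coeff_single, Finsupp.single_eq_same]
  · intro b _ hb
    rw [AddMonoidAlgebra.coeff_single, Finsupp.single_eq_of_ne hb]
  · intro h
    exact absurd (Finset.mem_univ _) h

/-- functoriality -/
noncomputable abbrev mp (t : ℕ) (f : F →+* F') : AG t F →+* AG t F' :=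
  AddMonoidAlgebra.mapRingHom (ZMod (2 ^ t)) f

theorem coeff_mp {t : ℕ} (f : F →+* F') (x : AG t F) (c : ZMod (2 ^ t)) :
    (mp t f x).coeff c = f (x.coeff c) := AddMonoidAlgebra.coeff_mapRingHom f x c

theorem mp_inj {t : ℕ} (f : F →+* F') : Function.Injective (mp t f) := by
  intro x y h
  ext c
  have h1 := congrArg (fun z : AG t F' => z.coeff c) h
  simp only [coeff_mp] at h1
  exact f.injective h1

theorem aug_mp {t : ℕ} (f : F →+* F') (x : AG t F) : aug (mp t f x) = f (aug x) := by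
  unfold aug
  rw [map_sum]
  apply Finset.sum_congr rfl
  intro c _
  rw [coeff_mp]

theorem aeval_self {R : Type} [CommRing R] (x : R) (P : Polynomial R) :
    Polynomial.aeval x P = P.eval x := by
  rw [Polynomial.coe_aeval_eq_eval]

/-- uniqueness of simple roots -/
theorem root_unique {t : ℕ} [CharP F 2] (P : Polynomial (AG t F)) (r r' : AG t F)
    (h : P.eval r = 0) (h' : P.eval r' = 0) (ha : aug r = aug r')
    (hd : aug (P.derivative.eval r) ≠ 0) : r = r' := by
  have h1 : IsNilpotent (Polynomial.aeval r P) := by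
    rw [aeval_self, h]
    exact IsNilpotent.zero
  have h2 : IsUnit (Polynomial.aeval r P.derivative) := by
    rw [aeval_self, unit_iff]
    exact hd
  have h3 := (Polynomial.existsUnique_nilpotent_sub_and_aeval_eq_zero h1 h2).unique
    (y₁ := r) (y₂ := r')
  apply h3
  · refine ⟨?_, by rw [aeval_self, h]⟩
    rw [sub_self]
    exact IsNilpotent.zero
  · refine ⟨?_, by rw [aeval_self, h']⟩
    rw [nilp_iff, aug_sub, ha, sub_self]

/-- existence of simple roots -/
theorem root_exists {t : ℕ} [CharP F 2] (P : Polynomial (AG t F)) (x : AG t F)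
    (h : aug (P.eval x) = 0) (hd : aug (P.derivative.eval x) ≠ 0) :
    ∃ r : AG t F, aug r = aug x ∧ P.eval r = 0 := by
  have h1 : IsNilpotent (Polynomial.aeval x P) := by
    rw [aeval_self, nilp_iff, h]
  have h2 : IsUnit (Polynomial.aeval x P.derivative) := by
    rw [aeval_self, unit_iff]
    exact hd
  obtain ⟨r, ⟨hr1, hr2⟩, _⟩ :=
    Polynomial.existsUnique_nilpotent_sub_and_aeval_eq_zero h1 h2
  refine ⟨r, ?_, by rw [← aeval_self, hr2]⟩
  rw [nilp_iff, aug_sub, sub_eq_zero] at hr1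
  exact hr1.symm

/-- values of polynomials at points with the same augmentation -/
theorem aug_eval {t : ℕ} [CharP F 2] (P : Polynomial (AG t F)) (x y : AG t F)
    (h : aug x = aug y) : aug (P.eval x) = aug (P.eval y) := by
  have h1 : IsNilpotent (x - y) := by
    rw [nilp_iff, aug_sub, h, sub_self]
  have h2 := Polynomial.isNilpotent_aeval_sub_of_isNilpotent_sub P h1
  rw [aeval_self, aeval_self, nilp_iff, aug_sub, sub_eq_zero] at h2
  exact h2

theorem coeff_mul_fin {t : ℕ} (x y : AG t F) (c : ZMod (2 ^ t)) :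
    (x * y).coeff c = ∑ b : ZMod (2 ^ t), x.coeff b * y.coeff (c - b) := by
  classical
  rw [AddMonoidAlgebra.coeff_mul_antidiag x y c
    (Finset.univ.image fun b : ZMod (2 ^ t) => (b, c - b))]
  · rw [Finset.sum_image]
    intro a _ b _ hab
    exact (Prod.ext_iff.1 hab).1
  · intro p
    rw [Finset.mem_image]
    constructor
    · rintro ⟨b, _, rfl⟩
      exact add_sub_cancel b c
    · intro hp
      refine ⟨p.1, Finset.mem_univ _, ?_⟩
      rw [← hp, add_sub_cancel_left]

/-! ### The graded parts of a series as an element of the group algebra -/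

theorem gr_zero (hRG : Stmt_RG) (t : ℕ) (c : ZMod (2 ^ t)) : gr t c 0 = 0 := by
  have h := (hRG.2.2.2.1 t c 0 0 0).1
  rw [add_zero] at h
  have h2 := congrArg (fun z => z - gr t c 0) h
  simp only [sub_self, add_sub_cancel_right] at h2
  exact h2.symm

theorem gr_C (hRG : Stmt_RG) (t : ℕ) (c : ZMod (2 ^ t)) (a : kk) :
    gr t c (C a) = (open Classical in if 0 = c then C a else 0) := by
  classical
  have h := (hRG.2.2.2.2.1 t c 0 a 0).2
  rw [Int.cast_zero] at h
  rw [C_apply, h]

/-- `hat y = ∑ gr_c(y) [c]` -/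
noncomputable def hat (hRG : Stmt_RG) (t : ℕ) : KK →+* AG t KK where
  toFun y := AddMonoidAlgebra.ofCoeff (Finsupp.equivFunOnFinite.symm (fun c => gr t c y))
  map_one' := by
    classical
    refine ag_ext fun c => ?_
    rw [AddMonoidAlgebra.one_def, AddMonoidAlgebra.coeff_single]
    show gr t c 1 = _
    rw [← C_one, gr_C hRG, C_one]
    by_cases h : (0 : ZMod (2 ^ t)) = c
    · rw [if_pos h, h, Finsupp.single_eq_same]
    · rw [if_neg h, Finsupp.single_eq_of_ne (Ne.symm h)]
  map_mul' x y := by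
    refine ag_ext fun c => ?_
    rw [coeff_mul_fin]
    exact (hRG.2.2.2.1 t c x y 0).2.2.1
  map_zero' := by
    refine ag_ext fun c => ?_
    exact gr_zero hRG t c
  map_add' x y := by
    refine ag_ext fun c => ?_
    exact (hRG.2.2.2.1 t c x y 0).1

theorem coeff_hat (hRG : Stmt_RG) (t : ℕ) (y : KK) (c : ZMod (2 ^ t)) :
    (hat hRG t y).coeff c = gr t c y := rfl

theorem aug_hat (hRG : Stmt_RG) (t : ℕ) (y : KK) : aug (hat hRG t y) = y :=
  (hRG.2.2.2.1 t 0 y 0 0).2.2.2

/-- a simple root of a polynomial whose coefficients have all graded parts in `K0` -/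
theorem lift_root (hRG : Stmt_RG) {D : ℤ} {t : ℕ} (y : KK) (p : Polynomial KK)
    (hc : ∀ (i : ℕ) (c : ZMod (2 ^ t)), gr t c (p.coeff i) ∈ K0 D) (hy : y ∈ K0 D)
    (h0 : p.eval y = 0) (h1 : p.derivative.eval y ≠ 0) :
    ∃ (P0 : Polynomial (AG t (K0 D))) (r0 : AG t (K0 D)),
      P0.map (mp t (algebraMap (K0 D) KK)) = p.map (hat hRG t) ∧
      P0.eval r0 = 0 ∧ aug (P0.derivative.eval r0) ≠ 0 ∧ aug r0 = ⟨y, hy⟩ ∧
      mp t (algebraMap (K0 D) KK) r0 = hat hRG t y := by
  have hlift : p.map (hat hRG t) ∈ Polynomial.lifts (mp t (algebraMap (K0 D) KK)) := by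
    rw [Polynomial.lifts_iff_coeff_lifts]
    intro i
    refine ⟨AddMonoidAlgebra.ofCoeff (Finsupp.equivFunOnFinite.symm
      (fun c => (⟨gr t c (p.coeff i), hc i c⟩ : K0 D))), ?_⟩
    refine ag_ext fun c => ?_
    rw [coeff_mp, Polynomial.coeff_map, coeff_hat]
    rfl
  obtain ⟨P0, hP0⟩ := (Polynomial.mem_lifts _).1 hlift
  have hmapeval : ∀ x : AG t (K0 D), mp t (algebraMap (K0 D) KK) (P0.eval x) =
      (p.map (hat hRG t)).eval (mp t (algebraMap (K0 D) KK) x) := by
    intro x
    rw [← hP0, Polynomial.eval_map_apply]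
  have hmapeval' : ∀ x : AG t (K0 D), mp t (algebraMap (K0 D) KK) (P0.derivative.eval x) =
      (p.map (hat hRG t)).derivative.eval (mp t (algebraMap (K0 D) KK) x) := by
    intro x
    rw [← hP0, Polynomial.derivative_map, Polynomial.eval_map_apply]
  have hpy : (p.map (hat hRG t)).eval (hat hRG t y) = 0 := by
    rw [Polynomial.eval_map_apply, h0, map_zero]
  have hpy' : (p.map (hat hRG t)).derivative.eval (hat hRG t y) =
      hat hRG t (p.derivative.eval y) := by
    rw [Polynomial.derivative_map, Polynomial.eval_map_apply]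
  have hx0 : aug (mp t (algebraMap (K0 D) KK)
      (AddMonoidAlgebra.single (0 : ZMod (2 ^ t)) (⟨y, hy⟩ : K0 D))) = aug (hat hRG t y) := by
    rw [aug_mp, aug_single, aug_hat]
    rfl
  obtain ⟨r0, hr1, hr2⟩ := root_exists P0
    (AddMonoidAlgebra.single (0 : ZMod (2 ^ t)) (⟨y, hy⟩ : K0 D)) (by
      apply (algebraMap (K0 D) KK).injective
      rw [← aug_mp, hmapeval, aug_eval _ _ _ hx0, hpy, map_zero]
      unfold aug
      apply Finset.sum_eq_zero
      intro c _
      rfl) (by
      intro hcon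
      apply h1
      have h2 := congrArg (algebraMap (K0 D) KK) hcon
      rw [← aug_mp, hmapeval', aug_eval _ _ _ hx0, hpy', aug_hat, map_zero] at h2
      exact h2)
  have hr3 : aug (mp t (algebraMap (K0 D) KK) r0) = aug (hat hRG t y) := by
    rw [aug_mp, hr1, ← aug_mp, hx0]
  refine ⟨P0, r0, hP0, hr2, ?_, by rw [hr1, aug_single], ?_⟩
  · intro hcon
    apply h1
    have h2 := congrArg (algebraMap (K0 D) KK) hcon
    rw [← aug_mp, hmapeval', aug_eval _ _ _ hr3, hpy', aug_hat, map_zero] at h2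
    exact h2
  · apply root_unique (p.map (hat hRG t))
    · rw [← hmapeval, hr2, map_zero]
    · exact hpy
    · exact hr3
    · rw [aug_eval _ _ _ hr3, hpy', aug_hat]
      exact h1

/-- the simple root lemma -/
theorem simple_root (hRG : Stmt_RG) (hM : Stmt_MAPS) {D : ℤ} (hD : 0 < D) (τ : Gam D) (t : ℕ)
    (y y' : KK) (p p' : Polynomial KK) (hyy : Maps τ y y')
    (hc : ∀ i, GG τ t (p.coeff i) (p'.coeff i)) (h0 : p.eval y = 0) (h0' : p'.eval y' = 0)
    (h1 : p.derivative.eval y ≠ 0) : GG τ t y y' := by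
  obtain ⟨hconst, _, hop, hinv, _, _, hsum⟩ := hM D hD τ
  -- the derivative at `y'`
  have hder : Maps τ (p.derivative.eval y) (p'.derivative.eval y') := by
    have hpow : ∀ n : ℕ, Maps τ (y ^ n) (y' ^ n) := by
      intro n
      induction n with
      | zero =>
        rw [pow_zero, pow_zero, ← C_one]
        exact hconst 1
      | succ n ih =>
        rw [pow_succ, pow_succ]
        exact (hop _ _ _ _ ih hyy).2
    have hcf : ∀ i, Maps τ (p.derivative.coeff i) (p'.derivative.coeff i) := by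
      intro i
      rw [Polynomial.coeff_derivative, Polynomial.coeff_derivative]
      refine (hop _ _ _ _ (hc (i + 1)).1 ?_).2
      have h2 := hconst ((i : kk) + 1)
      rw [map_add, map_natCast, map_one] at h2
      exact h2
    have e1 : p.derivative.eval y = ∑ i ∈ Finset.range (max p.natDegree p'.natDegree + 1),
        p.derivative.coeff i * y ^ i := by
      apply Polynomial.eval_eq_sum_range'
      have := Polynomial.natDegree_derivative_le p
      have := le_max_left p.natDegree p'.natDegree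
      omega
    have e2 : p'.derivative.eval y' = ∑ i ∈ Finset.range (max p.natDegree p'.natDegree + 1),
        p'.derivative.coeff i * y' ^ i := by
      apply Polynomial.eval_eq_sum_range'
      have := Polynomial.natDegree_derivative_le p'
      have := le_max_right p.natDegree p'.natDegree
      omega
    rw [e1, e2]
    apply hsum
    intro i _
    exact (hop _ _ _ _ (hcf i) (hpow i)).2
  have h1' : p'.derivative.eval y' ≠ 0 := fun h => h1 ((hinv _ _ hder).2.1.2 h)
  obtain ⟨hy, hy', hτ⟩ := hyy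
  obtain ⟨P0, r0, hP0, hr0, hd0, ha0, hm0⟩ := lift_root hRG (t := t) y p
    (fun i c => by
      obtain ⟨h, _, _⟩ := (hc i).2 c
      exact h) hy h0 h1
  obtain ⟨P1, r1, hP1, hr1, hd1, ha1, hm1⟩ := lift_root hRG (t := t) y' p'
    (fun i c => by
      obtain ⟨_, h, _⟩ := (hc i).2 c
      exact h) hy' h0' h1'
  -- the transported polynomials agree
  have hPP : P0.map (mp t ((τ : Om D →+* Om D).comp (algebraMap (K0 D) (Om D)))) =
      P1.map (mp t (algebraMap (K0 D) (Om D))) := by
    ext i c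
    rw [Polynomial.coeff_map, Polynomial.coeff_map, coeff_mp, coeff_mp]
    obtain ⟨ha, hb, hab⟩ := (hc i).2 c
    have e0 : (P0.coeff i).coeff c = ⟨gr t c (p.coeff i), ha⟩ := by
      apply (algebraMap (K0 D) KK).injective
      rw [← coeff_mp, ← Polynomial.coeff_map, hP0, Polynomial.coeff_map, coeff_hat]
      rfl
    have e1 : (P1.coeff i).coeff c = ⟨gr t c (p'.coeff i), hb⟩ := by
      apply (algebraMap (K0 D) KK).injective
      rw [← coeff_mp, ← Polynomial.coeff_map, hP1, Polynomial.coeff_map, coeff_hat]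
      rfl
    rw [e0, e1]
    exact hab
  have hfin : mp t ((τ : Om D →+* Om D).comp (algebraMap (K0 D) (Om D))) r0 =
      mp t (algebraMap (K0 D) (Om D)) r1 := by
    apply root_unique (P1.map (mp t (algebraMap (K0 D) (Om D))))
    · rw [← hPP, Polynomial.eval_map_apply, hr0, map_zero]
    · rw [Polynomial.eval_map_apply, hr1, map_zero]
    · rw [aug_mp, aug_mp, ha0, ha1]
      exact hτ
    · rw [← hPP, Polynomial.derivative_map, Polynomial.eval_map_apply, aug_mp]
      intro h
      exact hd0 ((map_eq_zero _).1 h)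
  refine ⟨⟨hy, hy', hτ⟩, fun c => ?_⟩
  have f0 : algebraMap (K0 D) KK (r0.coeff c) = gr t c y := by
    rw [← coeff_mp, hm0, coeff_hat]
  have f1 : algebraMap (K0 D) KK (r1.coeff c) = gr t c y' := by
    rw [← coeff_mp, hm1, coeff_hat]
  have g0 : gr t c y ∈ K0 D := by
    rw [← f0]
    exact (r0.coeff c).2
  have g1 : gr t c y' ∈ K0 D := by
    rw [← f1]
    exact (r1.coeff c).2
  refine ⟨g0, g1, ?_⟩
  have k0 : (⟨gr t c y, g0⟩ : K0 D) = r0.coeff c := Subtype.ext f0.symm
  have k1 : (⟨gr t c y', g1⟩ : K0 D) = r1.coeff c := Subtype.ext f1.symm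
  rw [k0, k1]
  have h2 := congrArg (fun z : AG t (Om D) => z.coeff c) hfin
  simp only [coeff_mp] at h2
  exact h2

theorem gg_C (hRG : Stmt_RG) (hM : Stmt_MAPS) {D : ℤ} (hD : 0 < D) (τ : Gam D) (t : ℕ)
    (c : kk) : GG τ t (C c) (C c) := by
  classical
  obtain ⟨hconst, _⟩ := hM D hD τ
  refine ⟨hconst c, fun d => ?_⟩
  rw [gr_C hRG]
  by_cases h : (0 : ZMod (2 ^ t)) = d
  · rw [if_pos h]
    exact hconst c
  · rw [if_neg h, ← map_zero (C : kk →+* KK)]
    exact hconst 0

theorem gg_op (hRG : Stmt_RG) (hM : Stmt_MAPS) {D : ℤ} (hD : 0 < D) (τ : Gam D) (t : ℕ)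
    (y y' u u' : KK) (h : GG τ t y y') (h' : GG τ t u u') :
    GG τ t (y + u) (y' + u') ∧ GG τ t (y * u) (y' * u') := by
  obtain ⟨_, _, hop, _, _, _, hsum⟩ := hM D hD τ
  refine ⟨⟨(hop _ _ _ _ h.1 h'.1).1, fun c => ?_⟩, ⟨(hop _ _ _ _ h.1 h'.1).2, fun c => ?_⟩⟩
  · rw [(hRG.2.2.2.1 t c y u 0).1, (hRG.2.2.2.1 t c y' u' 0).1]
    exact (hop _ _ _ _ (h.2 c) (h'.2 c)).1
  · rw [(hRG.2.2.2.1 t c y u 0).2.2.1, (hRG.2.2.2.1 t c y' u' 0).2.2.1]
    apply hsum
    intro b _
    exact (hop _ _ _ _ (h.2 b) (h'.2 (c - b))).2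

theorem gg_inv (hRG : Stmt_RG) (hM : Stmt_MAPS) {D : ℤ} (hD : 0 < D) (τ : Gam D) (t : ℕ)
    (y y' : KK) (h : GG τ t y y') : GG τ t y⁻¹ y'⁻¹ := by
  obtain ⟨_, _, _, hinv, _, _, _⟩ := hM D hD τ
  have hiff := (hinv _ _ h.1).2.1
  by_cases hy : y = 0
  · have hy' := hiff.1 hy
    rw [hy, hy', inv_zero]
    have h0 := gg_C hRG hM hD τ t 0
    rw [map_zero] at h0
    exact h0
  · have hy' : y' ≠ 0 := fun h2 => hy (hiff.2 h2)
    apply simple_root hRG hM hD τ t y⁻¹ y'⁻¹
      (Polynomial.C y * Polynomial.X + Polynomial.C 1)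
      (Polynomial.C y' * Polynomial.X + Polynomial.C 1) (hinv _ _ h.1).1
    · intro i
      have h0 := gg_C hRG hM hD τ t 0
      rw [map_zero] at h0
      have h1 := gg_C hRG hM hD τ t 1
      rw [map_one] at h1
      rw [Polynomial.coeff_add, Polynomial.coeff_add, Polynomial.coeff_C_mul,
        Polynomial.coeff_C_mul, Polynomial.coeff_X, Polynomial.coeff_C]
      match i with
      | 0 =>
        rw [if_neg one_ne_zero, if_pos rfl, mul_zero, mul_zero, zero_add]
        exact h1
      | 1 =>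
        rw [if_pos rfl, if_neg one_ne_zero, mul_one, mul_one, add_zero, add_zero]
        exact h
      | (n + 2) =>
        rw [if_neg (by omega), if_neg (by omega), mul_zero, mul_zero, zero_add]
        exact h0
    · rw [Polynomial.eval_add, Polynomial.eval_mul, Polynomial.eval_C, Polynomial.eval_C,
        Polynomial.eval_X, mul_inv_cancel₀ hy]
      exact CharTwo.add_self_eq_zero _
    · rw [Polynomial.eval_add, Polynomial.eval_mul, Polynomial.eval_C, Polynomial.eval_C,
        Polynomial.eval_X, mul_inv_cancel₀ hy']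
      exact CharTwo.add_self_eq_zero _
    · rw [Polynomial.derivative_add, Polynomial.derivative_C, Polynomial.derivative_mul,
        Polynomial.derivative_C, Polynomial.derivative_X, zero_mul, zero_add, mul_one,
        add_zero, Polynomial.eval_C]
      exact hy

/-- cube roots -/
theorem gg_cube (hRG : Stmt_RG) (hM : Stmt_MAPS) {D : ℤ} (hD : 0 < D) (τ : Gam D) (t : ℕ)
    (y y' : KK) (hy : y ≠ 0) (h3 : y ^ 3 ∈ K0 D) (hg : GG τ t (y ^ 3) (y' ^ 3)) :
    ∃ ω : kk, ω ^ 3 = 1 ∧ GG τ t y (C ω * y') := by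
  obtain ⟨hconst, _, hop, hinv, _, _, _⟩ := hM D hD τ
  have hroot : ∀ z : KK, z ^ 3 ∈ K0 D → z ∈ K0 D := by
    intro z hz
    rw [mem_K0] at hz ⊢
    exact hz.of_pow three_pos
  have hyK : y ∈ K0 D := hroot y h3
  obtain ⟨ha, hb, hab⟩ := hg.1
  have hyK' : y' ∈ K0 D := hroot y' hb
  have hy3' : y' ^ 3 ≠ 0 := fun h => pow_ne_zero 3 hy ((hinv _ _ hg.1).2.1.2 h)
  have hy' : y' ≠ 0 := fun h => hy3' (by rw [h, zero_pow three_ne_zero])
  -- a primitive cube root of unity in `kk`
  obtain ⟨ω, hω⟩ : ∃ ω : kk, ω ^ 2 + ω + 1 = 0 := by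
    have hdeg : (Polynomial.X ^ 2 + Polynomial.X + 1 : Polynomial kk).degree ≠ 0 := by
      have : (Polynomial.X ^ 2 + Polynomial.X + 1 : Polynomial kk).degree = 2 := by
        compute_degree!
      rw [this]
      decide
    obtain ⟨ω, hω⟩ := IsAlgClosed.exists_root _ hdeg
    refine ⟨ω, ?_⟩
    rw [Polynomial.IsRoot.def] at hω
    simpa using hω
  have hω3 : ω ^ 3 = 1 := by
    have : ω ^ 3 - 1 = (ω - 1) * (ω ^ 2 + ω + 1) := by ring
    rw [hω, mul_zero] at this
    exact sub_eq_zero.1 this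
  -- images in `Om`
  have hcK : ∀ c : kk, (C c : KK) ∈ K0 D := by
    intro c
    obtain ⟨h, _, _⟩ := hconst c
    exact h
  obtain ⟨jy, hjy⟩ : ∃ z, z = algebraMap (K0 D) (Om D) ⟨y, hyK⟩ := ⟨_, rfl⟩
  obtain ⟨jy', hjy'⟩ : ∃ z, z = algebraMap (K0 D) (Om D) ⟨y', hyK'⟩ := ⟨_, rfl⟩
  obtain ⟨jw, hjw⟩ : ∃ z, z = algebraMap (K0 D) (Om D) ⟨C ω, hcK ω⟩ := ⟨_, rfl⟩
  have hjyn : jy' ≠ 0 := by
    intro h
    rw [hjy'] at h
    have h2 := (map_eq_zero _).1 h
    exact hy' (congrArg Subtype.val h2)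
  have hcub : τ jy ^ 3 = jy' ^ 3 := by
    rw [hjy, hjy', ← map_pow, ← map_pow, ← map_pow]
    exact hab
  have hjw2 : jw ^ 2 + jw + 1 = 0 := by
    rw [hjw, ← map_pow, ← map_one (algebraMap (K0 D) (Om D)), ← map_add, ← map_add]
    have : ((⟨C ω, hcK ω⟩ : K0 D) ^ 2 + ⟨C ω, hcK ω⟩ + 1) = 0 := by
      apply Subtype.ext
      show (C ω : KK) ^ 2 + C ω + 1 = 0
      rw [← map_pow, ← map_one (C : kk →+* KK), ← map_add, ← map_add, hω, map_zero]
    rw [this, map_zero]
  -- the three cases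
  have hcase : τ jy = jy' ∨ τ jy = jw * jy' ∨ τ jy = jw ^ 2 * jy' := by
    have hprod : (τ jy - jy') * ((τ jy - jw * jy') * (τ jy - jw ^ 2 * jy')) = 0 := by
      have e1 : (τ jy - jy') * ((τ jy - jw * jy') * (τ jy - jw ^ 2 * jy')) =
          τ jy ^ 3 - jy' ^ 3 - (jw ^ 2 + jw + 1) * (τ jy ^ 2 * jy') +
          (jw ^ 2 + jw + 1) * jw * (τ jy * jy' ^ 2) - (jw ^ 2 + jw + 1) * (jw - 1) * jy' ^ 3 := by
        ring
      rw [e1, hjw2, hcub]
      ring
    rcases mul_eq_zero.1 hprod with h | h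
    · exact Or.inl (sub_eq_zero.1 h)
    · rcases mul_eq_zero.1 h with h | h
      · exact Or.inr (Or.inl (sub_eq_zero.1 h))
      · exact Or.inr (Or.inr (sub_eq_zero.1 h))
  -- reduce to `Maps`
  have hfinal : ∀ c : kk, c ^ 3 = 1 → Maps τ y (C c * y') → GG τ t y (C c * y') := by
    intro c hc hm
    apply simple_root hRG hM hD τ t y (C c * y')
      (Polynomial.X ^ 3 + Polynomial.C (y ^ 3)) (Polynomial.X ^ 3 + Polynomial.C (y' ^ 3)) hm
    · intro i
      have h0 := gg_C hRG hM hD τ t 0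
      rw [map_zero] at h0
      have h1 := gg_C hRG hM hD τ t 1
      rw [map_one] at h1
      rw [Polynomial.coeff_add, Polynomial.coeff_add, Polynomial.coeff_X_pow,
        Polynomial.coeff_C, Polynomial.coeff_C]
      by_cases hi3 : i = 3
      · rw [if_pos hi3, if_neg (by omega), if_neg (by omega), add_zero]
        exact h1
      · rw [if_neg hi3]
        by_cases hi0 : i = 0
        · rw [if_pos hi0, if_pos hi0, zero_add, zero_add]
          exact hg
        · rw [if_neg hi0, if_neg hi0, add_zero]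
          exact h0
    · rw [Polynomial.eval_add, Polynomial.eval_pow, Polynomial.eval_X, Polynomial.eval_C]
      exact CharTwo.add_self_eq_zero _
    · rw [Polynomial.eval_add, Polynomial.eval_pow, Polynomial.eval_X, Polynomial.eval_C,
        mul_pow, ← map_pow, hc, map_one, one_mul]
      exact CharTwo.add_self_eq_zero _
    · rw [Polynomial.derivative_add, Polynomial.derivative_C, add_zero,
        Polynomial.derivative_X_pow, Polynomial.eval_mul, Polynomial.eval_C,
        Polynomial.eval_pow, Polynomial.eval_X]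
      have e3 : ((3 : ℕ) : KK) = 1 := by
        have h2 : ((2 : ℕ) : KK) = 0 := CharP.cast_eq_zero KK 2
        have h5 : ((3 : ℕ) : KK) = ((2 : ℕ) : KK) + 1 := by push_cast; norm_num
        rw [h5, h2, zero_add]
      rw [e3, one_mul]
      exact pow_ne_zero _ hy
  have hmap : ∀ (c : kk) (jc : Om D), jc = algebraMap (K0 D) (Om D) ⟨C c, hcK c⟩ →
      τ jy = jc * jy' → Maps τ y (C c * y') := by
    intro c jc hjc h
    refine ⟨hyK, mul_mem (hcK c) hyK', ?_⟩
    rw [← hjy, h, hjc, hjy', ← map_mul]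
    rfl
  rcases hcase with h | h | h
  · refine ⟨1, one_pow 3, hfinal 1 (one_pow 3) (hmap 1 1 ?_ ?_)⟩
    · rw [← map_one (algebraMap (K0 D) (Om D))]
      apply congrArg
      apply Subtype.ext
      show (1 : KK) = C 1
      rw [map_one]
    · rw [one_mul, h]
  · exact ⟨ω, hω3, hfinal ω hω3 (hmap ω jw hjw h)⟩
  · refine ⟨ω ^ 2, by rw [← pow_mul, mul_comm, pow_mul, hω3, one_pow],
      hfinal (ω ^ 2) (by rw [← pow_mul, mul_comm, pow_mul, hω3, one_pow])
        (hmap (ω ^ 2) (jw ^ 2) ?_ h)⟩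
    rw [hjw, ← map_pow]
    apply congrArg
    apply Subtype.ext
    show (C ω : KK) ^ 2 = C (ω ^ 2)
    rw [map_pow]

end GGC

theorem blk_GGC (hRG : Stmt_RG) (hMAPS : Stmt_MAPS) : Stmt_GGC := by
  intro D hD τ t
  exact ⟨GGC.gg_C hRG hMAPS hD τ t, GGC.gg_op hRG hMAPS hD τ t, GGC.gg_inv hRG hMAPS hD τ t,
    fun y y' p p' h1 h2 h3 h4 h5 => GGC.simple_root hRG hMAPS hD τ t y y' p p' h1 h2 h3 h4 h5,
    GGC.gg_cube hRG hMAPS hD τ t⟩

end Pool.Agent.Work.P57
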