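import Pool.Agent.Work.P57.Interface

/-!
# P57, block GRX
-/

set_option autoImplicit false

namespace Pool.Agent.Work.P57

open HahnSeries

namespace GRX

open Classical in
theorem coeff_Th_one {ι : Type} {E : ι → ℤ} (h : Tame E) (hinj : Function.Injective E) (g : ℤ) :
    (Th E (fun _ => 1)).coeff g = if ∃ i, E i = g then 1 else 0 := by
  rw [coeff_Th h]
  by_cases hg : ∃ i, E i = g
  · obtain ⟨i, hi⟩ := hg
    rw [if_pos ⟨i, hi⟩, finsum_eq_single _ i]
    · rw [if_pos hi]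
    · intro k hk
      rw [if_neg]
      intro hk'
      exact hk (hinj (hk'.trans hi.symm))
  · rw [if_neg hg]
    apply finsum_eq_zero_of_forall_eq_zero
    intro i
    rw [if_neg]
    intro hi
    exact hg ⟨i, hi⟩

open Classical in
theorem coeff_Del (hTH : Stmt_TH) {D : ℤ} (hD : 0 < D) (g : ℤ) :
    (Del 1 D).coeff g = if ∃ n : ℕ, D * (2 * n + 1) ^ 2 = g then 1 else 0 := by
  obtain ⟨-, -, -, -, -, -, -, -, h9⟩ := hTH
  have h := coeff_Th_one (h9 D hD).2.1 ?_ g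
  · rw [← h]
    unfold Del
    simp only [one_pow, Units.val_one]
  · intro a b hab
    have h1 : ((2 * a + 1 : ℤ)) ^ 2 = (2 * b + 1) ^ 2 := mul_left_cancel₀ hD.ne' hab
    have h2 : (2 * a + 1 : ℤ) = 2 * b + 1 :=
      (pow_left_inj₀ (by positivity) (by positivity) two_ne_zero).1 h1
    omega

open Classical in
theorem coeff_vth (hTH : Stmt_TH) {D : ℤ} (hD : 0 < D) {T : ℕ} (hT : 2 ≤ T) {a : ℤ}
    (ha : a % 4 = 1) (g : ℤ) :
    (vth D T a).coeff g =
      if ∃ n : ℤ, D * (a + 2 ^ T * n) ^ 2 = g then 1 else 0 := by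
  obtain ⟨-, -, -, -, -, -, -, -, h9⟩ := hTH
  have h := coeff_Th_one ((h9 D hD).2.2.2 T a) ?_ g
  · rw [← h]
    rfl
  · intro m n hmn
    have h1 : ((a + 2 ^ T * m : ℤ)) ^ 2 = (a + 2 ^ T * n) ^ 2 := mul_left_cancel₀ hD.ne' hmn
    obtain ⟨k, rfl⟩ : ∃ k, T = k + 2 := ⟨T - 2, by omega⟩
    have hp : (2 : ℤ) ^ (k + 2) = 4 * 2 ^ k := by ring
    rcases sq_eq_sq_iff_eq_or_eq_neg.1 h1 with h2 | h2
    · have h3 : (2 : ℤ) ^ (k + 2) * m = 2 ^ (k + 2) * n := by linarith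
      exact mul_left_cancel₀ (by positivity) h3
    · exfalso
      rw [hp, mul_assoc, mul_assoc] at h2
      omega

/-- the graded part of `Δ` is a sum of theta series -/
theorem gr_Del (hTH : Stmt_TH) {D : ℤ} (hD : 0 < D) (t : ℕ) (c : ZMod (2 ^ t)) :
    ∃ S : Finset ℕ, (∀ a ∈ S, Odd (a : ℤ)) ∧
      gr t c (Del 1 D) = ∑ a ∈ S, vth D (max t 2) (a : ℤ) := by
  classical
  set T := max t 2 with hT
  have hT2 : 2 ≤ T := le_max_right _ _
  have hTt : t ≤ T := le_max_left _ _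
  obtain ⟨k, hk⟩ : ∃ k, T = k + 2 := ⟨T - 2, by omega⟩
  have hp : (2 : ℤ) ^ T = 4 * 2 ^ k := by rw [hk]; ring
  have hpd : (2 : ℤ) ^ t ∣ 2 ^ T := pow_dvd_pow _ hTt
  have hcast : ∀ (a n : ℤ), ((D * (a + 2 ^ T * n) ^ 2 : ℤ) : ZMod (2 ^ t)) =
      ((D * a ^ 2 : ℤ) : ZMod (2 ^ t)) := by
    intro a n
    have h0 : ((2 ^ T : ℤ) : ZMod (2 ^ t)) = 0 := by
      rw [ZMod.intCast_zmod_eq_zero_iff_dvd]
      exact_mod_cast hpd
    push_cast at h0 ⊢
    rw [h0]
    ring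
  refine ⟨(Finset.range (2 ^ T)).filter
    (fun a => a % 4 = 1 ∧ ((D * (a : ℤ) ^ 2 : ℤ) : ZMod (2 ^ t)) = c), ?_, ?_⟩
  · intro a ha
    rw [Finset.mem_filter] at ha
    rw [Int.odd_iff]
    have := ha.2.1
    omega
  · ext g
    rw [HahnSeries.coeff_sum]
    have hterm : ∀ a ∈ (Finset.range (2 ^ T)).filter
        (fun a : ℕ => a % 4 = 1 ∧ ((D * (a : ℤ) ^ 2 : ℤ) : ZMod (2 ^ t)) = c),
        (vth D T (a : ℤ)).coeff g = if ∃ n : ℤ, D * (a + 2 ^ T * n) ^ 2 = g then 1 else 0 := by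
      intro a ha
      rw [Finset.mem_filter] at ha
      exact coeff_vth hTH hD hT2 (by omega) g
    rw [Finset.sum_congr rfl hterm]
    show (if (g : ZMod (2 ^ t)) = c then (Del 1 D).coeff g else 0) = _
    rw [coeff_Del hTH hD]
    by_cases hg : (g : ZMod (2 ^ t)) = c
    · rw [if_pos hg]
      by_cases hn : ∃ n : ℕ, D * (2 * n + 1) ^ 2 = g
      · obtain ⟨n, hn⟩ := hn
        rw [if_pos ⟨n, hn⟩]
        -- x = ±(2 n + 1), ≡ 1 mod 4
        obtain ⟨x, hx4, hx2⟩ : ∃ x : ℤ, x % 4 = 1 ∧ x ^ 2 = (2 * n + 1) ^ 2 := by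
          by_cases hpar : (n : ℤ) % 2 = 0
          · exact ⟨2 * n + 1, by omega, rfl⟩
          · exact ⟨-(2 * n + 1), by omega, by ring⟩
        have hxg : D * x ^ 2 = g := by rw [hx2, hn]
        have hTpos : (0 : ℤ) < 2 ^ T := by positivity
        set a0 : ℕ := (x % 2 ^ T).toNat with ha0
        have ha0' : (a0 : ℤ) = x % 2 ^ T := Int.toNat_of_nonneg (Int.emod_nonneg _ hTpos.ne')
        have hxa : x = a0 + 2 ^ T * (x / 2 ^ T) := by
          rw [ha0']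
          exact (Int.emod_add_mul_ediv x (2 ^ T)).symm
        have ha04 : a0 % 4 = 1 := by
          have h1 : x = a0 + 4 * (2 ^ k * (x / 2 ^ T)) := by
            rw [← mul_assoc, ← hp]
            exact hxa
          omega
        rw [Finset.sum_eq_single a0]
        · rw [if_pos ⟨x / 2 ^ T, by rw [← hxa, hxg]⟩]
        · intro b hb hba
          rw [if_neg]
          rintro ⟨m, hm⟩
          apply hba
          rw [Finset.mem_filter, Finset.mem_range] at hb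
          have h1 : (b + 2 ^ T * m : ℤ) ^ 2 = x ^ 2 :=
            mul_left_cancel₀ hD.ne' (hm.trans hxg.symm)
          rcases sq_eq_sq_iff_eq_or_eq_neg.1 h1 with h2 | h2
          · have hbT : (b : ℤ) < 2 ^ T := by exact_mod_cast hb.1
            have h3 : x % 2 ^ T = b := by
              rw [← h2, Int.add_mul_emod_self_left]
              exact Int.emod_eq_of_lt (by positivity) hbT
            omega
          · exfalso
            have hb4 := hb.2.1
            rw [hp, mul_assoc] at h2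
            omega
        · intro h
          exfalso
          apply h
          rw [Finset.mem_filter, Finset.mem_range]
          refine ⟨?_, ha04, ?_⟩
          · have h1 : (a0 : ℤ) < 2 ^ T := by
              rw [ha0']
              exact Int.emod_lt_of_pos _ hTpos
            exact_mod_cast h1
          · rw [← hcast _ (x / 2 ^ T), ← hxa, hxg, hg]
      · rw [if_neg hn]
        symm
        apply Finset.sum_eq_zero
        intro a ha
        rw [Finset.mem_filter] at ha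
        rw [if_neg]
        rintro ⟨m, hm⟩
        apply hn
        obtain ⟨j, hj⟩ : ∃ j : ℤ, (a : ℤ) + 2 ^ T * m = 2 * j + 1 := by
          have ha4 := ha.2.1
          refine ⟨((a : ℤ) + 4 * (2 ^ k * m)) / 2, ?_⟩
          rw [hp, mul_assoc]
          omega
        rw [hj] at hm
        rcases le_or_gt 0 j with hj0 | hj0
        · refine ⟨j.toNat, ?_⟩
          rw [Int.toNat_of_nonneg hj0]
          exact hm
        · refine ⟨(-j - 1).toNat, ?_⟩
          rw [Int.toNat_of_nonneg (by omega), ← hm]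
          ring
    · rw [if_neg hg]
      symm
      apply Finset.sum_eq_zero
      intro a ha
      rw [Finset.mem_filter] at ha
      rw [if_neg]
      rintro ⟨m, hm⟩
      apply hg
      rw [← hm, hcast]
      exact ha.2.2

theorem GG_Del (hTH : Stmt_TH) (hMAPS : Stmt_MAPS) {D : ℤ} (hD : 0 < D) (τ : Gam D)
    (hV : ∀ (t : ℕ) (a : ℤ), 2 ≤ t → Odd a → Maps τ (vth D t a) (vth D t a)) (t : ℕ) :
    GG τ t (Del 1 D) (Del 1 D) := by
  obtain ⟨-, h2, -, -, -, -, h7⟩ := hMAPS D hD τ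
  refine ⟨h2, fun c => ?_⟩
  obtain ⟨S, hS, hc⟩ := gr_Del hTH hD t c
  rw [hc]
  exact h7 ℕ S _ _ (fun a ha => hV _ _ (le_max_right _ _) (hS a ha))

theorem GG_aeval (hGGC : Stmt_GGC) {D : ℤ} (hD : 0 < D) (τ : Gam D) (t : ℕ)
    (h : GG τ t (Del 1 D) (Del 1 D)) (f : Polynomial kk) :
    GG τ t (Polynomial.aeval (Del 1 D) f) (Polynomial.aeval (Del 1 D) f) := by
  obtain ⟨gC, gS, -, -, -⟩ := hGGC D hD τ t
  refine Polynomial.induction_on (motive := fun f => GG τ t (Polynomial.aeval (Del 1 D) f)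
    (Polynomial.aeval (Del 1 D) f)) f ?_ ?_ ?_
  · intro a
    rw [Polynomial.aeval_C, ← HahnSeries.C_eq_algebraMap]
    exact gC a
  · intro p q hp hq
    rw [map_add]
    exact (gS _ _ _ _ hp hq).1
  · intro n a hn
    rw [pow_succ, ← mul_assoc, map_mul, Polynomial.aeval_X]
    exact (gS _ _ _ _ hn h).2

theorem n0_eq {s : ℕ} : n0 s = nn s * (2 ^ s + 1) := by
  show 4 ^ s - 1 = (2 ^ s - 1) * (2 ^ s + 1)
  have h1 : (4 : ℕ) ^ s = 2 ^ s * 2 ^ s := by
    rw [← mul_pow]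
    norm_num
  have h2 : 1 ≤ 2 ^ s := Nat.one_le_two_pow
  rw [h1]
  obtain ⟨k, hk⟩ : ∃ k, 2 ^ s = k + 1 := ⟨2 ^ s - 1, by omega⟩
  rw [hk]
  simp only [Nat.add_sub_cancel]
  have : (k + 1) * (k + 1) = k * (k + 1 + 1) + 1 := by ring
  omega

theorem pt_ne_zero {s : ℕ} (hs : 2 ≤ s) {v : Fin 2 → ZMod (nn s)} (hv : v ≠ 0) :
    ((((2 ^ s + 1) * (v 0).val : ℕ) : ZMod (n0 s)), (((2 ^ s + 1) * (v 1).val : ℕ) :
      ZMod (n0 s))) ≠ 0 := by
  intro h
  apply hv
  rw [Prod.mk_eq_zero] at h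
  have hn : 3 ≤ nn s := by
    have h4 : 2 ^ 2 ≤ 2 ^ s := Nat.pow_le_pow_right (by norm_num) hs
    show 3 ≤ 2 ^ s - 1
    omega
  have : NeZero (nn s) := ⟨by omega⟩
  have key : ∀ x : ZMod (nn s), (((2 ^ s + 1) * x.val : ℕ) : ZMod (n0 s)) = 0 → x = 0 := by
    intro x hx
    rw [ZMod.natCast_eq_zero_iff, n0_eq, mul_comm (nn s)] at hx
    have hx' : nn s ∣ x.val := Nat.dvd_of_mul_dvd_mul_left (by positivity) hx
    rw [← ZMod.val_eq_zero]
    exact Nat.eq_zero_of_dvd_of_lt hx' (ZMod.val_lt x)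
  funext i
  fin_cases i
  · exact key _ h.1
  · exact key _ h.2

theorem pt_tors {s : ℕ} (v : Fin 2 → ZMod (nn s)) :
    (2 ^ s - 1) • ((((2 ^ s + 1) * (v 0).val : ℕ) : ZMod (n0 s)),
      (((2 ^ s + 1) * (v 1).val : ℕ) : ZMod (n0 s))) = 0 := by
  have key : ∀ x : ℕ, (2 ^ s - 1) • (((2 ^ s + 1) * x : ℕ) : ZMod (n0 s)) = 0 := by
    intro x
    rw [nsmul_eq_mul, ← Nat.cast_mul, ← mul_assoc, ZMod.natCast_eq_zero_iff]
    refine Dvd.dvd.mul_right ?_ _
    rw [n0_eq]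
  rw [Prod.smul_mk, key, key]
  rfl

end GRX

open GRX in
theorem blk_GRX (hTH : Stmt_TH) (hRG : Stmt_RG) (hMAPS : Stmt_MAPS) (hELL : Stmt_ELL)
    (hDYN : Stmt_DYN) (hGGC : Stmt_GGC) : Stmt_GRX := by
  intro s ξ hs hξ τ M hM hA hV t v hv
  have hn : 3 ≤ nn s := by
    have h4 : 2 ^ 2 ≤ 2 ^ s := Nat.pow_le_pow_right (by norm_num) hs
    show 3 ≤ 2 ^ s - 1
    omega
  have hD : (0 : ℤ) < (D0 s : ℕ) := by
    have : 0 < D0 s := by
      show 0 < 3 * n0 s
      rw [n0_eq]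
      positivity
    exact_mod_cast this
  have hΔ := GG_Del hTH hMAPS hD τ hV t
  obtain ⟨p, -, hp, hp', -⟩ := hDYN s ξ (by omega) hξ
  obtain ⟨-, -, -, g4, -⟩ := hGGC (D0 s) hD τ t
  have hMv : M.mulVec v ≠ 0 := by
    intro h
    apply hv
    have h1 : M⁻¹.mulVec (M.mulVec v) = v := by
      rw [Matrix.mulVec_mulVec, Matrix.nonsing_inv_mul _ hM, Matrix.one_mulVec]
    rw [← h1, h, Matrix.mulVec_zero]
  refine g4 _ _ _ _ (hA v hv) (fun i => ?_) ((hp _).2 ⟨_, pt_ne_zero hs hv,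
    Or.inl (pt_tors v), rfl⟩) ((hp _).2 ⟨_, pt_ne_zero hs hMv, Or.inl (pt_tors _), rfl⟩)
    (hp' _ (pt_ne_zero hs hv) (Or.inl (pt_tors v)))
  rw [Polynomial.coeff_map]
  exact GG_aeval hGGC hD τ t hΔ _

end Pool.Agent.Work.P57
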