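import Pool.Agent.Work.P57.Interface

/-! GS: `Gs^3 Psi(w) Psi(w^3) = 1`. -/

set_option autoImplicit false

namespace Pool.Agent.Work.P57

open HahnSeries

namespace GS

/-- multiplication by `e > 0` as an additive map -/
def mulE (e : ℤ) : ℤ →+ ℤ := AddMonoidHom.mulLeft e

/-- the substitution `X ↦ ξ z^e` -/
noncomputable def Phi (ξ : kkˣ) (e : ℤ) (he : 0 < e) : PowerSeries (ZMod 2) →+* KK :=
  (HahnSeries.embDomainRingHom (mulE e)
    (fun _ _ h => mul_left_cancel₀ he.ne' h)
    (fun _ _ => mul_le_mul_iff_of_pos_left he)).comp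
  ((HahnSeries.ofPowerSeries ℤ kk).comp
    ((PowerSeries.rescale (ξ : kk)).comp (PowerSeries.map (ZMod.castHom (dvd_refl 2) kk))))

theorem coeff_Phi_mul (ξ : kkˣ) (e : ℤ) (he : 0 < e) (f : PowerSeries (ZMod 2)) (n : ℕ) :
    (Phi ξ e he f).coeff (e * n) = ((ξ ^ n : kkˣ) : kk) *
      ZMod.castHom (dvd_refl 2) kk (PowerSeries.coeff n f) := by
  have h1 : (e * n : ℤ) = mulE e (n : ℤ) := rfl
  rw [h1]
  simp only [Phi, RingHom.comp_apply]
  erw [HahnSeries.embDomain_coeff]
  rw [HahnSeries.ofPowerSeries_apply_coeff, PowerSeries.coeff_rescale, PowerSeries.coeff_map]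
  simp

theorem coeff_Phi_out (ξ : kkˣ) (e : ℤ) (he : 0 < e) (f : PowerSeries (ZMod 2)) (g : ℤ)
    (hg : ∀ n : ℕ, g ≠ e * n) : (Phi ξ e he f).coeff g = 0 := by
  simp only [Phi, RingHom.comp_apply]
  by_cases h : ∃ m : ℤ, g = e * m
  · obtain ⟨m, rfl⟩ := h
    have h1 : (e * m : ℤ) = mulE e m := rfl
    rw [h1]
    erw [HahnSeries.embDomain_coeff]
    rw [HahnSeries.ofPowerSeries_apply, HahnSeries.embDomain_of_notMem_range]
    rintro ⟨n, hn⟩
    exact hg n (by rw [← hn]; rfl)
  · erw [HahnSeries.embDomain_of_notMem_range]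
    rintro ⟨m, hm⟩
    exact h ⟨m, hm.symm⟩

theorem tame_of_inj {ι : Type} (u : ι → ℕ) (hu : Function.Injective u) (e : ℤ) (he : 0 < e) :
    Tame (fun i => e * (u i : ℤ)) := by
  intro B
  refine ((Set.finite_le_nat B.toNat).preimage hu.injOn).subset ?_
  intro i hi
  have h1 : e * (u i : ℤ) ≤ B := hi
  have h2 : (u i : ℤ) ≤ B := by nlinarith [Int.natCast_nonneg (u i)]
  show u i ≤ B.toNat
  omega

theorem Th_eq {ι : Type} (u : ι → ℕ) (hu : Function.Injective u) (ξ : kkˣ) (e : ℤ) (he : 0 < e)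
    (c : ι → kk) (f : PowerSeries (ZMod 2))
    (h1 : ∀ i, c i = ((ξ ^ (u i) : kkˣ) : kk) *
      ZMod.castHom (dvd_refl 2) kk (PowerSeries.coeff (u i) f))
    (h2 : ∀ n, (∀ i, u i ≠ n) → PowerSeries.coeff n f = 0) :
    Th (fun i => e * (u i : ℤ)) c = Phi ξ e he f := by
  ext g
  rw [coeff_Th (tame_of_inj u hu e he)]
  by_cases hg : ∃ n : ℕ, g = e * n
  · obtain ⟨n, rfl⟩ := hg
    rw [coeff_Phi_mul]
    by_cases hn : ∃ i, u i = n
    · obtain ⟨i, rfl⟩ := hn
      rw [finsum_eq_single _ i, if_pos rfl, h1 i]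
      intro j hj
      rw [if_neg]
      intro h
      have h3 := mul_left_cancel₀ he.ne' h
      exact hj (hu (by exact_mod_cast h3))
    · push Not at hn
      rw [h2 n hn, map_zero, mul_zero]
      have h0 : (fun i => open Classical in if e * (u i : ℤ) = e * n then c i else 0) =
          fun _ => 0 := by
        funext i
        rw [if_neg]
        intro h
        have h3 := mul_left_cancel₀ he.ne' h
        exact hn i (by exact_mod_cast h3)
      rw [h0, finsum_zero]
  · push Not at hg
    rw [coeff_Phi_out ξ e he f g hg]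
    have h0 : (fun i => open Classical in if e * (u i : ℤ) = g then c i else 0) =
        fun _ => 0 := by
      funext i
      rw [if_neg]
      intro h
      exact hg _ h.symm
    rw [h0, finsum_zero]

theorem tri_inj : Function.Injective (fun n : ℕ => n * (n + 1) / 2) := by
  refine StrictMono.injective (strictMono_nat_of_lt_succ fun n => ?_)
  show n * (n + 1) / 2 < (n + 1) * (n + 1 + 1) / 2
  have h : (n + 1) * (n + 1 + 1) = n * (n + 1) + (n + 1) * 2 := by ring
  rw [h, Nat.add_mul_div_right _ _ (by norm_num)]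
  omega

theorem two_tri (n : ℕ) : n * (n + 1) = 2 * (n * (n + 1) / 2) :=
  (Nat.mul_div_cancel' (Nat.even_mul_succ_self n).two_dvd).symm

end GS

open GS in
theorem blk_GS (hPART : Stmt_PART) (hJAC : Stmt_JAC) : Stmt_GS := by
  intro ξ e he
  have he3 : 0 < 3 * e := by linarith
  set A : PowerSeries (ZMod 2) := PowerSeries.mk fun n => (pa n : ZMod 2) with hA
  set E : PowerSeries (ZMod 2) := PowerSeries.mk fun n => open Classical in
      if ∃ k : ℤ, k * (3 * k - 1) = 2 * n then (1 : ZMod 2) else 0 with hE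
  set E3 : PowerSeries (ZMod 2) := PowerSeries.mk fun n => open Classical in
      if ∃ k : ℤ, 3 * (k * (3 * k - 1)) = 2 * n then (1 : ZMod 2) else 0 with hE3
  set ps : PowerSeries (ZMod 2) := PowerSeries.mk fun n => open Classical in
      if ∃ m : ℕ, m * (m + 1) = 2 * n then (1 : ZMod 2) else 0 with hps
  have hP : A * E * E3 = 1 := hPART
  have hJ : E ^ 3 = ps := hJAC
  have hGs : Gs ξ e = Phi ξ e he A := by
    refine Th_eq (fun n : ℕ => n) (fun _ _ h => h) ξ e he _ A ?_ ?_
    · intro n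
      rw [hA, PowerSeries.coeff_mk, map_natCast, mul_comm]
    · intro n hn
      exact absurd rfl (hn n)
  have hPsi : ∀ (ξ : kkˣ) (e : ℤ) (he : 0 < e), Psi ξ e = Phi ξ e he ps := by
    intro ξ e he
    refine Th_eq (fun n : ℕ => n * (n + 1) / 2) tri_inj ξ e he _ ps ?_ ?_
    · intro n
      rw [hps, PowerSeries.coeff_mk, if_pos ⟨n, two_tri n⟩, map_one, mul_one]
    · intro n hn
      rw [hps, PowerSeries.coeff_mk, if_neg]
      rintro ⟨m, hm⟩
      rw [two_tri m] at hm
      exact hn m (by omega)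
  have hE3' : Phi (ξ ^ 3) (3 * e) he3 E = Phi ξ e he E3 := by
    ext g
    by_cases hg : ∃ n : ℕ, g = e * n
    · obtain ⟨n, rfl⟩ := hg
      rw [coeff_Phi_mul]
      by_cases h3 : 3 ∣ n
      · obtain ⟨m, rfl⟩ := h3
        have : (e * ((3 * m : ℕ) : ℤ)) = 3 * e * m := by push_cast; ring
        rw [this, coeff_Phi_mul, hE, hE3, PowerSeries.coeff_mk, PowerSeries.coeff_mk, ← pow_mul]
        congr 3
        refine propext (exists_congr fun k => ?_)
        push_cast
        constructor
        · intro h; linear_combination 3 * h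
        · intro h; linarith
      · have h4 : PowerSeries.coeff n E3 = 0 := by
          rw [hE3, PowerSeries.coeff_mk, if_neg]
          rintro ⟨k, hk⟩
          omega
        rw [h4, map_zero, mul_zero]
        apply coeff_Phi_out
        intro m hm
        apply h3
        have : (e * (n : ℤ)) = e * (3 * m) := by rw [hm]; ring
        have := mul_left_cancel₀ he.ne' this
        omega
    · push Not at hg
      rw [coeff_Phi_out ξ e he _ g hg]
      apply coeff_Phi_out
      intro m hm
      apply hg (3 * m)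
      rw [hm]
      push_cast
      ring
  rw [hGs, hPsi ξ e he, hPsi (ξ ^ 3) (3 * e) he3, ← hJ, map_pow, map_pow, hE3']
  rw [← mul_pow, ← mul_pow, ← map_mul, ← map_mul, hP, map_one, one_pow]

end Pool.Agent.Work.P57
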