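import Pool.Agent.Work.P57.Interface

/-! Block IDA: the theta identities. -/

set_option autoImplicit false

namespace Pool.Agent.Work.P57

namespace IDA

open HahnSeries

lemma T2 (n : ℤ) : 2 * (n * (n + 1) / 2) = n * (n + 1) :=
  Int.mul_ediv_cancel' (Int.even_mul_succ_self n).two_dvd

lemma T2' (n : ℕ) : 2 * ((n * (n + 1) / 2 : ℕ) : ℤ) = n * (n + 1) := by
  have h : 2 * (n * (n + 1) / 2) = n * (n + 1) := Nat.mul_div_cancel' (Nat.even_mul_succ_self n).two_dvd
  exact_mod_cast h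

lemma tame_two {ι : Type} {E : ι → ℤ} (h : Tame E) : Tame (fun i => 2 * E i) := by
  intro B
  apply (h (B / 2)).subset
  intro i hi
  simp only [Set.mem_ofPred_eq] at hi ⊢
  omega

lemma tame_shift {ι : Type} {E : ι → ℤ} (h : Tame E) (g : ℤ) : Tame (fun i => g + E i) := by
  intro B
  apply (h (B - g)).subset
  intro i hi
  simp only [Set.mem_ofPred_eq] at hi ⊢
  omega

section TH

variable (hTH : Stmt_TH)
include hTH

lemma th_mul {ι ι' : Type} {E : ι → ℤ} {E' : ι' → ℤ} {c : ι → kk} {c' : ι' → kk} (h : Tame E)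
    (h' : Tame E') :
    Th E c * Th E' c' = Th (fun p : ι × ι' => E p.1 + E' p.2) (fun p => c p.1 * c' p.2) :=
  (hTH.1 _ _ _ _ _ _ h h').2

lemma tame_add {ι ι' : Type} {E : ι → ℤ} {E' : ι' → ℤ} (h : Tame E)
    (h' : Tame E') : Tame (fun p : ι × ι' => E p.1 + E' p.2) :=
  (hTH.1 _ _ _ _ (fun _ => 0) (fun _ => 0) h h').1

lemma th_equiv {ι ι' : Type} (e : ι ≃ ι') {E : ι → ℤ} {c : ι → kk} {E' : ι' → ℤ} {c' : ι' → kk}
    (hE : ∀ i, E i = E' (e i)) (hc : ∀ i, c i = c' (e i)) : Th E c = Th E' c' := by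
  rw [← hTH.2.1 _ _ e E' c', show E = fun i => E' (e i) from funext hE,
    show c = fun i => c' (e i) from funext hc]

lemma th_sum {ι ι' : Type} {E : ι → ℤ} {E' : ι' → ℤ} {c : ι → kk} {c' : ι' → kk} (h : Tame E)
    (h' : Tame E') : Th E c + Th E' c' = Th (Sum.elim E E') (Sum.elim c c') :=
  (hTH.2.2.2.1 _ _ _ _ _ _ h h').2.symm

lemma th_sq {ι : Type} {E : ι → ℤ} {c : ι → kk} (h : Tame E) :
    Th E c ^ 2 = Th (fun i => 2 * E i) (fun i => c i ^ 2) :=
  hTH.2.2.2.2.1 _ _ _ h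

lemma th_single {ι : Type} {E : ι → ℤ} {c : ι → kk} (g : ℤ) (a : kk) (h : Tame E) :
    single g a * Th E c = Th (fun i => g + E i) (fun i => a * c i) :=
  hTH.2.2.2.2.2.2.1 _ _ _ _ _ h

end TH

/-- exponents of `a` -/
abbrev ea (e j : ℤ) : ℤ → ℤ := fun n => e * n ^ 2 + 2 * j * n
/-- exponents of `θ` -/
abbrev et (e j : ℤ) : ℤ → ℤ := fun n => e * (n * (n + 1) / 2) + j * n
/-- exponents of `b` -/
abbrev eb (e j : ℤ) : ℤ → ℤ := fun n => j + 2 * et e j n

noncomputable abbrev ca (ξ η : kkˣ) : ℤ → kkˣ := fun n => ξ ^ (n ^ 2) * η ^ (2 * n)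
noncomputable abbrev ct (ξ η : kkˣ) : ℤ → kkˣ := fun n => ξ ^ (n * (n + 1) / 2) * η ^ n
noncomputable abbrev cb (ξ η : kkˣ) : ℤ → kkˣ := fun n => η * ct ξ η n ^ 2

lemma aT_eq (ξ η : kkˣ) (e j : ℤ) : aT η j ξ e = Th (ea e j) (fun n => (ca ξ η n : kk)) := rfl
lemma tT_eq (ξ η : kkˣ) (e j : ℤ) : tT η j ξ e = Th (et e j) (fun n => (ct ξ η n : kk)) := rfl

lemma ta (hTH : Stmt_TH) {e : ℤ} (he : 0 < e) (j : ℤ) : Tame (ea e j) :=
  (hTH.2.2.2.2.2.2.2.1 e j he).1

lemma tt (hTH : Stmt_TH) {e : ℤ} (he : 0 < e) (j : ℤ) : Tame (et e j) :=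
  (hTH.2.2.2.2.2.2.2.1 e j he).2

lemma tb (hTH : Stmt_TH) {e : ℤ} (he : 0 < e) (j : ℤ) : Tame (eb e j) :=
  tame_shift (tame_two (tt hTH he j)) j

lemma bT_eq (hTH : Stmt_TH) {e : ℤ} (he : 0 < e) (ξ η : kkˣ) (j : ℤ) :
    bT η j ξ e = Th (eb e j) (fun n => (cb ξ η n : kk)) := by
  unfold bT
  rw [tT_eq, th_sq hTH (tt hTH he j), th_single hTH _ _ (tame_two (tt hTH he j))]
  congr 1

/-- `s + t` even or odd -/
def eq1 : (ℤ × ℤ) ⊕ (ℤ × ℤ) ≃ ℤ × ℤ where
  toFun
    | .inl (n, m) => (n + m, n - m - 1)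
    | .inr (n, m) => (n + m, n - m)
  invFun p := if (p.1 + p.2) % 2 = 0 then .inr ((p.1 + p.2) / 2, (p.1 - p.2) / 2)
    else .inl ((p.1 + p.2 + 1) / 2, (p.1 - p.2 - 1) / 2)
  left_inv := by
    rintro (⟨n, m⟩ | ⟨n, m⟩)
    · simp only
      rw [if_neg (by omega)]
      congr 2 <;> omega
    · simp only
      rw [if_pos (by omega)]
      congr 2 <;> omega
  right_inv := by
    rintro ⟨s, t⟩
    simp only
    split_ifs with h
    · simp only [Prod.mk.injEq]; omega
    · simp only [Prod.mk.injEq]; omega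

def eq3 : (ℤ × ℤ) ⊕ (ℤ × ℤ) ≃ ℤ × ℤ where
  toFun
    | .inl (n, m) => (n + m, n - m)
    | .inr (n, m) => (n + m + 1, n - m)
  invFun p := if (p.1 + p.2) % 2 = 0 then .inl ((p.1 + p.2) / 2, (p.1 - p.2) / 2)
    else .inr ((p.1 + p.2 - 1) / 2, (p.1 - p.2 - 1) / 2)
  left_inv := by
    rintro (⟨n, m⟩ | ⟨n, m⟩)
    · simp only
      rw [if_pos (by omega)]
      congr 2 <;> omega
    · simp only
      rw [if_neg (by omega)]
      congr 2 <;> omega
  right_inv := by
    rintro ⟨s, t⟩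
    simp only
    split_ifs with h
    · simp only [Prod.mk.injEq]; omega
    · simp only [Prod.mk.injEq]; omega

def eq4 : ℤ ⊕ ℤ ≃ ℤ where
  toFun
    | .inl n => 2 * n
    | .inr n => 2 * n + 1
  invFun p := if p % 2 = 0 then .inl (p / 2) else .inr (p / 2)
  left_inv := by
    rintro (n | n)
    · simp only
      rw [if_pos (by omega)]
      congr 1; omega
    · simp only
      rw [if_neg (by omega)]
      congr 1; omega
  right_inv := by
    intro s
    simp only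
    split_ifs with h
    · simp only; omega
    · simp only; omega

def eq2 : ℤ × ℤ ≃ ℕ × ℤ where
  toFun p := (if 0 ≤ p.2 - p.1 then (p.2 - p.1).toNat else (p.1 - p.2 - 1).toNat, p.1 + p.2)
  invFun q := if (q.2 - q.1) % 2 = 0 then ((q.2 - q.1) / 2, (q.2 + q.1) / 2)
    else ((q.2 + 1 + q.1) / 2, (q.2 - 1 - q.1) / 2)
  left_inv := by
    rintro ⟨n, m⟩
    simp only
    by_cases h : 0 ≤ m - n
    · rw [if_pos h]
      rw [if_pos (by omega)]
      simp only [Prod.mk.injEq]; omega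
    · rw [if_neg h]
      rw [if_neg (by omega)]
      simp only [Prod.mk.injEq]; omega
  right_inv := by
    rintro ⟨k, l⟩
    simp only
    by_cases h : (l - k) % 2 = 0
    · rw [if_pos h]
      simp only
      rw [if_pos (by omega)]
      simp only [Prod.mk.injEq]; omega
    · rw [if_neg h]
      simp only
      rw [if_neg (by omega)]
      simp only [Prod.mk.injEq]; omega

theorem id1 (hTH : Stmt_TH) (ξ η η' : kkˣ) (e j j' : ℤ) (he : 0 < e) :
    single j (η : kk) * tT (η * η') (j + j') ξ e * tT (η * η'⁻¹) (j - j') ξ e =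
    aT η j ξ e * bT η' j' ξ e + aT η' j' ξ e * bT η j ξ e := by
  rw [bT_eq hTH he, bT_eq hTH he, aT_eq, aT_eq, tT_eq, tT_eq, th_mul hTH (ta hTH he _) (tb hTH he _),
    th_mul hTH (ta hTH he _) (tb hTH he _), mul_assoc, th_mul hTH (tt hTH he _) (tt hTH he _),
    th_single hTH _ _ (tame_add hTH (tt hTH he _) (tt hTH he _)),
    th_sum hTH (tame_add hTH (ta hTH he _) (tb hTH he _)) (tame_add hTH (ta hTH he _) (tb hTH he _))]
  symm
  have hrel : ∀ n m : ℤ, (n + m) * (n + m + 1) / 2 + (n - m - 1) * (n - m - 1 + 1) / 2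
      = n ^ 2 + 2 * (m * (m + 1) / 2) := by
    intro n m
    have h1 := T2 (n + m)
    have h2 := T2 (n - m - 1)
    have h3 := T2 m
    linarith
  have hrel2 : ∀ n m : ℤ, (n + m) * (n + m + 1) / 2 + (n - m) * (n - m + 1) / 2
      = m ^ 2 + 2 * (n * (n + 1) / 2) := by
    intro n m
    have h1 := T2 (n + m)
    have h2 := T2 (n - m)
    have h3 := T2 n
    linarith
  -- swap the second summand
  refine th_equiv hTH ((Equiv.sumCongr (Equiv.refl _) (Equiv.prodComm ℤ ℤ)).trans eq1) ?_ ?_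
  · rintro (⟨n, m⟩ | ⟨n, m⟩)
    · simp only [Sum.elim_inl, Equiv.trans_apply, Equiv.sumCongr_apply, Sum.map_inl, Equiv.refl_apply,
        eq1, Equiv.coe_fn_mk, ea, et, eb]
      linear_combination (-e) * hrel n m
    · simp only [Sum.elim_inr, Equiv.trans_apply, Equiv.sumCongr_apply, Sum.map_inr,
        Equiv.prodComm_apply, Prod.swap_prod_mk,
        eq1, Equiv.coe_fn_mk, ea, et, eb]
      linear_combination (-e) * hrel2 m n
  · rintro (⟨n, m⟩ | ⟨n, m⟩)
    · simp only [Sum.elim_inl, Equiv.trans_apply, Equiv.sumCongr_apply, Sum.map_inl, Equiv.refl_apply,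
        eq1, Equiv.coe_fn_mk, ← Units.val_mul]
      congr 1
      apply Additive.ofMul.injective
      simp only [ofMul_mul, ofMul_zpow, ofMul_inv, ofMul_pow]
      linear_combination (norm := module) (-hrel n m) • Additive.ofMul ξ
    · simp only [Sum.elim_inr, Equiv.trans_apply, Equiv.sumCongr_apply, Sum.map_inr,
        Equiv.prodComm_apply, Prod.swap_prod_mk,
        eq1, Equiv.coe_fn_mk, ← Units.val_mul]
      congr 1
      apply Additive.ofMul.injective
      simp only [ofMul_mul, ofMul_zpow, ofMul_inv, ofMul_pow]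
      linear_combination (norm := module) (-hrel2 m n) • Additive.ofMul ξ

theorem id2 (hTH : Stmt_TH) (ξ η : kkˣ) (e j : ℤ) (he : 0 < e) :
    Psi ξ e * tT (η ^ 2) (2 * j) ξ e = aT η j ξ e * tT η j ξ e ^ 2 := by
  have hPsi := (hTH.2.2.2.2.2.2.2.2 e he).1
  unfold Psi
  rw [aT_eq, tT_eq, tT_eq, th_sq hTH (tt hTH he _), th_mul hTH (ta hTH he _) (tame_two (tt hTH he _)),
    th_mul hTH hPsi (tt hTH he _)]
  symm
  have hT : ∀ x : ℤ, ∀ k : ℕ, (if 0 ≤ x then x.toNat else (-x - 1).toNat) = k →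
      2 * ((k * (k + 1) / 2 : ℕ) : ℤ) = x * (x + 1) := by
    intro x k hk
    rw [T2']
    split_ifs at hk with h
    · have : (k : ℤ) = x := by omega
      rw [this]
    · have : (k : ℤ) = -x - 1 := by omega
      rw [this]; ring
  have hk : ∀ n m : ℤ, ∃ k : ℕ, eq2 (n, m) = (k, n + m) ∧
      2 * ((k * (k + 1) / 2 : ℕ) : ℤ) = (m - n) * (m - n + 1) := by
    intro n m
    refine ⟨(eq2 (n, m)).1, rfl, ?_⟩
    apply hT (m - n)
    simp only [eq2, Equiv.coe_fn_mk]
    split_ifs with h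
    · rfl
    · congr 1; ring
  refine th_equiv hTH eq2 ?_ ?_
  · rintro ⟨n, m⟩
    obtain ⟨k, hk1, hk2⟩ := hk n m
    have hk3 : ((k * (k + 1) / 2 : ℕ) : ℤ) + (n + m) * (n + m + 1) / 2
        = n ^ 2 + 2 * (m * (m + 1) / 2) := by
      have h1 := T2 (n + m)
      have h3 := T2 m
      linarith
    rw [hk1]
    simp only [ea, et]
    linear_combination (-e) * hk3
  · rintro ⟨n, m⟩
    obtain ⟨k, hk1, hk2⟩ := hk n m
    have hk3 : ((k * (k + 1) / 2 : ℕ) : ℤ) + (n + m) * (n + m + 1) / 2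
        = n ^ 2 + 2 * (m * (m + 1) / 2) := by
      have h1 := T2 (n + m)
      have h3 := T2 m
      linarith
    rw [hk1]
    simp only [← Units.val_mul, ← Units.val_pow_eq_pow_val]
    congr 1
    apply Additive.ofMul.injective
    rw [← zpow_natCast ξ (k * (k + 1) / 2)]
    simp only [ofMul_mul, ofMul_zpow, ofMul_inv, ofMul_pow]
    linear_combination (norm := module) (-hk3) • Additive.ofMul ξ

theorem id3 (hTH : Stmt_TH) (ξ η η' : kkˣ) (e j j' : ℤ) (he : 0 < e) :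
    aT (η * η') (j + j') ξ e * aT (η * η'⁻¹) (j - j') ξ e =
    aT η j ξ e ^ 2 * aT η' j' ξ e ^ 2 + single e (ξ : kk) * (bT η j ξ e ^ 2 * bT η' j' ξ e ^ 2) := by
  have h1 := ta hTH he
  have h2 := tb hTH he
  rw [bT_eq hTH he, bT_eq hTH he, aT_eq, aT_eq, aT_eq, aT_eq, th_sq hTH (h1 _), th_sq hTH (h1 _),
    th_sq hTH (h2 _), th_sq hTH (h2 _), th_mul hTH (h1 _) (h1 _),
    th_mul hTH (tame_two (h1 _)) (tame_two (h1 _)), th_mul hTH (tame_two (h2 _)) (tame_two (h2 _)),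
    th_single hTH _ _ (tame_add hTH (tame_two (h2 _)) (tame_two (h2 _))),
    th_sum hTH (tame_add hTH (tame_two (h1 _)) (tame_two (h1 _)))
      (tame_shift (tame_add hTH (tame_two (h2 _)) (tame_two (h2 _))) _)]
  symm
  refine th_equiv hTH eq3 ?_ ?_
  · rintro (⟨n, m⟩ | ⟨n, m⟩)
    · simp only [Sum.elim_inl, eq3, Equiv.coe_fn_mk, ea]
      ring
    · simp only [Sum.elim_inr, eq3, Equiv.coe_fn_mk, ea, et, eb]
      linear_combination (2 * e) * T2 n + (2 * e) * T2 m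
  · rintro (⟨n, m⟩ | ⟨n, m⟩)
    · simp only [Sum.elim_inl, eq3, Equiv.coe_fn_mk, ← Units.val_mul, ← Units.val_pow_eq_pow_val]
      congr 1
      apply Additive.ofMul.injective
      simp only [ofMul_mul, ofMul_zpow, ofMul_inv, ofMul_pow]
      module
    · simp only [Sum.elim_inr, eq3, Equiv.coe_fn_mk, ← Units.val_mul, ← Units.val_pow_eq_pow_val]
      congr 1
      apply Additive.ofMul.injective
      simp only [ofMul_mul, ofMul_zpow, ofMul_inv, ofMul_pow]
      linear_combination (norm := module) (2 * T2 n) • Additive.ofMul ξ + (2 * T2 m) • Additive.ofMul ξ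

theorem id4 (hTH : Stmt_TH) (ξ η : kkˣ) (e j : ℤ) (he : 0 < e) :
    aT (η ^ 2) (2 * j) ξ e = aT η j ξ e ^ 4 + single e (ξ : kk) * bT η j ξ e ^ 4 := by
  have h1 := ta hTH he
  have h2 := tb hTH he
  rw [show aT η j ξ e ^ 4 = (aT η j ξ e ^ 2) ^ 2 by rw [← pow_mul],
    show bT η j ξ e ^ 4 = (bT η j ξ e ^ 2) ^ 2 by rw [← pow_mul],
    bT_eq hTH he, aT_eq, aT_eq, th_sq hTH (h1 _), th_sq hTH (h2 _), th_sq hTH (tame_two (h1 _)),
    th_sq hTH (tame_two (h2 _)), th_single hTH _ _ (tame_two (tame_two (h2 _))),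
    th_sum hTH (tame_two (tame_two (h1 _))) (tame_shift (tame_two (tame_two (h2 _))) _)]
  symm
  refine th_equiv hTH eq4 ?_ ?_
  · rintro (n | n)
    · simp only [Sum.elim_inl, eq4, Equiv.coe_fn_mk, ea]
      ring
    · simp only [Sum.elim_inr, eq4, Equiv.coe_fn_mk, ea, et, eb]
      linear_combination (4 * e) * T2 n
  · rintro (n | n)
    · simp only [Sum.elim_inl, eq4, Equiv.coe_fn_mk, ← Units.val_mul, ← Units.val_pow_eq_pow_val]
      congr 1
      apply Additive.ofMul.injective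
      simp only [ofMul_mul, ofMul_zpow, ofMul_inv, ofMul_pow]
      module
    · simp only [Sum.elim_inr, eq4, Equiv.coe_fn_mk, ← Units.val_mul, ← Units.val_pow_eq_pow_val]
      congr 1
      apply Additive.ofMul.injective
      simp only [ofMul_mul, ofMul_zpow, ofMul_inv, ofMul_pow]
      linear_combination (norm := module) (4 * T2 n) • Additive.ofMul ξ

theorem id5 (hTH : Stmt_TH) (ξ : kkˣ) (e : ℤ) (he : 0 < e) :
    Del ξ e = single e (ξ : kk) * Psi ξ e ^ 8 := by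
  have h1 := (hTH.2.2.2.2.2.2.2.2 e he).1
  rw [show Psi ξ e ^ 8 = ((Psi ξ e ^ 2) ^ 2) ^ 2 by rw [← pow_mul, ← pow_mul]]
  unfold Psi Del
  rw [th_sq hTH h1, th_sq hTH (tame_two h1), th_sq hTH (tame_two (tame_two h1)),
    th_single hTH _ _ (tame_two (tame_two (tame_two h1)))]
  refine th_equiv hTH (Equiv.refl ℕ) ?_ ?_
  · intro n
    simp only [Equiv.refl_apply]
    linear_combination (-(4 * e)) * T2' n
  · intro n
    have h2 : (2 * n + 1) ^ 2 = 1 + 8 * (n * (n + 1) / 2) := by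
      have h3 : 2 * (n * (n + 1) / 2) = n * (n + 1) :=
        Nat.mul_div_cancel' (Nat.even_mul_succ_self n).two_dvd
      have h4 : (2 * n + 1) ^ 2 = 1 + 4 * (n * (n + 1)) := by ring
      rw [h4]
      generalize n * (n + 1) = X at h3 ⊢
      omega
    simp only [Equiv.refl_apply, ← Units.val_mul, ← Units.val_pow_eq_pow_val]
    congr 1
    rw [h2, _root_.pow_add, pow_one, ← pow_mul, ← pow_mul, ← pow_mul]
    congr 2
    ring

theorem id6 (hTH : Stmt_TH) (ξ : kkˣ) (e : ℤ) (he : 0 < e) : Psi ξ e ≠ 0 := by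
  have h1 := (hTH.2.2.2.2.2.2.2.2 e he).1
  intro h
  have h2 : (Psi ξ e).coeff 0 = 1 := by
    unfold Psi
    rw [coeff_Th h1, finsum_eq_single _ 0]
    · simp
    · intro n hn
      rw [if_neg]
      intro h3
      have h4 : 0 < n * (n + 1) / 2 := by
        apply Nat.div_pos _ (by norm_num)
        have : 1 ≤ n := Nat.one_le_iff_ne_zero.2 hn
        nlinarith
      have h5 : 0 < e * ((n * (n + 1) / 2 : ℕ) : ℤ) := mul_pos he (by exact_mod_cast h4)
      omega
  rw [h] at h2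
  simp at h2

end IDA

theorem blk_IDA (hTH : Stmt_TH) : Stmt_IDA := by
  intro ξ η η' e j j' he
  exact ⟨IDA.id1 hTH ξ η η' e j j' he, IDA.id2 hTH ξ η e j he, IDA.id3 hTH ξ η η' e j j' he,
    IDA.id4 hTH ξ η e j he, IDA.id5 hTH ξ e he, IDA.id6 hTH ξ e he⟩

end Pool.Agent.Work.P57
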