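import Pool.Agent.Work.P57.Interface

/-! # Block IDB: symmetry, quasi-periodicity, non-vanishing -/

set_option autoImplicit false

namespace Pool.Agent.Work.P57

namespace IDB

open HahnSeries

theorem two_mul_tri (n : ℤ) : 2 * (n * (n + 1) / 2) = n * (n + 1) :=
  Int.mul_ediv_cancel' (Int.even_mul_succ_self n).two_dvd

theorem reindex (hTH : Stmt_TH) {ι ι' : Type} (e : ι ≃ ι') {E : ι → ℤ} {c : ι → kk} {E' : ι' → ℤ}
    {c' : ι' → kk} (h1 : ∀ i, E i = E' (e i)) (h2 : ∀ i, c i = c' (e i)) : Th E c = Th E' c' := by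
  rw [← hTH.2.1 ι ι' e E' c']
  exact congrArg₂ Th (funext h1) (funext h2)

theorem shift (hTH : Stmt_TH) {ι : Type} {E : ι → ℤ} (hE : Tame E) (c : ι → kk) (g : ℤ) (a : kk) :
    single g a * Th E c = Th (fun i => g + E i) (fun i => a * c i) :=
  hTH.2.2.2.2.2.2.1 ι E c g a hE

theorem tame_a (hTH : Stmt_TH) {e : ℤ} (he : 0 < e) (j : ℤ) :
    Tame (fun n : ℤ => e * n ^ 2 + 2 * j * n) := (hTH.2.2.2.2.2.2.2.1 e j he).1

theorem tame_t (hTH : Stmt_TH) {e : ℤ} (he : 0 < e) (j : ℤ) :
    Tame (fun n : ℤ => e * (n * (n + 1) / 2) + j * n) := (hTH.2.2.2.2.2.2.2.1 e j he).2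

/-- only one index with the exponent -/
theorem ne_zero_of_unique {ι : Type} {E : ι → ℤ} (hE : Tame E) {c : ι → kk} {i0 : ι}
    (hc : c i0 ≠ 0) (hu : ∀ i, i ≠ i0 → E i ≠ E i0) : Th E c ≠ 0 := by
  classical
  intro h
  have h1 := coeff_Th hE c (E i0)
  rw [h, HahnSeries.coeff_zero, finsum_eq_single _ i0] at h1
  · rw [if_pos rfl] at h1
    exact hc h1.symm
  · intro i hi
    rw [if_neg (hu i hi)]

/-- exactly two indices with the exponent -/
theorem ne_zero_of_two {ι : Type} {E : ι → ℤ} (hE : Tame E) {c : ι → kk} {i0 i1 : ι}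
    (h01 : i0 ≠ i1) (hE01 : E i1 = E i0) (hc : c i0 + c i1 ≠ 0)
    (hu : ∀ i, i ≠ i0 → i ≠ i1 → E i ≠ E i0) : Th E c ≠ 0 := by
  classical
  intro h
  have h1 := coeff_Th hE c (E i0)
  rw [h, HahnSeries.coeff_zero, finsum_eq_sum_of_support_subset (s := {i0, i1})] at h1
  · rw [Finset.sum_pair h01, if_pos rfl, if_pos hE01] at h1
    exact hc h1.symm
  · intro i hi
    rw [Function.mem_support] at hi
    rw [Finset.coe_pair, Set.mem_insert_iff, Set.mem_singleton_iff]
    by_contra hcon
    push Not at hcon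
    exact hi (if_neg (hu i hcon.1 hcon.2))

end IDB

open HahnSeries IDB in
theorem blk_IDB (hTH : Stmt_TH) : Stmt_IDB := by
  intro ξ η e j he
  refine ⟨?_, ?_, ?_, ?_, ?_, ?_⟩
  · unfold aT
    refine reindex hTH (Equiv.neg ℤ) (fun n => ?_) (fun n => ?_)
    · simp only [Equiv.neg_apply]
      ring
    · simp only [Equiv.neg_apply]
      congr 2
      · rw [neg_sq]
      · rw [inv_zpow, ← zpow_neg]
        congr 1
        ring
  · unfold tT
    rw [shift hTH (tame_t hTH he j)]
    have e1 : ∀ n : ℤ, (Equiv.subLeft (-1 : ℤ)) n = -1 - n := fun n => rfl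
    have e2 : ∀ n : ℤ, (-1 - n) * (-1 - n + 1) = n * (n + 1) := fun n => by ring
    refine reindex hTH (Equiv.subLeft (-1 : ℤ)) (fun n => ?_) (fun n => ?_)
    · rw [e1, e2]
      ring
    · rw [e1, e2, ← Units.val_mul]
      congr 1
      rw [inv_zpow, ← zpow_neg, mul_left_comm, ← zpow_one_add]
      congr 2
      ring
  · unfold aT
    rw [shift hTH (tame_a hTH he (j + e))]
    have e1 : ∀ n : ℤ, (Equiv.addRight (1 : ℤ)) n = n + 1 := fun n => rfl
    refine reindex hTH (Equiv.addRight (1 : ℤ)) (fun n => ?_) (fun n => ?_)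
    · rw [e1]
      ring
    · rw [e1, ← Units.val_mul]
      congr 1
      rw [mul_zpow, show (n + 1) ^ 2 = 1 + n ^ 2 + 2 * n by ring, zpow_add, zpow_add, zpow_one,
        show 2 * (n + 1) = 2 + 2 * n by ring, zpow_add]
      have : (η ^ (2 : ℤ) : kkˣ) = η ^ 2 := by norm_cast
      rw [this]
      simp only [mul_assoc, mul_comm, mul_left_comm]
  · unfold tT
    rw [shift hTH (tame_t hTH he (j + e))]
    have e1 : ∀ n : ℤ, (Equiv.addRight (1 : ℤ)) n = n + 1 := fun n => rfl
    have e2 : ∀ n : ℤ, (n + 1) * (n + 1 + 1) / 2 = n * (n + 1) / 2 + (n + 1) := by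
      intro n
      have h1 := two_mul_tri n
      have h2 := two_mul_tri (n + 1)
      have h3 : (n + 1) * (n + 1 + 1) = n * (n + 1) + 2 * (n + 1) := by ring
      rw [h3] at h2 ⊢
      omega
    refine reindex hTH (Equiv.addRight (1 : ℤ)) (fun n => ?_) (fun n => ?_)
    · rw [e1, e2]
      ring
    · rw [e1, e2, ← Units.val_mul]
      congr 1
      rw [mul_zpow, zpow_add, zpow_add ξ n 1, zpow_add η n 1, zpow_one, zpow_one]
      simp only [mul_assoc, mul_comm, mul_left_comm]
  · intro hu
    set q := j / e with hq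
    set r := j % e with hr
    have hqr : j = e * q + r := (Int.mul_ediv_add_emod j e).symm
    have hr0 : 0 ≤ r := Int.emod_nonneg _ he.ne'
    have hre : r < e := Int.emod_lt_of_pos _ he
    -- differences of the exponents
    have key : ∀ d : ℤ, 2 * ((e * ((-q - 1 + d) * (-q - 1 + d + 1) / 2) + j * (-q - 1 + d)) -
        (e * ((-q - 1) * (-q - 1 + 1) / 2) + j * (-q - 1))) = 2 * d * r + e * (d * (d - 1)) := by
      intro d
      have h1 := two_mul_tri (-q - 1 + d)
      have h2 := two_mul_tri (-q - 1)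
      rw [hqr]
      linear_combination e * h1 - e * h2
    have key2 : ∀ d : ℤ, d ≠ 0 → (d ≠ 1 ∨ r ≠ 0) → 2 * d * r + e * (d * (d - 1)) ≠ 0 := by
      intro d hd0 hd1
      rcases lt_trichotomy d 0 with hd | hd | hd
      · have h1 : 0 < -d := by omega
        have h2 : 0 < e * (1 - d) - 2 * r := by nlinarith
        have h3 : 0 < (-d) * (e * (1 - d) - 2 * r) := mul_pos h1 h2
        nlinarith
      · exact absurd hd hd0
      · rcases eq_or_lt_of_le (show 1 ≤ d by omega) with h1 | h1
        · rw [← h1]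
          rcases hd1 with h2 | h2
          · exact absurd h1.symm h2
          · intro h3
            omega
        · have h2 : 0 < d * (d - 1) := mul_pos hd (by omega)
          have h3 : 0 < e * (d * (d - 1)) := mul_pos he h2
          have h4 : 0 ≤ 2 * d * r := by positivity
          omega
    unfold tT
    by_cases hr1 : r = 0
    · refine ne_zero_of_two (tame_t hTH he j) (i0 := -q - 1) (i1 := -q - 1 + 1) (by omega) ?_ ?_ ?_
      · have := key 1
        rw [hr1] at this
        simp only [mul_zero, sub_self, zero_add] at this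
        omega
      · have hξ : η ≠ ξ ^ q := by
          intro h
          exact hu q ⟨by rw [hqr, hr1, add_zero], h⟩
        have e3 : (-q - 1 + 1) * (-q - 1 + 1 + 1) / 2 = (-q - 1) * (-q - 1 + 1) / 2 + (-q) := by
          have h1 := two_mul_tri (-q - 1)
          have h2 := two_mul_tri (-q - 1 + 1)
          have h3 : (-q - 1 + 1) * (-q - 1 + 1 + 1) = (-q - 1) * (-q - 1 + 1) + 2 * (-q) := by ring
          rw [h3] at h2 ⊢
          omega
        rw [e3]
        intro h
        have h4 : ((ξ ^ ((-q - 1) * (-q - 1 + 1) / 2) * η ^ (-q - 1) : kkˣ) : kk) =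
            ((ξ ^ ((-q - 1) * (-q - 1 + 1) / 2 + -q) * η ^ (-q - 1 + 1) : kkˣ) : kk) :=
          CharTwo.add_eq_zero.1 h
        have h5 := Units.ext h4
        rw [zpow_add ξ, zpow_add η (-q - 1) 1, zpow_one, mul_assoc, mul_right_inj] at h5
        have h6 : (1 : kkˣ) = ξ ^ (-q) * η := by
          have h7 : η ^ (-q - 1) * 1 = η ^ (-q - 1) * (ξ ^ (-q) * η) := by
            rw [mul_one]
            calc η ^ (-q - 1) = ξ ^ (-q) * (η ^ (-q - 1) * η) := h5
              _ = _ := by rw [mul_left_comm]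
          exact mul_left_cancel h7
        apply hξ
        rw [zpow_neg] at h6
        exact (inv_mul_eq_one.1 h6.symm).symm
      · intro i h1 h2 h3
        have h4 := key (i - (-q - 1))
        rw [add_sub_cancel] at h4
        rw [h3, sub_self, mul_zero] at h4
        exact key2 (i - (-q - 1)) (by omega) (Or.inl (by omega)) h4.symm
    · refine ne_zero_of_unique (tame_t hTH he j) (i0 := -q - 1) (Units.ne_zero _) ?_
      intro i h1 h3
      have h4 := key (i - (-q - 1))
      rw [add_sub_cancel] at h4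
      rw [h3, sub_self, mul_zero] at h4
      exact key2 (i - (-q - 1)) (by omega) (Or.inr hr1) h4.symm
  · intro hu
    set q := (2 * j + e) / (2 * e) with hq
    set r := (2 * j + e) % (2 * e) with hr
    have h2e : 0 < 2 * e := by omega
    have hqr : 2 * j + e = 2 * e * q + r := (Int.mul_ediv_add_emod (2 * j + e) (2 * e)).symm
    have hr0 : 0 ≤ r := Int.emod_nonneg _ h2e.ne'
    have hre : r < 2 * e := Int.emod_lt_of_pos _ h2e
    have hr1 : r ≠ 0 := by
      intro h
      apply hu (q - 1)
      linear_combination hqr + h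
    unfold aT
    refine ne_zero_of_unique (tame_a hTH he j) (i0 := -q) (Units.ne_zero _) ?_
    intro i h1 h3
    have h4 : (i + q) * ((r - e) + e * (i + q)) = 0 := by
      have : (i + q) * ((2 * j - 2 * e * q) + e * (i + q)) = 0 := by linear_combination h3
      have h5 : 2 * j - 2 * e * q = r - e := by linarith
      rwa [h5] at this
    rcases mul_eq_zero.1 h4 with h5 | h5
    · omega
    · rcases lt_or_gt_of_ne (show i + q ≠ 0 by omega) with h6 | h6
      · have : e * (i + q) ≤ e * (-1) := mul_le_mul_of_nonneg_left (by omega) he.le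
        omega
      · have : e * 1 ≤ e * (i + q) := mul_le_mul_of_nonneg_left (by omega) he.le
        omega

end Pool.Agent.Work.P57
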