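import Pool.Agent.Work.P57.Interface

/-!
# Block IRR: the line `μ_l` is moved (helper58)
-/

set_option autoImplicit false

namespace Pool.Agent.Work.P57

namespace IRR

theorem n0_eq (s : ℕ) : n0 s = (2 ^ s + 1) * nn s := by
  have h1 : 1 ≤ 2 ^ s := Nat.one_le_two_pow
  have h2 : (4 : ℕ) ^ s = 2 ^ s * 2 ^ s := by
    rw [← mul_pow]
    norm_num
  unfold n0 nn
  rw [h2]
  obtain ⟨t, ht⟩ := Nat.exists_eq_add_of_le h1
  rw [ht]
  rw [Nat.add_sub_cancel_left]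
  have : (1 + t) * (1 + t) = (1 + t + 1) * t + 1 := by ring
  rw [this, Nat.add_sub_cancel]

theorem nn_odd {s : ℕ} (hs : 2 ≤ s) : Odd (nn s) := by
  obtain ⟨t, rfl⟩ := Nat.exists_eq_add_of_le hs
  refine ⟨2 ^ (1 + t) - 1, ?_⟩
  have h : 2 ^ (2 + t) = 2 * 2 ^ (1 + t) := by
    rw [show 2 + t = (1 + t) + 1 by ring, pow_succ]
    ring
  have h1 : 1 ≤ 2 ^ (1 + t) := Nat.one_le_two_pow
  unfold nn
  omega

end IRR

open IRR in
/-- **Block IRR** -/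
theorem blk_IRR (hACT : Stmt_ACT) (hFIX : Stmt_FIX) (hDLH : Stmt_DLH) (hCST : Stmt_CST) :
    Stmt_IRR := by
  intro s ξ hs hξ l hl hln
  by_contra hcon
  push Not at hcon
  obtain ⟨-, hC2, hC3, hC4, hC5⟩ := hCST
  have hl0 : 0 < l := hl.pos
  have hlodd : Odd l := (nn_odd hs).of_dvd_nat hln
  have hnn0 : 0 < nn s := (nn_odd hs).pos
  have hne : NeZero (nn s) := ⟨hnn0.ne'⟩
  have hln0 : l ∣ n0 s := by
    rw [n0_eq]
    exact hln.mul_left _
  have hn0pos : 0 < n0 s := by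
    rw [n0_eq]
    positivity
  obtain ⟨q, hq⟩ := hln0
  have hq0 : 0 < q := by
    rcases Nat.eq_zero_or_pos q with h | h
    · rw [h, mul_zero] at hq
      omega
    · exact h
  have hdiv : n0 s / l = q := by
    rw [hq]
    exact Nat.mul_div_cancel_left q hl0
  have hD : ((D0 s : ℕ) : ℤ) = l * (3 * (q : ℤ)) := by
    have : D0 s = l * (3 * q) := by
      show 3 * n0 s = _
      rw [hq]
      ring
    rw [this]
    push_cast
    ring
  have hDpos : (0 : ℤ) < (D0 s : ℕ) := by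
    rw [hD]
    positivity
  have hξD : ξ ^ (D0 s) = 1 := hξ.pow_eq_one
  have hM : ∀ (τ : Gam (D0 s)) (M : Matrix (Fin 2) (Fin 2) (ZMod (nn s))),
      IsUnit M.det → Acts ξ τ M → l ∣ (M 1 0).val := hcon
  -- step A
  have hA := hDLH s ξ hs hξ l 1 0 0 hln hl0 (by simp) (by simp)
  have e1 : Int.gcd (0 : ℤ) (l : ℤ) = l := by simp
  have eA1 : Del (ξ ^ (3 * ((n0 s / l : ℕ) : ℤ) * 0 * 1 * ((Int.gcd (0 : ℤ) (l : ℤ) : ℕ) : ℤ)))
      (3 * ((n0 s / l : ℕ) : ℤ) * ((Int.gcd (0 : ℤ) (l : ℤ) : ℕ) : ℤ) ^ 2) =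
      Del 1 ((l : ℤ) * (D0 s : ℕ)) := by
    rw [e1, hdiv, hD]
    congr 1
    · simp
    · ring
  rw [eA1] at hA
  obtain ⟨hA1, hA2, hA3⟩ := hA
  have hfixA : ∀ τ : Gam (D0 s), Maps τ (Del 1 ((l : ℤ) * (D0 s : ℕ)))
      (Del 1 ((l : ℤ) * (D0 s : ℕ))) := by
    intro τ
    obtain ⟨M, hdet, hact⟩ := hACT s ξ hs hξ τ
    have hl10 := hM τ M hdet hact
    have e2 : Int.gcd (((M 1 0).val : ℕ) : ℤ) (l : ℤ) = l := by
      rw [Int.gcd_natCast_natCast]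
      exact Nat.gcd_eq_right hl10
    have h := (hA3 τ M hdet hact ((M 0 0).val : ℤ) ((M 1 0).val : ℤ) 0 (by simp) (by simp)
      (by rw [e2]; simp)).1
    have eA2 : Del (ξ ^ (3 * ((n0 s / l : ℕ) : ℤ) * 0 * ((M 0 0).val : ℤ) *
          ((Int.gcd (((M 1 0).val : ℕ) : ℤ) (l : ℤ) : ℕ) : ℤ)))
        (3 * ((n0 s / l : ℕ) : ℤ) * ((Int.gcd (((M 1 0).val : ℕ) : ℤ) (l : ℤ) : ℕ) : ℤ) ^ 2) =
        Del 1 ((l : ℤ) * (D0 s : ℕ)) := by
      rw [e2, hdiv, hD]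
      congr 1
      · simp
      · ring
    rw [eA2] at h
    exact h
  have hAA := (hFIX s ξ hs hξ _ hA1).2.2.1 hfixA
  obtain ⟨ρ, hρ⟩ := hC2 (D0 s) _ hDpos hAA hA2
  have hepos : (0 : ℤ) < 3 * (q : ℤ) := by positivity
  have hρ2 := hC3 (D0 s) (3 * (q : ℤ)) l ρ hDpos hepos (by exact_mod_cast hl0) hρ
  rw [← hD] at hρ2
  -- step B
  have hB := hDLH s ξ hs hξ l 0 1 1 hln hl0 (by simp) (by simp)
  have eB1 : Del (ξ ^ (3 * ((n0 s / l : ℕ) : ℤ) * 1 * 0 * ((Int.gcd (1 : ℤ) (l : ℤ) : ℕ) : ℤ)))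
      (3 * ((n0 s / l : ℕ) : ℤ) * ((Int.gcd (1 : ℤ) (l : ℤ) : ℕ) : ℤ) ^ 2) =
      Del 1 (3 * (q : ℤ)) := by
    rw [hdiv]
    congr 1
    · simp
    · simp
  rw [eB1] at hB
  obtain ⟨hB1, hB2, hB3⟩ := hB
  classical
  have hF := hFIX s ξ hs hξ _ hB1
  have hdeg : (minpoly (AA (D0 s)) (Del 1 (3 * (q : ℤ)))).natDegree ≤ l := by
    refine (hF.2.2.2 ((Finset.range l).image fun i : ℕ => Del (ξ ^ (3 * (q : ℤ) * i))
      (3 * (q : ℤ))) ?_).trans (Finset.card_image_le.trans (Finset.card_range l).le)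
    intro τ
    obtain ⟨M, hdet, hact⟩ := hACT s ξ hs hξ τ
    have hl10 := hM τ M hdet hact
    -- `M 1 1` is prime to `l`
    have hcop : Nat.Coprime (M 1 1).val l := by
      rw [Nat.coprime_comm, hl.coprime_iff_not_dvd]
      intro h11
      -- then `det M` is not a unit
      have hcast : ∀ x : ZMod (nn s), l ∣ x.val → (ZMod.castHom hln (ZMod l)) x = 0 := by
        intro x hx
        have : x = ((x.val : ℕ) : ZMod (nn s)) := (ZMod.natCast_zmod_val x).symm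
        rw [this, map_natCast]
        exact (ZMod.natCast_eq_zero_iff _ _).2 hx
      have h0 : (ZMod.castHom hln (ZMod l)) M.det = 0 := by
        rw [Matrix.det_fin_two, map_sub, map_mul, map_mul, hcast _ h11, hcast _ hl10, mul_zero,
          mul_zero, sub_zero]
      have hu : IsUnit ((ZMod.castHom hln (ZMod l)) M.det) := hdet.map _
      rw [h0] at hu
      have : Fact (1 < l) := ⟨hl.one_lt⟩
      exact not_isUnit_zero hu
    obtain ⟨j', hj'⟩ : ∃ j' : ℤ, (l : ℤ) ∣ j' * ((M 1 1).val : ℤ) - 1 := by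
      have h := Nat.gcd_eq_gcd_ab (M 1 1).val l
      rw [Nat.coprime_iff_gcd_eq_one.1 hcop] at h
      refine ⟨Nat.gcdA (M 1 1).val l, -Nat.gcdB (M 1 1).val l, ?_⟩
      push_cast at h
      linarith
    have e2 : Int.gcd (((M 1 1).val : ℕ) : ℤ) (l : ℤ) = 1 := by
      rw [Int.gcd_natCast_natCast]
      exact hcop
    have h := (hB3 τ M hdet hact ((M 0 1).val : ℤ) ((M 1 1).val : ℤ) j' (by simp) (by simp)
      (by rw [e2]; exact_mod_cast hj')).1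
    set i0 : ℤ := (j' * ((M 0 1).val : ℤ)) % (l : ℤ) with hi0
    have hl0' : (0 : ℤ) < l := by exact_mod_cast hl0
    have hi1 : 0 ≤ i0 := Int.emod_nonneg _ hl0'.ne'
    have hi2 : i0 < l := Int.emod_lt_of_pos _ hl0'
    have hi3 : ((i0.toNat : ℕ) : ℤ) = i0 := Int.toNat_of_nonneg hi1
    refine ⟨_, ?_, h⟩
    rw [Finset.mem_image]
    refine ⟨i0.toNat, Finset.mem_range.2 (by omega), ?_⟩
    rw [e2, hdiv, hi3]
    congr 1
    · have e3 : 3 * (q : ℤ) * j' * ((M 0 1).val : ℤ) * ((1 : ℕ) : ℤ) =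
          3 * (q : ℤ) * i0 + ((D0 s : ℕ) : ℤ) * ((j' * ((M 0 1).val : ℤ)) / (l : ℤ)) := by
        have := Int.emod_add_mul_ediv (j' * ((M 0 1).val : ℤ)) (l : ℤ)
        rw [← hi0] at this
        rw [hD]
        push_cast
        linear_combination (-(3 * (q : ℤ))) * this
      have e4 : ξ ^ (((D0 s : ℕ) : ℤ) * ((j' * ((M 0 1).val : ℤ)) / (l : ℤ))) = 1 := by
        rw [zpow_mul, zpow_natCast, hξD, one_zpow]
      rw [e3, zpow_add, e4, mul_one]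
    · simp
  have h4 := hC4 (D0 s) (3 * (q : ℤ)) ρ hDpos hepos hρ2 hF.1
  exact hC5 (D0 s) l ρ hDpos hlodd hl.one_lt (h4.trans hdeg) hρ

end Pool.Agent.Work.P57
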