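import Pool.Agent.Work.P57.Interface

/-!
# Block ISO: isogenies
-/

set_option autoImplicit false

namespace Pool.Agent.Work.P57

open HahnSeries

namespace ISO

/-- the change of the summation index -/
theorem exists_index {m d k : ℕ} {β' j t : ℤ} (hd : 0 < d) (hk : 0 < k) (hm : m = d * k)
    (hj : j * β' - 1 = k * t) :
    ∃ e : ℤ × Fin d → Fin m × ℤ, Function.Bijective e ∧
      ∀ p : ℤ × Fin d, (∃ q : ℤ, p.1 * j + k * ((p.2 : ℕ) : ℤ) = (((e p).1 : ℕ) : ℤ) + m * q) ∧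
        p.1 * d = (((e p).1 : ℕ) : ℤ) * (d * β') + m * (e p).2 := by
  have hm0 : 0 < m := by rw [hm]; exact Nat.mul_pos hd hk
  have hmz : (0 : ℤ) < m := by exact_mod_cast hm0
  have hdz : (0 : ℤ) < d := by exact_mod_cast hd
  have hkz : (0 : ℤ) < k := by exact_mod_cast hk
  have hmm : (m : ℤ) = d * k := by rw [hm]; push_cast; ring
  have hex : ∀ p : ℤ × Fin d, ∃ r : Fin m × ℤ,
      (∃ q : ℤ, p.1 * j + k * ((p.2 : ℕ) : ℤ) = ((r.1 : ℕ) : ℤ) + m * q) ∧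
        p.1 * d = ((r.1 : ℕ) : ℤ) * (d * β') + m * r.2 := by
    rintro ⟨N, i⟩
    have h0 : 0 ≤ (N * j + k * ((i : ℕ) : ℤ)) % m := Int.emod_nonneg _ hmz.ne'
    have h1 : (N * j + k * ((i : ℕ) : ℤ)) % m < m := Int.emod_lt_of_pos _ hmz
    have h2 : (((N * j + k * ((i : ℕ) : ℤ)) % m).toNat : ℤ) = (N * j + k * ((i : ℕ) : ℤ)) % m :=
      Int.toNat_of_nonneg h0
    have h3 : ((N * j + k * ((i : ℕ) : ℤ)) % m).toNat < m := by
      have : (((N * j + k * ((i : ℕ) : ℤ)) % m).toNat : ℤ) < (m : ℤ) := by rw [h2]; exact h1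
      exact_mod_cast this
    have h4 := Int.emod_add_mul_ediv (N * j + k * ((i : ℕ) : ℤ)) m
    refine ⟨(⟨((N * j + k * ((i : ℕ) : ℤ)) % m).toNat, h3⟩,
      -(N * t) - ((i : ℕ) : ℤ) * β' + ((N * j + k * ((i : ℕ) : ℤ)) / m) * (d * β')),
      ⟨(N * j + k * ((i : ℕ) : ℤ)) / m, ?_⟩, ?_⟩
    · show N * j + k * ((i : ℕ) : ℤ) = (((N * j + k * ((i : ℕ) : ℤ)) % m).toNat : ℤ) + _
      rw [h2, h4]
    · show N * d = (((N * j + k * ((i : ℕ) : ℤ)) % m).toNat : ℤ) * (d * β') +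
        m * (-(N * t) - ((i : ℕ) : ℤ) * β' + ((N * j + k * ((i : ℕ) : ℤ)) / m) * (d * β'))
      rw [h2]
      have h5 : (N * j + k * ((i : ℕ) : ℤ)) % m =
          (N * j + k * ((i : ℕ) : ℤ)) - m * ((N * j + k * ((i : ℕ) : ℤ)) / m) := by linarith
      rw [h5]
      generalize (N * j + k * ((i : ℕ) : ℤ)) / m = q
      rw [hmm]
      linear_combination (-(N * d)) * hj
  choose e he1 he2 using hex
  refine ⟨e, ⟨?_, ?_⟩, fun p => ⟨he1 p, he2 p⟩⟩
  · rintro ⟨N, i⟩ ⟨N', i'⟩ h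
    obtain ⟨q, hq⟩ := he1 (N, i)
    obtain ⟨q', hq'⟩ := he1 (N', i')
    have h2 := he2 (N, i)
    have h2' := he2 (N', i')
    rw [h] at hq h2
    have hN : N = N' := by
      have : N * d = N' * d := by
        rw [show N * d = _ from h2, show N' * d = _ from h2']
      exact mul_right_cancel₀ hdz.ne' this
    subst hN
    have hi : (k : ℤ) * (((i : ℕ) : ℤ) - ((i' : ℕ) : ℤ)) = k * (d * (q - q')) := by
      simp only at hq hq'
      rw [hmm] at hq hq'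
      linear_combination hq - hq'
    have hi2 := mul_left_cancel₀ hkz.ne' hi
    have hlt : ((i : ℕ) : ℤ) < d := by exact_mod_cast i.2
    have hlt' : ((i' : ℕ) : ℤ) < d := by exact_mod_cast i'.2
    have h0 : (0 : ℤ) ≤ ((i : ℕ) : ℤ) := Int.natCast_nonneg _
    have h0' : (0 : ℤ) ≤ ((i' : ℕ) : ℤ) := Int.natCast_nonneg _
    have hqq : q - q' = 0 := by
      by_contra hne
      rcases lt_or_gt_of_ne hne with hlt2 | hgt
      · have : q - q' ≤ -1 := by omega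
        nlinarith
      · have : 1 ≤ q - q' := by omega
        nlinarith
    rw [hqq, mul_zero] at hi2
    have hii : (i : ℕ) = (i' : ℕ) := by omega
    have hii' : i = i' := Fin.ext hii
    rw [hii']
  · rintro ⟨l, n⟩
    -- N = l β' + k n, i = -(l t + n j) mod d
    have h0 : 0 ≤ (-((l : ℕ) * t + n * j)) % (d : ℤ) := Int.emod_nonneg _ hdz.ne'
    have h1 : (-((l : ℕ) * t + n * j)) % (d : ℤ) < d := Int.emod_lt_of_pos _ hdz
    have h2 : (((-((l : ℕ) * t + n * j)) % (d : ℤ)).toNat : ℤ) = (-((l : ℕ) * t + n * j)) % (d : ℤ) :=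
      Int.toNat_of_nonneg h0
    have h3 : ((-((l : ℕ) * t + n * j)) % (d : ℤ)).toNat < d := by
      have : (((-((l : ℕ) * t + n * j)) % (d : ℤ)).toNat : ℤ) < (d : ℤ) := by rw [h2]; exact h1
      exact_mod_cast this
    have h4 := Int.emod_add_mul_ediv (-((l : ℕ) * t + n * j)) (d : ℤ)
    refine ⟨((l : ℕ) * β' + k * n, ⟨((-((l : ℕ) * t + n * j)) % (d : ℤ)).toNat, h3⟩), ?_⟩
    set p : ℤ × Fin d := ((l : ℕ) * β' + k * n, ⟨((-((l : ℕ) * t + n * j)) % (d : ℤ)).toNat, h3⟩)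
      with hp
    obtain ⟨q, hq⟩ := he1 p
    have hr := he2 p
    have hp1 : p.1 = (l : ℕ) * β' + k * n := rfl
    have hp2 : (((p.2 : Fin d) : ℕ) : ℤ) = (-((l : ℕ) * t + n * j)) % (d : ℤ) := h2
    rw [hp1, hp2] at hq
    rw [hp1] at hr
    have h5 : (-((l : ℕ) * t + n * j)) % (d : ℤ) = -((l : ℕ) * t + n * j) -
      d * ((-((l : ℕ) * t + n * j)) / (d : ℤ)) := by linarith
    rw [h5] at hq
    generalize (-((l : ℕ) * t + n * j)) / (d : ℤ) = w at hq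
    have h6 : (((l : ℕ) : ℤ)) - (((e p).1 : ℕ) : ℤ) = m * (q + w) := by
      rw [hmm] at hq ⊢
      linear_combination hq - ((l : ℕ) : ℤ) * hj
    have hl1 : ((l : ℕ) : ℤ) < m := by exact_mod_cast l.2
    have hl2 : (((e p).1 : ℕ) : ℤ) < m := by exact_mod_cast (e p).1.2
    have hl3 : (0 : ℤ) ≤ ((l : ℕ) : ℤ) := Int.natCast_nonneg _
    have hl4 : (0 : ℤ) ≤ (((e p).1 : ℕ) : ℤ) := Int.natCast_nonneg _
    have hqw : q + w = 0 := by
      by_contra hne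
      rcases lt_or_gt_of_ne hne with hlt2 | hgt
      · have : q + w ≤ -1 := by omega
        nlinarith
      · have : 1 ≤ q + w := by omega
        nlinarith
    rw [hqw, mul_zero] at h6
    have h7 : ((e p).1 : ℕ) = (l : ℕ) := by omega
    have h8 : (e p).1 = l := Fin.ext h7
    have h9 : (e p).2 = n := by
      rw [h7] at hr
      have : (m : ℤ) * (e p).2 = m * n := by
        rw [hmm] at hr ⊢
        linear_combination -hr
      exact mul_left_cancel₀ hmz.ne' this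
    exact Prod.ext h8 h9

theorem sum_swap (hEM : Stmt_EM) {ξ : kkˣ} {d k μ : ℕ} (hd : 0 < d) (hk : 0 < k) (hμ : 0 < μ)
    (hodd : Odd d) (hξ : IsPrimitiveRoot ξ (3 * (d * k * μ)))
    {α β' j t a b : ℤ} (hj : j * β' - 1 = k * t) (hα : IsCoprime α (d : ℤ))
    (hP : ∀ i : ℤ, ¬ (b = μ * d * i ∧ (ξ ^ (3 * a)) ^ d = (ξ ^ (3 * μ * j * α * d)) ^ i))
    (F : ℕ → ℤ → ℤ → kk)
    (hF : ∀ l n g, F l n g = (eM (ξ ^ (3 * (a + l * μ * α)) * 1 ^ n)
      (3 * (b + l * μ * (d * β')) + (3 * (d * k * μ)) * n)).coeff g)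
    (hfin : ∀ (l : ℕ) (g : ℤ), l < d * k → {n : ℤ | F l n g ≠ 0}.Finite) (g : ℤ) :
    ∑ l ∈ Finset.range (d * k), ∑ᶠ n : ℤ, F l n g =
      ∑ᶠ N : ℤ, (eM ((ξ ^ (3 * a)) ^ d * (ξ ^ (3 * μ * j * α * d)) ^ N)
        (d * (3 * b) + 3 * μ * d ^ 2 * N)).coeff g := by
  obtain ⟨e, hbij, he⟩ := exists_index (m := d * k) hd hk rfl hj
  have hD : (0 : ℤ) < 3 * (d * k * μ) := by positivity
  -- the sum over pairs
  have hsupp : (Function.support (fun p : Fin (d * k) × ℤ => F p.1 p.2 g)).Finite := by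
    have h1 : Function.support (fun p : Fin (d * k) × ℤ => F p.1 p.2 g) ⊆
        ⋃ l : Fin (d * k), (fun n : ℤ => (l, n)) '' {n : ℤ | F l n g ≠ 0} := by
      rintro ⟨l, n⟩ h
      rw [Function.mem_support] at h
      refine Set.mem_iUnion.2 ⟨l, n, h, rfl⟩
    exact (Set.finite_iUnion (ι := Fin (d * k)) fun l => (hfin l g l.2).image _).subset h1
  have hL : ∑ l ∈ Finset.range (d * k), ∑ᶠ n : ℤ, F l n g =
      ∑ᶠ p : Fin (d * k) × ℤ, F p.1 p.2 g := by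
    rw [finsum_curry _ hsupp, finsum_eq_sum_of_fintype, ← Fin.sum_univ_eq_sum_range
      (fun l => ∑ᶠ n : ℤ, F l n g)]
  rw [hL, ← finsum_eq_of_bijective e hbij (f := fun p => F (e p).1 (e p).2 g) (fun _ => rfl)]
  have hsupp2 : (Function.support (fun p : ℤ × Fin d => F (e p).1 (e p).2 g)).Finite := by
    have h1 : Function.support (fun p : ℤ × Fin d => F (e p).1 (e p).2 g) =
        e ⁻¹' (Function.support (fun p : Fin (d * k) × ℤ => F p.1 p.2 g)) := rfl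
    rw [h1]
    exact hsupp.preimage hbij.injective.injOn
  rw [finsum_curry _ hsupp2]
  refine finsum_congr fun N => ?_
  rw [finsum_eq_sum_of_fintype]
  -- the term
  have hterm : ∀ i : Fin d, F (e (N, i)).1 (e (N, i)).2 g =
      (eM ((ξ ^ (3 * k * μ * α)) ^ (i : ℕ) * ξ ^ (3 * (a + N * j * μ * α)))
        (3 * (b + μ * d * N))).coeff g := by
    intro i
    obtain ⟨⟨q, hq⟩, hr⟩ := he (N, i)
    rw [hF]
    simp only at hq hr
    have hξ1 : ξ ^ (3 * ((d : ℤ) * k * μ)) = 1 := by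
      have := hξ.pow_eq_one
      rw [← zpow_natCast] at this
      push_cast at this
      exact this
    have h1 : ξ ^ (3 * (a + (((e (N, i)).1 : ℕ) : ℤ) * μ * α)) * (1 : kkˣ) ^ (e (N, i)).2 =
        (ξ ^ (3 * k * μ * α)) ^ (i : ℕ) * ξ ^ (3 * (a + N * j * μ * α)) := by
      rw [one_zpow, mul_one, ← zpow_natCast (ξ ^ (3 * k * μ * α)) (i : ℕ), ← zpow_mul, ← zpow_add]
      have h2 : 3 * k * μ * α * ((i : ℕ) : ℤ) + 3 * (a + N * j * μ * α) =
          3 * (a + (((e (N, i)).1 : ℕ) : ℤ) * μ * α) + (3 * ((d : ℤ) * k * μ)) * (q * α) := by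
        push_cast at hq
        linear_combination (3 * μ * α) * hq
      rw [h2, zpow_add, zpow_mul ξ (3 * ((d : ℤ) * k * μ)), hξ1, one_zpow, mul_one]
    have h3 : 3 * (b + (((e (N, i)).1 : ℕ) : ℤ) * μ * (d * β')) + (3 * (d * k * μ)) * (e (N, i)).2 =
        3 * (b + μ * d * N) := by
      push_cast at hr
      linear_combination (-3 * μ) * hr
    rw [h1, h3]
  rw [Finset.sum_congr rfl (fun i _ => hterm i),
    Fin.sum_univ_eq_sum_range (fun i : ℕ => (eM ((ξ ^ (3 * k * μ * α)) ^ i *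
      ξ ^ (3 * (a + N * j * μ * α))) (3 * (b + μ * d * N))).coeff g)]
  -- primitivity
  have hprim : IsPrimitiveRoot (ξ ^ (3 * k * μ * α)) d := by
    have h1 : IsPrimitiveRoot (ξ ^ (3 * k * μ)) d := by
      have h2 : 3 * (d * k * μ) = (3 * k * μ) * d := by ring
      refine hξ.pow (by positivity) h2
    have h3 : ξ ^ ((3 : ℤ) * k * μ * α) = (ξ ^ (3 * k * μ)) ^ α := by
      rw [← zpow_natCast, ← zpow_mul]
      push_cast
      ring_nf
    rw [h3]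
    exact (h1.zpow_of_gcd_eq_one α (Int.isCoprime_iff_gcd_eq_one.1 hα))
  have hcond : (3 * (b + μ * d * N) ≠ 0 ∨ (ξ ^ (3 * (a + N * j * μ * α))) ^ d ≠ 1) := by
    by_contra hcon
    push Not at hcon
    apply hP (-N)
    refine ⟨by linarith [hcon.1], ?_⟩
    have h2 := hcon.2
    have h4 : 3 * (a + N * j * μ * α) = 3 * a + 3 * N * j * μ * α := by ring
    rw [h4, zpow_add, mul_pow] at h2
    rw [zpow_neg, eq_inv_iff_mul_eq_one, ← zpow_mul]
    rw [← h2]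
    congr 1
    rw [← zpow_natCast (ξ ^ (3 * N * j * μ * α)), ← zpow_mul]
    congr 1
    ring
  have hem := hEM d _ _ _ hprim hodd hcond
  have hc := congrArg (fun f : KK => f.coeff g) hem
  rw [coeff_sum] at hc
  rw [hc]
  congr 2
  · rw [← zpow_natCast, ← zpow_mul, ← zpow_natCast (ξ ^ (3 * a)), ← zpow_mul, ← zpow_mul, ← zpow_add]
    congr 1
    ring
  · ring

/-- the duplication formula -/
theorem dup (hIDA : Stmt_IDA) (hIDB : Stmt_IDB) (ξ η : kkˣ) (e j : ℤ) (he : 0 < e)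
    (h1 : ∀ i : ℤ, ¬ (j = e * i ∧ η = ξ ^ i)) (h2 : ∀ i : ℤ, 2 * j ≠ e * (2 * i + 1)) :
    xT (η ^ 2) (2 * j) ξ e * xT η j ξ e ^ 2 = xT η j ξ e ^ 4 + Del ξ e := by
  obtain ⟨-, h3, -, h4, h5, h6⟩ := hIDA ξ η 1 e j 0 he
  obtain ⟨-, -, -, -, h7, h8⟩ := hIDB ξ η e j he
  have hT := h7 h1
  have hA := h8 h2
  unfold xT
  rw [h5, h4]
  unfold bT
  have hU : (single j (η : kk) : KK) ≠ 0 := single_ne_zero (Units.ne_zero η)
  have hU2 : (single (2 * j) ((η ^ 2 : kkˣ) : kk) : KK) = single j (η : kk) ^ 2 := by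
    rw [single_pow, Units.val_pow_eq_pow_val, nsmul_eq_mul]
    rfl
  rw [hU2]
  have hT2 : tT (η ^ 2) (2 * j) ξ e = aT η j ξ e * tT η j ξ e ^ 2 / Psi ξ e := by
    rw [eq_div_iff h6, mul_comm]
    exact h3
  rw [hT2]
  generalize (single j (η : kk) : KK) = U at *
  generalize aT η j ξ e = A at *
  generalize tT η j ξ e = T at *
  generalize Psi ξ e = ψ at *
  generalize (single e (ξ : kk) : KK) = W at *
  field_simp

/-- membership in the subgroup -/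
theorem inH_of {s : ℕ} {m μ d k : ℕ} {α β' j t a b i : ℤ} (hm : m = d * k) (hd : 0 < d)
    (hn : n0 s = m * μ) (hm0 : 0 < m)
    (hj : j * β' - 1 = k * t) (hα : IsCoprime α (d : ℤ)) {ξ : kkˣ}
    (hξ : IsPrimitiveRoot ξ (D0 s))
    (h1 : b = μ * d * i) (h2 : (ξ ^ (3 * a)) ^ d = (ξ ^ (3 * μ * j * α * d)) ^ i) :
    InH s m α (d * β') ((a : ZMod (n0 s)), (b : ZMod (n0 s))) := by
  have hμ : n0 s / m = μ := by rw [hn, Nat.mul_div_cancel_left _ hm0]
  have hdz : (d : ℤ) ≠ 0 := by exact_mod_cast hd.ne'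
  have h3 : ξ ^ (3 * a * d - 3 * μ * j * α * d * i) = 1 := by
    rw [zpow_sub, mul_inv_eq_one, zpow_mul, zpow_natCast, h2, ← zpow_mul]
  have h4 := (hξ.zpow_eq_one_iff_dvd _).1 h3
  obtain ⟨w, hw⟩ := h4
  have h5 : a - μ * j * α * i = k * μ * w := by
    have h6 : ((D0 s : ℕ) : ℤ) = 3 * (d * k * μ) := by
      show ((3 * n0 s : ℕ) : ℤ) = _
      rw [hn, hm]
      push_cast
      ring
    rw [h6] at hw
    have h7 : (3 * (d : ℤ)) * (a - μ * j * α * i) = (3 * (d : ℤ)) * (k * μ * w) := by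
      linear_combination hw
    exact mul_left_cancel₀ (mul_ne_zero three_ne_zero hdz) h7
  obtain ⟨u, v, huv⟩ := hα
  refine ⟨i * j + k * w * u, ?_⟩
  rw [hμ]
  refine Prod.ext ?_ ?_
  · show (a : ZMod (n0 s)) = _
    rw [ZMod.intCast_eq_intCast_iff_dvd_sub]
    refine ⟨-(w * v), ?_⟩
    rw [hn, hm]
    push_cast
    linear_combination -h5 + (k * μ * w) * huv
  · show (b : ZMod (n0 s)) = _
    rw [ZMod.intCast_eq_intCast_iff_dvd_sub]
    refine ⟨i * t + w * u * β', ?_⟩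
    rw [hn, hm]
    push_cast
    linear_combination -h1 + (i * μ * d) * hj

/-- the sum over the subgroup -/
theorem key (hELL : Stmt_ELL) (hLTH : Stmt_LTH) (hEM : Stmt_EM) {s : ℕ} {ξ : kkˣ} (hs : 1 ≤ s)
    (hξ : IsPrimitiveRoot ξ (D0 s)) {m μ d k : ℕ} {α β' j t : ℤ} (hm : m = d * k) (hd : 0 < d)
    (hk : 0 < k) (hμ0 : 0 < μ) (hodd : Odd d)
    (hn : n0 s = m * μ) (hm0 : 0 < m)
    (hj : j * β' - 1 = k * t) (hα : IsCoprime α (d : ℤ)) (a b : ℤ)
    (hP : ¬ InH s m α (d * β') ((a : ZMod (n0 s)), (b : ZMod (n0 s)))) :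
    YH s ξ m α (d * β') ((a : ZMod (n0 s)), (b : ZMod (n0 s))) =
      xT ((ξ ^ (3 * a)) ^ d) (d * (3 * b)) (ξ ^ (3 * μ * j * α * d)) (3 * μ * d ^ 2) := by
  have hμ : n0 s / m = μ := by rw [hn, Nat.mul_div_cancel_left _ hm0]
  have hdz : (0 : ℤ) < d := by exact_mod_cast hd
  have hμz : (0 : ℤ) < μ := by exact_mod_cast hμ0
  have hD : ((D0 s : ℕ) : ℤ) = 3 * (d * k * μ) := by
    show ((3 * n0 s : ℕ) : ℤ) = _
    rw [hn, hm]
    push_cast
    ring
  have hn0 : (0 : ℤ) < n0 s := by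
    rw [hn]
    exact_mod_cast Nat.mul_pos hm0 hμ0
  -- non-membership of the translates in `Q^ℤ`
  have hnd : ∀ l : ℤ, ¬ ((n0 s : ℤ) ∣ a + l * μ * α ∧ (n0 s : ℤ) ∣ b + l * μ * (d * β')) := by
    rintro l ⟨h1, h2⟩
    apply hP
    refine ⟨-l, ?_⟩
    rw [hμ]
    refine Prod.ext ?_ ?_
    · show (a : ZMod (n0 s)) = _
      rw [ZMod.intCast_eq_intCast_iff_dvd_sub]
      have : -l * μ * α - a = -(a + l * μ * α) := by ring
      rw [this]
      exact (dvd_neg).2 h1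
    · show (b : ZMod (n0 s)) = _
      rw [ZMod.intCast_eq_intCast_iff_dvd_sub]
      have : -l * μ * (d * β') - b = -(b + l * μ * (d * β')) := by ring
      rw [this]
      exact (dvd_neg).2 h2
  have hlth : ∀ l : ℤ, ∀ i : ℤ, ¬ (3 * (b + l * μ * (d * β')) = ((D0 s : ℕ) : ℤ) * i ∧
      ξ ^ (3 * (a + l * μ * α)) = 1 ^ i) := by
    rintro l i ⟨h1, h2⟩
    apply hnd l
    rw [one_zpow] at h2
    have h3 := (hξ.zpow_eq_one_iff_dvd _).1 h2
    have h4 : ((D0 s : ℕ) : ℤ) = 3 * (n0 s : ℤ) := by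
      show ((3 * n0 s : ℕ) : ℤ) = _
      push_cast
      ring
    rw [h4] at h1 h3
    constructor
    · exact Int.dvd_of_mul_dvd_mul_left (by norm_num : (3 : ℤ) ≠ 0) h3
    · have h5 : (3 : ℤ) * (b + l * μ * (d * β')) = 3 * ((n0 s : ℤ) * i) := by
        rw [h1]; ring
      exact ⟨i, mul_left_cancel₀ three_ne_zero h5⟩
  have hPn : ∀ i : ℤ, ¬ (b = μ * d * i ∧ (ξ ^ (3 * a)) ^ d = (ξ ^ (3 * μ * j * α * d)) ^ i) := by
    rintro i ⟨h1, h2⟩
    exact hP (inH_of hm hd hn hm0 hj hα hξ h1 h2)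
  have hDpos : (0 : ℤ) < ((D0 s : ℕ) : ℤ) := by
    show (0 : ℤ) < ((3 * n0 s : ℕ) : ℤ)
    push_cast
    linarith
  have hePos : (0 : ℤ) < 3 * μ * d ^ 2 := by positivity
  have hL2 := hLTH (ξ ^ (3 * μ * j * α * d)) ((ξ ^ (3 * a)) ^ d) (3 * μ * d ^ 2) (d * (3 * b)) hePos
    (by
      rintro i ⟨h1, h2⟩
      apply hPn i
      refine ⟨?_, h2⟩
      have h3 : (3 * (d : ℤ)) * b = (3 * (d : ℤ)) * (μ * d * i) := by
        linear_combination h1
      exact mul_left_cancel₀ (mul_ne_zero three_ne_zero hdz.ne') h3)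
  have hL1 := fun l : ℤ => hLTH 1 (ξ ^ (3 * (a + l * μ * α))) ((D0 s : ℕ) : ℤ)
    (3 * (b + l * μ * (d * β'))) hDpos (hlth l)
  have hξ' : IsPrimitiveRoot ξ (3 * (d * k * μ)) := by
    have : D0 s = 3 * (d * k * μ) := by
      show 3 * n0 s = _
      rw [hn, hm]
    rw [← this]
    exact hξ
  ext g
  rw [hL2.2 g]
  have hsw := sum_swap hEM hd hk hμ0 hodd hξ' hj hα hPn
    (fun l n g => (eM (ξ ^ (3 * (a + l * μ * α)) * 1 ^ n)
      (3 * (b + l * μ * (d * β')) + (3 * (d * k * μ)) * n)).coeff g) (fun _ _ _ => rfl)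
    (by
      intro l g _
      have h1 := (hL1 l).1 g
      rw [hD] at h1
      exact h1) g
  rw [← hsw]
  unfold YH
  rw [coeff_sum, hm]
  refine Finset.sum_congr rfl fun l _ => ?_
  have h1 := (hL1 l).2 g
  have h2 := (hELL s ξ hs hξ).1 (a + l * μ * α) (b + l * μ * (d * β')) (hnd l)
  have h3 : (((a : ZMod (n0 s)) + ((l * (n0 s / (d * k) : ℕ) * α : ℤ) : ZMod (n0 s)),
      (b : ZMod (n0 s)) + ((l * (n0 s / (d * k) : ℕ) * (d * β') : ℤ) : ZMod (n0 s))) :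
        ZMod (n0 s) × ZMod (n0 s)) =
      (((a + l * μ * α : ℤ) : ZMod (n0 s)), ((b + l * μ * (d * β') : ℤ) : ZMod (n0 s))) := by
    rw [← hm, hμ]
    refine Prod.ext ?_ ?_
    · push_cast
      ring
    · push_cast
      ring
  have h4 : (XP s ξ ((a : ZMod (n0 s)) + ((l * (n0 s / (d * k) : ℕ) * α : ℤ) : ZMod (n0 s)),
      (b : ZMod (n0 s)) + ((l * (n0 s / (d * k) : ℕ) * (d * β') : ℤ) : ZMod (n0 s)))) =
      xT (ξ ^ (3 * (a + l * μ * α))) (3 * (b + l * μ * (d * β'))) 1 ((D0 s : ℕ) : ℤ) := by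
    rw [h3, h2]
  show (XP s ξ ((a : ZMod (n0 s)) + ((l * (n0 s / (d * k) : ℕ) * α : ℤ) : ZMod (n0 s)),
      (b : ZMod (n0 s)) + ((l * (n0 s / (d * k) : ℕ) * (d * β') : ℤ) : ZMod (n0 s)))).coeff g = _
  rw [h4, h1, hD]

end ISO

theorem blk_ISO (_hTH : Stmt_TH) (hIDA : Stmt_IDA) (hIDB : Stmt_IDB) (hELL : Stmt_ELL)
    (hLTH : Stmt_LTH) (hEM : Stmt_EM) : Stmt_ISO := by
  intro s ξ hs hξ m α β j hmn hm0 hgcd hjd P hP
  have hd0 : 0 < Int.gcd β m := Int.gcd_pos_of_ne_zero_right _ (by exact_mod_cast hm0.ne')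
  obtain ⟨β', hβ'⟩ : ((Int.gcd β m : ℕ) : ℤ) ∣ β := Int.gcd_dvd_left ..
  obtain ⟨k, hk⟩ : Int.gcd β m ∣ m := by
    have := Int.gcd_dvd_right β (m : ℤ)
    exact_mod_cast this
  obtain ⟨μ, hn⟩ := hmn
  have hn4 : n0 s = 4 ^ s - 1 := rfl
  have h4 : 4 ≤ 4 ^ s := by
    calc 4 = 4 ^ 1 := by norm_num
      _ ≤ 4 ^ s := Nat.pow_le_pow_right (by norm_num) hs
  have hnodd : Odd (n0 s) := by
    have h5 : Even (4 ^ s) := Nat.even_pow.2 ⟨by decide, by omega⟩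
    obtain ⟨c, hc⟩ := h5
    refine ⟨c - 1, ?_⟩
    omega
  have hn0 : 0 < n0 s := by omega
  have hμ0 : 0 < μ := Nat.pos_of_ne_zero fun h => by rw [h, mul_zero] at hn; omega
  have hk0 : 0 < k := Nat.pos_of_ne_zero fun h => by rw [h, mul_zero] at hk; omega
  have hμ : n0 s / m = μ := by rw [hn, Nat.mul_div_cancel_left _ hm0]
  have hmodd : Odd m := by
    rw [hn] at hnodd
    exact Nat.Odd.of_mul_left hnodd
  have hμodd : Odd μ := by
    rw [hn] at hnodd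
    exact Nat.Odd.of_mul_right hnodd
  have hdodd : Odd (Int.gcd β m) := by
    rw [hk] at hmodd
    exact Nat.Odd.of_mul_left hmodd
  generalize hdd : Int.gcd β (m : ℤ) = d at *
  have hdz : (d : ℤ) ≠ 0 := by exact_mod_cast hd0.ne'
  obtain ⟨t, ht⟩ := hjd
  have hj : j * β' - 1 = k * t := by
    have h6 : (d : ℤ) * (j * β' - 1) = d * (k * t) := by
      have h7 : (m : ℤ) = d * k := by rw [hk]; push_cast; ring
      rw [hβ', h7] at ht
      linear_combination ht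
    exact mul_left_cancel₀ hdz h6
  have hα : IsCoprime α (d : ℤ) := by
    rw [Int.isCoprime_iff_gcd_eq_one]
    have h6 : Int.gcd α (d : ℤ) ∣ Int.gcd ((Int.gcd α β : ℕ) : ℤ) (m : ℤ) := by
      apply Int.dvd_gcd
      · have h7 : Int.gcd α (d : ℤ) ∣ Int.gcd α β := by
          apply Int.dvd_gcd
          · exact Int.gcd_dvd_left ..
          · exact (Int.gcd_dvd_right ..).trans ⟨β', hβ'⟩
        exact_mod_cast h7
      · refine (Int.gcd_dvd_right ..).trans ⟨(k : ℤ), ?_⟩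
        rw [hk]
        push_cast
        ring
    rw [hgcd] at h6
    exact Nat.dvd_one.1 h6
  obtain ⟨a, ha⟩ := ZMod.intCast_surjective P.1
  obtain ⟨b, hb⟩ := ZMod.intCast_surjective P.2
  have hPab : P = ((a : ZMod (n0 s)), (b : ZMod (n0 s))) := Prod.ext ha.symm hb.symm
  have hPP : P + P = (((2 * a : ℤ) : ZMod (n0 s)), ((2 * b : ℤ) : ZMod (n0 s))) := by
    rw [hPab]
    refine Prod.ext ?_ ?_
    · show (a : ZMod (n0 s)) + (a : ZMod (n0 s)) = _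
      push_cast
      ring
    · show (b : ZMod (n0 s)) + (b : ZMod (n0 s)) = _
      push_cast
      ring
  have hPP' : ¬ InH s m α β (P + P) := by
    rintro ⟨l, hl⟩
    apply hP
    obtain ⟨c, hc⟩ := hnodd
    have hc1 : ((n0 s : ℕ) : ZMod (n0 s)) = 0 := ZMod.natCast_self _
    have hc2 : (2 * ((c : ZMod (n0 s)) + 1)) = 1 := by
      have h8 : ((n0 s : ℕ) : ZMod (n0 s)) = ((2 * c + 1 : ℕ) : ZMod (n0 s)) := by
        rw [← hc]
      rw [hc1] at h8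
      push_cast at h8
      linear_combination -h8
    have hl1 := congrArg Prod.fst hl
    have hl2 := congrArg Prod.snd hl
    simp only [Prod.fst_add, Prod.snd_add] at hl1 hl2
    refine ⟨(c + 1) * l, Prod.ext ?_ ?_⟩
    · show P.1 = _
      push_cast at hl1 ⊢
      linear_combination ((c : ZMod (n0 s)) + 1) * hl1 - P.1 * hc2
    · show P.2 = _
      push_cast at hl2 ⊢
      linear_combination ((c : ZMod (n0 s)) + 1) * hl2 - P.2 * hc2
  rw [hPP] at hPP'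
  rw [hPab] at hP
  rw [hβ'] at hP hPP'
  have hk1 := ISO.key hELL hLTH hEM hs hξ hk hd0 hk0 hμ0 hdodd hn hm0 hj hα a b hP
  have hk2 := ISO.key hELL hLTH hEM hs hξ hk hd0 hk0 hμ0 hdodd hn hm0 hj hα (2 * a) (2 * b) hPP'
  rw [hPP, hPab, hβ', hk1, hk2, hμ]
  have hePos : (0 : ℤ) < 3 * μ * d ^ 2 := by positivity
  have hdup := ISO.dup hIDA hIDB (ξ ^ (3 * (μ : ℤ) * j * α * d)) ((ξ ^ (3 * a)) ^ d)
    (3 * μ * d ^ 2) (d * (3 * b)) hePos
    (by
      rintro i ⟨h1, h2⟩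
      refine hP (ISO.inH_of hk hd0 hn hm0 hj hα hξ ?_ h2)
      have h3 : (3 * (d : ℤ)) * b = (3 * (d : ℤ)) * (μ * d * i) := by
        linear_combination h1
      exact mul_left_cancel₀ (mul_ne_zero three_ne_zero hdz) h3)
    (by
      intro i h
      have h3 : (3 * (d : ℤ)) * (2 * b) = (3 * (d : ℤ)) * (μ * d * (2 * i + 1)) := by
        linear_combination h
      have h4 := mul_left_cancel₀ (mul_ne_zero three_ne_zero hdz) h3
      obtain ⟨c1, hc1⟩ := hμodd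
      obtain ⟨c2, hc2⟩ := hdodd
      have h5 : Odd ((μ : ℤ) * d * (2 * i + 1)) := by
        have ho1 : Odd (μ : ℤ) := ⟨c1, by rw [hc1]; push_cast; ring⟩
        have ho2 : Odd (d : ℤ) := ⟨c2, by rw [hc2]; push_cast; ring⟩
        exact (ho1.mul ho2).mul ⟨i, rfl⟩
      rw [← h4] at h5
      exact (Int.not_odd_iff_even.2 ⟨b, by ring⟩) h5)
  have hx : xT ((ξ ^ (3 * (2 * a))) ^ d) (d * (3 * (2 * b))) (ξ ^ (3 * (μ : ℤ) * j * α * d))
      (3 * μ * d ^ 2) = xT (((ξ ^ (3 * a)) ^ d) ^ 2) (2 * (d * (3 * b)))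
        (ξ ^ (3 * (μ : ℤ) * j * α * d)) (3 * μ * d ^ 2) := by
    congr 1
    · rw [← zpow_natCast, ← zpow_natCast, ← zpow_natCast, ← zpow_mul, ← zpow_mul, ← zpow_mul]
      congr 1
      push_cast
      ring
    · ring
  rw [hx]
  generalize xT (((ξ ^ (3 * a)) ^ d) ^ 2) (2 * (d * (3 * b)))
        (ξ ^ (3 * (μ : ℤ) * j * α * d)) (3 * μ * d ^ 2) = X2 at *
  generalize xT ((ξ ^ (3 * a)) ^ d) (d * (3 * b)) (ξ ^ (3 * (μ : ℤ) * j * α * d))
    (3 * μ * d ^ 2) = X1 at *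
  have h9 : X1 ^ 2 * X1 ^ 2 = X1 ^ 4 := by ring
  rw [mul_add, mul_comm, hdup, h9, add_comm (X1 ^ 4), add_assoc, CharTwo.add_self_eq_zero,
    add_zero]

end Pool.Agent.Work.P57
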