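import Pool.Agent.Work.P57.Interface

/-!
# P57, block JAC (helper6): `E ^ 3 = ∑ X ^ (n (n + 1) / 2)` modulo 2
-/

set_option autoImplicit false

namespace Pool.Agent.Work.P57

namespace JAC

open Finset Classical

/-- the pairs `(u, v)` with `u ^ 2 + 2 v ^ 2 = N`, `u + v = 1 mod 3` -/
noncomputable def R (N : ℤ) : Finset (ℤ × ℤ) :=
  ((Icc (-N) N) ×ˢ (Icc (-N) N)).filter fun p =>
    p.1 ^ 2 + 2 * p.2 ^ 2 = N ∧ (p.1 + p.2) % 3 = 1

theorem abs_le_sq (u : ℤ) : -(u ^ 2) ≤ u ∧ u ≤ u ^ 2 := by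
  constructor
  · rcases le_or_gt 0 u with h | h
    · nlinarith [sq_nonneg u]
    · nlinarith
  · rcases le_or_gt u 0 with h | h
    · nlinarith [sq_nonneg u]
    · nlinarith

theorem mem_R {N : ℤ} {p : ℤ × ℤ} :
    p ∈ R N ↔ p.1 ^ 2 + 2 * p.2 ^ 2 = N ∧ (p.1 + p.2) % 3 = 1 := by
  rw [R, mem_filter, and_iff_right_iff_imp]
  rintro ⟨h, _⟩
  have h1 := abs_le_sq p.1
  have h2 := abs_le_sq p.2
  rw [mem_product, mem_Icc, mem_Icc]
  refine ⟨⟨?_, ?_⟩, ?_, ?_⟩ <;> nlinarith [sq_nonneg p.1, sq_nonneg p.2]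

/-- a fixed point free involution -/
theorem card_zero {α : Type} [DecidableEq α] (s : Finset α) (g : α → α)
    (h1 : ∀ a ∈ s, g a ∈ s) (h2 : ∀ a ∈ s, g (g a) = a) (h3 : ∀ a ∈ s, g a ≠ a) :
    (s.card : ZMod 2) = 0 := by
  have h := Finset.sum_involution (s := s) (f := fun _ => (1 : ZMod 2)) (fun a _ => g a)
    (fun a _ => by decide) (fun a ha _ => h3 a ha) (fun a ha => h1 a ha) (fun a ha => h2 a ha)
  rwa [sum_const, nsmul_eq_mul, mul_one] at h

theorem odd_u {N : ℤ} (hN : N % 2 = 1) {p : ℤ × ℤ} (hp : p ∈ R N) : p.1 % 2 = 1 := by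
  have h := (mem_R.1 hp).1
  rcases Int.emod_two_eq_zero_or_one p.1 with h0 | h0
  · exfalso
    obtain ⟨c, hc⟩ : ∃ c, p.1 = 2 * c := ⟨p.1 / 2, by omega⟩
    rw [hc] at h
    have : N = 2 * (2 * c ^ 2 + p.2 ^ 2) := by rw [← h]; ring
    omega
  · exact h0

/-- the part `v = 0 mod 3` -/
theorem part_a {N : ℤ} :
    (((R N).filter fun p => p.2 % 3 = 0).card : ZMod 2) =
      if ∃ s : ℤ, s ^ 2 = N ∧ s % 3 ≠ 0 then 1 else 0 := by
  have hsplit : ((R N).filter fun p => p.2 % 3 = 0).card =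
      (((R N).filter fun p => p.2 % 3 = 0).filter fun p => p.2 = 0).card +
      (((R N).filter fun p => p.2 % 3 = 0).filter fun p => ¬ p.2 = 0).card := by
    rw [card_filter_add_card_filter_not]
  rw [hsplit, Nat.cast_add]
  have h2 : ((((R N).filter fun p => p.2 % 3 = 0).filter fun p => ¬ p.2 = 0).card : ZMod 2) = 0 := by
    apply card_zero _ (fun p => (p.1, -p.2))
    · intro p hp
      rw [mem_filter, mem_filter, mem_R] at hp ⊢
      obtain ⟨⟨⟨a1, a2⟩, a3⟩, a4⟩ := hp
      refine ⟨⟨⟨?_, ?_⟩, ?_⟩, ?_⟩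
      · simp only [neg_sq]; exact a1
      · simp only; omega
      · simp only; omega
      · simp only; omega
    · intro p _
      simp
    · intro p hp h
      rw [mem_filter, mem_filter, mem_R] at hp
      have := congrArg Prod.snd h
      simp only at this
      omega
  rw [h2, add_zero]
  split_ifs with h
  · obtain ⟨s, hs, hs3⟩ := h
    obtain ⟨t, ht, ht3⟩ : ∃ t : ℤ, t ^ 2 = N ∧ t % 3 = 1 := by
      rcases (by omega : s % 3 = 1 ∨ s % 3 = 2) with h | h
      · exact ⟨s, hs, h⟩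
      · exact ⟨-s, by rw [neg_sq]; exact hs, by omega⟩
    have : (((R N).filter fun p => p.2 % 3 = 0).filter fun p => p.2 = 0) = {(t, 0)} := by
      ext p
      rw [mem_filter, mem_filter, mem_R, mem_singleton]
      constructor
      · rintro ⟨⟨⟨a1, a2⟩, a3⟩, a4⟩
        rw [a4] at a1
        have hsq : p.1 ^ 2 = t ^ 2 := by rw [ht]; linarith
        rcases sq_eq_sq_iff_eq_or_eq_neg.1 hsq with h | h
        · exact Prod.ext h a4
        · exfalso
          rw [h, a4] at a2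
          omega
      · rintro rfl
        refine ⟨⟨⟨?_, ?_⟩, ?_⟩, ?_⟩
        · simp only; rw [ht]; ring
        · simp only; omega
        · simp
        · simp
    rw [this, card_singleton, Nat.cast_one]
  · have : (((R N).filter fun p => p.2 % 3 = 0).filter fun p => p.2 = 0) = ∅ := by
      rw [eq_empty_iff_forall_notMem]
      intro p hp
      rw [mem_filter, mem_filter, mem_R] at hp
      obtain ⟨⟨⟨a1, a2⟩, a3⟩, a4⟩ := hp
      apply h
      refine ⟨p.1, ?_, ?_⟩
      · rw [a4] at a1; linarith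
      · omega
    rw [this, card_empty, Nat.cast_zero]

/-- the part `u = 0 mod 3` -/
theorem part_b {N : ℤ} (hN : N % 2 = 1) :
    ((((R N).filter fun p => ¬ p.2 % 3 = 0).filter fun p => p.1 % 3 = 0).card : ZMod 2) = 0 := by
  apply card_zero _ (fun p => (-p.1, p.2))
  · intro p hp
    rw [mem_filter, mem_filter, mem_R] at hp ⊢
    obtain ⟨⟨⟨a1, a2⟩, a3⟩, a4⟩ := hp
    refine ⟨⟨⟨?_, ?_⟩, ?_⟩, ?_⟩
    · simp only [neg_sq]; exact a1
    · simp only; omega
    · simp only; omega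
    · simp only; omega
  · intro p _
    simp
  · intro p hp h
    rw [mem_filter, mem_filter] at hp
    have h1 := odd_u hN hp.1.1
    have := congrArg Prod.fst h
    simp only at this
    omega

/-- the part `u = v = 2 mod 3` -/
theorem part_c {N : ℤ} :
    ((((R N).filter fun p => ¬ p.2 % 3 = 0).filter fun p => ¬ p.1 % 3 = 0).card : ZMod 2) =
      if 3 ∣ N then ((R (N / 3)).card : ZMod 2) else 0 := by
  split_ifs with h
  · obtain ⟨N1, rfl⟩ := h
    rw [Int.mul_ediv_cancel_left _ (by norm_num : (3 : ℤ) ≠ 0)]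
    congr 1
    refine card_bij' (fun p _ => (-((p.1 + 2 * p.2) / 3), (p.1 - p.2) / 3))
      (fun q _ => (-(q.1 - 2 * q.2), -(q.1 + q.2))) ?_ ?_ ?_ ?_
    · intro p hp
      rw [mem_filter, mem_filter, mem_R] at hp
      obtain ⟨⟨⟨a1, a2⟩, a3⟩, a4⟩ := hp
      obtain ⟨c, hc⟩ : ∃ c, p.1 + 2 * p.2 = 3 * c := ⟨(p.1 + 2 * p.2) / 3, by omega⟩
      obtain ⟨e, he⟩ : ∃ e, p.1 - p.2 = 3 * e := ⟨(p.1 - p.2) / 3, by omega⟩
      rw [mem_R]
      simp only
      rw [hc, he, Int.mul_ediv_cancel_left _ (by norm_num : (3 : ℤ) ≠ 0),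
        Int.mul_ediv_cancel_left _ (by norm_num : (3 : ℤ) ≠ 0)]
      constructor
      · have h1 : p.1 = c + 2 * e := by linarith
        have h2 : p.2 = c - e := by linarith
        rw [h1, h2] at a1
        nlinarith
      · omega
    · intro q hq
      rw [mem_R] at hq
      obtain ⟨a1, a2⟩ := hq
      rw [mem_filter, mem_filter, mem_R]
      simp only
      refine ⟨⟨⟨?_, ?_⟩, ?_⟩, ?_⟩
      · rw [← a1]; ring
      · omega
      · omega
      · omega
    · intro p hp
      rw [mem_filter, mem_filter, mem_R] at hp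
      obtain ⟨⟨⟨a1, a2⟩, a3⟩, a4⟩ := hp
      obtain ⟨c, hc⟩ : ∃ c, p.1 + 2 * p.2 = 3 * c := ⟨(p.1 + 2 * p.2) / 3, by omega⟩
      obtain ⟨e, he⟩ : ∃ e, p.1 - p.2 = 3 * e := ⟨(p.1 - p.2) / 3, by omega⟩
      simp only
      rw [hc, he, Int.mul_ediv_cancel_left _ (by norm_num : (3 : ℤ) ≠ 0),
        Int.mul_ediv_cancel_left _ (by norm_num : (3 : ℤ) ≠ 0)]
      apply Prod.ext
      · simp only; linarith
      · simp only; linarith
    · intro q hq
      rw [mem_R] at hq
      obtain ⟨a1, a2⟩ := hq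
      simp only
      apply Prod.ext
      · simp only; omega
      · simp only; omega
  · rw [show (((R N).filter fun p => ¬ p.2 % 3 = 0).filter fun p => ¬ p.1 % 3 = 0) = ∅ by
      rw [eq_empty_iff_forall_notMem]
      intro p hp
      rw [mem_filter, mem_filter, mem_R] at hp
      obtain ⟨⟨⟨a1, a2⟩, a3⟩, a4⟩ := hp
      apply h
      obtain ⟨c, hc⟩ : ∃ c, p.1 = 3 * c + 2 := ⟨p.1 / 3, by omega⟩
      obtain ⟨e, he⟩ : ∃ e, p.2 = 3 * e + 2 := ⟨p.2 / 3, by omega⟩
      rw [hc, he] at a1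
      exact ⟨3 * c ^ 2 + 4 * c + 6 * e ^ 2 + 8 * e + 4, by rw [← a1]; ring⟩, card_empty,
      Nat.cast_zero]

theorem card_R {N : ℤ} (hN : N % 2 = 1) :
    ((R N).card : ZMod 2) = (if ∃ s : ℤ, s ^ 2 = N ∧ s % 3 ≠ 0 then 1 else 0) +
      if 3 ∣ N then ((R (N / 3)).card : ZMod 2) else 0 := by
  have h1 : (R N).card = ((R N).filter fun p => p.2 % 3 = 0).card +
      ((R N).filter fun p => ¬ p.2 % 3 = 0).card := by
    rw [card_filter_add_card_filter_not]
  have h2 : ((R N).filter fun p => ¬ p.2 % 3 = 0).card =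
      (((R N).filter fun p => ¬ p.2 % 3 = 0).filter fun p => p.1 % 3 = 0).card +
      (((R N).filter fun p => ¬ p.2 % 3 = 0).filter fun p => ¬ p.1 % 3 = 0).card := by
    rw [card_filter_add_card_filter_not]
  rw [h1, h2, Nat.cast_add, Nat.cast_add, part_a, part_b hN, part_c, zero_add]

theorem main (N : ℕ) : N % 2 = 1 →
    ((R (N : ℤ)).card : ZMod 2) = if ∃ e t : ℕ, N = 3 ^ e * t ^ 2 then 1 else 0 := by
  induction N using Nat.strong_induction_on with
  | _ N ih =>
    intro hN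
    have hN' : (N : ℤ) % 2 = 1 := by omega
    rw [card_R hN']
    by_cases h3 : 3 ∣ N
    · obtain ⟨N1, rfl⟩ := h3
      have hN1 : N1 % 2 = 1 := by omega
      have e1 : (3 : ℤ) ∣ ((3 * N1 : ℕ) : ℤ) := ⟨N1, by push_cast; ring⟩
      have e2 : ((3 * N1 : ℕ) : ℤ) / 3 = (N1 : ℤ) := by push_cast; omega
      rw [if_pos e1, e2, ih N1 (by omega) hN1, if_neg, zero_add]
      · congr 1
        apply propext
        constructor
        · rintro ⟨e, t, h⟩
          exact ⟨e + 1, t, by rw [h]; ring⟩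
        · rintro ⟨e, t, h⟩
          rcases e with _ | e
          · rw [pow_zero, one_mul] at h
            have h3t : 3 ∣ t := Nat.Prime.dvd_of_dvd_pow Nat.prime_three (Dvd.intro _ h)
            obtain ⟨t1, rfl⟩ := h3t
            refine ⟨1, t1, ?_⟩
            have : 3 * N1 = 3 * (3 ^ 1 * t1 ^ 2) := by rw [h]; ring
            omega
          · refine ⟨e, t, ?_⟩
            have : 3 * N1 = 3 * (3 ^ e * t ^ 2) := by rw [h]; ring
            omega
      · rintro ⟨s, hs, hs3⟩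
        apply hs3
        have : (3 : ℤ) ∣ s ^ 2 := by rw [hs]; exact e1
        have := Int.Prime.dvd_pow' Nat.prime_three (by exact_mod_cast this)
        omega
    · have e1 : ¬ (3 : ℤ) ∣ (N : ℤ) := by
        intro h
        exact h3 (by exact_mod_cast h)
      rw [if_neg e1, add_zero]
      congr 1
      apply propext
      constructor
      · rintro ⟨s, hs, hs3⟩
        refine ⟨0, s.natAbs, ?_⟩
        rw [pow_zero, one_mul]
        have : ((s.natAbs ^ 2 : ℕ) : ℤ) = (N : ℤ) := by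
          push_cast
          rw [sq_abs, hs]
        exact_mod_cast this.symm
      · rintro ⟨e, t, h⟩
        rcases e with _ | e
        · rw [pow_zero, one_mul] at h
          refine ⟨t, by rw [h]; push_cast; ring, ?_⟩
          intro h0
          apply h3
          have h0' : (3 : ℤ) ∣ (t : ℤ) := Int.dvd_of_emod_eq_zero h0
          have h0'' : 3 ∣ t := by exact_mod_cast h0'
          rw [h]
          exact dvd_pow h0'' (by norm_num)
        · exfalso
          apply h3
          rw [h, pow_succ]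
          exact ⟨3 ^ e * t ^ 2, by ring⟩

theorem main8 (n : ℕ) :
    ((R (8 * n + 1 : ℤ)).card : ZMod 2) = if ∃ m : ℕ, m * (m + 1) = 2 * n then 1 else 0 := by
  have h := main (8 * n + 1) (by omega)
  push_cast at h
  rw [h]
  congr 1
  apply propext
  constructor
  · rintro ⟨e, t, h⟩
    have ht : t % 2 = 1 := by
      rcases Nat.mod_two_eq_zero_or_one t with h0 | h0
      · exfalso
        obtain ⟨c, hc⟩ : ∃ c, t = 2 * c := ⟨t / 2, by omega⟩
        have : 8 * n + 1 = 2 * (3 ^ e * (2 * c ^ 2)) := by rw [h, hc]; ring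
        omega
      · exact h0
    obtain ⟨c, hc⟩ : ∃ c, t = 2 * c + 1 := ⟨t / 2, by omega⟩
    obtain ⟨w, hw⟩ : ∃ w, t ^ 2 = 8 * w + 1 := by
      obtain ⟨z, hz⟩ : ∃ z, c * (c + 1) = 2 * z := (Nat.even_mul_succ_self c).two_dvd
      exact ⟨z, by rw [hc]; nlinarith⟩
    have he : e % 2 = 0 := by
      rcases Nat.mod_two_eq_zero_or_one e with h0 | h0
      · exact h0
      · exfalso
        obtain ⟨g, hg⟩ : ∃ g, e = 2 * g + 1 := ⟨e / 2, by omega⟩
        have h9 : 9 ^ g % 8 = 1 := by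
          rw [Nat.pow_mod]
          norm_num
        have h3e : 3 ^ e % 8 = 3 := by
          rw [hg, pow_succ, pow_mul]
          norm_num
          omega
        have : (8 * n + 1) % 8 = 3 := by
          rw [h, hw, Nat.mul_mod, h3e]
          omega
        omega
    obtain ⟨g, hg⟩ : ∃ g, e = 2 * g := ⟨e / 2, by omega⟩
    have hsq : 8 * n + 1 = (3 ^ g * t) ^ 2 := by rw [h, hg]; ring
    have hodd : (3 ^ g * t) % 2 = 1 := by
      rcases Nat.mod_two_eq_zero_or_one (3 ^ g * t) with h0 | h0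
      · exfalso
        obtain ⟨c, hc⟩ : ∃ c, 3 ^ g * t = 2 * c := ⟨3 ^ g * t / 2, by omega⟩
        rw [hc] at hsq
        have : 8 * n + 1 = 2 * (2 * c ^ 2) := by rw [hsq]; ring
        omega
      · exact h0
    obtain ⟨m, hm⟩ : ∃ m, 3 ^ g * t = 2 * m + 1 := ⟨3 ^ g * t / 2, by omega⟩
    refine ⟨m, ?_⟩
    rw [hm] at hsq
    nlinarith
  · rintro ⟨m, hm⟩
    exact ⟨0, 2 * m + 1, by rw [pow_zero, one_mul]; nlinarith⟩

/-! ### power series -/

theorem sq_mk (f : ℕ → ZMod 2) : (PowerSeries.mk f) ^ 2 =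
    PowerSeries.mk fun n => if n % 2 = 0 then f (n / 2) else 0 := by
  ext n
  rw [sq, PowerSeries.coeff_mul, PowerSeries.coeff_mk]
  simp only [PowerSeries.coeff_mk]
  have hxx : ∀ x : ZMod 2, x + x = 0 := by decide
  have hx2 : ∀ x : ZMod 2, x * x = x := by decide
  split_ifs with h
  · obtain ⟨m, rfl⟩ : ∃ m, n = 2 * m := ⟨n / 2, by omega⟩
    have hmem : (m, m) ∈ HasAntidiagonal.antidiagonal (2 * m) := by rw [HasAntidiagonal.mem_antidiagonal]; omega
    rw [← Finset.add_sum_erase _ _ hmem, show 2 * m / 2 = m by omega, hx2]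
    rw [Finset.sum_involution (fun p _ => p.swap)]
    · rw [add_zero]
    · intro p _
      simp only [Prod.fst_swap, Prod.snd_swap]
      rw [mul_comm (f p.2), hxx]
    · intro p hp _ hs
      rw [mem_erase, HasAntidiagonal.mem_antidiagonal] at hp
      apply hp.1
      have h1 := congrArg Prod.fst hs
      simp only [Prod.fst_swap] at h1
      apply Prod.ext
      · simp only; omega
      · simp only; omega
    · intro p hp
      rw [mem_erase, HasAntidiagonal.mem_antidiagonal] at hp ⊢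
      refine ⟨fun hs => hp.1 ?_, ?_⟩
      · have h1 := congrArg Prod.fst hs
        have h2 := congrArg Prod.snd hs
        simp only [Prod.fst_swap, Prod.snd_swap] at h1 h2
        exact Prod.ext h2 h1
      · rw [Prod.fst_swap, Prod.snd_swap, add_comm]
        exact hp.2
    · intro p _
      exact Prod.swap_swap p
  · refine Finset.sum_involution (fun p _ => p.swap) ?_ ?_ ?_ ?_
    · intro p _
      simp only [Prod.fst_swap, Prod.snd_swap]
      rw [mul_comm (f p.2), hxx]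
    · intro p hp _ hs
      rw [HasAntidiagonal.mem_antidiagonal] at hp
      have h1 := congrArg Prod.fst hs
      simp only [Prod.fst_swap] at h1
      omega
    · intro p hp
      rw [HasAntidiagonal.mem_antidiagonal] at hp ⊢
      rw [Prod.fst_swap, Prod.snd_swap, add_comm]
      exact hp
    · intro p _
      exact Prod.swap_swap p

/-- the two parameters -/
def K (p : ℤ × ℤ) : ℤ := (1 - (p.1 - 2 * p.2)) / 6

def L (p : ℤ × ℤ) : ℤ := (1 - (p.1 + p.2)) / 6

theorem KL {n : ℕ} {p : ℤ × ℤ} (hp : p ∈ R (8 * n + 1 : ℤ)) :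
    p.1 - 2 * p.2 = 1 - 6 * K p ∧ p.1 + p.2 = 1 - 6 * L p ∧
    ∃ i j : ℕ, K p * (3 * K p - 1) = 2 * (i : ℤ) ∧ L p * (3 * L p - 1) = (j : ℤ) ∧ i + j = n := by
  have hu := odd_u (by omega) hp
  obtain ⟨h1, h2⟩ := mem_R.1 hp
  have hv : p.2 % 2 = 0 := by
    rcases Int.emod_two_eq_zero_or_one p.2 with h0 | h0
    · exact h0
    · exfalso
      obtain ⟨c, hc⟩ : ∃ c, p.1 = 2 * c + 1 := ⟨p.1 / 2, by omega⟩
      obtain ⟨e, he⟩ : ∃ e, p.2 = 2 * e + 1 := ⟨p.2 / 2, by omega⟩
      rw [hc, he] at h1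
      have : 8 * (n : ℤ) + 1 = 4 * (c ^ 2 + c + 2 * e ^ 2 + 2 * e) + 3 := by rw [← h1]; ring
      omega
  have hK : p.1 - 2 * p.2 = 1 - 6 * K p := by
    unfold K
    omega
  have hL : p.1 + p.2 = 1 - 6 * L p := by
    unfold L
    omega
  refine ⟨hK, hL, ?_⟩
  have key : K p * (3 * K p - 1) + 2 * (L p * (3 * L p - 1)) = 2 * n := by
    have e1 : 3 * (p.1 ^ 2 + 2 * p.2 ^ 2) = (p.1 - 2 * p.2) ^ 2 + 2 * (p.1 + p.2) ^ 2 := by ring
    rw [h1, hK, hL] at e1
    nlinarith
  have nn : ∀ k : ℤ, 0 ≤ k * (3 * k - 1) := by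
    intro k
    rcases le_or_gt k 0 with h | h
    · nlinarith
    · nlinarith
  have ev : Even (K p * (3 * K p - 1)) := by
    rcases Int.even_or_odd (K p) with h | h
    · exact h.mul_right _
    · refine Even.mul_left ?_ _
      obtain ⟨c, hc⟩ := h
      exact ⟨3 * c + 1, by rw [hc]; ring⟩
  obtain ⟨c, hc⟩ := ev
  have n1 := nn (K p)
  have n2 := nn (L p)
  refine ⟨c.toNat, (L p * (3 * L p - 1)).toNat, ?_, ?_, ?_⟩
  · omega
  · omega
  · omega

theorem inj {k k' : ℤ} (h : k * (3 * k - 1) = k' * (3 * k' - 1)) : k = k' := by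
  have h1 : (k - k') * (3 * (k + k') - 1) = 0 := by linear_combination h
  rcases mul_eq_zero.1 h1 with h2 | h2
  · omega
  · omega

end JAC

open JAC Finset Classical

theorem blk_JAC : Stmt_JAC := by
  unfold Stmt_JAC
  rw [pow_succ', sq_mk]
  ext n
  rw [PowerSeries.coeff_mul, PowerSeries.coeff_mk]
  simp only [PowerSeries.coeff_mk]
  rw [show (if ∃ m : ℕ, m * (m + 1) = 2 * n then (1 : ZMod 2) else 0) =
    ((R (8 * n + 1 : ℤ)).card : ZMod 2) from (main8 n).symm]
  have hterm : ∀ p ∈ HasAntidiagonal.antidiagonal n,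
      (if ∃ k : ℤ, k * (3 * k - 1) = 2 * (p.1 : ℤ) then (1 : ZMod 2) else 0) *
        (if p.2 % 2 = 0 then
          (if ∃ k : ℤ, k * (3 * k - 1) = 2 * ((p.2 / 2 : ℕ) : ℤ) then (1 : ZMod 2) else 0) else 0) =
      if (∃ k : ℤ, k * (3 * k - 1) = 2 * (p.1 : ℤ)) ∧ (∃ l : ℤ, l * (3 * l - 1) = (p.2 : ℤ))
        then 1 else 0 := by
    intro p _
    have hiff : (∃ l : ℤ, l * (3 * l - 1) = (p.2 : ℤ)) ↔
        (p.2 % 2 = 0 ∧ ∃ k : ℤ, k * (3 * k - 1) = 2 * ((p.2 / 2 : ℕ) : ℤ)) := by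
      constructor
      · rintro ⟨l, hl⟩
        have he : Even (l * (3 * l - 1)) := by
          rcases Int.even_or_odd l with h | h
          · exact h.mul_right _
          · refine Even.mul_left ?_ _
            obtain ⟨c, hc⟩ := h
            exact ⟨3 * c + 1, by rw [hc]; ring⟩
        obtain ⟨c, hc⟩ := he
        refine ⟨by omega, l, ?_⟩
        rw [hl]
        omega
      · rintro ⟨h, k, hk⟩
        refine ⟨k, ?_⟩
        rw [hk]
        omega
    by_cases h1 : ∃ k : ℤ, k * (3 * k - 1) = 2 * (p.1 : ℤ)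
    · by_cases h2 : p.2 % 2 = 0
      · by_cases h3 : ∃ k : ℤ, k * (3 * k - 1) = 2 * ((p.2 / 2 : ℕ) : ℤ)
        · rw [if_pos h1, if_pos h2, if_pos h3, if_pos ⟨h1, hiff.2 ⟨h2, h3⟩⟩, mul_one]
        · rw [if_pos h1, if_pos h2, if_neg h3, if_neg (fun h => h3 (hiff.1 h.2).2), mul_zero]
      · rw [if_neg h2, mul_zero, if_neg (fun h => h2 (hiff.1 h.2).1)]
    · rw [if_neg h1, zero_mul, if_neg (fun h => h1 h.1)]
  rw [Finset.sum_congr rfl hterm, Finset.sum_boole]
  congr 1
  symm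
  -- the bijection
  refine card_bij (fun p _ => ((K p * (3 * K p - 1) / 2).toNat, (L p * (3 * L p - 1)).toNat))
    ?_ ?_ ?_
  · intro p hp
    obtain ⟨_, _, i, j, hi, hj, hij⟩ := KL hp
    rw [mem_filter, HasAntidiagonal.mem_antidiagonal]
    simp only
    have e1 : (K p * (3 * K p - 1) / 2).toNat = i := by omega
    have e2 : (L p * (3 * L p - 1)).toNat = j := by omega
    rw [e1, e2]
    exact ⟨hij, ⟨K p, hi⟩, L p, hj⟩
  · intro p hp q hq h
    obtain ⟨a1, a2, i, j, hi, hj, _⟩ := KL hp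
    obtain ⟨b1, b2, i', j', hi', hj', _⟩ := KL hq
    rw [Prod.mk.injEq] at h
    obtain ⟨h1, h2⟩ := h
    have e1 : K p = K q := inj (by omega)
    have e2 : L p = L q := inj (by omega)
    apply Prod.ext
    · omega
    · omega
  · rintro ⟨i, j⟩ hij
    rw [mem_filter, HasAntidiagonal.mem_antidiagonal] at hij
    obtain ⟨h1, ⟨k, hk⟩, l, hl⟩ := hij
    simp only at h1 hk hl
    refine ⟨(1 - 2 * k - 4 * l, 2 * k - 2 * l), ?_, ?_⟩
    · rw [mem_R]
      constructor
      · simp only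
        have : ((n : ℕ) : ℤ) = i + j := by rw [← h1]; push_cast; ring
        rw [this]
        linear_combination 4 * hk + 8 * hl
      · simp only; omega
    · have e1 : K (1 - 2 * k - 4 * l, 2 * k - 2 * l) = k := by
        unfold K
        simp only
        omega
      have e2 : L (1 - 2 * k - 4 * l, 2 * k - 2 * l) = l := by
        unfold L
        simp only
        omega
      rw [e1, e2, hk, hl, Prod.mk.injEq]
      constructor
      · omega
      · omega

end Pool.Agent.Work.P57
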