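import Pool.Agent.Work.P57.Interface

/-!
# P57, block LIN (helper6)
-/

set_option autoImplicit false

namespace Pool.Agent.Work.P57

namespace LIN

variable {n : ℕ}

abbrev Ve (n : ℕ) : Type := Fin 2 → ZMod n

/-- equal up to sign -/
def pm (x y : Ve n) : Prop := x = y ∨ x = -y

theorem pm_symm {x y : Ve n} (h : pm x y) : pm y x := by
  rcases h with h | h
  · exact Or.inl h.symm
  · exact Or.inr (by rw [h, neg_neg])

theorem pm_trans {x y z : Ve n} (h : pm x y) (h' : pm y z) : pm x z := by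
  rcases h with h | h <;> rcases h' with h' | h' <;> rw [h, h']
  · exact Or.inl rfl
  · exact Or.inr rfl
  · exact Or.inr rfl
  · exact Or.inl (neg_neg z)

theorem pm_neg {x y : Ve n} (h : pm x y) : pm x (-y) := by
  rcases h with h | h
  · exact Or.inr (by rw [h, neg_neg])
  · exact Or.inl h

theorem pm_add_neg (x y : Ve n) : pm (-x + y) (x - y) := Or.inr (by abel)

theorem pm_add_neg' (x y : Ve n) : pm (-x - y) (x + y) := Or.inr (by abel)

/-- the two sums, up to order and sign -/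
def PQ (s t x y : Ve n) : Prop := pm s (x + y) ∧ pm t (x - y) ∨ pm s (x - y) ∧ pm t (x + y)

theorem PQ_neg_right {s t x y : Ve n} (h : PQ s t x y) : PQ s t x (-y) := by
  rcases h with ⟨h1, h2⟩ | ⟨h1, h2⟩
  · right
    rw [sub_neg_eq_add, ← sub_eq_add_neg]
    exact ⟨h1, h2⟩
  · left
    rw [sub_neg_eq_add, ← sub_eq_add_neg]
    exact ⟨h1, h2⟩

theorem PQ_neg_left {s t x y : Ve n} (h : PQ s t x y) : PQ s t (-x) y := by
  rcases h with ⟨h1, h2⟩ | ⟨h1, h2⟩
  · right
    exact ⟨pm_trans h1 (pm_symm (pm_add_neg' x y)), pm_trans h2 (pm_symm (pm_add_neg x y))⟩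
  · left
    exact ⟨pm_trans h1 (pm_symm (pm_add_neg x y)), pm_trans h2 (pm_symm (pm_add_neg' x y))⟩

theorem PQ_congr {s t x y x' y' : Ve n} (h : PQ s t x y) (hx : pm x x') (hy : pm y y') :
    PQ s t x' y' := by
  have h1 : PQ s t x' y := by
    rcases hx with hx | hx
    · rw [← hx]; exact h
    · rw [show x' = -x by rw [hx, neg_neg]]
      exact PQ_neg_left h
  rcases hy with hy | hy
  · rw [← hy]; exact h1
  · rw [show y' = -y by rw [hy, neg_neg]]
    exact PQ_neg_right h1

variable (π : Ve n → Ve n) (M : Ve n →+ Ve n)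

theorem step (hπ : ∀ v u, PQ (π (v + u)) (π (v - u)) (π v) (π u)) {v u : Ve n}
    (hv : pm (π v) (M v)) (hu : pm (π u) (M u)) (hvu : pm (π (v - u)) (M (v - u))) :
    pm (π (v + u)) (M (v + u)) := by
  have h := PQ_congr (hπ v u) hv hu
  rw [map_add]
  rw [map_sub] at hvu
  rcases h with ⟨h1, _⟩ | ⟨h1, h2⟩
  · exact h1
  · exact pm_trans h1 (pm_trans (pm_symm hvu) h2)

end LIN

open LIN

theorem blk_LIN : Stmt_LIN := by
  intro n hodd hn π hπ0 hπne hπ'
  have hπ : ∀ v u, PQ (π (v + u)) (π (v - u)) (π v) (π u) := by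
    intro v u
    rcases hπ' v u with ⟨h1, h2⟩ | ⟨h1, h2⟩
    · exact Or.inl ⟨h1, h2⟩
    · exact Or.inr ⟨h1, h2⟩
  set e1 : Ve n := ![1, 0] with he1
  set e2 : Ve n := ![0, 1] with he2
  obtain ⟨b, hb1, hb2⟩ : ∃ b : Ve n, pm (π e2) b ∧ pm (π (e1 + e2)) (π e1 + b) := by
    rcases hπ e1 e2 with ⟨h1, _⟩ | ⟨h1, _⟩
    · exact ⟨π e2, Or.inl rfl, h1⟩
    · exact ⟨-π e2, Or.inr (by rw [neg_neg]), by rw [← sub_eq_add_neg]; exact h1⟩
  set a : Ve n := π e1 with ha
  set M : Matrix (Fin 2) (Fin 2) (ZMod n) := !![a 0, b 0; a 1, b 1] with hM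
  have hMv : ∀ v : Ve n, M.mulVec v = v 0 • a + v 1 • b := by
    intro v
    ext i
    fin_cases i
    · simp only [hM, Matrix.mulVec, dotProduct, Fin.sum_univ_two]
      simp
      ring
    · simp only [hM, Matrix.mulVec, dotProduct, Fin.sum_univ_two]
      simp
      ring
  set L : Ve n →+ Ve n := (Matrix.mulVecLin M).toAddMonoidHom with hL
  have hLv : ∀ v, L v = M.mulVec v := fun v => rfl
  have hLe1 : L e1 = a := by
    rw [hLv, hMv]
    simp [he1]
  have hLe2 : L e2 = b := by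
    rw [hLv, hMv]
    simp [he2]
  have p1 : pm (π e1) (L e1) := by rw [hLe1]; exact Or.inl rfl
  have p2 : pm (π e2) (L e2) := by rw [hLe2]; exact hb1
  have p12 : pm (π (e1 + e2)) (L (e1 + e2)) := by
    rw [map_add, hLe1, hLe2]
    exact hb2
  have p0 : pm (π 0) (L 0) := by rw [hπ0, map_zero]; exact Or.inl rfl
  have c0 : ∀ j : ℕ, pm (π (j • e2)) (L (j • e2)) ∧ pm (π ((j + 1) • e2)) (L ((j + 1) • e2)) := by
    intro j
    induction j with
    | zero =>
      refine ⟨?_, ?_⟩
      · rw [zero_smul]; exact p0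
      · rw [zero_add, one_smul]; exact p2
    | succ j ih =>
      refine ⟨ih.2, ?_⟩
      have e : (j + 1 + 1) • e2 = (j + 1) • e2 + e2 := by rw [succ_nsmul]
      have e' : (j + 1) • e2 - e2 = j • e2 := by rw [succ_nsmul, add_sub_cancel_right]
      rw [e]
      exact step π L hπ ih.2 p2 (by rw [e']; exact ih.1)
  have c1 : ∀ j : ℕ, pm (π (e1 + j • e2)) (L (e1 + j • e2)) ∧
      pm (π (e1 + (j + 1) • e2)) (L (e1 + (j + 1) • e2)) := by
    intro j
    induction j with
    | zero =>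
      refine ⟨?_, ?_⟩
      · rw [zero_smul, add_zero]; exact p1
      · rw [zero_add, one_smul]; exact p12
    | succ j ih =>
      refine ⟨ih.2, ?_⟩
      have e : e1 + (j + 1 + 1) • e2 = (e1 + (j + 1) • e2) + e2 := by
        rw [succ_nsmul e2 (j + 1), add_assoc]
      have e' : (e1 + (j + 1) • e2) - e2 = e1 + j • e2 := by
        rw [succ_nsmul, ← add_assoc, add_sub_cancel_right]
      rw [e]
      exact step π L hπ ih.2 p2 (by rw [e']; exact ih.1)
  have cc : ∀ i j : ℕ, pm (π (i • e1 + j • e2)) (L (i • e1 + j • e2)) ∧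
      pm (π ((i + 1) • e1 + j • e2)) (L ((i + 1) • e1 + j • e2)) := by
    intro i j
    induction i with
    | zero =>
      refine ⟨?_, ?_⟩
      · rw [zero_smul, zero_add]; exact (c0 j).1
      · rw [zero_add, one_smul]; exact (c1 j).1
    | succ i ih =>
      refine ⟨ih.2, ?_⟩
      have e : (i + 1 + 1) • e1 + j • e2 = ((i + 1) • e1 + j • e2) + e1 := by
        rw [succ_nsmul e1 (i + 1)]; abel
      have e' : ((i + 1) • e1 + j • e2) - e1 = i • e1 + j • e2 := by
        rw [succ_nsmul e1 i]; abel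
      rw [e]
      exact step π L hπ ih.2 p1 (by rw [e']; exact ih.1)
  have : NeZero n := ⟨by omega⟩
  have hall : ∀ v, pm (π v) (M.mulVec v) := by
    intro v
    have hv : v = (v 0).val • e1 + (v 1).val • e2 := by
      ext i
      fin_cases i
      · simp [he1, he2]
      · simp [he1, he2]
    have h := (cc (v 0).val (v 1).val).1
    rw [← hv] at h
    exact h
  refine ⟨M, ?_, hall⟩
  rw [← Matrix.isUnit_iff_isUnit_det, ← Matrix.mulVec_surjective_iff_isUnit,
    ← Finite.injective_iff_surjective]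
  intro v w hvw
  have h0 : M.mulVec (v - w) = 0 := by rw [Matrix.mulVec_sub, hvw, sub_self]
  by_contra hne
  apply hπne (v - w) (sub_ne_zero.2 hne)
  rcases hall (v - w) with h | h
  · rw [h, h0]
  · rw [h, h0, neg_zero]

end Pool.Agent.Work.P57
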