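import Pool.Agent.Work.P57.Interface

/-! # Block LTH: partial fractions of `x(u; w)` -/

set_option autoImplicit false

namespace Pool.Agent.Work.P57

namespace LTH

open HahnSeries

/-! ### General facts -/

theorem tame_of_le {ι : Type} {E F : ι → ℤ} (hF : Tame F) (h : ∀ i, F i ≤ E i) : Tame E :=
  fun B => (hF B).subset fun i hi => (h i).trans hi

theorem tame_comp {ι ι' : Type} {E : ι' → ℤ} (hE : Tame E) (f : ι → ι')
    (hf : Function.Injective f) : Tame (fun i => E (f i)) := by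
  intro B
  have h := (hE B).preimage (f := f) hf.injOn
  exact h

theorem supp_fin {ι : Type} {E : ι → ℤ} (hE : Tame E) (c : ι → kk) (g : ℤ)
    [∀ i, Decidable (E i = g)] :
    (Function.support fun i => if E i = g then c i else 0).Finite := by
  refine (hE g).subset fun i hi => ?_
  rw [Function.mem_support] at hi
  by_contra hcon
  apply hi
  rw [if_neg]
  intro h
  exact hcon h.le

theorem reindex (hTH : Stmt_TH) {ι ι' : Type} (e : ι ≃ ι') {E : ι → ℤ} {c : ι → kk} {E' : ι' → ℤ}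
    {c' : ι' → kk} (h1 : ∀ i, E i = E' (e i)) (h2 : ∀ i, c i = c' (e i)) : Th E c = Th E' c' := by
  rw [← hTH.2.1 ι ι' e E' c']
  exact congrArg₂ Th (funext h1) (funext h2)

theorem shift (hTH : Stmt_TH) {ι : Type} {E : ι → ℤ} (hE : Tame E) (c : ι → kk) (g : ℤ) (a : kk) :
    single g a * Th E c = Th (fun i => g + E i) (fun i => a * c i) :=
  hTH.2.2.2.2.2.2.1 ι E c g a hE

theorem split (hTH : Stmt_TH) {ι : Type} {E : ι → ℤ} (hE : Tame E) (c : ι → kk) (p : ι → Prop) :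
    Th E c = Th (fun i : {i // p i} => E i) (fun i => c i) +
    Th (fun i : {i // ¬ p i} => E i) (fun i => c i) :=
  hTH.2.2.2.2.2.1 ι E c p hE

theorem frob (hTH : Stmt_TH) {ι : Type} {E : ι → ℤ} (hE : Tame E) (c : ι → kk) :
    Th E c ^ 2 = Th (fun i => 2 * E i) (fun i => c i ^ 2) :=
  hTH.2.2.2.2.1 ι E c hE

theorem prod_tame (hTH : Stmt_TH) {ι ι' : Type} {E : ι → ℤ} {E' : ι' → ℤ} (hE : Tame E)
    (hE' : Tame E') : Tame (fun p : ι × ι' => E p.1 + E' p.2) :=
  (hTH.1 ι ι' E E' (fun _ => 0) (fun _ => 0) hE hE').1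

theorem prod (hTH : Stmt_TH) {ι ι' : Type} {E : ι → ℤ} {E' : ι' → ℤ} (hE : Tame E)
    (hE' : Tame E') (c : ι → kk) (c' : ι' → kk) :
    Th E c * Th E' c' = Th (fun p : ι × ι' => E p.1 + E' p.2) (fun p => c p.1 * c' p.2) :=
  (hTH.1 ι ι' E E' c c' hE hE').2

theorem th_unique {ι : Type} [Unique ι] (E : ι → ℤ) (c : ι → kk) :
    Th E c = single (E default) (c default) := by
  classical
  have hE : Tame E := fun B => Set.toFinite _
  ext g
  rw [coeff_Th hE, finsum_unique, coeff_single]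
  by_cases h : E default = g
  · rw [if_pos h, if_pos h.symm]
  · rw [if_neg h, if_neg (fun h' => h h'.symm)]

theorem supp_curry {α β : Type} {f : α × β → kk} (hf : (Function.support f).Finite) :
    (Function.support fun a => ∑ᶠ b, f (a, b)).Finite := by
  refine (hf.image Prod.fst).subset fun a ha => ?_
  rw [Function.mem_support] at ha
  by_contra hcon
  apply ha
  have h : ∀ b, f (a, b) = 0 := by
    intro b
    by_contra h
    exact hcon ⟨(a, b), h, rfl⟩
  simp only [h, finsum_zero]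

/-! ### Tameness -/

theorem tame_two_mul {ι : Type} {F : ι → ℤ} (hF : Tame F) (b : ℤ) :
    Tame (fun i => 2 * F i + b) := by
  intro B
  refine (hF |B - b|).subset fun i hi => ?_
  simp only [Set.mem_ofPred_eq] at hi ⊢
  have h1 := le_abs_self (B - b)
  have h2 := abs_nonneg (B - b)
  omega

theorem two_mul_tri (n : ℤ) : 2 * (n * (n + 1) / 2) = n * (n + 1) :=
  Int.mul_ediv_cancel' (Int.even_mul_succ_self n).two_dvd

theorem tame_t (hTH : Stmt_TH) {e : ℤ} (he : 0 < e) (j : ℤ) :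
    Tame (fun n : ℤ => e * (n * (n + 1) / 2) + j * n) := (hTH.2.2.2.2.2.2.2.1 e j he).2

theorem tame_a (hTH : Stmt_TH) {e : ℤ} (he : 0 < e) (j : ℤ) :
    Tame (fun n : ℤ => e * n ^ 2 + 2 * j * n) := (hTH.2.2.2.2.2.2.2.1 e j he).1

theorem tame_b (hTH : Stmt_TH) {e : ℤ} (he : 0 < e) (j : ℤ) :
    Tame (fun k : ℤ => e * (k * (k + 1)) + j * (2 * k + 1)) := by
  have h := tame_two_mul (tame_t hTH he j) j
  refine tame_of_le h fun k => le_of_eq ?_
  have := two_mul_tri k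
  linear_combination e * this

theorem tame_psi2 {e : ℤ} (he : 0 < e) : Tame (fun n : ℕ => e * ((n : ℤ) * (n + 1))) := by
  intro B
  refine (Set.finite_Iic B.toNat).subset fun n hn => ?_
  simp only [Set.mem_ofPred_eq] at hn
  rw [Set.mem_Iic]
  have h0 : (0 : ℤ) ≤ n := Int.natCast_nonneg n
  have h1 : (n : ℤ) ≤ n * (n + 1) := by nlinarith
  have h2 : (n : ℤ) * (n + 1) ≤ e * ((n : ℤ) * (n + 1)) := by nlinarith
  omega

theorem tame_eM {j : ℤ} (hj : 0 < j) : Tame (fun i : ℕ => j * (2 * i + 1)) := by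
  intro B
  refine (Set.finite_Iic B.toNat).subset fun n hn => ?_
  simp only [Set.mem_ofPred_eq] at hn
  rw [Set.mem_Iic]
  have h0 : (0 : ℤ) ≤ n := Int.natCast_nonneg n
  have h2 : (2 * (n : ℤ) + 1) ≤ j * (2 * n + 1) := by nlinarith
  omega

/-! ### The function `e(u)` -/

theorem one_add_ne {η : kkˣ} {j : ℤ} (h : ¬ (j = 0 ∧ η = 1)) :
    (1 + single j (η : kk) : KK) ≠ 0 := by
  intro h1
  have h2 : (1 : KK) = single j (η : kk) := CharTwo.add_eq_zero.1 h1
  have h3 : (1 : KK).coeff j = (single j (η : kk) : KK).coeff j := congrArg (fun f : KK => f.coeff j) h2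
  rw [coeff_single_same] at h3
  by_cases hj : j = 0
  · subst hj
    rw [HahnSeries.coeff_one, if_pos rfl] at h3
    exact h ⟨rfl, Units.ext h3.symm⟩
  · rw [HahnSeries.coeff_one, if_neg hj] at h3
    exact η.ne_zero h3.symm

theorem single_units_ne (j : ℤ) (η : kkˣ) : (single j (η : kk) : KK) ≠ 0 := by
  rw [ne_eq, single_eq_zero_iff]
  exact η.ne_zero

theorem single_mul_units (i j : ℤ) (a b : kkˣ) :
    (single i (a : kk) * single j (b : kk) : KK) = single (i + j) ((a * b : kkˣ) : kk) := by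
  rw [single_mul_single, Units.val_mul]

theorem single_sq (j : ℤ) (η : kkˣ) :
    (single j (η : kk) : KK) ^ 2 = single (2 * j) ((η ^ 2 : kkˣ) : kk) := by
  rw [sq, single_mul_units, two_mul, sq]

/-- `e(u)` for a positive exponent -/
theorem eM_pos (hTH : Stmt_TH) (η : kkˣ) {j : ℤ} (hj : 0 < j) :
    eM η j = Th (fun i : ℕ => j * (2 * i + 1)) (fun i => ((η ^ (2 * i + 1) : kkˣ) : kk)) := by
  have hne : (1 + single j (η : kk) : KK) ≠ 0 := one_add_ne (fun h => hj.ne' h.1)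
  unfold eM
  rw [div_eq_iff (pow_ne_zero 2 hne), CharTwo.add_sq, one_pow, single_sq, mul_add, mul_one,
    mul_comm (Th _ _), shift hTH (tame_eM hj)]
  set E : ℕ → ℤ := fun i : ℕ => j * (2 * i + 1) with hE
  set c : ℕ → kk := fun i => ((η ^ (2 * i + 1) : kkˣ) : kk) with hc
  have hs := split hTH (tame_eM hj) c (fun i => i = 0)
  have h1 : Th (fun i : {i : ℕ // i = 0} => E i) (fun i => c i) = single j (η : kk) := by
    have := th_unique (ι := {i : ℕ // i = 0}) (fun i => E i) (fun i => c i)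
    rw [this]
    have h0 : ((default : {i : ℕ // i = 0}) : ℕ) = 0 := (default : {i : ℕ // i = 0}).2
    rw [h0]
    simp [hE, hc]
  have h2 : Th (fun i : {i : ℕ // ¬ i = 0} => E i) (fun i => c i) =
      Th (fun i => 2 * j + E i) (fun i => ((η ^ 2 : kkˣ) : kk) * c i) := by
    let eq : {i : ℕ // ¬ i = 0} ≃ ℕ :=
      { toFun := fun i => i.1 - 1
        invFun := fun i => ⟨i + 1, by omega⟩
        left_inv := fun i => by
          apply Subtype.ext
          have := i.2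
          simp only
          omega
        right_inv := fun i => by simp }
    refine reindex hTH eq (fun i => ?_) (fun i => ?_)
    · have h3 : ((eq i : ℕ) : ℤ) = (i.1 : ℤ) - 1 := by
        have := i.2
        have h4 : eq i = i.1 - 1 := rfl
        rw [h4]
        omega
      simp only [hE, h3]
      ring
    · have h4 : i.1 = eq i + 1 := by
        have := i.2
        have h4 : eq i = i.1 - 1 := rfl
        omega
      simp only [hc]
      rw [h4, ← Units.val_mul, ← _root_.pow_add]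
      congr 2
      ring
  have h3 : Th E c = single j (η : kk) + Th (fun i => 2 * j + E i)
      (fun i => ((η ^ 2 : kkˣ) : kk) * c i) := by
    rw [← h1, ← h2]
    exact hs
  rw [h3, add_assoc, CharTwo.add_self_eq_zero, add_zero]

theorem eM_inv (η : kkˣ) (j : ℤ) : eM η⁻¹ (-j) = eM η j := by
  unfold eM
  set x : KK := single j (η : kk) with hx
  have hx0 : x ≠ 0 := single_units_ne j η
  have h1 : (single (-j) ((η⁻¹ : kkˣ) : kk) : KK) = x⁻¹ := by
    refine eq_inv_of_mul_eq_one_left ?_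
    rw [hx, single_mul_units, neg_add_cancel, inv_mul_cancel]
    rfl
  rw [h1]
  by_cases h : 1 + x = 0
  · have h2 : 1 + x⁻¹ = 0 := by
      have : x⁻¹ * (1 + x) = 1 + x⁻¹ := by
        rw [mul_add, mul_one, inv_mul_cancel₀ hx0, add_comm]
      rw [← this, h, mul_zero]
    rw [h, h2]
    simp
  · have h2 : 1 + x⁻¹ = x⁻¹ * (1 + x) := by
      rw [mul_add, mul_one, inv_mul_cancel₀ hx0, add_comm]
    rw [h2, mul_pow]
    field_simp

/-- the coefficients of `e(u)` have exponents at least `|j|` -/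
theorem eM_coeff_le (hTH : Stmt_TH) {η : kkˣ} {j g : ℤ} (h : (eM η j).coeff g ≠ 0) :
    |j| ≤ |g| := by
  have hpos : ∀ (η : kkˣ) (j : ℤ), 0 < j → (eM η j).coeff g ≠ 0 → j ≤ |g| := by
    intro η j hj h
    classical
    rw [eM_pos hTH η hj, coeff_Th (tame_eM hj)] at h
    obtain ⟨i, hi⟩ : ∃ i : ℕ, (if j * (2 * i + 1) = g then
        (((η ^ (2 * i + 1) : kkˣ) : kk)) else 0) ≠ 0 := by
      by_contra hcon
      push Not at hcon
      exact h (finsum_eq_zero_of_forall_eq_zero hcon)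
    have h1 : j * (2 * i + 1) = g := by
      by_contra hcon
      exact hi (if_neg hcon)
    have h2 : j ≤ j * (2 * i + 1) := by nlinarith [Int.natCast_nonneg i]
    exact (h2.trans (le_of_eq h1)).trans (le_abs_self g)
  rcases lt_trichotomy j 0 with hj | hj | hj
  · rw [abs_of_neg hj]
    rw [← eM_inv] at h
    exact hpos _ _ (by omega) h
  · rw [hj, abs_zero]
    exact abs_nonneg g
  · rw [abs_of_pos hj]
    exact hpos _ _ hj h

theorem fin_supp (hTH : Stmt_TH) (ξ η : kkˣ) {e : ℤ} (j : ℤ) (he : 0 < e) (g : ℤ) :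
    {n : ℤ | (eM (η * ξ ^ n) (j + e * n)).coeff g ≠ 0}.Finite := by
  refine (Set.finite_Icc (-(|g| + |j|)) (|g| + |j|)).subset fun n hn => ?_
  have h1 := eM_coeff_le hTH hn
  have h2 : |e * n| ≤ |g| + |j| := by
    have h3 : |e * n| ≤ |j + e * n| + |j| := by
      have := abs_sub (j + e * n) j
      rwa [add_sub_cancel_left] at this
    omega
  have h4 : |n| ≤ |e * n| := by
    rw [abs_mul, abs_of_pos he]
    nlinarith [abs_nonneg n]
  exact abs_le.1 (h4.trans h2)

/-! ### `b` and `ψ^2` -/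

theorem bT_eq (hTH : Stmt_TH) (ξ η : kkˣ) {e : ℤ} (j : ℤ) (he : 0 < e) :
    bT η j ξ e = Th (fun k : ℤ => e * (k * (k + 1)) + j * (2 * k + 1))
      (fun k => ((ξ ^ (k * (k + 1)) * η ^ (2 * k + 1) : kkˣ) : kk)) := by
  unfold bT tT
  have ht := tame_t hTH he j
  rw [frob hTH ht, shift hTH (tame_of_le (tame_two_mul ht 0) fun i => by rw [add_zero])]
  refine congrArg₂ Th (funext fun k => ?_) (funext fun k => ?_)
  · have := two_mul_tri k
    linear_combination e * this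
  · rw [← Units.val_pow_eq_pow_val, ← Units.val_mul]
    congr 1
    rw [mul_pow, ← zpow_natCast, ← zpow_natCast, ← zpow_mul, ← zpow_mul, mul_left_comm,
      ← zpow_one_add]
    have h1 : k * (k + 1) / 2 * ((2 : ℕ) : ℤ) = k * (k + 1) := by
      have := two_mul_tri k
      push_cast
      linarith
    have h2 : 1 + k * ((2 : ℕ) : ℤ) = 2 * k + 1 := by
      push_cast
      ring
    rw [h1, h2]

theorem psi_sq (hTH : Stmt_TH) (ξ : kkˣ) {e : ℤ} (he : 0 < e) :
    Psi ξ e ^ 2 = Th (fun n : ℕ => e * ((n : ℤ) * (n + 1)))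
      (fun n => ((ξ ^ ((n : ℤ) * (n + 1)) : kkˣ) : kk)) := by
  unfold Psi
  have ht := (hTH.2.2.2.2.2.2.2.2 e he).1
  rw [frob hTH ht]
  have key : ∀ n : ℕ, 2 * (n * (n + 1) / 2) = n * (n + 1) := fun n =>
    Nat.mul_div_cancel' (Nat.even_mul_succ_self n).two_dvd
  refine congrArg₂ Th (funext fun n => ?_) (funext fun n => ?_)
  · have h1 : (2 : ℤ) * ((n * (n + 1) / 2 : ℕ) : ℤ) = (n : ℤ) * (n + 1) := by
      exact_mod_cast key n
    linear_combination e * h1
  · rw [← Units.val_pow_eq_pow_val]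
    congr 1
    rw [← pow_mul, mul_comm _ 2, key n, ← zpow_natCast]
    push_cast
    rfl

/-! ### `b(u) e(u)` -/

/-- index set of the pairs `(U, k)`, `|U| ≤ k` -/
abbrev I1 : Type := {p : ℤ × ℤ // |p.1| ≤ p.2}

/-- exponents -/
def E1 (e j : ℤ) (p : I1) : ℤ := e * (p.1.2 * (p.1.2 + 1)) + 2 * j * p.1.1

/-- coefficients -/
noncomputable def c1 (ξ η : kkˣ) (p : I1) : kk :=
  ((ξ ^ (p.1.2 * (p.1.2 + 1)) * η ^ (2 * p.1.1) : kkˣ) : kk)

theorem tame_E1 {e j : ℤ} (hj : 0 ≤ j) (hje : j < e) : Tame (E1 e j) := by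
  intro B
  have hfin : ((Set.Icc (-B) B) ×ˢ (Set.Icc 0 B) : Set (ℤ × ℤ)).Finite :=
    (Set.finite_Icc _ _).prod (Set.finite_Icc _ _)
  refine (hfin.preimage (f := fun p : I1 => p.1) Subtype.val_injective.injOn).subset
    fun p hp => ?_
  have h0 : e * (p.1.2 * (p.1.2 + 1)) + 2 * j * p.1.1 ≤ B := hp
  have h1 := abs_le.1 p.2
  have hk : 0 ≤ p.1.2 := (abs_nonneg _).trans p.2
  have h2 : p.1.2 ≤ e * (p.1.2 * (p.1.2 + 1)) + 2 * j * p.1.1 := by
    have h3 : 0 ≤ j * (p.1.1 + p.1.2) := mul_nonneg hj (by omega)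
    have h4 : 0 ≤ (e - 1 - j) * p.1.2 := mul_nonneg (by omega) hk
    rcases eq_or_lt_of_le hk with h5 | h5
    · rw [← h5] at h3 h4 ⊢
      nlinarith
    · have h6 : 0 ≤ e * (p.1.2 * (p.1.2 - 1)) :=
        mul_nonneg (by omega) (mul_nonneg hk (by omega))
      nlinarith
  have h7 : p.1 ∈ ((Set.Icc (-B) B) ×ˢ (Set.Icc 0 B) : Set (ℤ × ℤ)) :=
    ⟨⟨by omega, by omega⟩, ⟨hk, by omega⟩⟩
  exact h7

theorem u_left (ξ η : kkˣ) (a b c : ℤ) : η ^ c * (ξ ^ a * η ^ b) = ξ ^ a * η ^ (c + b) := by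
  rw [mul_left_comm, ← zpow_add]

theorem u_left1 (ξ η : kkˣ) (a b : ℤ) : η * (ξ ^ a * η ^ b) = ξ ^ a * η ^ (1 + b) := by
  have := u_left ξ η a b 1
  rwa [zpow_one] at this

theorem u_left2 (ξ η : kkˣ) (a b : ℤ) : η ^ 2 * (ξ ^ a * η ^ b) = ξ ^ a * η ^ (2 + b) := by
  have := u_left ξ η a b 2
  have h2 : η ^ (2 : ℤ) = η ^ 2 := by norm_cast
  rwa [h2] at this

theorem eM_mul_bT (hTH : Stmt_TH) (ξ η : kkˣ) {e j : ℤ} (hj : 0 ≤ j) (hje : j < e)
    (hu : ¬ (j = 0 ∧ η = 1)) : eM η j * bT η j ξ e = Th (E1 e j) (c1 ξ η) := by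
  have he : 0 < e := by omega
  have hne : (1 + single j (η : kk) : KK) ≠ 0 := one_add_ne hu
  have htb := tame_b hTH he j
  have ht1 := tame_E1 hj hje
  unfold eM
  rw [div_mul_eq_mul_div, div_eq_iff (pow_ne_zero 2 hne), CharTwo.add_sq, one_pow, single_sq,
    mul_add, mul_one, mul_comm (Th _ _) (single _ _), shift hTH ht1, bT_eq hTH ξ η j he,
    shift hTH htb]
  have hs1 := split hTH ht1 (c1 ξ η) (fun p => p.1.1 = -p.1.2)
  have ht2 : Tame (fun p : I1 => 2 * j + E1 e j p) := tame_of_le ht1 fun p => by omega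
  have hs2 := split hTH ht2 (fun p => ((η ^ 2 : kkˣ) : kk) * c1 ξ η p) (fun p => p.1.1 = p.1.2)
  have ht3 : Tame (fun k : ℤ => j + (e * (k * (k + 1)) + j * (2 * k + 1))) :=
    tame_of_le htb fun k => by omega
  have hs3 := split hTH ht3 (fun k => (η : kk) * ((ξ ^ (k * (k + 1)) * η ^ (2 * k + 1) : kkˣ) : kk))
    (fun k => 0 ≤ k)
  rw [hs3]
  -- the pieces
  have hA : Th (fun p : {p : I1 // p.1.1 = -p.1.2} => E1 e j p) (fun p => c1 ξ η p) =
      Th (fun k : {k : ℤ // ¬ 0 ≤ k} => j + (e * ((k : ℤ) * (k + 1)) + j * (2 * k + 1)))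
        (fun k => (η : kk) * ((ξ ^ ((k : ℤ) * (k + 1)) * η ^ (2 * (k : ℤ) + 1) : kkˣ) : kk)) := by
    let eq : {p : I1 // p.1.1 = -p.1.2} ≃ {k : ℤ // ¬ 0 ≤ k} :=
      { toFun := fun p => ⟨-1 - p.1.1.2, by
          have h1 : 0 ≤ p.1.1.2 := (abs_nonneg _).trans p.1.2
          omega⟩
        invFun := fun k => ⟨⟨(1 + k.1, -1 - k.1), by
          have := k.2
          rw [abs_le]
          constructor <;> simp only <;> omega⟩, by simp only; omega⟩
        left_inv := fun p => by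
          have := p.2
          apply Subtype.ext
          apply Subtype.ext
          apply Prod.ext
          · simp only
            omega
          · simp only
            omega
        right_inv := fun k => by
          apply Subtype.ext
          simp only
          omega }
    have hk : ∀ p, ((eq p : {k : ℤ // ¬ 0 ≤ k}) : ℤ) = -1 - p.1.1.2 := fun p => rfl
    refine reindex hTH eq (fun p => ?_) (fun p => ?_)
    · rw [hk]
      have h2 : p.1.1.1 = -p.1.1.2 := p.2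
      unfold E1
      rw [h2]
      ring
    · rw [hk]
      have h2 : p.1.1.1 = -p.1.1.2 := p.2
      unfold c1
      rw [h2, ← Units.val_mul, mul_left_comm, ← zpow_one_add]
      congr 3
      · ring
      · ring
  have hB : Th (fun p : {p : I1 // p.1.1 = p.1.2} => 2 * j + E1 e j p)
      (fun p => ((η ^ 2 : kkˣ) : kk) * c1 ξ η p) =
      Th (fun k : {k : ℤ // 0 ≤ k} => j + (e * ((k : ℤ) * (k + 1)) + j * (2 * k + 1)))
        (fun k => (η : kk) * ((ξ ^ ((k : ℤ) * (k + 1)) * η ^ (2 * (k : ℤ) + 1) : kkˣ) : kk)) := by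
    let eq : {p : I1 // p.1.1 = p.1.2} ≃ {k : ℤ // 0 ≤ k} :=
      { toFun := fun p => ⟨p.1.1.2, (abs_nonneg _).trans p.1.2⟩
        invFun := fun k => ⟨⟨(k.1, k.1), by
          have := k.2
          rw [abs_le]
          constructor <;> simp only <;> omega⟩, rfl⟩
        left_inv := fun p => by
          have := p.2
          apply Subtype.ext
          apply Subtype.ext
          apply Prod.ext
          · simp only
            omega
          · rfl
        right_inv := fun k => rfl }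
    have hk : ∀ p, ((eq p : {k : ℤ // 0 ≤ k}) : ℤ) = p.1.1.2 := fun p => rfl
    refine reindex hTH eq (fun p => ?_) (fun p => ?_)
    · rw [hk]
      have h2 : p.1.1.1 = p.1.1.2 := p.2
      unfold E1
      rw [h2]
      ring
    · rw [hk]
      have h2 : p.1.1.1 = p.1.1.2 := p.2
      unfold c1
      rw [h2, ← Units.val_mul, ← Units.val_mul, u_left1, u_left2]
      congr 3
      ring
  have hC : Th (fun p : {p : I1 // ¬ p.1.1 = p.1.2} => 2 * j + E1 e j p)
      (fun p => ((η ^ 2 : kkˣ) : kk) * c1 ξ η p) =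
      Th (fun p : {p : I1 // ¬ p.1.1 = -p.1.2} => E1 e j p) (fun p => c1 ξ η p) := by
    let eq : {p : I1 // ¬ p.1.1 = p.1.2} ≃ {p : I1 // ¬ p.1.1 = -p.1.2} :=
      { toFun := fun p => ⟨⟨(p.1.1.1 + 1, p.1.1.2), by
          have h1 := abs_le.1 p.1.2
          have h2 := p.2
          rw [abs_le]
          constructor <;> simp only <;> omega⟩, by
          have h1 := abs_le.1 p.1.2
          simp only
          omega⟩
        invFun := fun p => ⟨⟨(p.1.1.1 - 1, p.1.1.2), by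
          have h1 := abs_le.1 p.1.2
          have h2 := p.2
          rw [abs_le]
          constructor <;> simp only <;> omega⟩, by
          have h1 := abs_le.1 p.1.2
          simp only
          omega⟩
        left_inv := fun p => by
          apply Subtype.ext
          apply Subtype.ext
          apply Prod.ext
          · simp only
            omega
          · rfl
        right_inv := fun p => by
          apply Subtype.ext
          apply Subtype.ext
          apply Prod.ext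
          · simp only
            omega
          · rfl }
    have hk1 : ∀ p, (eq p).1.1.1 = p.1.1.1 + 1 := fun p => rfl
    have hk2 : ∀ p, (eq p).1.1.2 = p.1.1.2 := fun p => rfl
    refine reindex hTH eq (fun p => ?_) (fun p => ?_)
    · unfold E1
      rw [hk1, hk2]
      ring
    · unfold c1
      rw [hk1, hk2, ← Units.val_mul, u_left2]
      congr 3
      ring
  rw [← hA, ← hB]
  rw [hC] at hs2
  rw [hs1, hs2]
  set a := Th (fun p : {p : I1 // p.1.1 = -p.1.2} => E1 e j p) (fun p => c1 ξ η p)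
  set b := Th (fun p : {p : I1 // ¬ p.1.1 = -p.1.2} => E1 e j p) (fun p => c1 ξ η p)
  set c := Th (fun p : {p : I1 // p.1.1 = p.1.2} => 2 * j + E1 e j p)
    (fun p => ((η ^ 2 : kkˣ) : kk) * c1 ξ η p)
  have h : b + b = 0 := CharTwo.add_self_eq_zero b
  have h2 : a + b + (c + b) = c + a + (b + b) := by abel
  rw [h2, h, add_zero]

/-! ### The other terms -/

/-- index set of the pairs `(n, i)`, `n ≠ 0`, `i ≥ 0` -/
abbrev I0 : Type := {n : ℤ // n ≠ 0} × ℕ

/-- exponents -/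
def E0 (e j : ℤ) (p : I0) : ℤ := |j + e * p.1.1| * (2 * p.2 + 1)

/-- coefficients -/
noncomputable def c0 (ξ η : kkˣ) (p : I0) : kk :=
  if 0 < p.1.1 then (((η * ξ ^ p.1.1) ^ (2 * p.2 + 1) : kkˣ) : kk)
  else ((((η * ξ ^ p.1.1)⁻¹) ^ (2 * p.2 + 1) : kkˣ) : kk)

theorem abs_pos_case {e j n : ℤ} (hj : 0 ≤ j) (hje : j < e) (hn : 0 < n) :
    |j + e * n| = j + e * n ∧ n ≤ j + e * n := by
  have h1 : n ≤ e * n := by nlinarith
  exact ⟨abs_of_pos (by omega), by omega⟩

theorem abs_neg_case {e j n : ℤ} (hj : 0 ≤ j) (hje : j < e) (hn : n < 0) :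
    |j + e * n| = -j - e * n ∧ -n ≤ -j - e * n := by
  have h1 : 0 ≤ (e - 1) * (-n - 1) := mul_nonneg (by omega) (by omega)
  have h2 : -n ≤ -j - e * n := by nlinarith
  refine ⟨?_, h2⟩
  rw [abs_of_neg (by omega)]
  ring

theorem tame_E0 {e j : ℤ} (hj : 0 ≤ j) (hje : j < e) : Tame (E0 e j) := by
  intro B
  have hfin : ((Set.Icc (-B) B) ×ˢ (Set.Iic B.toNat) : Set (ℤ × ℕ)).Finite :=
    (Set.finite_Icc _ _).prod (Set.finite_Iic _)
  have hinj : Function.Injective (fun p : I0 => ((p.1.1, p.2) : ℤ × ℕ)) := by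
    intro p q h
    have h1 := Prod.ext_iff.1 h
    exact Prod.ext (Subtype.ext h1.1) h1.2
  refine (hfin.preimage hinj.injOn).subset fun p hp => ?_
  have h0 : |j + e * p.1.1| * (2 * p.2 + 1) ≤ B := hp
  have hi : (0 : ℤ) ≤ p.2 := Int.natCast_nonneg _
  have h1 : |p.1.1| ≤ |j + e * p.1.1| := by
    rcases lt_or_gt_of_ne p.1.2 with h | h
    · obtain ⟨h2, h3⟩ := abs_neg_case hj hje h
      rw [h2, abs_of_neg h]
      exact h3
    · obtain ⟨h2, h3⟩ := abs_pos_case hj hje h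
      rw [h2, abs_of_pos h]
      exact h3
  have h2 : 1 ≤ |p.1.1| := Int.one_le_abs p.1.2
  have h3 : |p.1.1| + 2 * p.2 ≤ |j + e * p.1.1| * (2 * p.2 + 1) := by nlinarith
  have h4 : |p.1.1| ≤ B := by omega
  have h5 := abs_le.1 h4
  have h7 : ((p.1.1, p.2) : ℤ × ℕ) ∈ ((Set.Icc (-B) B) ×ˢ (Set.Iic B.toNat) : Set (ℤ × ℕ)) :=
    ⟨⟨h5.1, h5.2⟩, by
      rw [Set.mem_Iic]
      simp only
      omega⟩
  exact h7

/-- exponents of the product -/
def E2 (e j : ℤ) (p : ℤ × (ℤ × ℕ)) : ℤ :=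
  e * (p.2.1 * (p.2.1 + 1) + (p.2.2 + 1) * |2 * p.1 - 2 * p.2.1 - 1|) + 2 * j * p.1

/-- coefficients of the product -/
noncomputable def c2 (ξ η : kkˣ) (p : ℤ × (ℤ × ℕ)) : kk :=
  ((ξ ^ (p.2.1 * (p.2.1 + 1) + (p.2.2 + 1) * |2 * p.1 - 2 * p.2.1 - 1|) * η ^ (2 * p.1) : kkˣ) : kk)

/-- the bijection -/
def eqC : ℤ × I0 ≃ ℤ × (ℤ × ℕ) where
  toFun p := (if 0 < p.2.1.1 then p.1 + p.2.2 + 1 else p.1 - p.2.2, (p.1, p.2.1.1.natAbs - 1))
  invFun p := (p.2.1, (⟨if 0 ≤ p.1 - p.2.1 - 1 then (p.2.2 : ℤ) + 1 else -((p.2.2 : ℤ) + 1), by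
    split_ifs <;> omega⟩,
    (if 0 ≤ p.1 - p.2.1 - 1 then p.1 - p.2.1 - 1 else -(p.1 - p.2.1 - 1) - 1).toNat))
  left_inv := by
    rintro ⟨k, ⟨n, hn⟩, i⟩
    refine Prod.ext rfl (Prod.ext (Subtype.ext ?_) ?_)
    · simp only
      split_ifs <;> omega
    · simp only
      split_ifs <;> omega
  right_inv := by
    rintro ⟨U, k, n⟩
    refine Prod.ext ?_ (Prod.ext rfl ?_)
    · simp only
      split_ifs <;> omega
    · simp only
      split_ifs <;> omega

theorem E_eq {e j : ℤ} (hj : 0 ≤ j) (hje : j < e) (p : ℤ × I0) :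
    (e * (p.1 * (p.1 + 1)) + j * (2 * p.1 + 1)) + E0 e j p.2 = E2 e j (eqC p) := by
  obtain ⟨k, ⟨n, hn⟩, i⟩ := p
  have hi : (0 : ℤ) ≤ i := Int.natCast_nonneg i
  unfold E0 E2 eqC
  simp only [Equiv.coe_fn_mk]
  by_cases h : 0 < n
  · rw [if_pos h, (abs_pos_case hj hje h).1]
    have h1 : ((n.natAbs - 1 : ℕ) : ℤ) = n - 1 := by omega
    have h2 : |2 * (k + i + 1) - 2 * k - 1| = 2 * (i : ℤ) + 1 := by
      rw [abs_of_pos (by omega)]
      ring
    rw [h1, h2]
    ring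
  · rw [if_neg h, (abs_neg_case hj hje (by omega)).1]
    have h1 : ((n.natAbs - 1 : ℕ) : ℤ) = -n - 1 := by omega
    have h2 : |2 * (k - i) - 2 * k - 1| = 2 * (i : ℤ) + 1 := by
      rw [abs_of_neg (by omega)]
      ring
    rw [h1, h2]
    ring

theorem c_eq (ξ η : kkˣ) (p : ℤ × I0) :
    ((ξ ^ (p.1 * (p.1 + 1)) * η ^ (2 * p.1 + 1) : kkˣ) : kk) * c0 ξ η p.2 = c2 ξ η (eqC p) := by
  obtain ⟨k, ⟨n, hn⟩, i⟩ := p
  have hi : (0 : ℤ) ≤ i := Int.natCast_nonneg i
  have hpow : ((2 * i + 1 : ℕ) : ℤ) = 2 * i + 1 := by push_cast; ring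
  unfold c0 c2 eqC
  simp only [Equiv.coe_fn_mk]
  by_cases h : 0 < n
  · rw [if_pos h, if_pos h, ← Units.val_mul]
    have h1 : ((n.natAbs - 1 : ℕ) : ℤ) = n - 1 := by omega
    have h2 : |2 * (k + i + 1) - 2 * k - 1| = 2 * (i : ℤ) + 1 := by
      rw [abs_of_pos (by omega)]
      ring
    rw [h1, h2]
    congr 1
    have e1 : (η * ξ ^ n) ^ (2 * i + 1) = ξ ^ (n * (2 * i + 1)) * η ^ (2 * (i : ℤ) + 1) := by
      rw [← zpow_natCast, hpow, mul_zpow, ← zpow_mul, mul_comm]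
    rw [e1, mul_mul_mul_comm, ← zpow_add, ← zpow_add]
    congr 2
    · ring
    · ring
  · rw [if_neg h, if_neg h, ← Units.val_mul]
    have h1 : ((n.natAbs - 1 : ℕ) : ℤ) = -n - 1 := by omega
    have h2 : |2 * (k - i) - 2 * k - 1| = 2 * (i : ℤ) + 1 := by
      rw [abs_of_neg (by omega)]
      ring
    rw [h1, h2]
    congr 1
    have e1 : ((η * ξ ^ n)⁻¹) ^ (2 * i + 1) = ξ ^ (-(n * (2 * i + 1))) *
        η ^ (-(2 * (i : ℤ) + 1)) := by
      rw [← zpow_natCast, hpow, inv_zpow', mul_zpow, ← zpow_mul, mul_comm]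
      congr 2
      ring
    rw [e1, mul_mul_mul_comm, ← zpow_add, ← zpow_add]
    congr 2
    · ring
    · ring

/-! ### From one nome to all nomes -/

theorem coeff_Th' {ι : Type} {E : ι → ℤ} (h : Tame E) (c : ι → kk) (g : ℤ) :
    (Th E c).coeff g = ∑ᶠ i, if E i = g then c i else 0 := by
  classical
  refine (coeff_Th h c g).trans ?_
  exact finsum_congr fun i => if_congr Iff.rfl rfl rfl

/-- the factor of the class `U` -/
noncomputable def Af (ξ η : kkˣ) (e j g U : ℤ) : kk :=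
  if e ∣ g - 2 * j * U then ((ξ ^ ((g - 2 * j * U) / e) * η ^ (2 * U) : kkˣ) : kk) else 0

theorem fib (ξ η : kkˣ) {e : ℤ} (he : 0 < e) (j g U : ℤ) {β : Type} {G : β → ℤ} (hG : Tame G) :
    ∑ᶠ b, (if e * G b + 2 * j * U = g then ((ξ ^ G b * η ^ (2 * U) : kkˣ) : kk) else 0) =
      Af ξ η e j g U * (Th G (fun _ => 1)).coeff ((g - 2 * j * U) / e) := by
  unfold Af
  by_cases h : e ∣ g - 2 * j * U
  · rw [if_pos h, coeff_Th' hG, mul_finsum]
    refine finsum_congr fun b => ?_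
    obtain ⟨h', hh⟩ := h
    have h1 : (g - 2 * j * U) / e = h' := by
      rw [hh]
      exact Int.mul_ediv_cancel_left _ he.ne'
    rw [h1]
    by_cases h2 : G b = h'
    · rw [if_pos (by rw [h2]; linarith), if_pos h2, mul_one, h2]
    · rw [if_neg, if_neg h2, mul_zero]
      intro h3
      apply h2
      have h4 : e * G b = e * h' := by linarith
      exact mul_left_cancel₀ he.ne' h4
  · rw [if_neg h, zero_mul]
    refine finsum_eq_zero_of_forall_eq_zero fun b => ?_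
    rw [if_neg]
    intro h3
    exact h ⟨G b, by linarith⟩

theorem coeff_prod (ξ η : kkˣ) {e : ℤ} (he : 0 < e) (j g : ℤ) {β : Type} {G : ℤ → β → ℤ}
    (hG : ∀ U, Tame (G U)) (hT : Tame (fun p : ℤ × β => e * G p.1 p.2 + 2 * j * p.1)) :
    (Th (fun p : ℤ × β => e * G p.1 p.2 + 2 * j * p.1)
      (fun p => ((ξ ^ G p.1 p.2 * η ^ (2 * p.1) : kkˣ) : kk))).coeff g =
      ∑ᶠ U, Af ξ η e j g U * (Th (G U) (fun _ => 1)).coeff ((g - 2 * j * U) / e) ∧
    (Function.support fun U => Af ξ η e j g U *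
      (Th (G U) (fun _ => 1)).coeff ((g - 2 * j * U) / e)).Finite := by
  have hs := supp_fin hT (fun p => ((ξ ^ G p.1 p.2 * η ^ (2 * p.1) : kkˣ) : kk)) g
  have h1 : ∀ U, ∑ᶠ b, (if e * G U b + 2 * j * U = g then
      ((ξ ^ G U b * η ^ (2 * U) : kkˣ) : kk) else 0) =
      Af ξ η e j g U * (Th (G U) (fun _ => 1)).coeff ((g - 2 * j * U) / e) :=
    fun U => fib ξ η he j g U (hG U)
  constructor
  · rw [coeff_Th' hT, finsum_curry _ hs]
    exact finsum_congr fun U => h1 U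
  · have h2 := supp_curry hs
    refine h2.subset fun U hU => ?_
    rw [Function.mem_support] at hU ⊢
    simp only
    rw [h1 U]
    exact hU

theorem coeff_sub (ξ η : kkˣ) {e j : ℤ} (hj : 0 ≤ j) (hje : j < e) (g : ℤ)
    (hG : ∀ U : ℤ, Tame (fun k : {k : ℤ // |U| ≤ k} => (k : ℤ) * (k + 1))) :
    (Th (E1 e j) (c1 ξ η)).coeff g =
      ∑ᶠ U, Af ξ η e j g U * (Th (fun k : {k : ℤ // |U| ≤ k} => (k : ℤ) * (k + 1))
        (fun _ => 1)).coeff ((g - 2 * j * U) / e) ∧
    (Function.support fun U : ℤ => Af ξ η e j g U *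
      (Th (fun k : {k : ℤ // |U| ≤ k} => (k : ℤ) * (k + 1))
        (fun _ => 1)).coeff ((g - 2 * j * U) / e)).Finite := by
  have he : 0 < e := by omega
  have hT := tame_E1 hj hje
  have hs := supp_fin hT (c1 ξ η) g
  let f : ℤ × ℤ → kk := fun p => if |p.1| ≤ p.2 then
    (if e * (p.2 * (p.2 + 1)) + 2 * j * p.1 = g then
      ((ξ ^ (p.2 * (p.2 + 1)) * η ^ (2 * p.1) : kkˣ) : kk) else 0) else 0
  have hf : (Function.support f).Finite := by
    refine (hs.image (Subtype.val)).subset fun p hp => ?_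
    rw [Function.mem_support] at hp
    simp only [f] at hp
    have h1 : |p.1| ≤ p.2 := by
      by_contra hcon
      exact hp (if_neg hcon)
    rw [if_pos h1] at hp
    exact ⟨⟨p, h1⟩, hp, rfl⟩
  have h1 : ∀ U, ∑ᶠ k, f (U, k) = Af ξ η e j g U *
      (Th (fun k : {k : ℤ // |U| ≤ k} => (k : ℤ) * (k + 1))
        (fun _ => 1)).coeff ((g - 2 * j * U) / e) := by
    intro U
    rw [← fib ξ η he j g U (hG U)]
    have := finsum_subtype_eq_finsum_cond (f := fun k : ℤ =>
      (if e * (k * (k + 1)) + 2 * j * U = g then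
      ((ξ ^ (k * (k + 1)) * η ^ (2 * U) : kkˣ) : kk) else 0)) (fun k => |U| ≤ k)
    rw [this]
    refine finsum_congr fun k => ?_
    rw [finsum_eq_if]
  have h2 : (Th (E1 e j) (c1 ξ η)).coeff g = ∑ᶠ p, f p := by
    rw [coeff_Th' hT]
    have := finsum_subtype_eq_finsum_cond (f := fun p : ℤ × ℤ =>
      (if e * (p.2 * (p.2 + 1)) + 2 * j * p.1 = g then
      ((ξ ^ (p.2 * (p.2 + 1)) * η ^ (2 * p.1) : kkˣ) : kk) else 0)) (fun p => |p.1| ≤ p.2)
    refine Eq.trans ?_ (this.trans ?_)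
    · rfl
    · refine finsum_congr fun p => ?_
      rw [finsum_eq_if]
  constructor
  · rw [h2, finsum_curry _ hf]
    exact finsum_congr fun U => h1 U
  · have h3 := supp_curry hf
    refine h3.subset fun U hU => ?_
    rw [Function.mem_support] at hU ⊢
    rw [h1 U]
    exact hU

/-! ### Tameness of the series of `CU` -/

theorem tame_cu1 (U : ℤ) : Tame (fun k : {k : ℤ // |U| ≤ k} => (k : ℤ) * (k + 1)) := by
  intro B
  refine ((Set.finite_Icc (0 : ℤ) B).preimage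
    (Subtype.val_injective (p := fun k : ℤ => |U| ≤ k)).injOn).subset fun k hk => ?_
  have h0 : (k : ℤ) * (k + 1) ≤ B := hk
  have h1 : (0 : ℤ) ≤ k := (abs_nonneg U).trans k.2
  have h2 : (k : ℤ) ≤ k * (k + 1) := by nlinarith
  exact ⟨h1, by omega⟩

theorem odd_abs (U k : ℤ) : 1 ≤ |2 * U - 2 * k - 1| := by
  apply Int.one_le_abs
  omega

theorem tame_cu2 (U : ℤ) :
    Tame (fun p : ℤ × ℕ => p.1 * (p.1 + 1) + (p.2 + 1) * |2 * U - 2 * p.1 - 1|) := by
  intro B
  have hfin : ((Set.Icc (-(|B| + 1)) (|B| + 1)) ×ˢ (Set.Iic (|B| + 1).toNat) : Set (ℤ × ℕ)).Finite :=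
    (Set.finite_Icc _ _).prod (Set.finite_Iic _)
  refine hfin.subset fun p hp => ?_
  have h0 : p.1 * (p.1 + 1) + (p.2 + 1) * |2 * U - 2 * p.1 - 1| ≤ B := hp
  have h1 := odd_abs U p.1
  have hi : (0 : ℤ) ≤ p.2 := Int.natCast_nonneg _
  have h2 : (p.2 : ℤ) + 1 ≤ (p.2 + 1) * |2 * U - 2 * p.1 - 1| := by nlinarith
  have h3 : 0 ≤ p.1 * (p.1 + 1) := by
    rcases le_or_gt 0 p.1 with h | h
    · exact mul_nonneg h (by omega)
    · exact mul_nonneg_of_nonpos_of_nonpos h.le (by omega)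
  have hB := le_abs_self B
  have h4 : |p.1| ≤ |B| + 1 := by
    rcases le_or_gt 0 p.1 with h | h
    · rw [abs_of_nonneg h]
      nlinarith
    · rw [abs_of_neg h]
      nlinarith
  have h5 := abs_le.1 h4
  exact ⟨⟨h5.1, h5.2⟩, by
    rw [Set.mem_Iic]
    omega⟩

theorem tame_cu3 : Tame (fun n : ℕ => ((n : ℤ) * (n + 1))) := by
  have := tame_psi2 (e := 1) one_pos
  simpa using this

theorem tame_cu3' (U : ℤ) : Tame (fun n : ℕ => U ^ 2 + ((n : ℤ) * (n + 1))) :=
  tame_of_le tame_cu3 fun n => by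
    have := sq_nonneg U
    omega

/-! ### The main identity -/

theorem main_id (hTH : Stmt_TH) (hCU : Stmt_CU) (ξ η : kkˣ) {e j : ℤ} (hj : 0 ≤ j) (hje : j < e)
    (hu : ¬ (j = 0 ∧ η = 1)) :
    (eM η j + Th (E0 e j) (c0 ξ η)) * bT η j ξ e = Psi ξ e ^ 2 * aT η j ξ e := by
  have he : 0 < e := by omega
  have htb := tame_b hTH he j
  have ht0 := tame_E0 hj hje
  rw [add_mul, eM_mul_bT hTH ξ η hj hje hu, mul_comm (Th (E0 e j) _), bT_eq hTH ξ η j he,
    prod hTH htb ht0]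
  have hp := prod_tame hTH htb ht0
  have e2 : Th (fun p : ℤ × I0 => (e * (p.1 * (p.1 + 1)) + j * (2 * p.1 + 1)) + E0 e j p.2)
      (fun p => ((ξ ^ (p.1 * (p.1 + 1)) * η ^ (2 * p.1 + 1) : kkˣ) : kk) * c0 ξ η p.2) =
      Th (E2 e j) (c2 ξ η) :=
    reindex hTH eqC (fun p => E_eq hj hje p) (fun p => c_eq ξ η p)
  rw [e2]
  have ht2 : Tame (E2 e j) := by
    have h := tame_comp hp eqC.symm eqC.symm.injective
    refine tame_of_le h fun p => le_of_eq ?_
    have h1 := E_eq hj hje (eqC.symm p)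
    rw [Equiv.apply_symm_apply] at h1
    exact h1
  -- the right side
  have hta := tame_a hTH he j
  have htp := tame_psi2 he
  have e3 : Psi ξ e ^ 2 * aT η j ξ e =
      Th (fun p : ℤ × ℕ => e * (p.1 ^ 2 + (p.2 : ℤ) * (p.2 + 1)) + 2 * j * p.1)
        (fun p => ((ξ ^ (p.1 ^ 2 + (p.2 : ℤ) * (p.2 + 1)) * η ^ (2 * p.1) : kkˣ) : kk)) := by
    rw [mul_comm, psi_sq hTH ξ he]
    unfold aT
    rw [prod hTH hta htp]
    refine congrArg₂ Th (funext fun p => ?_) (funext fun p => ?_)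
    · ring
    · rw [← Units.val_mul]
      congr 1
      rw [zpow_add, mul_right_comm]
  have ht3 : Tame (fun p : ℤ × ℕ => e * (p.1 ^ 2 + (p.2 : ℤ) * (p.2 + 1)) + 2 * j * p.1) := by
    refine tame_of_le (prod_tame hTH hta htp) fun p => le_of_eq ?_
    ring
  rw [e3]
  ext g
  rw [HahnSeries.coeff_add]
  obtain ⟨a1, b1⟩ := coeff_sub ξ η hj hje g tame_cu1
  obtain ⟨a2, b2⟩ := coeff_prod ξ η he j g (G := fun U (p : ℤ × ℕ) =>
    p.1 * (p.1 + 1) + (p.2 + 1) * |2 * U - 2 * p.1 - 1|) tame_cu2 ht2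
  obtain ⟨a3, b3⟩ := coeff_prod ξ η he j g (G := fun U (n : ℕ) => U ^ 2 + (n : ℤ) * (n + 1))
    tame_cu3' ht3
  have a2' : (Th (E2 e j) (c2 ξ η)).coeff g = ∑ᶠ U, Af ξ η e j g U *
      (Th (fun p : ℤ × ℕ => p.1 * (p.1 + 1) + (p.2 + 1) * |2 * U - 2 * p.1 - 1|)
        (fun _ => 1)).coeff ((g - 2 * j * U) / e) := a2
  rw [a1, a2', a3, ← finsum_add_distrib b1 b2]
  refine finsum_congr fun U => ?_
  rw [← mul_add, ← HahnSeries.coeff_add]
  have h := hCU U
  rw [shift hTH tame_cu3] at h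
  rw [h]
  simp only [mul_one]

/-- the case `0 ≤ j < e` -/
theorem main_case (hTH : Stmt_TH) (hIDB : Stmt_IDB) (hCU : Stmt_CU) (ξ η : kkˣ) {e j : ℤ}
    (hj : 0 ≤ j) (hje : j < e) (hu : ∀ i : ℤ, ¬ (j = e * i ∧ η = ξ ^ i)) (g : ℤ) :
    (xT η j ξ e).coeff g = ∑ᶠ n : ℤ, (eM (η * ξ ^ n) (j + e * n)).coeff g := by
  have he : 0 < e := by omega
  have hu0 : ¬ (j = 0 ∧ η = 1) := by
    rintro ⟨h1, h2⟩
    exact hu 0 ⟨by rw [h1, mul_zero], by rw [h2, zpow_zero]⟩
  have hb : bT η j ξ e ≠ 0 := by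
    unfold bT
    exact mul_ne_zero (single_units_ne j η)
      (pow_ne_zero 2 ((hIDB ξ η e j he).2.2.2.2.1 hu))
  have hx : xT η j ξ e = eM η j + Th (E0 e j) (c0 ξ η) := by
    unfold xT
    rw [div_eq_iff hb]
    exact (main_id hTH hCU ξ η hj hje hu0).symm
  have ht0 := tame_E0 hj hje
  have hs := supp_fin ht0 (c0 ξ η) g
  -- the terms with `n ≠ 0`
  have h1 : (Th (E0 e j) (c0 ξ η)).coeff g =
      ∑ᶠ n : {n : ℤ // n ≠ 0}, (eM (η * ξ ^ (n : ℤ)) (j + e * n)).coeff g := by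
    rw [coeff_Th' ht0, finsum_curry _ hs]
    refine finsum_congr fun n => ?_
    rcases lt_or_gt_of_ne n.2 with hn | hn
    · obtain ⟨h2, h3⟩ := abs_neg_case hj hje hn
      have h4 : 0 < -(j + e * (n : ℤ)) := by omega
      rw [← eM_inv, eM_pos hTH _ h4, coeff_Th' (tame_eM h4)]
      refine finsum_congr fun i => ?_
      unfold E0 c0
      simp only
      rw [h2, if_neg (show ¬ (0 : ℤ) < n by omega), neg_add']
    · obtain ⟨h2, h3⟩ := abs_pos_case hj hje hn
      have h4 : 0 < j + e * (n : ℤ) := by omega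
      rw [eM_pos hTH _ h4, coeff_Th' (tame_eM h4)]
      refine finsum_congr fun i => ?_
      unfold E0 c0
      simp only
      rw [h2, if_pos hn]
  have hfin := fin_supp hTH ξ η j he g
  set f : ℤ → kk := fun n => (eM (η * ξ ^ n) (j + e * n)).coeff g with hf
  have h2 : ∑ᶠ n : {n : ℤ // n ≠ 0}, f n = ∑ᶠ n, if n ≠ 0 then f n else 0 := by
    rw [finsum_subtype_eq_finsum_cond (f := f) (fun n => n ≠ 0)]
    exact finsum_congr fun n => finsum_eq_if
  have h3 : ∑ᶠ n, f n = (∑ᶠ n, if n = 0 then f n else 0) + ∑ᶠ n, if n ≠ 0 then f n else 0 := by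
    rw [← finsum_add_distrib]
    · refine finsum_congr fun n => ?_
      by_cases h : n = 0
      · rw [if_pos h, if_neg (not_not.2 h), add_zero]
      · rw [if_neg h, if_pos h, zero_add]
    · refine hfin.subset fun n hn => ?_
      rw [Function.mem_support] at hn
      show f n ≠ 0
      intro h
      apply hn
      rw [h, ite_self]
    · refine hfin.subset fun n hn => ?_
      rw [Function.mem_support] at hn
      show f n ≠ 0
      intro h
      apply hn
      rw [h, ite_self]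
  have h4 : (∑ᶠ n, if n = 0 then f n else 0) = (eM η j).coeff g := by
    rw [finsum_eq_single _ 0 (fun n hn => if_neg hn), if_pos rfl]
    simp only [hf, zpow_zero, mul_one, mul_zero, add_zero]
  rw [hx, HahnSeries.coeff_add, h1, h3, h4, ← h2]

/-! ### Quasi-periodicity -/

theorem xT_shift (hIDB : Stmt_IDB) (ξ η : kkˣ) {e : ℤ} (j : ℤ) (he : 0 < e) :
    xT (η * ξ) (j + e) ξ e = xT η j ξ e := by
  obtain ⟨-, -, h1, h2, -, -⟩ := hIDB ξ η e j he
  unfold xT
  have hb : bT η j ξ e = single (e + 2 * j) ((ξ * η ^ 2 : kkˣ) : kk) * bT (η * ξ) (j + e) ξ e := by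
    unfold bT
    rw [← h2, mul_pow, single_sq, ← mul_assoc, ← mul_assoc, single_mul_units, single_mul_units]
    congr 2
    · ring_nf
    · congr 1
      rw [mul_pow]
      have : ∀ a b : kkˣ, b * (a ^ 2 * b ^ 2) = a * b ^ 2 * (b * a) := by
        intro a b
        rw [sq a, sq b]
        simp only [mul_comm, mul_left_comm]
      exact this ξ η
  rw [hb, ← h1]
  have hs : (single (e + 2 * j) ((ξ * η ^ 2 : kkˣ) : kk) : KK) ≠ 0 := single_units_ne _ _
  rw [mul_left_comm, mul_div_mul_left _ _ hs]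

theorem xT_zshift (hIDB : Stmt_IDB) (ξ η : kkˣ) {e : ℤ} (j : ℤ) (he : 0 < e) (q : ℤ) :
    xT (η * ξ ^ q) (j + e * q) ξ e = xT η j ξ e := by
  induction q using Int.induction_on with
  | zero => rw [zpow_zero, mul_one, mul_zero, add_zero]
  | succ q ih =>
    rw [← ih, ← xT_shift hIDB ξ (η * ξ ^ (q : ℤ)) (j + e * q) he]
    congr 1
    · rw [zpow_add_one, mul_assoc]
    · ring
  | pred q ih =>
    rw [← ih, ← xT_shift hIDB ξ (η * ξ ^ (-(q : ℤ) - 1)) (j + e * (-(q : ℤ) - 1)) he]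
    congr 1
    · rw [zpow_sub_one, mul_assoc, mul_assoc, inv_mul_cancel, mul_one]
    · ring

end LTH

open LTH in
theorem blk_LTH (hTH : Stmt_TH) (_hIDA : Stmt_IDA) (hIDB : Stmt_IDB) (hCU : Stmt_CU) :
    Stmt_LTH := by
  intro ξ η e j he hu
  refine ⟨fun g => fin_supp hTH ξ η j he g, fun g => ?_⟩
  set q := j / e with hq
  set r := j % e with hr
  have hqr : j = r + e * q := by
    have := Int.mul_ediv_add_emod j e
    rw [← hq, ← hr] at this
    omega
  have hr0 : 0 ≤ r := Int.emod_nonneg _ he.ne'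
  have hre : r < e := Int.emod_lt_of_pos _ he
  obtain ⟨η0, hη0⟩ : ∃ η0, η0 = η * ξ ^ (-q) := ⟨_, rfl⟩
  have hη : η = η0 * ξ ^ q := by
    rw [hη0, mul_assoc, ← zpow_add, neg_add_cancel, zpow_zero, mul_one]
  have hu' : ∀ i : ℤ, ¬ (r = e * i ∧ η0 = ξ ^ i) := by
    rintro i ⟨h1, h2⟩
    apply hu (i + q)
    constructor
    · rw [hqr, h1]
      ring
    · rw [hη, h2, zpow_add]
  have h := main_case hTH hIDB hCU ξ η0 hr0 hre hu' g
  have h1 : xT η j ξ e = xT η0 r ξ e := by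
    rw [← xT_zshift hIDB ξ η0 r he q, ← hη, ← hqr]
  rw [h1, h, ← finsum_comp_equiv (Equiv.addRight q)]
  refine finsum_congr fun n => ?_
  have e1 : (Equiv.addRight q) n = n + q := rfl
  rw [e1]
  have e2 : η0 * ξ ^ (n + q) = η * ξ ^ n := by
    have h5 : η0 * ξ ^ (n + q) = (η0 * ξ ^ q) * ξ ^ n := by
      rw [add_comm n q, zpow_add, mul_assoc]
    rw [h5, ← hη]
  have e3 : r + e * (n + q) = j + e * n := by
    rw [hqr]
    ring
  rw [e2, e3]

end Pool.Agent.Work.P57
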