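import Pool.Agent.Work.P57.Interface

/-! MAIN: the theorem from the transcendence of the sieved series. -/

set_option autoImplicit false

namespace Pool.Agent.Work.P57

namespace MAIN

open Polynomial in
/-- a power series with finitely many nonzero coefficients is a polynomial -/
theorem alg_of_finite (f : PowerSeries (ZMod 2)) (h : {n : ℕ | PowerSeries.coeff n f ≠ 0}.Finite) :
    IsAlgebraic (Polynomial (ZMod 2)) f := by
  have : f = algebraMap (Polynomial (ZMod 2)) (PowerSeries (ZMod 2))
      (∑ n ∈ h.toFinset, Polynomial.monomial n (PowerSeries.coeff n f)) := by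
    ext m
    rw [PowerSeries.algebraMap_apply', PowerSeries.coeff_map, Polynomial.coeff_coe,
      Polynomial.finsetSum_coeff]
    simp only [Algebra.algebraMap_self, RingHom.id_apply, Polynomial.coeff_monomial]
    rw [Finset.sum_ite_eq']
    split_ifs with hm
    · rfl
    · simpa using hm
  rw [this]
  exact isAlgebraic_algebraMap _

theorem alg_ones : IsAlgebraic (Polynomial (ZMod 2))
    (PowerSeries.mk fun _ => (1 : ZMod 2)) := by
  refine ⟨Polynomial.C (1 - Polynomial.X) * Polynomial.X - Polynomial.C 1, ?_, ?_⟩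
  · intro h
    have h1 := congrArg (fun p => Polynomial.coeff p 0) h
    simp at h1
  · have h1 : (PowerSeries.mk fun _ => (1 : ZMod 2)) * (1 - PowerSeries.X) = 1 :=
      PowerSeries.mk_one_mul_one_sub_eq_one (ZMod 2)
    simp only [map_sub, map_mul, Polynomial.aeval_C, Polynomial.aeval_X, map_one]
    have h2 : algebraMap (Polynomial (ZMod 2)) (PowerSeries (ZMod 2)) Polynomial.X
        = PowerSeries.X := by
      rw [PowerSeries.algebraMap_apply']
      simp
    rw [h2, mul_comm, h1, sub_self]

end MAIN

open MAIN in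
theorem blk_MAIN (h1 : Stmt_FIN2) : Stmt_MAIN := by
  intro A B hA h4 hB
  obtain ⟨k, M0, hM0, rfl⟩ := Nat.exists_eq_two_pow_mul_odd hA.ne'
  have hk : 2 ≤ k := by
    by_contra hk
    have h5 : k = 0 ∨ k = 1 := by omega
    obtain ⟨r, hr⟩ := hM0
    rcases h5 with rfl | rfl
    · omega
    · omega
  have hT := h1 k M0 B hk hM0 hB
  refine ⟨hT, ?_, ?_⟩
  · intro hfin
    refine hT (alg_of_finite _ (hfin.subset ?_))
    intro m hm
    rw [Set.mem_ofPred_eq, PowerSeries.coeff_mk] at hm
    exact ZMod.natCast_ne_zero_iff_odd.1 hm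
  · intro hfin
    apply hT
    have h2 : (PowerSeries.mk fun m => (pa (2 ^ k * M0 * m + B) : ZMod 2)) =
        (PowerSeries.mk fun m => (pa (2 ^ k * M0 * m + B) : ZMod 2) - 1) +
          PowerSeries.mk fun _ => (1 : ZMod 2) := by
      ext m
      simp
    rw [h2]
    refine IsAlgebraic.add (alg_of_finite _ (hfin.subset ?_)) alg_ones
    intro m hm
    rw [Set.mem_ofPred_eq, PowerSeries.coeff_mk] at hm
    rw [Set.mem_ofPred_eq]
    by_contra hne
    rw [Nat.not_even_iff_odd] at hne
    rw [ZMod.natCast_eq_one_iff_odd.2 hne] at hm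
    exact hm (sub_self _)

end Pool.Agent.Work.P57
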