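import Pool.Agent.Work.P57.Interface

/-!
# Block MAPS
-/

set_option autoImplicit false

namespace Pool.Agent.Work.P57

open HahnSeries

namespace MAPSaux

theorem maps_AA {D : ℤ} (τ : Gam D) (a : AA D) :
    Maps τ (algebraMap (AA D) KK a) (algebraMap (AA D) KK a) := by
  have hmem : algebraMap (AA D) KK a ∈ K0 D := by
    rw [mem_K0]
    exact isAlgebraic_algebraMap a
  refine ⟨hmem, hmem, ?_⟩
  have h : (⟨algebraMap (AA D) KK a, hmem⟩ : K0 D) = algebraMap (AA D) (K0 D) a := rfl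
  rw [h, ← IsScalarTower.algebraMap_apply (AA D) (K0 D) (Om D)]
  exact τ.commutes a

theorem maps_one {D : ℤ} (τ : Gam D) : Maps τ 1 1 := by
  have h := maps_AA τ 1
  rwa [map_one] at h

theorem maps_zero {D : ℤ} (τ : Gam D) : Maps τ 0 0 := by
  have h := maps_AA τ 0
  rwa [map_zero] at h

theorem maps_add {D : ℤ} {τ : Gam D} {y y' u u' : KK} (h : Maps τ y y') (k : Maps τ u u') :
    Maps τ (y + u) (y' + u') := by
  obtain ⟨h1, h2, h3⟩ := h
  obtain ⟨k1, k2, k3⟩ := k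
  refine ⟨add_mem h1 k1, add_mem h2 k2, ?_⟩
  have e1 : (⟨y + u, add_mem h1 k1⟩ : K0 D) = ⟨y, h1⟩ + ⟨u, k1⟩ := rfl
  have e2 : (⟨y' + u', add_mem h2 k2⟩ : K0 D) = ⟨y', h2⟩ + ⟨u', k2⟩ := rfl
  rw [e1, e2, map_add, map_add, map_add, h3, k3]

theorem maps_mul {D : ℤ} {τ : Gam D} {y y' u u' : KK} (h : Maps τ y y') (k : Maps τ u u') :
    Maps τ (y * u) (y' * u') := by
  obtain ⟨h1, h2, h3⟩ := h
  obtain ⟨k1, k2, k3⟩ := k
  refine ⟨mul_mem h1 k1, mul_mem h2 k2, ?_⟩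
  have e1 : (⟨y * u, mul_mem h1 k1⟩ : K0 D) = ⟨y, h1⟩ * ⟨u, k1⟩ := rfl
  have e2 : (⟨y' * u', mul_mem h2 k2⟩ : K0 D) = ⟨y', h2⟩ * ⟨u', k2⟩ := rfl
  rw [e1, e2, map_mul, map_mul, map_mul, h3, k3]

theorem maps_inv {D : ℤ} {τ : Gam D} {y y' : KK} (h : Maps τ y y') : Maps τ y⁻¹ y'⁻¹ := by
  obtain ⟨h1, h2, h3⟩ := h
  refine ⟨inv_mem h1, inv_mem h2, ?_⟩
  have e1 : (⟨y⁻¹, inv_mem h1⟩ : K0 D) = (⟨y, h1⟩)⁻¹ := rfl
  have e2 : (⟨y'⁻¹, inv_mem h2⟩ : K0 D) = (⟨y', h2⟩)⁻¹ := rfl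
  rw [e1, e2, map_inv₀, map_inv₀, map_inv₀, h3]

theorem maps_unique {D : ℤ} {τ : Gam D} {y y' y'' : KK} (h : Maps τ y y') (k : Maps τ y y'') :
    y' = y'' := by
  obtain ⟨h1, h2, h3⟩ := h
  obtain ⟨k1, k2, k3⟩ := k
  have h4 : algebraMap (K0 D) (Om D) ⟨y', h2⟩ = algebraMap (K0 D) (Om D) ⟨y'', k2⟩ := by
    rw [← h3, ← k3]
  have h5 := (algebraMap (K0 D) (Om D)).injective h4
  exact congrArg Subtype.val h5

theorem maps_symm {D : ℤ} {τ : Gam D} {y y' : KK} (h : Maps τ y y') : Maps τ⁻¹ y' y := by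
  obtain ⟨h1, h2, h3⟩ := h
  refine ⟨h2, h1, ?_⟩
  rw [← h3]
  exact τ.symm_apply_apply _

theorem maps_trans {D : ℤ} {τ σ : Gam D} {y y' y'' : KK} (h : Maps σ y y') (k : Maps τ y' y'') :
    Maps (τ * σ) y y'' := by
  obtain ⟨h1, h2, h3⟩ := h
  obtain ⟨k1, k2, k3⟩ := k
  refine ⟨h1, k2, ?_⟩
  rw [AlgEquiv.mul_apply, h3, k3]

theorem maps_sum {D : ℤ} {τ : Gam D} {ι : Type} (I : Finset ι) (y y' : ι → KK)
    (h : ∀ i ∈ I, Maps τ (y i) (y' i)) : Maps τ (∑ i ∈ I, y i) (∑ i ∈ I, y' i) := by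
  classical
  induction I using Finset.induction_on with
  | empty => simpa using maps_zero τ
  | insert a s ha ih =>
    rw [Finset.sum_insert ha, Finset.sum_insert ha]
    exact maps_add (h a (Finset.mem_insert_self a s))
      (ih fun i hi => h i (Finset.mem_insert_of_mem hi))

theorem C_mem (D : ℤ) (c : kk) : (C c : KK) ∈ AA D := by
  have h : (C c : KK) = algebraMap kk KK c := by
    rw [HahnSeries.C_eq_algebraMap]
  rw [h]
  exact (AA D).algebraMap_mem c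

end MAPSaux

open MAPSaux in
theorem blk_MAPS : Stmt_MAPS := by
  intro D _ τ
  refine ⟨fun c => ?_, ?_, fun y y' u u' h k => ⟨maps_add h k, maps_mul h k⟩, fun y y' h =>
    ⟨maps_inv h, ?_, maps_symm h⟩, fun y y' y'' h k => maps_unique h k,
    fun σ y y' y'' h k => maps_trans h k, fun ι I y y' h => maps_sum I y y' h⟩
  · exact maps_AA τ ⟨C c, C_mem D c⟩
  · have hm : Del 1 D ∈ AA D := IntermediateField.mem_adjoin_simple_self kk (Del 1 D)
    exact maps_AA τ ⟨Del 1 D, hm⟩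
  · constructor
    · intro h0
      rw [h0] at h
      exact (maps_unique (maps_zero τ) h).symm
    · intro h0
      rw [h0] at h
      exact (maps_unique (maps_zero τ⁻¹) (maps_symm h)).symm

end Pool.Agent.Work.P57
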