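import Pool.Agent.Work.P57.Interface

set_option autoImplicit false

/-! Block MIN: the two nomes (helper46). -/

namespace Pool.Agent.Work.P57

open HahnSeries

namespace MIN

theorem sgl_mul (e e' : ℤ) (a b : kk) : (single e a : KK) * single e' b = single (e + e') (a * b) :=
  HahnSeries.single_mul_single

theorem sgl_pow (e : ℤ) (a : kk) (n : ℕ) : (single e a : KK) ^ n = single (n * e) (a ^ n) := by
  rw [HahnSeries.single_pow, nsmul_eq_mul]

/-- the relation at one nome -/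
theorem rel (hA : Stmt_IDA) (hG : Stmt_GS) (ζ : kkˣ) (e : ℤ) (he : 0 < e) :
    Del ζ e * Del (ζ ^ 3) (3 * e) * Gs ζ e ^ 24 = single (4 * e) ((ζ ^ 4 : kkˣ) : kk) := by
  have h1 : Del ζ e = single e (ζ : kk) * Psi ζ e ^ 8 := (hA ζ 1 1 e 0 0 he).2.2.2.2.1
  have h2 : Del (ζ ^ 3) (3 * e) = single (3 * e) ((ζ ^ 3 : kkˣ) : kk) * Psi (ζ ^ 3) (3 * e) ^ 8 :=
    (hA (ζ ^ 3) 1 1 (3 * e) 0 0 (by omega)).2.2.2.2.1
  have h3 := hG ζ e he
  rw [h1, h2]
  have h4 : single e (ζ : kk) * Psi ζ e ^ 8 *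
      (single (3 * e) ((ζ ^ 3 : kkˣ) : kk) * Psi (ζ ^ 3) (3 * e) ^ 8) * Gs ζ e ^ 24 =
      single e (ζ : kk) * single (3 * e) ((ζ ^ 3 : kkˣ) : kk) *
        (Gs ζ e ^ 3 * Psi ζ e * Psi (ζ ^ 3) (3 * e)) ^ 8 := by ring
  rw [h4, h3, one_pow, mul_one, sgl_mul]
  congr 1
  · ring_nf
  · push_cast
    ring

theorem gcd_case1 {N : ℕ} {β j j' : ℤ} (hN : 0 < N) (h3 : 3 ∣ N)
    (h1 : (N : ℤ) ∣ j * β - Int.gcd β N) (h2 : ((N / 3 : ℕ) : ℤ) ∣ j' * β - Int.gcd β (N / 3 : ℕ))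
    (hd : 3 * Int.gcd β N ∣ N) :
    Int.gcd β (N / 3 : ℕ) = Int.gcd β N ∧ (N : ℤ) ∣ 3 * Int.gcd β N * (j - j') := by
  obtain ⟨N', rfl⟩ := h3
  rw [Nat.mul_div_cancel_left N' (by norm_num)] at h2 ⊢
  obtain ⟨d, hdd⟩ : ∃ d, d = Int.gcd β ((3 * N' : ℕ) : ℤ) := ⟨_, rfl⟩
  rw [← hdd] at h1 hd ⊢
  have hd1 : d ∣ N' := Nat.dvd_of_mul_dvd_mul_left (by norm_num) hd
  have hdβ : (d : ℤ) ∣ β := by
    rw [hdd]
    exact Int.gcd_dvd_left _ _
  have hd0 : 0 < d := by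
    rw [hdd]
    exact Int.gcd_pos_of_ne_zero_right _ (by exact_mod_cast hN.ne')
  have he : Int.gcd β (N' : ℤ) = d := by
    apply Nat.dvd_antisymm
    · rw [hdd]
      apply Int.dvd_gcd (Int.gcd_dvd_left _ _)
      refine (Int.gcd_dvd_right _ _).trans ?_
      push_cast
      exact Dvd.intro_left _ rfl
    · rw [← Int.natCast_dvd_natCast]
      exact Int.dvd_coe_gcd hdβ (by exact_mod_cast hd1)
  refine ⟨he, ?_⟩
  rw [he] at h2
  obtain ⟨β1, hβ1⟩ := hdβ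
  obtain ⟨N1, hN1⟩ := hd1
  -- coprimality
  have hc : IsCoprime (N1 : ℤ) β1 := by
    rw [Int.isCoprime_iff_gcd_eq_one]
    have h5 : Int.gcd β (N' : ℤ) = d * Int.gcd β1 (N1 : ℤ) := by
      rw [hβ1, hN1]
      push_cast
      rw [Int.gcd_mul_left, Int.natAbs_natCast]
    rw [he] at h5
    have h6 : Int.gcd β1 (N1 : ℤ) = 1 := by
      have : d * 1 = d * Int.gcd β1 (N1 : ℤ) := by rw [mul_one]; exact h5
      exact (Nat.eq_of_mul_eq_mul_left hd0 this).symm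
    rw [Int.gcd_comm]
    exact h6
  have h7 : (N' : ℤ) ∣ (j - j') * β := by
    have h8 : (N' : ℤ) ∣ j * β - d := by
      refine dvd_trans ?_ h1
      push_cast
      exact Dvd.intro_left _ rfl
    have h9 : (j - j') * β = (j * β - d) - (j' * β - d) := by ring
    rw [h9]
    exact dvd_sub h8 h2
  have h10 : (N1 : ℤ) ∣ j - j' := by
    rw [hN1, hβ1] at h7
    push_cast at h7
    have h11 : (j - j') * ((d : ℤ) * β1) = (d : ℤ) * (β1 * (j - j')) := by ring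
    rw [h11] at h7
    have h12 := (mul_dvd_mul_iff_left (by exact_mod_cast hd0.ne' : (d : ℤ) ≠ 0)).1 h7
    exact hc.dvd_of_dvd_mul_left h12
  rw [hN1]
  push_cast
  have h13 : (3 : ℤ) * (d * N1) = 3 * d * N1 := by ring
  rw [h13]
  exact mul_dvd_mul_left _ h10

theorem gcd_case2 {N : ℕ} {β j j' : ℤ} (hN : 0 < N) (h3 : 3 ∣ N)
    (h1 : (N : ℤ) ∣ j * β - Int.gcd β N) (h2 : ((N / 3 : ℕ) : ℤ) ∣ j' * β - Int.gcd β (N / 3 : ℕ))
    (hd : ¬ 3 * Int.gcd β N ∣ N) :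
    Int.gcd β N = 3 * Int.gcd β (N / 3 : ℕ) ∧ (N : ℤ) ∣ Int.gcd β N * (j - 3 * j') := by
  obtain ⟨N', rfl⟩ := h3
  rw [Nat.mul_div_cancel_left N' (by norm_num)] at h2 ⊢
  obtain ⟨d, hdd⟩ : ∃ d, d = Int.gcd β ((3 * N' : ℕ) : ℤ) := ⟨_, rfl⟩
  obtain ⟨d', hdd'⟩ : ∃ d', d' = Int.gcd β (N' : ℤ) := ⟨_, rfl⟩
  rw [← hdd] at h1 hd ⊢
  rw [← hdd'] at h2 ⊢
  have hdβ : (d : ℤ) ∣ β := by
    rw [hdd]
    exact Int.gcd_dvd_left _ _
  have hdN : d ∣ 3 * N' := by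
    rw [← Int.natCast_dvd_natCast, hdd]
    exact Int.gcd_dvd_right _ _
  have hd0 : 0 < d := by
    rw [hdd]
    exact Int.gcd_pos_of_ne_zero_right _ (by exact_mod_cast hN.ne')
  have hg : Nat.gcd d N' = d' := by
    apply Nat.dvd_antisymm
    · rw [hdd', ← Int.natCast_dvd_natCast]
      apply Int.dvd_coe_gcd
      · exact (Int.natCast_dvd_natCast.2 (Nat.gcd_dvd_left _ _)).trans hdβ
      · exact Int.natCast_dvd_natCast.2 (Nat.gcd_dvd_right _ _)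
    · apply Nat.dvd_gcd
      · rw [hdd, hdd', ← Int.natCast_dvd_natCast]
        apply Int.dvd_coe_gcd (Int.gcd_dvd_left _ _)
        refine (Int.gcd_dvd_right _ _).trans ?_
        push_cast
        exact Dvd.intro_left _ rfl
      · rw [hdd', ← Int.natCast_dvd_natCast]
        exact Int.gcd_dvd_right _ _
  have hd'0 : 0 < d' := by
    rw [← hg]
    exact Nat.gcd_pos_of_pos_left _ hd0
  obtain ⟨k, hk⟩ : d' ∣ d := by
    rw [← hg]
    exact Nat.gcd_dvd_left _ _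
  obtain ⟨l, hl⟩ : d' ∣ N' := by
    rw [← hg]
    exact Nat.gcd_dvd_right _ _
  have hkl : Nat.Coprime k l := by
    have h5 := hg
    rw [hk, hl, Nat.gcd_mul_left] at h5
    exact Nat.eq_of_mul_eq_mul_left hd'0 (by rw [mul_one]; exact h5)
  have hk3 : k ∣ 3 := by
    have h5 : d' * k ∣ d' * (3 * l) := by
      rw [← hk]
      have : d' * (3 * l) = 3 * N' := by
        rw [hl]
        ring
      rw [this]
      exact hdN
    have h6 := Nat.dvd_of_mul_dvd_mul_left hd'0 h5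
    exact hkl.dvd_of_dvd_mul_right h6
  have hk' : k = 3 := by
    rcases (Nat.dvd_prime Nat.prime_three).1 hk3 with h | h
    · exfalso
      apply hd
      rw [hk, h, mul_one]
      exact Nat.mul_dvd_mul_left 3 (by rw [hl]; exact Dvd.intro _ rfl)
    · exact h
  have hd3 : d = 3 * d' := by
    rw [hk, hk']
    ring
  refine ⟨hd3, ?_⟩
  obtain ⟨β1, hβ1⟩ := hdβ
  obtain ⟨N1, hN1⟩ := hdN
  have hc : IsCoprime (N1 : ℤ) β1 := by
    rw [Int.isCoprime_iff_gcd_eq_one]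
    have h5 : Int.gcd β ((3 * N' : ℕ) : ℤ) = d * Int.gcd β1 (N1 : ℤ) := by
      rw [hβ1, hN1]
      push_cast
      rw [Int.gcd_mul_left, Int.natAbs_natCast]
    rw [← hdd] at h5
    have h6 : Int.gcd β1 (N1 : ℤ) = 1 := by
      have : d * 1 = d * Int.gcd β1 (N1 : ℤ) := by rw [mul_one]; exact h5
      exact (Nat.eq_of_mul_eq_mul_left hd0 this).symm
    rw [Int.gcd_comm]
    exact h6
  have h7 : ((3 * N' : ℕ) : ℤ) ∣ (j - 3 * j') * β := by
    have h8 : ((3 * N' : ℕ) : ℤ) ∣ 3 * (j' * β - d') := by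
      push_cast
      exact mul_dvd_mul_left _ h2
    have h9 : (j - 3 * j') * β = (j * β - d) - 3 * (j' * β - d') := by
      rw [hd3]
      push_cast
      ring
    rw [h9]
    exact dvd_sub h1 h8
  have h10 : (N1 : ℤ) ∣ j - 3 * j' := by
    rw [hN1, hβ1] at h7
    push_cast at h7
    have h11 : (j - 3 * j') * ((d : ℤ) * β1) = (d : ℤ) * (β1 * (j - 3 * j')) := by ring
    rw [h11] at h7
    have h12 := (mul_dvd_mul_iff_left (by exact_mod_cast hd0.ne' : (d : ℤ) ≠ 0)).1 h7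
    exact hc.dvd_of_dvd_mul_left h12
  rw [hN1]
  push_cast
  exact mul_dvd_mul_left _ h10

/-- equality of powers -/
theorem pow_eq {D : ℕ} {ξ : kkˣ} (hξ : IsPrimitiveRoot ξ D) {a b : ℤ} (h : (D : ℤ) ∣ a - b) :
    ξ ^ a = ξ ^ b := by
  have h1 : ξ ^ (a - b) = 1 := (hξ.zpow_eq_one_iff_dvd _).2 h
  rw [zpow_sub, mul_inv_eq_one] at h1
  exact h1

end MIN

open MIN in
theorem blk_MIN (hA : Stmt_IDA) : Stmt_MIN := by
  intro hG s ξ N β j j' hs hξ hN h3 hN0 h1 h2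
  obtain ⟨m, hm⟩ : ∃ m : ℕ, m = n0 s / N := ⟨_, rfl⟩
  have hn0 : n0 s = m * N := by
    rw [hm]
    exact (Nat.div_mul_cancel hN).symm
  have hn0' : 0 < n0 s := by
    have : 1 < 4 ^ s := Nat.one_lt_pow (by omega) (by norm_num)
    unfold n0
    omega
  have hm0 : 0 < m := by
    rcases Nat.eq_zero_or_pos m with h | h
    · rw [h, zero_mul] at hn0
      omega
    · exact h
  have hD : ((D0 s : ℕ) : ℤ) = 3 * m * N := by
    unfold D0
    rw [hn0]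
    push_cast
    ring
  rw [← hm]
  by_cases hd : 3 * Int.gcd β N ∣ N
  · obtain ⟨hd', hdv⟩ := gcd_case1 hN0 h3 h1 h2 hd
    obtain ⟨d, hdd⟩ : ∃ d, d = Int.gcd β N := ⟨_, rfl⟩
    rw [hd']
    rw [← hdd] at hd hdv ⊢
    have hd0 : 0 < d := by
      rw [hdd]
      exact Int.gcd_pos_of_ne_zero_right _ (by exact_mod_cast hN0.ne')
    refine ⟨ξ ^ (3 * (m : ℤ) * j * d), d ^ 2, by positivity, ?_, ?_, ?_⟩
    · have e1 : ξ ^ (9 * (m : ℤ) * j' * d) = (ξ ^ (3 * (m : ℤ) * j * d)) ^ 3 := by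
        rw [← zpow_natCast, ← zpow_mul]
        apply pow_eq hξ
        rw [hD]
        have h5 : 9 * (m : ℤ) * j' * d - 3 * m * j * d * (3 : ℕ) =
            3 * m * -(3 * d * (j - j')) := by
          push_cast
          ring
        rw [h5]
        exact mul_dvd_mul_left _ ((dvd_neg).2 hdv)
      have e2 : 9 * (m : ℤ) * d ^ 2 = 3 * (3 * m * ((d ^ 2 : ℕ) : ℤ)) := by
        push_cast
        ring
      have e3 : 3 * (m : ℤ) * d ^ 2 = 3 * m * ((d ^ 2 : ℕ) : ℤ) := by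
        push_cast
        ring
      rw [e1, e2, e3]
      have h6 := rel hA hG (ξ ^ (3 * (m : ℤ) * j * d)) (3 * m * ((d ^ 2 : ℕ) : ℤ)) (by positivity)
      rw [h6]
      congr 1
      ring_nf
    · intro h
      exact absurd hd h
    · intro _
      exact ⟨rfl, rfl⟩
  · obtain ⟨hd', hdv⟩ := gcd_case2 hN0 h3 h1 h2 hd
    obtain ⟨d', hdd'⟩ : ∃ d', d' = Int.gcd β (N / 3 : ℕ) := ⟨_, rfl⟩
    rw [hd'] at hdv hd ⊢
    rw [← hdd'] at hdv hd ⊢
    have hd0 : 0 < d' := by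
      rw [hdd']
      apply Int.gcd_pos_of_ne_zero_right
      have : 0 < N / 3 := Nat.div_pos (Nat.le_of_dvd hN0 h3) (by norm_num)
      exact_mod_cast this.ne'
    refine ⟨ξ ^ (9 * (m : ℤ) * j' * d'), 3 * d' ^ 2, by positivity, ?_, ?_, ?_⟩
    · have e1 : ξ ^ (3 * (m : ℤ) * j * ((3 * d' : ℕ) : ℤ)) = (ξ ^ (9 * (m : ℤ) * j' * d')) ^ 3 := by
        rw [← zpow_natCast, ← zpow_mul]
        apply pow_eq hξ
        rw [hD]
        have h5 : 3 * (m : ℤ) * j * ((3 * d' : ℕ) : ℤ) - 9 * m * j' * d' * (3 : ℕ) =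
            3 * m * (((3 * d' : ℕ) : ℤ) * (j - 3 * j')) := by
          push_cast
          ring
        rw [h5]
        exact mul_dvd_mul_left _ hdv
      have e2 : 9 * (m : ℤ) * d' ^ 2 = 3 * m * ((3 * d' ^ 2 : ℕ) : ℤ) := by
        push_cast
        ring
      have e3 : 3 * (m : ℤ) * ((3 * d' : ℕ) : ℤ) ^ 2 = 3 * (3 * m * ((3 * d' ^ 2 : ℕ) : ℤ)) := by
        push_cast
        ring
      rw [e1, e2, e3]
      have h6 := rel hA hG (ξ ^ (9 * (m : ℤ) * j' * d')) (3 * m * ((3 * d' ^ 2 : ℕ) : ℤ))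
        (by positivity)
      rw [mul_comm (Del ((ξ ^ (9 * (m : ℤ) * j' * d')) ^ 3) _), h6]
      congr 1
      ring_nf
    · intro _
      ring
    · intro h
      exact absurd h hd

end Pool.Agent.Work.P57
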