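import Pool.Agent.Work.P57.Interface

/-!
# Parity of the partitions with no part `≡ 3 (mod 6)`: block PART

The generating function modulo 2.
-/

set_option autoImplicit false

namespace Pool.Agent.Work.P57

namespace PART

open PowerSeries PowerSeries.WithPiTopology Filter Topology

/-- the pentagonal series modulo 2 -/
theorem pent_eq : (PowerSeries.mk fun n => open Classical in
    if ∃ k : ℤ, k * (3 * k - 1) = 2 * n then (1 : ZMod 2) else 0) = pentagonalSeries (ZMod 2) := by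
  classical
  ext n
  rw [PowerSeries.coeff_mk]
  by_cases h : ∃ k : ℤ, k * (3 * k - 1) = 2 * n
  · rw [if_pos h]
    obtain ⟨k, hk⟩ := h
    have hk' : pentagonal k = n := by
      have := two_mul_natCast_pentagonal k
      omega
    rw [← hk', coeff_pentagonalSeries_pentagonal]
    rcases Int.even_or_odd k with he | ho
    · rw [Int.negOnePow_even k he]
      rfl
    · rw [Int.negOnePow_odd k ho]
      rfl
  · rw [if_neg h, coeff_pentagonalSeries_eq_zero]
    rintro ⟨k, hk⟩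
    apply h
    refine ⟨k, ?_⟩
    have := two_mul_natCast_pentagonal k
    rw [← this, hk]

theorem pent3_eq : (PowerSeries.mk fun n => open Classical in
    if ∃ k : ℤ, 3 * (k * (3 * k - 1)) = 2 * n then (1 : ZMod 2) else 0) =
    (pentagonalSeries (ZMod 2)).expand 3 (by norm_num) := by
  classical
  rw [← pent_eq]
  ext n
  rw [PowerSeries.coeff_mk, PowerSeries.coeff_expand, PowerSeries.coeff_mk]
  by_cases h3 : 3 ∣ n
  · rw [if_pos h3]
    obtain ⟨m, rfl⟩ := h3
    rw [Nat.mul_div_cancel_left m (by norm_num)]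
    by_cases h : ∃ k : ℤ, k * (3 * k - 1) = 2 * m
    · rw [if_pos h, if_pos]
      obtain ⟨k, hk⟩ := h
      refine ⟨k, ?_⟩
      rw [hk]
      push_cast
      ring
    · rw [if_neg h, if_neg]
      rintro ⟨k, hk⟩
      apply h
      refine ⟨k, ?_⟩
      push_cast at hk
      omega
  · rw [if_neg h3, if_neg]
    rintro ⟨k, hk⟩
    apply h3
    generalize k * (3 * k - 1) = y at hk
    omega

theorem main : Stmt_PART := by
  unfold Stmt_PART
  rw [pent_eq, pent3_eq]
  let _ : TopologicalSpace (ZMod 2) := ⊥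
  have _ : DiscreteTopology (ZMod 2) := ⟨rfl⟩
  set P : (ZMod 2)⟦X⟧ := pentagonalSeries (ZMod 2) with hP
  set P3 : (ZMod 2)⟦X⟧ := P.expand 3 (by norm_num) with hP3
  set A : (ZMod 2)⟦X⟧ := PowerSeries.mk fun n => (pa n : ZMod 2) with hA
  have h1 : HasProd (fun i => if (i + 1) % 6 ≠ 3 then ∑' j : ℕ, (X : (ZMod 2)⟦X⟧) ^ ((i + 1) * j)
      else 1) A :=
    Nat.Partition.hasProd_powerSeriesMk_card_restricted (ZMod 2) (fun i => i % 6 ≠ 3)
  have h2 : HasProd (fun n => (1 - X ^ (n + 1) : (ZMod 2)⟦X⟧)) P := hasProd_one_sub_X_pow (ZMod 2)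
  have h12 := h1.mul h2
  have hF : (fun i => (if (i + 1) % 6 ≠ 3 then ∑' j : ℕ, (X : (ZMod 2)⟦X⟧) ^ ((i + 1) * j)
      else 1) * (1 - X ^ (i + 1))) = fun i => if (i + 1) % 6 ≠ 3 then 1 else 1 - X ^ (i + 1) := by
    funext i
    by_cases hi : (i + 1) % 6 ≠ 3
    · rw [if_pos hi, if_pos hi]
      simp_rw [pow_mul]
      exact tsum_pow_mul_one_sub_of_constantCoeff_eq_zero (by simp)
    · rw [if_neg hi, if_neg hi, one_mul]
  rw [hF] at h12
  have hinj : Function.Injective (fun k : ℕ => 6 * k + 2) := by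
    intro a b hab
    simp only at hab
    omega
  have h3 : HasProd (fun k : ℕ => (1 - X ^ (3 * (2 * k + 1)) : (ZMod 2)⟦X⟧)) (A * P) := by
    have h4 := (hinj.hasProd_iff (a := A * P) (f := fun i : ℕ =>
      if (i + 1) % 6 ≠ 3 then (1 : (ZMod 2)⟦X⟧) else 1 - X ^ (i + 1)) (by
        intro x hx
        rw [if_pos]
        intro h3
        apply hx
        refine ⟨(x + 1) / 6, ?_⟩
        show 6 * ((x + 1) / 6) + 2 = x
        omega)).2 h12
    have h5 : ((fun i : ℕ => if (i + 1) % 6 ≠ 3 then (1 : (ZMod 2)⟦X⟧) else 1 - X ^ (i + 1)) ∘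
        fun k : ℕ => 6 * k + 2) = fun k : ℕ => (1 - X ^ (3 * (2 * k + 1)) : (ZMod 2)⟦X⟧) := by
      funext k
      show (if (6 * k + 2 + 1) % 6 ≠ 3 then (1 : (ZMod 2)⟦X⟧) else 1 - X ^ (6 * k + 2 + 1)) = _
      rw [if_neg (by omega), show 6 * k + 2 + 1 = 3 * (2 * k + 1) by ring]
    rw [h5] at h4
    exact h4
  -- the product for `P3`
  have h6 : HasProd (fun n => (1 - X ^ (3 * (n + 1)) : (ZMod 2)⟦X⟧)) P3 := by
    rw [HasProd, tendsto_iff_coeff_tendsto]
    intro d
    apply tendsto_nhds_of_eventually_eq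
    have h7 : ∀ s : Finset ℕ, (∏ n ∈ s, (1 - X ^ (3 * (n + 1)) : (ZMod 2)⟦X⟧)) =
        (∏ n ∈ s, (1 - X ^ (n + 1) : (ZMod 2)⟦X⟧)).expand 3 (by norm_num) := by
      intro s
      rw [map_prod]
      refine Finset.prod_congr rfl fun n _ => ?_
      rw [map_sub, map_one, map_pow, PowerSeries.expand_X, ← pow_mul]
    have h8 := coeff_prod_one_sub_X_pow_eventually_eq (ZMod 2) (d / 3)
    have h9 : ∀ᶠ s : Finset ℕ in atTop,
        (∏ n ∈ s, (1 - X ^ (3 * (n + 1)) : (ZMod 2)⟦X⟧)).coeff d = P3.coeff d := by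
      filter_upwards [h8] with s hs
      rw [h7, hP3, PowerSeries.coeff_expand, PowerSeries.coeff_expand, hs]
    simpa using h9
  have h10 : HasProd (fun k : ℕ => (1 - X ^ (3 * (2 * k + 1 + 1)) : (ZMod 2)⟦X⟧)) (P3 * P3) := by
    have h11 := h6.mul h6
    have h12 : (fun n : ℕ => (1 - X ^ (3 * (n + 1)) : (ZMod 2)⟦X⟧) * (1 - X ^ (3 * (n + 1)))) =
        fun k : ℕ => (1 - X ^ (3 * (2 * k + 1 + 1)) : (ZMod 2)⟦X⟧) := by
      funext k
      have h21 : (X : (ZMod 2)⟦X⟧) ^ (3 * (2 * k + 1 + 1)) = (X ^ (3 * (k + 1))) ^ 2 := by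
        rw [← pow_mul]
        congr 1
        ring
      rw [h21]
      generalize (X : (ZMod 2)⟦X⟧) ^ (3 * (k + 1)) = y
      have h22 : (PowerSeries.C (2 : ZMod 2) : (ZMod 2)⟦X⟧) = 0 := by
        rw [show (2 : ZMod 2) = 0 from rfl, map_zero]
      have h13 : (2 : (ZMod 2)⟦X⟧) = 0 := by
        rw [← h22]
        exact (map_ofNat (PowerSeries.C (R := ZMod 2)) 2).symm
      linear_combination (y ^ 2 - y) * h13
    rw [h12] at h11
    exact h11
  have h14 := HasProd.even_mul_odd (f := fun n => (1 - X ^ (3 * (n + 1)) : (ZMod 2)⟦X⟧)) h3 h10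
  have h15 : A * P * (P3 * P3) = P3 := h14.unique h6
  have h16 : P3 ≠ 0 := by
    intro h
    have h17 : P3.coeff 0 = 0 := by rw [h, map_zero]
    rw [hP3, PowerSeries.coeff_expand, if_pos (dvd_zero 3), Nat.zero_div, hP] at h17
    have h18 : pentagonal 0 = 0 := by
      have := two_mul_natCast_pentagonal 0
      omega
    have h19 := coeff_pentagonalSeries_pentagonal (ZMod 2) 0
    rw [h18, h17] at h19
    simp at h19
  have h20 : (A * P * P3) * P3 = 1 * P3 := by
    rw [mul_assoc, h15, one_mul]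
  exact mul_right_cancel₀ h16 h20

end PART

theorem blk_PART : Stmt_PART := PART.main

end Pool.Agent.Work.P57
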