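import Pool.Agent.Work.P57.Interface

/-!
# Block RG: rescaling and grading
-/

set_option autoImplicit false

namespace Pool.Agent.Work.P57

open HahnSeries

namespace RG

theorem coeff_resc (ξ : kkˣ) (f : KK) (g : ℤ) :
    (resc ξ f).coeff g = ((ξ ^ g : kkˣ) : kk) * f.coeff g := rfl

theorem coeff_gr (t : ℕ) (c : ZMod (2 ^ t)) (f : KK) (g : ℤ) :
    (gr t c f).coeff g = (open Classical in if (g : ZMod (2 ^ t)) = c then f.coeff g else 0) := rfl

/-- the coefficients of a product, as a sum over larger sets -/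
theorem coeff_mul_big (x y : KK) {s t : Set ℤ} (hs : s.IsPWO) (ht : t.IsPWO)
    (hx : x.support ⊆ s) (hy : y.support ⊆ t) (a : ℤ) :
    (x * y).coeff a =
      ∑ ij ∈ Finset.antidiagonal hs ht a, x.coeff ij.1 * y.coeff ij.2 := by
  rw [coeff_mul]
  apply Finset.sum_subset
  · intro ij hij
    rw [Finset.mem_antidiagonal] at hij ⊢
    exact ⟨hx hij.1, hy hij.2.1, hij.2.2⟩
  · intro ij hij hn
    rw [Finset.mem_antidiagonal] at hij hn
    by_cases h1 : x.coeff ij.1 = 0
    · rw [h1, zero_mul]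
    · by_cases h2 : y.coeff ij.2 = 0
      · rw [h2, mul_zero]
      · exact absurd ⟨h1, h2, hij.2.2⟩ hn

theorem resc_support (ξ : kkˣ) (f : KK) : (resc ξ f).support ⊆ f.support := by
  intro g hg
  rw [mem_support, coeff_resc] at hg
  rw [mem_support]
  intro h
  apply hg
  rw [h, mul_zero]

theorem gr_support (t : ℕ) (c : ZMod (2 ^ t)) (f : KK) : (gr t c f).support ⊆ f.support := by
  intro g hg
  rw [mem_support, coeff_gr] at hg
  rw [mem_support]
  intro h
  apply hg
  rw [h, ite_self]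

theorem resc_add (ξ : kkˣ) (f g : KK) : resc ξ (f + g) = resc ξ f + resc ξ g := by
  ext a
  rw [coeff_resc, coeff_add, coeff_add, coeff_resc, coeff_resc, mul_add]

theorem resc_mul (ξ : kkˣ) (f g : KK) : resc ξ (f * g) = resc ξ f * resc ξ g := by
  ext a
  rw [coeff_resc, coeff_mul_big (resc ξ f) (resc ξ g) f.isPWO_support g.isPWO_support
    (resc_support ξ f) (resc_support ξ g), coeff_mul, Finset.mul_sum]
  apply Finset.sum_congr rfl
  intro ij hij
  rw [Finset.mem_antidiagonal] at hij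
  rw [coeff_resc, coeff_resc, ← hij.2.2, zpow_add, Units.val_mul]
  ring

theorem resc_single (ξ : kkˣ) (j : ℤ) (a : kk) :
    resc ξ (single j a) = single j (((ξ ^ j : kkˣ) : kk) * a) := by
  ext g
  rw [coeff_resc]
  by_cases h : g = j
  · rw [h, coeff_single_same, coeff_single_same]
  · rw [coeff_single_of_ne h, coeff_single_of_ne h, mul_zero]

theorem resc_one (ξ : kkˣ) : resc ξ 1 = 1 := by
  rw [← single_zero_one, resc_single, zpow_zero, Units.val_one, one_mul]

theorem resc_zero (ξ : kkˣ) : resc ξ 0 = 0 := by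
  ext g
  rw [coeff_resc, coeff_zero, mul_zero]

theorem resc_inv (ξ : kkˣ) (f : KK) : resc ξ f⁻¹ = (resc ξ f)⁻¹ := by
  by_cases hf : f = 0
  · rw [hf, inv_zero, resc_zero, inv_zero]
  · apply eq_inv_of_mul_eq_one_left
    rw [← resc_mul, inv_mul_cancel₀ hf, resc_one]

theorem resc_resc (ξ : kkˣ) (f : KK) : resc ξ⁻¹ (resc ξ f) = f := by
  ext g
  rw [coeff_resc, coeff_resc, ← mul_assoc, ← Units.val_mul, inv_zpow, inv_mul_cancel,
    Units.val_one, one_mul]

theorem resc_Th (ξ : kkˣ) (ι : Type) (E : ι → ℤ) (c : ι → kk) (h : Tame E) :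
    resc ξ (Th E c) = Th E (fun i => ((ξ ^ E i : kkˣ) : kk) * c i) := by
  classical
  ext g
  rw [coeff_resc, coeff_Th h, coeff_Th h]
  rw [mul_finsum]
  apply finsum_congr
  intro i
  by_cases he : E i = g
  · rw [if_pos he, if_pos he, he]
  · rw [if_neg he, if_neg he, mul_zero]

theorem gr_add (t : ℕ) (c : ZMod (2 ^ t)) (f g : KK) :
    gr t c (f + g) = gr t c f + gr t c g := by
  ext a
  rw [coeff_gr, coeff_add, coeff_add, coeff_gr, coeff_gr]
  split_ifs
  · rfl
  · rw [add_zero]

theorem gr_smul (t : ℕ) (c : ZMod (2 ^ t)) (f : KK) (a : kk) :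
    gr t c (a • f) = a • gr t c f := by
  ext g
  rw [coeff_gr, coeff_smul, coeff_smul, coeff_gr]
  split_ifs
  · rfl
  · rw [smul_zero]

theorem gr_mul (t : ℕ) (c : ZMod (2 ^ t)) (f g : KK) :
    gr t c (f * g) = ∑ b : ZMod (2 ^ t), gr t b f * gr t (c - b) g := by
  classical
  ext a
  rw [coeff_sum]
  have h1 : ∀ b : ZMod (2 ^ t), (gr t b f * gr t (c - b) g).coeff a =
      ∑ ij ∈ Finset.antidiagonal f.isPWO_support g.isPWO_support a,
        (gr t b f).coeff ij.1 * (gr t (c - b) g).coeff ij.2 := fun b =>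
    coeff_mul_big _ _ f.isPWO_support g.isPWO_support (gr_support t b f)
      (gr_support t (c - b) g) a
  rw [Finset.sum_congr rfl (fun b _ => h1 b), Finset.sum_comm, coeff_gr]
  have h2 : ∀ ij ∈ Finset.antidiagonal f.isPWO_support g.isPWO_support a,
      ∑ b : ZMod (2 ^ t), (gr t b f).coeff ij.1 * (gr t (c - b) g).coeff ij.2 =
        if (a : ZMod (2 ^ t)) = c then f.coeff ij.1 * g.coeff ij.2 else 0 := by
    intro ij hij
    rw [Finset.mem_antidiagonal] at hij
    rw [Finset.sum_eq_single ((ij.1 : ℤ) : ZMod (2 ^ t))]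
    · rw [coeff_gr, coeff_gr, if_pos rfl, ← hij.2.2, Int.cast_add]
      by_cases hc : ((ij.1 : ℤ) : ZMod (2 ^ t)) + ((ij.2 : ℤ) : ZMod (2 ^ t)) = c
      · rw [if_pos hc, if_pos]
        rw [← hc, add_sub_cancel_left]
      · rw [if_neg hc, if_neg, mul_zero]
        intro h
        apply hc
        rw [h, add_sub_cancel]
    · intro b _ hb
      rw [coeff_gr, if_neg (fun h => hb h.symm), zero_mul]
    · intro h
      exact absurd (Finset.mem_univ _) h
  rw [Finset.sum_congr rfl h2]
  by_cases hc : (a : ZMod (2 ^ t)) = c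
  · rw [if_pos hc, coeff_mul]
    apply Finset.sum_congr rfl
    intro ij _
    rw [if_pos hc]
  · rw [if_neg hc]
    symm
    apply Finset.sum_eq_zero
    intro ij _
    rw [if_neg hc]

theorem gr_sum (t : ℕ) (f : KK) : ∑ b : ZMod (2 ^ t), gr t b f = f := by
  classical
  ext a
  rw [coeff_sum, Finset.sum_eq_single ((a : ℤ) : ZMod (2 ^ t))]
  · rw [coeff_gr, if_pos rfl]
  · intro b _ hb
    rw [coeff_gr, if_neg (fun h => hb h.symm)]
  · intro h
    exact absurd (Finset.mem_univ _) h

theorem gr_single_mul (t : ℕ) (c : ZMod (2 ^ t)) (j : ℤ) (a : kk) (f : KK) :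
    gr t c (single j a * f) = single j a * gr t (c - j) f := by
  ext g
  rw [coeff_gr, coeff_single_mul, coeff_single_mul, coeff_gr]
  by_cases h : (g : ZMod (2 ^ t)) = c
  · rw [if_pos h, if_pos]
    rw [Int.cast_sub, h]
  · rw [if_neg h, if_neg, mul_zero]
    intro h2
    apply h
    rw [Int.cast_sub] at h2
    exact sub_left_injective h2

theorem gr_single (t : ℕ) (c : ZMod (2 ^ t)) (j : ℤ) (a : kk) :
    gr t c (single j a) =
      (open Classical in if (j : ZMod (2 ^ t)) = c then single j a else 0) := by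
  classical
  ext g
  rw [coeff_gr]
  by_cases hg : g = j
  · rw [hg]
    by_cases hj : (j : ZMod (2 ^ t)) = c
    · rw [if_pos hj, if_pos hj]
    · rw [if_neg hj, if_neg hj, coeff_zero]
  · rw [coeff_single_of_ne hg, ite_self]
    by_cases hj : (j : ZMod (2 ^ t)) = c
    · rw [if_pos hj, coeff_single_of_ne hg]
    · rw [if_neg hj, coeff_zero]

theorem gr_Th (t : ℕ) (c : ZMod (2 ^ t)) (ι : Type) (E : ι → ℤ) (b : ι → kk) (h : Tame E) :
    gr t c (Th E b) =
      Th E (fun i => open Classical in if (E i : ZMod (2 ^ t)) = c then b i else 0) := by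
  classical
  ext g
  rw [coeff_gr, coeff_Th h, coeff_Th h]
  by_cases hg : (g : ZMod (2 ^ t)) = c
  · rw [if_pos hg]
    apply finsum_congr
    intro i
    by_cases he : E i = g
    · rw [if_pos he, if_pos he, he, if_pos hg]
    · rw [if_neg he, if_neg he]
  · rw [if_neg hg]
    symm
    have h0 : (fun i => if E i = g then (if (E i : ZMod (2 ^ t)) = c then b i else 0) else 0) =
        fun _ => (0 : kk) := by
      funext i
      by_cases he : E i = g
      · rw [if_pos he, he, if_neg hg]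
      · rw [if_neg he]
    rw [h0, finsum_zero]

theorem coeff_sq (f : KK) (g : ℤ) :
    (f ^ 2).coeff g = (open Classical in if 2 ∣ g then f.coeff (g / 2) ^ 2 else 0) := by
  classical
  rw [sq, coeff_mul]
  have hdiag : ∑ ij ∈ Finset.antidiagonal f.isPWO_support f.isPWO_support g,
      f.coeff ij.1 * f.coeff ij.2 =
      ∑ ij ∈ (Finset.antidiagonal f.isPWO_support f.isPWO_support g).filter
        (fun ij => ij.1 = ij.2), f.coeff ij.1 * f.coeff ij.2 := by
    rw [← Finset.sum_filter_add_sum_filter_not _ (fun ij : ℤ × ℤ => ij.1 = ij.2)]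
    have h0 : ∑ ij ∈ (Finset.antidiagonal f.isPWO_support f.isPWO_support g).filter
        (fun ij => ¬ ij.1 = ij.2), f.coeff ij.1 * f.coeff ij.2 = 0 := by
      apply Finset.sum_involution (fun ij _ => (ij.2, ij.1))
      · intro ij _
        rw [mul_comm (f.coeff ij.2)]
        exact CharTwo.add_self_eq_zero _
      · intro ij hij _ he
        rw [Finset.mem_filter] at hij
        apply hij.2
        rw [Prod.ext_iff] at he
        exact he.2
      · intro ij hij
        rw [Finset.mem_filter, Finset.mem_antidiagonal] at hij ⊢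
        refine ⟨⟨hij.1.2.1, hij.1.1, ?_⟩, fun h => hij.2 h.symm⟩
        rw [add_comm]
        exact hij.1.2.2
      · intro ij _
        rfl
    rw [h0, add_zero]
  rw [hdiag]
  by_cases h2 : (2 : ℤ) ∣ g
  · rw [if_pos h2]
    obtain ⟨m, hm⟩ := h2
    have hm2 : g / 2 = m := by omega
    rw [hm2]
    by_cases hf : f.coeff m = 0
    · rw [hf]
      rw [zero_pow two_ne_zero]
      apply Finset.sum_eq_zero
      intro ij hij
      rw [Finset.mem_filter, Finset.mem_antidiagonal] at hij
      have h3 : ij.1 = m := by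
        have := hij.1.2.2
        have := hij.2
        omega
      rw [h3, hf, zero_mul]
    · rw [Finset.sum_eq_single (m, m)]
      · rw [sq]
      · intro ij hij hne
        exfalso
        apply hne
        rw [Finset.mem_filter, Finset.mem_antidiagonal] at hij
        have h3 := hij.1.2.2
        have h4 := hij.2
        ext
        · show ij.1 = m
          omega
        · show ij.2 = m
          omega
      · intro hn
        exfalso
        apply hn
        rw [Finset.mem_filter, Finset.mem_antidiagonal]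
        refine ⟨⟨hf, hf, ?_⟩, rfl⟩
        show m + m = g
        omega
  · rw [if_neg h2]
    apply Finset.sum_eq_zero
    intro ij hij
    exfalso
    apply h2
    rw [Finset.mem_filter, Finset.mem_antidiagonal] at hij
    have h3 := hij.1.2.2
    have h4 := hij.2
    exact ⟨ij.1, by omega⟩

theorem gr_sq (t : ℕ) (c : ℤ) (f : KK) :
    gr (t + 1) ((2 * c : ℤ) : ZMod (2 ^ (t + 1))) (f ^ 2) = (gr t (c : ZMod (2 ^ t)) f) ^ 2 := by
  classical
  ext g
  rw [coeff_gr, coeff_sq, coeff_sq]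
  by_cases h2 : (2 : ℤ) ∣ g
  · rw [if_pos h2, if_pos h2, coeff_gr]
    obtain ⟨m, hm⟩ := h2
    have hm2 : g / 2 = m := by omega
    rw [hm2]
    have hiff : ((g : ℤ) : ZMod (2 ^ (t + 1))) = ((2 * c : ℤ) : ZMod (2 ^ (t + 1))) ↔
        ((m : ℤ) : ZMod (2 ^ t)) = ((c : ℤ) : ZMod (2 ^ t)) := by
      rw [ZMod.intCast_eq_intCast_iff_dvd_sub, ZMod.intCast_eq_intCast_iff_dvd_sub, hm]
      have h5 : (2 : ℤ) * c - 2 * m = 2 * (c - m) := by ring
      rw [h5]
      have h6 : (((2 ^ (t + 1) : ℕ) : ℤ)) = 2 * ((2 ^ t : ℕ) : ℤ) := by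
        push_cast
        ring
      rw [h6]
      exact mul_dvd_mul_iff_left two_ne_zero
    by_cases hc : ((m : ℤ) : ZMod (2 ^ t)) = ((c : ℤ) : ZMod (2 ^ t))
    · rw [if_pos (hiff.2 hc), if_pos hc]
    · rw [if_neg (fun h => hc (hiff.1 h)), if_neg hc, zero_pow two_ne_zero]
  · rw [if_neg h2, if_neg h2, ite_self]

theorem gr_pow8 (t : ℕ) (c : ℤ) (f : KK) :
    gr (t + 3) ((8 * c : ℤ) : ZMod (2 ^ (t + 3))) (f ^ 8) =
      (gr t (c : ZMod (2 ^ t)) f) ^ 8 := by
  have h1 : f ^ 8 = ((f ^ 2) ^ 2) ^ 2 := by ring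
  have h2 : (8 * c : ℤ) = 2 * (2 * (2 * c)) := by ring
  have h3 : (gr t (c : ZMod (2 ^ t)) f) ^ 8 = (((gr t (c : ZMod (2 ^ t)) f) ^ 2) ^ 2) ^ 2 := by
    ring
  rw [h1, h2, h3, ← gr_sq, ← gr_sq, ← gr_sq]

end RG

theorem blk_RG : Stmt_RG := by
  refine ⟨fun ξ f g => ⟨RG.resc_add ξ f g, RG.resc_mul ξ f g, RG.resc_one ξ, RG.resc_inv ξ f,
    RG.resc_resc ξ f⟩, RG.resc_single, RG.resc_Th, fun t c f g a => ⟨RG.gr_add t c f g,
    RG.gr_smul t c f a, RG.gr_mul t c f g, RG.gr_sum t f⟩, fun t c j a f =>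
    ⟨RG.gr_single_mul t c j a f, RG.gr_single t c j a⟩, RG.gr_Th, RG.gr_pow8⟩

end Pool.Agent.Work.P57
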