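import Pool.Agent.Work.P57.Interface

/-! RSG: the rescaling extends to an element of the Galois group. -/

set_option autoImplicit false

namespace Pool.Agent.Work.P57

open HahnSeries

namespace RSG

theorem resc_Del (hTH : Stmt_TH) (hRG : Stmt_RG) (D : ℤ) (ξ : kkˣ) (hD : 0 < D) (h : ξ ^ D = 1) :
    resc ξ (Del 1 D) = Del 1 D := by
  have hT : Tame (fun n : ℕ => D * (2 * n + 1) ^ 2) := (hTH.2.2.2.2.2.2.2.2 D hD).2.1
  unfold Del
  rw [hRG.2.2.1 ξ ℕ _ _ hT]
  congr 1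
  funext n
  rw [zpow_mul, h]
  simp

theorem resc_const (hRG : Stmt_RG) (ξ : kkˣ) (a : kk) :
    resc ξ (algebraMap kk KK a) = algebraMap kk KK a := by
  have h1 : algebraMap kk KK a = single 0 a := rfl
  rw [h1, hRG.2.1]
  simp

end RSG

open RSG in
theorem blk_RSG (hTH : Stmt_TH) (hRG : Stmt_RG) : Stmt_RSG := by
  intro D ξ hD hξ
  have hadd : ∀ f g : KK, resc ξ (f + g) = resc ξ f + resc ξ g := fun f g => (hRG.1 ξ f g).1
  have hmul : ∀ f g : KK, resc ξ (f * g) = resc ξ f * resc ξ g := fun f g => (hRG.1 ξ f g).2.1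
  have hinv : ∀ f : KK, resc ξ f⁻¹ = (resc ξ f)⁻¹ := fun f => (hRG.1 ξ f f).2.2.2.1
  have hli : ∀ f : KK, resc ξ⁻¹ (resc ξ f) = f := fun f => (hRG.1 ξ f f).2.2.2.2
  have hri : ∀ f : KK, resc ξ (resc ξ⁻¹ f) = f := fun f => by
    have := (hRG.1 ξ⁻¹ f f).2.2.2.2
    rwa [inv_inv] at this
  have hfix : ∀ y ∈ AA D, resc ξ y = y := by
    intro y hy
    refine IntermediateField.adjoin_induction kk (p := fun y _ => resc ξ y = y)
      ?_ ?_ ?_ ?_ ?_ hy
    · intro x hx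
      rw [Set.mem_singleton_iff.1 hx]
      exact resc_Del hTH hRG D ξ hD hξ
    · intro a
      exact resc_const hRG ξ a
    · intro x y _ _ hx hy
      rw [hadd, hx, hy]
    · intro x _ hx
      rw [hinv, hx]
    · intro x y _ _ hx hy
      rw [hmul, hx, hy]
  let R0 : KK ≃+* KK :=
    { toFun := resc ξ
      invFun := resc ξ⁻¹
      left_inv := hli
      right_inv := hri
      map_mul' := hmul
      map_add' := hadd }
  let R : KK ≃ₐ[AA D] KK := AlgEquiv.ofRingEquiv (f := R0) (fun a => hfix _ a.2)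
  have hmem : ∀ y, y ∈ K0 D → resc ξ y ∈ K0 D := fun y hy =>
    mem_K0.2 ((mem_K0.1 hy).algHom R.toAlgHom)
  have hmem' : ∀ y, y ∈ K0 D → resc ξ⁻¹ y ∈ K0 D := fun y hy =>
    mem_K0.2 ((mem_K0.1 hy).algHom R.symm.toAlgHom)
  let r0 : K0 D ≃+* K0 D :=
    { toFun := fun y => ⟨resc ξ y, hmem y y.2⟩
      invFun := fun y => ⟨resc ξ⁻¹ y, hmem' y y.2⟩
      left_inv := fun y => Subtype.ext (hli y)
      right_inv := fun y => Subtype.ext (hri y)
      map_mul' := fun x y => Subtype.ext (hmul x y)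
      map_add' := fun x y => Subtype.ext (hadd x y) }
  let r : K0 D ≃ₐ[AA D] K0 D := AlgEquiv.ofRingEquiv (f := r0)
    (fun a => Subtype.ext (hfix _ a.2))
  refine ⟨r.liftNormal (Om D), fun y hy => ⟨hy, hmem y hy, ?_⟩⟩
  exact r.liftNormal_commutes (Om D) ⟨y, hy⟩

end Pool.Agent.Work.P57
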