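import Pool.Agent.Work.P57.Interface

/-! SIV: the sieved series as a sum over roots of unity. -/

set_option autoImplicit false

namespace Pool.Agent.Work.P57

open HahnSeries

namespace SIV

theorem tameN (e : ℤ) (he : 0 < e) : Tame (fun n : ℕ => e * (n : ℤ)) := by
  intro B
  refine (Set.finite_le_nat B.toNat).subset ?_
  intro i hi
  have h1 : e * (i : ℤ) ≤ B := hi
  have h2 : (i : ℤ) ≤ B := by nlinarith [Int.natCast_nonneg i]
  show i ≤ B.toNat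
  omega

theorem coeff_mulN (e : ℤ) (he : 0 < e) (c : ℕ → kk) (n : ℕ) :
    (Th (fun n : ℕ => e * (n : ℤ)) c).coeff (e * n) = c n := by
  rw [coeff_Th (tameN e he), finsum_eq_single _ n, if_pos rfl]
  intro j hj
  rw [if_neg]
  intro h
  have h3 := mul_left_cancel₀ he.ne' h
  exact hj (by exact_mod_cast h3)

theorem coeff_outN (e : ℤ) (he : 0 < e) (c : ℕ → kk) (g : ℤ) (hg : ∀ n : ℕ, g ≠ e * n) :
    (Th (fun n : ℕ => e * (n : ℤ)) c).coeff g = 0 := by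
  rw [coeff_Th (tameN e he)]
  have h0 : (fun i : ℕ => open Classical in if e * (i : ℤ) = g then c i else 0) =
      fun _ => 0 := by
    funext i
    rw [if_neg]
    intro h
    exact hg _ h.symm
  rw [h0, finsum_zero]

theorem sum_smul_Th (e : ℤ) (he : 0 < e) (I : Finset ℕ) (a : ℕ → kk) (c : ℕ → ℕ → kk) :
    ∑ i ∈ I, a i • Th (fun n : ℕ => e * (n : ℤ)) (c i) =
      Th (fun n : ℕ => e * (n : ℤ)) (fun n => ∑ i ∈ I, a i * c i n) := by
  ext g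
  rw [HahnSeries.coeff_sum]
  simp only [HahnSeries.coeff_smul, smul_eq_mul]
  by_cases hg : ∃ n : ℕ, g = e * n
  · obtain ⟨n, rfl⟩ := hg
    rw [coeff_mulN e he]
    exact Finset.sum_congr rfl fun i _ => by rw [coeff_mulN e he]
  · push Not at hg
    rw [coeff_outN e he _ g hg]
    exact Finset.sum_eq_zero fun i _ => by rw [coeff_outN e he _ g hg, mul_zero]

theorem sum_filter (M : ℕ) {A : Type} [AddCommMonoid A] (f : ℕ → A) :
    ∑ i ∈ (Finset.range (3 * M)).filter (fun i => 3 ∣ i), f i =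
      ∑ i ∈ Finset.range M, f (3 * i) := by
  have h : (Finset.range (3 * M)).filter (fun i => 3 ∣ i) =
      (Finset.range M).image (fun i => 3 * i) := by
    ext i
    simp only [Finset.mem_filter, Finset.mem_range, Finset.mem_image]
    constructor
    · rintro ⟨h1, j, rfl⟩
      exact ⟨j, by omega, rfl⟩
    · rintro ⟨j, h1, rfl⟩
      exact ⟨by omega, j, rfl⟩
  rw [h, Finset.sum_image]
  intro a _ b _ h
  simpa using h

theorem geo (ω : kkˣ) (M : ℕ) (hω : IsPrimitiveRoot ω M) (hM : Odd M) (a : ℤ) :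
    ∑ i ∈ Finset.range M, ((ω ^ ((i : ℤ) * a) : kkˣ) : kk) =
      open Classical in if (M : ℤ) ∣ a then 1 else 0 := by
  split_ifs with h
  · have h1 : ∀ i ∈ Finset.range M, ((ω ^ ((i : ℤ) * a) : kkˣ) : kk) = 1 := by
      intro i _
      rw [mul_comm, zpow_mul, (hω.zpow_eq_one_iff_dvd a).2 h, one_zpow, Units.val_one]
    rw [Finset.sum_congr rfl h1, Finset.sum_const, Finset.card_range, nsmul_one]
    obtain ⟨r, rfl⟩ := hM
    push_cast
    rw [CharTwo.two_eq_zero, zero_mul, zero_add]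
  · have h1 : ∀ i ∈ Finset.range M, ((ω ^ ((i : ℤ) * a) : kkˣ) : kk) =
        (((ω ^ a : kkˣ) : kk)) ^ i := by
      intro i _
      rw [mul_comm, zpow_mul, zpow_natCast, Units.val_pow_eq_pow_val]
    rw [Finset.sum_congr rfl h1]
    have h2 : ((ω ^ a : kkˣ) : kk) ≠ 1 := by
      intro h3
      exact h ((hω.zpow_eq_one_iff_dvd a).1 (Units.ext h3))
    have h3 : (((ω ^ a : kkˣ) : kk)) ^ M = 1 := by
      rw [← Units.val_pow_eq_pow_val, ← zpow_natCast, ← zpow_mul, mul_comm, zpow_mul,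
        zpow_natCast, hω.pow_eq_one, one_zpow, Units.val_one]
    have h4 := mul_neg_geom_sum (((ω ^ a : kkˣ) : kk)) M
    rw [h3, sub_self] at h4
    rcases mul_eq_zero.1 h4 with h5 | h5
    · exact absurd (sub_eq_zero.1 h5).symm h2
    · exact h5

theorem cong_iff (k M m0 B n : ℕ) (hM : Odd M) (hm : Odd m0) :
    (((3 * (m0 : ℤ) * n : ℤ) : ZMod (2 ^ k)) = ((3 * (m0 : ℤ) * B : ℤ) : ZMod (2 ^ k)) ∧
      (M : ℤ) ∣ (n : ℤ) - B) ↔ n % (2 ^ k * M) = B % (2 ^ k * M) := by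
  have hc : Nat.Coprime (2 ^ k) M := Nat.Coprime.pow_left k (Nat.coprime_two_left.2 hM)
  have h1 : n % (2 ^ k * M) = B % (2 ^ k * M) ↔ n ≡ B [MOD 2 ^ k] ∧ n ≡ B [MOD M] :=
    (Nat.modEq_and_modEq_iff_modEq_mul hc).symm
  rw [h1]
  have h2 : n ≡ B [MOD M] ↔ (M : ℤ) ∣ (n : ℤ) - B := by
    rw [Nat.ModEq.comm]
    exact Nat.modEq_iff_dvd
  have h3 : n ≡ B [MOD 2 ^ k] ↔
      (((3 * (m0 : ℤ) * n : ℤ) : ZMod (2 ^ k)) = ((3 * (m0 : ℤ) * B : ℤ) : ZMod (2 ^ k))) := by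
    have h4 : n ≡ B [MOD 2 ^ k] ↔ ((2 ^ k : ℕ) : ℤ) ∣ (n : ℤ) - B := by
      rw [Nat.ModEq.comm]
      exact Nat.modEq_iff_dvd
    rw [h4, ZMod.intCast_eq_intCast_iff_dvd_sub]
    have h5 : (3 * (m0 : ℤ) * B - 3 * (m0 : ℤ) * n) = (3 * (m0 : ℤ)) * (-((n : ℤ) - B)) := by ring
    rw [h5]
    have h6 : IsCoprime ((2 ^ k : ℕ) : ℤ) (3 * (m0 : ℤ)) := by
      have : Nat.Coprime (2 ^ k) (3 * m0) :=
        Nat.Coprime.pow_left k (Nat.coprime_two_left.2 (by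
          exact Odd.mul (by decide) hm))
      have := Nat.isCoprime_iff_coprime.2 this
      exact_mod_cast this
    constructor
    · intro h
      exact Dvd.dvd.mul_left ((dvd_neg).2 h) _
    · intro h
      exact (dvd_neg).1 (h6.dvd_of_dvd_mul_left h)
  rw [h2, h3]

end SIV

open SIV in
theorem blk_SIV (hRG : Stmt_RG) (hIDA : Stmt_IDA) : Stmt_SIV := by
  intro hGS s ξ M k B hs hξ hdiv hMpos
  have hn0 : 0 < n0 s := by
    have : 1 < 4 ^ s := Nat.one_lt_pow (by omega) (by norm_num)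
    show 0 < 4 ^ s - 1
    omega
  have hn0odd : Odd (n0 s) := by
    have h1 : 4 ^ s = 4 * 4 ^ (s - 1) := by
      rw [← pow_succ']
      congr 1
      omega
    have h2 : 0 < 4 ^ (s - 1) := by positivity
    refine ⟨2 * 4 ^ (s - 1) - 1, ?_⟩
    show 4 ^ s - 1 = _
    omega
  set m0 : ℕ := n0 s / (3 * M) with hm0
  have hprod : n0 s = 3 * M * m0 := (Nat.mul_div_cancel' hdiv).symm
  have hm0odd : Odd m0 := by
    rw [hprod] at hn0odd
    exact (Nat.odd_mul.1 hn0odd).2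
  have hModd : Odd M := by
    rw [hprod] at hn0odd
    exact (Nat.odd_mul.1 (Nat.odd_mul.1 hn0odd).1).2
  have hm0pos : 0 < m0 := hm0odd.pos
  have he : (0 : ℤ) < 3 * (m0 : ℤ) := by positivity
  refine ⟨_, fun i => rfl, ?_, ?_⟩
  · intro i
    have h1 := hGS (ξ ^ (3 * (m0 : ℤ) * (i : ℤ))) (3 * (m0 : ℤ)) he
    have h2 := (hIDA (ξ ^ (3 * (m0 : ℤ) * (i : ℤ))) 1 1 (3 * (m0 : ℤ)) 0 0 he).2.2.2.2.1
    have h3 := (hIDA (ξ ^ (9 * (m0 : ℤ) * (i : ℤ))) 1 1 (9 * (m0 : ℤ)) 0 0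
      (by positivity)).2.2.2.2.1
    have e1 : (ξ ^ (3 * (m0 : ℤ) * (i : ℤ))) ^ 3 = ξ ^ (9 * (m0 : ℤ) * (i : ℤ)) := by
      rw [← zpow_natCast, ← zpow_mul]
      congr 1
      push_cast
      ring
    have e2 : 3 * (3 * (m0 : ℤ)) = 9 * (m0 : ℤ) := by ring
    rw [e1, e2] at h1
    rw [h2, h3]
    set G := Gs (ξ ^ (3 * (m0 : ℤ) * (i : ℤ))) (3 * (m0 : ℤ))
    set P1 := Psi (ξ ^ (3 * (m0 : ℤ) * (i : ℤ))) (3 * (m0 : ℤ))
    set P2 := Psi (ξ ^ (9 * (m0 : ℤ) * (i : ℤ))) (9 * (m0 : ℤ))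
    have h4 : (single (-4 * (m0 : ℤ)) (1 : kk) * G ^ 8) ^ 3 *
        (single (3 * (m0 : ℤ)) ((ξ ^ (3 * (m0 : ℤ) * (i : ℤ)) : kkˣ) : kk) * P1 ^ 8 *
        (single (9 * (m0 : ℤ)) ((ξ ^ (9 * (m0 : ℤ) * (i : ℤ)) : kkˣ) : kk) * P2 ^ 8)) =
        single (-4 * (m0 : ℤ)) (1 : kk) * single (-4 * (m0 : ℤ)) (1 : kk) *
          single (-4 * (m0 : ℤ)) (1 : kk) *
          single (3 * (m0 : ℤ)) ((ξ ^ (3 * (m0 : ℤ) * (i : ℤ)) : kkˣ) : kk) *
          single (9 * (m0 : ℤ)) ((ξ ^ (9 * (m0 : ℤ) * (i : ℤ)) : kkˣ) : kk) *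
          (G ^ 3 * P1 * P2) ^ 8 := by ring
    rw [h4, h1, one_pow, mul_one, HahnSeries.single_mul_single, HahnSeries.single_mul_single,
      HahnSeries.single_mul_single, HahnSeries.single_mul_single]
    have e3 : (-4 * (m0 : ℤ) + -4 * (m0 : ℤ) + -4 * (m0 : ℤ) + 3 * (m0 : ℤ) + 9 * (m0 : ℤ)) = 0 := by
      ring
    rw [e3, one_mul, one_mul, one_mul, ← Units.val_mul, ← zpow_add]
    have e4 : (3 * (m0 : ℤ) * (i : ℤ) + 9 * (m0 : ℤ) * (i : ℤ)) = 12 * (m0 : ℤ) * (i : ℤ) := by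
      ring
    rw [e4]
    rfl
  · -- the sieve
    set E : ℕ → ℤ := fun n => 3 * (m0 : ℤ) * (n : ℤ) with hE
    set T : ℕ → KK := fun i => Th E (fun n => open Classical in
      if ((3 * (m0 : ℤ) * n : ℤ) : ZMod (2 ^ k)) = ((3 * (m0 : ℤ) * B : ℤ) : ZMod (2 ^ k)) then
        (pa n : kk) * (((ξ ^ (3 * (m0 : ℤ) * (i : ℤ))) ^ n : kkˣ) : kk) else 0) with hT
    have hterm : ∀ i : ℕ, ((ξ ^ (-(24 * (m0 : ℤ) * (i : ℤ) * B)) : kkˣ) : kk) •
        gr (k + 3) (((24 * (m0 : ℤ) * B - 4 * (m0 : ℤ) : ℤ)) : ZMod (2 ^ (k + 3)))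
          (single (-4 * (m0 : ℤ)) 1 * Gs (ξ ^ (3 * (m0 : ℤ) * (i : ℤ))) (3 * (m0 : ℤ)) ^ 8) =
        single (-4 * (m0 : ℤ)) 1 *
          (((ξ ^ (-(3 * (m0 : ℤ) * (i : ℤ) * B)) : kkˣ) : kk) • T i) ^ 8 := by
      intro i
      rw [(hRG.2.2.2.2.1 (k + 3) _ (-4 * (m0 : ℤ)) 1 _).1]
      have e1 : ((((24 * (m0 : ℤ) * B - 4 * (m0 : ℤ) : ℤ)) : ZMod (2 ^ (k + 3))) -
          ((-4 * (m0 : ℤ) : ℤ) : ZMod (2 ^ (k + 3)))) =
          ((8 * (3 * (m0 : ℤ) * B) : ℤ) : ZMod (2 ^ (k + 3))) := by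
        push_cast
        ring
      rw [e1, hRG.2.2.2.2.2.2 k (3 * (m0 : ℤ) * B)]
      have e2 : gr k ((3 * (m0 : ℤ) * B : ℤ) : ZMod (2 ^ k))
          (Gs (ξ ^ (3 * (m0 : ℤ) * (i : ℤ))) (3 * (m0 : ℤ))) = T i := by
        unfold Gs
        rw [hRG.2.2.2.2.2.1 k _ ℕ _ _ (tameN _ he)]
      rw [e2, smul_pow, mul_smul_comm]
      congr 1
      rw [← Units.val_pow_eq_pow_val, ← zpow_natCast, ← zpow_mul]
      congr 2
      push_cast
      ring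
    rw [sum_filter, Finset.sum_congr rfl (fun i _ => hterm (3 * i)), ← Finset.mul_sum]
    congr 1
    have hfrob := (sum_pow_char_pow (R := KK) 2 3 (Finset.range M) (fun i =>
      (((ξ ^ (-(3 * (m0 : ℤ) * ((3 * i : ℕ) : ℤ) * B)) : kkˣ) : kk) • T (3 * i)))).symm
    have e8 : 2 ^ 3 = 8 := by norm_num
    rw [e8] at hfrob
    rw [hfrob]
    congr 1
    rw [hT, sum_smul_Th (3 * (m0 : ℤ)) he (Finset.range M)
      (fun i => ((ξ ^ (-(3 * (m0 : ℤ) * ((3 * i : ℕ) : ℤ) * B)) : kkˣ) : kk))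
      (fun i n => open Classical in
      if ((3 * (m0 : ℤ) * n : ℤ) : ZMod (2 ^ k)) = ((3 * (m0 : ℤ) * B : ℤ) : ZMod (2 ^ k)) then
        (pa n : kk) * (((ξ ^ (3 * (m0 : ℤ) * ((3 * i : ℕ) : ℤ))) ^ n : kkˣ) : kk) else 0)]
    congr 1
    funext n
    have hci := cong_iff k M m0 B n hModd hm0odd
    have hω : IsPrimitiveRoot (ξ ^ (9 * m0)) M := by
      refine hξ.pow ?_ ?_
      · show 0 < 3 * n0 s
        omega
      · show 3 * n0 s = _
        rw [hprod]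
        ring
    have hgeo := geo _ M hω hModd ((n : ℤ) - B)
    by_cases h2 : ((3 * (m0 : ℤ) * n : ℤ) : ZMod (2 ^ k)) = ((3 * (m0 : ℤ) * B : ℤ) : ZMod (2 ^ k))
    · simp only [if_pos h2]
      have hsum : ∑ i ∈ Finset.range M, ((ξ ^ (-(3 * (m0 : ℤ) * ((3 * i : ℕ) : ℤ) * B)) : kkˣ) : kk) *
          ((pa n : kk) * (((ξ ^ (3 * (m0 : ℤ) * ((3 * i : ℕ) : ℤ))) ^ n : kkˣ) : kk)) =
          (pa n : kk) * ∑ i ∈ Finset.range M,
            (((ξ ^ (9 * m0)) ^ ((i : ℤ) * ((n : ℤ) - B)) : kkˣ) : kk) := by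
        rw [Finset.mul_sum]
        refine Finset.sum_congr rfl fun i _ => ?_
        rw [mul_left_comm, ← Units.val_mul]
        congr 2
        rw [← zpow_natCast (ξ ^ (3 * (m0 : ℤ) * ((3 * i : ℕ) : ℤ))), ← zpow_mul, ← zpow_add,
          ← zpow_natCast ξ, ← zpow_mul]
        congr 1
        push_cast
        ring
      rw [hsum, hgeo]
      by_cases h3 : (M : ℤ) ∣ (n : ℤ) - B
      · rw [if_pos h3, if_pos (hci.1 ⟨h2, h3⟩), mul_one]
      · rw [if_neg h3, if_neg (fun h => h3 (hci.2 h).2), mul_zero]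
    · simp only [if_neg h2, mul_zero, Finset.sum_const_zero]
      rw [if_neg (fun h => h2 (hci.2 h).1)]

end Pool.Agent.Work.P57
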