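import Pool.Agent.Work.P57.Interface

/-! Block SLG: group theory in `GL_2(ℤ/n)`. -/

set_option autoImplicit false

namespace Pool.Agent.Work.P57

open Matrix

namespace SLG

variable {R : Type*} [CommRing R]

/-- upper unipotent -/
def U (x : R) : Matrix (Fin 2) (Fin 2) R := !![1, x; 0, 1]

/-- lower unipotent -/
def L (x : R) : Matrix (Fin 2) (Fin 2) R := !![1, 0; x, 1]

theorem Up_mul (x y : R) : U x * U y = U (x + y) := by
  ext i j
  fin_cases i <;> fin_cases j <;> simp [U, Matrix.mul_apply, Fin.sum_univ_two, add_comm]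

theorem Lo_mul (x y : R) : L x * L y = L (x + y) := by
  ext i j
  fin_cases i <;> fin_cases j <;> simp [L, Matrix.mul_apply, Fin.sum_univ_two, add_comm]

theorem Up_zero : U (0 : R) = 1 := by
  ext i j
  fin_cases i <;> fin_cases j <;> simp [U]

theorem Lo_zero : L (0 : R) = 1 := by
  ext i j
  fin_cases i <;> fin_cases j <;> simp [L]

/-- the conjugation -/
theorem conj (M : Matrix (Fin 2) (Fin 2) R) (hM : IsUnit M.det) (x t : R)
    (hx : x * (M 0 0 + t * M 1 0) = 0) :
    U t * (M * U x * M⁻¹) * U (-t) = L (-(Ring.inverse M.det * x * M 1 0 ^ 2)) := by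
  have hδ : Ring.inverse M.det * M.det = 1 := Ring.inverse_mul_cancel _ hM
  rw [Matrix.det_fin_two] at hδ
  rw [Matrix.inv_def, Matrix.det_fin_two, Matrix.adjugate_fin_two]
  set ρ := Ring.inverse (M 0 0 * M 1 1 - M 0 1 * M 1 0) with hρ
  ext i j
  fin_cases i <;> fin_cases j
  · simp only [U, L, Matrix.mul_apply, Fin.sum_univ_two, Matrix.smul_apply, smul_eq_mul,
      Matrix.of_apply, Matrix.cons_val', Matrix.cons_val_zero, Matrix.cons_val_one,
      Fin.zero_eta, Fin.mk_one, Fin.isValue, Matrix.cons_val_fin_one]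
    linear_combination hδ - ρ * M 1 0 * hx
  · simp only [U, L, Matrix.mul_apply, Fin.sum_univ_two, Matrix.smul_apply, smul_eq_mul,
      Matrix.of_apply, Matrix.cons_val', Matrix.cons_val_zero, Matrix.cons_val_one,
      Fin.zero_eta, Fin.mk_one, Fin.isValue, Matrix.cons_val_fin_one]
    linear_combination ρ * (M 0 0 + t * M 1 0) * hx
  · simp only [U, L, Matrix.mul_apply, Fin.sum_univ_two, Matrix.smul_apply, smul_eq_mul,
      Matrix.of_apply, Matrix.cons_val', Matrix.cons_val_zero, Matrix.cons_val_one,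
      Fin.zero_eta, Fin.mk_one, Fin.isValue, Matrix.cons_val_fin_one]
    ring
  · simp only [U, L, Matrix.mul_apply, Fin.sum_univ_two, Matrix.smul_apply, smul_eq_mul,
      Matrix.of_apply, Matrix.cons_val', Matrix.cons_val_zero, Matrix.cons_val_one,
      Fin.zero_eta, Fin.mk_one, Fin.isValue, Matrix.cons_val_fin_one]
    linear_combination hδ + ρ * M 1 0 * hx

theorem last (r : R) : U 1 * L (-1) * U 1 * U (-r) = !![0, 1; -1, r] := by
  ext i j
  fin_cases i <;> fin_cases j <;> simp [U, L, Matrix.mul_apply, Fin.sum_univ_two]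

end SLG

open SLG

theorem blk_SLG : Stmt_SLG := by
  intro n hodd hn A N hA h1 hmul hU hNA hconj hl r
  have : NeZero n := ⟨by omega⟩
  have hUn : ∀ k : ℕ, U (k : ZMod n) ∈ N := by
    intro k
    induction k with
    | zero => rw [Nat.cast_zero, Up_zero]; exact h1
    | succ k ih => rw [Nat.cast_succ, ← Up_mul]; exact hmul _ ih _ hU
  have hUx : ∀ x : ZMod n, U x ∈ N := by
    intro x
    have := hUn x.val
    rwa [ZMod.natCast_zmod_val] at this
  have hLk : ∀ (y : ZMod n), L y ∈ N → ∀ k : ℕ, L ((k : ZMod n) * y) ∈ N := by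
    intro y hy k
    induction k with
    | zero => rw [Nat.cast_zero, zero_mul, Lo_zero]; exact h1
    | succ k ih => rw [Nat.cast_succ, add_mul, one_mul, ← Lo_mul]; exact hmul _ ih _ hy
  let I : Ideal (ZMod n) :=
    { carrier := {y | L y ∈ N}
      add_mem' := fun {a b} ha hb => by
        change L (a + b) ∈ N
        rw [← Lo_mul]; exact hmul _ ha _ hb
      zero_mem' := by
        change L 0 ∈ N
        rw [Lo_zero]; exact h1
      smul_mem' := fun c x hx => by
        change L (c * x) ∈ N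
        have := hLk x hx c.val
        rwa [ZMod.natCast_zmod_val] at this }
  have hI : I = ⊤ := by
    by_contra hne
    obtain ⟨P, hP, hIP⟩ := Ideal.exists_le_maximal I hne
    have hPp : P.IsPrime := hP.isPrime
    let F := ZMod n ⧸ P
    let _ : Field F := Ideal.Quotient.field P
    obtain ⟨l, hcl⟩ := CharP.exists F
    have hnF : ((n : ℕ) : F) = 0 := by
      have h2 : (Ideal.Quotient.mk P) ((n : ℕ) : ZMod n) = 0 := by
        rw [ZMod.natCast_self, map_zero]
      rwa [map_natCast] at h2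
    have hln : l ∣ n := (CharP.cast_eq_zero_iff F l n).1 hnF
    have hl0 : l ≠ 0 := by
      rintro rfl
      exact (by omega : n ≠ 0) (Nat.eq_zero_of_zero_dvd hln)
    have hlp : l.Prime := (CharP.char_is_prime_or_zero F l).resolve_right hl0
    have hmem : ∀ k : ℕ, ((k : ZMod n) ∈ P ↔ l ∣ k) := by
      intro k
      rw [← CharP.cast_eq_zero_iff F l k, ← Ideal.Quotient.eq_zero_iff_mem, map_natCast]
    obtain ⟨M, hMA, hMl⟩ := hl l hlp hln
    -- the prime power
    set k := n.factorization l with hk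
    have hx0 : l ^ k * (n / l ^ k) = n := Nat.ordProj_mul_ordCompl_eq_self n l
    have hcop : Nat.Coprime l (n / l ^ k) := Nat.coprime_ordCompl hlp (by omega)
    set x0 := n / l ^ k with hx0d
    have hc : Nat.Coprime (M 1 0).val (l ^ k) :=
      (Nat.Coprime.pow_right k ((Nat.Prime.coprime_iff_not_dvd hlp).2 hMl).symm)
    have hbez := Nat.gcd_eq_gcd_ab (M 1 0).val (l ^ k)
    rw [hc.gcd_eq_one] at hbez
    set u := Nat.gcdA (M 1 0).val (l ^ k) with hu
    set w := Nat.gcdB (M 1 0).val (l ^ k) with hw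
    have hb1 : (1 : ZMod n) = M 1 0 * (u : ZMod n) + ((l ^ k : ℕ) : ZMod n) * (w : ZMod n) := by
      have h3 : (((1 : ℕ) : ℤ) : ZMod n) =
          (((((M 1 0).val : ℕ) : ℤ) * u + ((l ^ k : ℕ) : ℤ) * w : ℤ) : ZMod n) := by rw [hbez]
      push_cast at h3
      rw [ZMod.natCast_zmod_val] at h3
      push_cast
      exact h3
    have hxl : (x0 : ZMod n) * ((l ^ k : ℕ) : ZMod n) = 0 := by
      rw [← Nat.cast_mul, mul_comm, hx0, ZMod.natCast_self]
    have hx : (x0 : ZMod n) * (M 0 0 + (-((u : ZMod n) * M 0 0)) * M 1 0) = 0 := by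
      linear_combination (x0 : ZMod n) * M 0 0 * hb1 + M 0 0 * (w : ZMod n) * hxl
    have hy : L (-(Ring.inverse M.det * (x0 : ZMod n) * M 1 0 ^ 2)) ∈ N := by
      rw [← SLG.conj M (hA M hMA) (x0 : ZMod n) _ hx]
      exact hmul _ (hmul _ (hUx _) _ (hconj M hMA _ (hUx _))) _ (hUx _)
    have hyP : -(Ring.inverse M.det * (x0 : ZMod n) * M 1 0 ^ 2) ∈ P := hIP hy
    rw [neg_mem_iff] at hyP
    rcases hPp.mem_or_mem hyP with h4 | h4
    · rcases hPp.mem_or_mem h4 with h5 | h5
      · have h6 : IsUnit (Ring.inverse M.det) := (hA M hMA).ringInverse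
        exact hPp.ne_top (Ideal.eq_top_of_isUnit_mem _ h5 h6)
      · rw [hmem] at h5
        exact hlp.one_lt.ne' (Nat.eq_one_of_dvd_coprimes hcop (dvd_refl l) h5)
    · have h5 := hPp.mem_of_pow_mem _ h4
      rw [← ZMod.natCast_zmod_val (M 1 0), hmem] at h5
      exact hMl h5
  have hall : ∀ y : ZMod n, L y ∈ N := by
    intro y
    have : y ∈ I := by rw [hI]; exact Submodule.mem_top
    exact this
  rw [← SLG.last r]
  exact hmul _ (hmul _ (hmul _ (hUx _) _ (hall _)) _ (hUx _)) _ (hUx _)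

end Pool.Agent.Work.P57
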