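import Pool.Agent.Work.P57.Interface

/-!
# Block SQ: squares modulo powers of two, and the choice of `M` and `s`
-/

set_option autoImplicit false

namespace Pool.Agent.Work.P57

namespace SQ

/-- a number `≡ 1 mod 8` is a square modulo every power of two -/
theorem exists_sq (c : ℤ) (hc : (8 : ℤ) ∣ c - 1) (j : ℕ) :
    ∃ x : ℤ, 0 < x ∧ (2 ^ (j + 3) : ℤ) ∣ x ^ 2 - c := by
  induction j with
  | zero =>
    refine ⟨1, by norm_num, ?_⟩
    obtain ⟨d, hd⟩ := hc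
    exact ⟨-d, by push_cast; linarith⟩
  | succ j ih =>
    obtain ⟨x, hx0, t, ht⟩ := ih
    have hxodd : x % 2 = 1 := by
      have h8 : (2 : ℤ) ∣ x ^ 2 - 1 := by
        obtain ⟨d, hd⟩ := hc
        refine ⟨2 ^ (j + 2) * t + 4 * d, ?_⟩
        have : (2 : ℤ) ^ (j + 3) = 2 * 2 ^ (j + 2) := by ring
        rw [this] at ht
        linarith
      rcases Int.emod_two_eq_zero_or_one x with h | h
      · exfalso
        obtain ⟨y, hy⟩ : (2 : ℤ) ∣ x := Int.dvd_of_emod_eq_zero h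
        rw [hy] at h8
        obtain ⟨d, hd⟩ := h8
        have : (1 : ℤ) = 2 * (2 * y ^ 2 - d) := by linarith
        omega
      · exact h
    rcases Int.emod_two_eq_zero_or_one t with h | h
    · obtain ⟨t', rfl⟩ : (2 : ℤ) ∣ t := Int.dvd_of_emod_eq_zero h
      refine ⟨x, hx0, t', ?_⟩
      rw [ht]
      ring
    · obtain ⟨a, ha⟩ : ∃ a, t + x = 2 * a := ⟨(t + x) / 2, by omega⟩
      refine ⟨x + 2 ^ (j + 2), by positivity, a + 2 ^ j, ?_⟩
      have h1 : (x + 2 ^ (j + 2)) ^ 2 - c = (x ^ 2 - c) + 2 ^ (j + 3) * x + 2 ^ (j + 4) * 2 ^ j := by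
        ring
      rw [h1, ht]
      have h2 : (2 : ℤ) ^ (j + 3) * t + 2 ^ (j + 3) * x = 2 ^ (j + 3) * (t + x) := by ring
      rw [h2, ha]
      ring

/-- the choice of `M` and `s` for a given square root -/
theorem choose_M (k M0 : ℕ) (hM0 : Odd M0) (x : ℤ) (hx : 0 < x) (hxo : Odd x) :
    ∃ (M s : ℕ), M0 ∣ M ∧ Odd M ∧ 2 ≤ s ∧ 3 * M ∣ nn s ∧ (2 ^ (k + 1) : ℤ) ∣ (M : ℤ) - x := by
  have hcop : Nat.Coprime (2 ^ (k + 1)) M0 :=
    Nat.Coprime.pow_left _ ((Nat.coprime_two_left).2 hM0)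
  obtain ⟨M, hM1, hM2⟩ := Nat.chineseRemainder hcop x.toNat 0
  have hdvd : (2 ^ (k + 1) : ℤ) ∣ (M : ℤ) - x := by
    have h1 := (Nat.modEq_iff_dvd.1 hM1.symm)
    rw [Int.toNat_of_nonneg hx.le] at h1
    push_cast at h1
    exact h1
  have hModd : Odd M := by
    have h2 : (2 : ℤ) ∣ (M : ℤ) - x := (dvd_pow_self 2 (by omega)).trans hdvd
    obtain ⟨d, hd⟩ := h2
    obtain ⟨b, hb⟩ := hxo
    rw [Nat.odd_iff]
    omega
  have hMpos : 0 < M := hModd.pos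
  refine ⟨M, 2 * Nat.totient (3 * M), ?_, hModd, ?_, ?_, hdvd⟩
  · exact (Nat.modEq_zero_iff_dvd).1 hM2
  · have := Nat.totient_pos.2 (show 0 < 3 * M by omega)
    omega
  · have hc : Nat.Coprime 2 (3 * M) := by
      rw [Nat.coprime_two_left]
      exact (by decide : Odd 3).mul hModd
    have h1 := Nat.ModEq.pow_totient hc
    have h2 : 2 ^ (2 * Nat.totient (3 * M)) ≡ 1 [MOD 3 * M] := by
      have h3 := h1.pow 2
      rw [one_pow, ← pow_mul, mul_comm (Nat.totient (3 * M)) 2] at h3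
      exact h3
    have h3 := (Nat.modEq_iff_dvd' (Nat.one_le_two_pow)).1 h2.symm
    exact h3

end SQ

/-- BLOCK SQ -/
theorem blk_SQ : Stmt_SQ := by
  intro k M0 B hk hM0 hB
  obtain ⟨c, hc8, hc0, hc1⟩ : ∃ c : ℤ, (8 : ℤ) ∣ c - 1 ∧ (B % 4 = 0 → c = 1 - 6 * B) ∧
      (B % 4 = 1 → (2 ^ (k + 1) : ℤ) ∣ 3 * c - (1 - 6 * B)) := by
    rcases hB with hB | hB
    · refine ⟨1 - 6 * B, ?_, fun _ => rfl, fun h => by omega⟩
      obtain ⟨b, hb⟩ : ∃ b, B = 4 * b := ⟨B / 4, by omega⟩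
      exact ⟨-(3 * b), by rw [hb]; push_cast; ring⟩
    · obtain ⟨b, hb⟩ : ∃ b, B = 4 * b + 1 := ⟨B / 4, by omega⟩
      have hcop : IsCoprime (3 : ℤ) (2 ^ (k + 1)) := by
        apply IsCoprime.pow_right
        exact ⟨1, -1, by norm_num⟩
      obtain ⟨u, v, huv⟩ := hcop
      have hkey : (2 ^ (k + 1) : ℤ) ∣ 3 * (u * (1 - 6 * B)) - (1 - 6 * B) := by
        refine ⟨-(v * (1 - 6 * B)), ?_⟩
        have : 3 * (u * (1 - 6 * (B : ℤ))) = (u * 3) * (1 - 6 * B) := by ring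
        rw [this]
        have h2 : u * 3 = 1 - v * 2 ^ (k + 1) := by linarith
        rw [h2]
        ring
      refine ⟨u * (1 - 6 * B), ?_, fun h => by omega, fun _ => hkey⟩
      have h8 : (8 : ℤ) ∣ 2 ^ (k + 1) := by
        have : (8 : ℤ) = 2 ^ 3 := by norm_num
        rw [this]
        exact pow_dvd_pow 2 (by omega)
      obtain ⟨d, hd⟩ := h8.trans hkey
      rw [hb] at hd ⊢
      push_cast at hd ⊢
      omega
  obtain ⟨x, hx0, hx⟩ := SQ.exists_sq c hc8 (k - 2)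
  have hk3 : k - 2 + 3 = k + 1 := by omega
  rw [hk3] at hx
  have hxo : Odd x := by
    have h2 : (2 : ℤ) ∣ x ^ 2 - c := (dvd_pow_self 2 (by omega)).trans hx
    have hco : Odd c := by
      obtain ⟨d, hd⟩ := hc8
      exact ⟨4 * d, by linarith⟩
    by_contra hcon
    rw [Int.not_odd_iff_even] at hcon
    obtain ⟨y, hy⟩ := hcon
    obtain ⟨d, hd⟩ := h2
    obtain ⟨e, he⟩ := hco
    rw [hy, he] at hd
    have : (1 : ℤ) = 2 * (2 * y ^ 2 - d - e) := by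
      have h3 : (y + y) ^ 2 = 4 * y ^ 2 := by ring
      rw [h3] at hd
      linarith
    omega
  obtain ⟨M, s, hM, hModd, hs, hMs, hMx⟩ := SQ.choose_M k M0 hM0 x hx0 hxo
  have hMc : (2 ^ (k + 1) : ℤ) ∣ (M : ℤ) ^ 2 - c := by
    have h1 : (M : ℤ) ^ 2 - c = ((M : ℤ) - x) * (M + x) + (x ^ 2 - c) := by ring
    rw [h1]
    exact dvd_add (hMx.mul_right _) hx
  refine ⟨M, s, hM, hModd, hs, hMs, fun h => ?_, fun h => ?_⟩
  · rw [← hc0 h]
    exact hMc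
  · have h1 : 3 * (M : ℤ) ^ 2 - (1 - 6 * B) = 3 * ((M : ℤ) ^ 2 - c) + (3 * c - (1 - 6 * B)) := by ring
    rw [h1]
    exact dvd_add (hMc.mul_left _) (hc1 h)

end Pool.Agent.Work.P57
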