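import Pool.Agent.Work.P57.Interface

set_option autoImplicit false

namespace Pool.Agent.Work.P57

namespace TAU

open HahnSeries

theorem bez (β : ℤ) (N : ℕ) : ∃ j : ℤ, (N : ℤ) ∣ j * β - Int.gcd β N := by
  refine ⟨Int.gcdA β N, -Int.gcdB β N, ?_⟩
  rw [Int.gcd_eq_gcd_ab β N]
  ring

theorem exists_W (ζ : kkˣ) (g : ℤ) (κ : kk) (hκ : κ ≠ 0) (DD G : KK)
    (h2 : DD * G ^ 24 = single (3 * g) ((ζ ^ 4 : kkˣ) : kk)) :
    ∃ W : KK, W ≠ 0 ∧ W ^ 3 * DD = C κ := by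
  have hz : (single (3 * g) ((ζ ^ 4 : kkˣ) : kk) : KK) ≠ 0 := by
    rw [Ne, single_eq_zero_iff]
    exact Units.ne_zero _
  have hG : G ≠ 0 := by
    rintro rfl
    rw [zero_pow (by norm_num), mul_zero] at h2
    exact hz h2.symm
  obtain ⟨c0, hc0⟩ := IsAlgClosed.exists_pow_nat_eq (κ * ((ζ ^ 4 : kkˣ)⁻¹ : kkˣ)) (n := 3)
    (by norm_num)
  have hc0' : c0 ≠ 0 := by
    rintro rfl
    rw [zero_pow (by norm_num)] at hc0
    exact (mul_ne_zero hκ (Units.ne_zero _)) hc0.symm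
  refine ⟨C c0 * (single (-g) 1 * G ^ 8), ?_, ?_⟩
  · refine mul_ne_zero ?_ (mul_ne_zero ?_ (pow_ne_zero _ hG))
    · rw [Ne, map_eq_zero]
      exact hc0'
    · rw [Ne, single_eq_zero_iff]
      exact one_ne_zero
  · have e1 : (C c0 * (single (-g) 1 * G ^ 8)) ^ 3 * DD =
        C (c0 ^ 3) * (single (-g) (1 : kk)) ^ 3 * (DD * G ^ 24) := by
      rw [map_pow]
      ring
    rw [e1, h2, hc0, single_pow, C_apply, single_mul_single, single_mul_single, C_apply]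
    have e2 : (0 + 3 • -g + 3 * g : ℤ) = 0 := by
      rw [nsmul_eq_mul]
      push_cast
      ring
    rw [e2, one_pow, mul_one, mul_assoc, Units.inv_mul, mul_one]

theorem n0_eq (s : ℕ) : n0 s = nn s * (2 ^ s + 1) := by
  unfold n0 nn
  have h1 : 1 ≤ 2 ^ s := Nat.one_le_two_pow
  have h2 : (4 : ℕ) ^ s = 2 ^ s * 2 ^ s := by
    rw [← mul_pow]
    norm_num
  rw [h2]
  obtain ⟨x, hx⟩ : ∃ x, 2 ^ s = x + 1 := ⟨2 ^ s - 1, by omega⟩
  rw [hx]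
  have : (x + 1) * (x + 1) - 1 = x * (x + 1 + 1) := by
    have : (x + 1) * (x + 1) = x * (x + 1 + 1) + 1 := by ring
    omega
  rw [this]
  congr 1

theorem nn_ge (s : ℕ) (hs : 2 ≤ s) : 3 ≤ nn s := by
  unfold nn
  have : 2 ^ 2 ≤ 2 ^ s := Nat.pow_le_pow_right (by norm_num) hs
  omega

theorem delmap (hDLH : Stmt_DLH) (s : ℕ) (ξ : kkˣ) (hs : 2 ≤ s)
    (hξ : IsPrimitiveRoot ξ (D0 s)) (r : ℤ) (τ : Gam (D0 s))
    (hact : Acts ξ τ (!![0, 1; -1, (r : ZMod (nn s))] : Matrix (Fin 2) (Fin 2) (ZMod (nn s))))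
    (t : ℕ) (hGG : ∀ v, v ≠ 0 → GG τ t (XN s ξ v)
      (XN s ξ ((!![0, 1; -1, (r : ZMod (nn s))] : Matrix (Fin 2) (Fin 2) (ZMod (nn s))).mulVec v)))
    (m : ℕ) (hm : m ∣ nn s) (hm0 : 0 < m) (i : ℕ) (j : ℤ)
    (hj : (m : ℤ) ∣ j * (r - i) - Int.gcd (r - i) m) :
    GG τ t (Del (ξ ^ (3 * (n0 s / m : ℕ) * (i : ℤ))) (3 * (n0 s / m : ℕ)))
      (Del (ξ ^ (3 * (n0 s / m : ℕ) * j * Int.gcd (r - i) m))
        (3 * (n0 s / m : ℕ) * (Int.gcd (r - i) m) ^ 2)) := by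
  have hn3 := nn_ge s hs
  have hone : Int.gcd 1 (m : ℤ) = 1 := Int.gcd_one_left _
  have hlt : Fact (1 < nn s) := ⟨by omega⟩
  have hdet : IsUnit (!![0, 1; -1, (r : ZMod (nn s))] :
      Matrix (Fin 2) (Fin 2) (ZMod (nn s))).det := by
    rw [Matrix.det_fin_two_of]
    simp
  obtain ⟨-, -, h⟩ := hDLH s ξ hs hξ m i 1 1 hm hm0 (by simp) (by
    rw [hone]; simp)
  obtain ⟨-, h2⟩ := h τ _ hdet hact 1 (r - i) j (by
    have e0 : ((!![0, 1; -1, (r : ZMod (nn s))] : Matrix (Fin 2) (Fin 2) (ZMod (nn s))) 0 0).val =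
      0 := by simp
    have e1 : ((!![0, 1; -1, (r : ZMod (nn s))] : Matrix (Fin 2) (Fin 2) (ZMod (nn s))) 0 1).val =
      1 := by
      simp only [Matrix.of_apply, Matrix.cons_val', Matrix.cons_val_one, Matrix.cons_val_zero]
      exact ZMod.val_one _
    rw [e0, e1]
    simp) (by
    have e0 : (((!![0, 1; -1, (r : ZMod (nn s))] :
      Matrix (Fin 2) (Fin 2) (ZMod (nn s))) 1 0).val : ℤ) = nn s - 1 := by
      have : ((!![0, 1; -1, (r : ZMod (nn s))] :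
        Matrix (Fin 2) (Fin 2) (ZMod (nn s))) 1 0) = -1 := by simp
      rw [this, ZMod.val_neg_of_ne_zero, ZMod.val_one]
      omega
    have e1 : (((!![0, 1; -1, (r : ZMod (nn s))] :
      Matrix (Fin 2) (Fin 2) (ZMod (nn s))) 1 1).val : ℤ) = r % nn s := by
      have : ((!![0, 1; -1, (r : ZMod (nn s))] :
        Matrix (Fin 2) (Fin 2) (ZMod (nn s))) 1 1) = r := by simp
      rw [this, ZMod.val_intCast]
    rw [e0, e1]
    have h3 : (m : ℤ) ∣ (nn s : ℤ) := by exact_mod_cast hm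
    have h4 : r - i - (((nn s : ℤ) - 1) * i + r % nn s * 1) = (nn s : ℤ) * (r / nn s - i) := by
      have := Int.emod_add_mul_ediv r (nn s)
      linear_combination -this
    rw [h4]
    exact Dvd.dvd.mul_right h3 _) hj
  have h3 := h2 t hGG
  rw [hone] at h3
  have e1 : (3 * ((n0 s / m : ℕ) : ℤ) * 1 * i * ((1 : ℕ) : ℤ)) = 3 * ((n0 s / m : ℕ) : ℤ) * i := by
    push_cast
    ring
  have e2 : (3 * ((n0 s / m : ℕ) : ℤ) * ((1 : ℕ) : ℤ) ^ 2) = 3 * ((n0 s / m : ℕ) : ℤ) := by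
    push_cast
    ring
  have e3 : (3 * ((n0 s / m : ℕ) : ℤ) * j * 1 * (Int.gcd (r - i) m : ℕ)) =
      3 * ((n0 s / m : ℕ) : ℤ) * j * (Int.gcd (r - i) m : ℕ) := by
    ring
  rw [e1, e2, e3] at h3
  exact h3

end TAU

open HahnSeries in
theorem blk_TAU (hGS : Stmt_GS) (hMIN : Stmt_MIN) (hMAPS : Stmt_MAPS) (hGGC : Stmt_GGC)
    (hDLH : Stmt_DLH) (hGRX : Stmt_GRX) (hEXT : Stmt_EXT) : Stmt_TAU := by
  intro s ξ hs hξ N r t hN h3 I μ y c hy hsum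
  have hn3 := TAU.nn_ge s hs
  have hN0 : 0 < N := Nat.pos_of_dvd_of_pos hN (by omega)
  have hNn0 : N ∣ n0 s := by
    rw [TAU.n0_eq]
    exact Dvd.dvd.mul_right hN _
  have hn0pos : 0 < n0 s := by
    rw [TAU.n0_eq]
    positivity
  have hD : (0 : ℤ) < D0 s := by
    unfold D0
    have : 0 < 3 * n0 s := by omega
    exact_mod_cast this
  obtain ⟨τ, hact, hvth⟩ := hEXT s ξ hs hξ (r : ZMod (nn s))
  have hlt : Fact (1 < nn s) := ⟨by omega⟩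
  have hdet : IsUnit (!![0, 1; -1, (r : ZMod (nn s))] :
      Matrix (Fin 2) (Fin 2) (ZMod (nn s))).det := by
    rw [Matrix.det_fin_two_of]
    simp
  have hGG := hGRX s ξ hs hξ τ _ hdet hact hvth t
  obtain ⟨N3, hN3⟩ := h3
  have hN3' : N / 3 = N3 := by omega
  have hN3pos : 0 < N3 := by omega
  have hN3n : N3 ∣ nn s := (Dvd.intro_left _ hN3.symm).trans hN
  have hm3 : n0 s / N3 = 3 * (n0 s / N) := by
    obtain ⟨w, hw⟩ := hNn0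
    rw [hw, hN3, Nat.mul_div_cancel_left _ (by omega), mul_comm 3 N3, mul_assoc,
      Nat.mul_div_cancel_left _ hN3pos]
  obtain ⟨gc, gsm, gi, -, g3⟩ := hGGC (D0 s) hD τ t
  obtain ⟨mc, -, msm, mi, muniq, -, msum⟩ := hMAPS (D0 s) hD τ
  -- images of the two Deltas
  have del1 : ∀ (i : ℕ) (j : ℤ), (N : ℤ) ∣ j * (r - i) - Int.gcd (r - i) N →
      GG τ t (Del (ξ ^ (3 * (n0 s / N : ℕ) * (i : ℤ))) (3 * (n0 s / N : ℕ)))
      (Del (ξ ^ (3 * (n0 s / N : ℕ) * j * Int.gcd (r - i) N))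
        (3 * (n0 s / N : ℕ) * (Int.gcd (r - i) N) ^ 2)) := fun i j hj =>
    TAU.delmap hDLH s ξ hs hξ r τ hact t hGG N hN hN0 i j hj
  have del2 : ∀ (i : ℕ) (j' : ℤ), ((N / 3 : ℕ) : ℤ) ∣ j' * (r - i) - Int.gcd (r - i) (N / 3 : ℕ) →
      GG τ t (Del (ξ ^ (9 * (n0 s / N : ℕ) * (i : ℤ))) (9 * (n0 s / N : ℕ)))
      (Del (ξ ^ (9 * (n0 s / N : ℕ) * j' * Int.gcd (r - i) (N / 3 : ℕ)))
        (9 * (n0 s / N : ℕ) * (Int.gcd (r - i) (N / 3 : ℕ)) ^ 2)) := by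
    intro i j' hj'
    rw [hN3'] at hj' ⊢
    have h := TAU.delmap hDLH s ξ hs hξ r τ hact t hGG N3 hN3n hN3pos i j' hj'
    rw [hm3] at h
    have e1 : (3 * ((3 * (n0 s / N) : ℕ) : ℤ)) = 9 * ((n0 s / N : ℕ) : ℤ) := by
      push_cast
      ring
    rw [e1] at h
    exact h
  have key : ∀ i ∈ I, ∃ y' : KK, GG τ t (y i) y' ∧ ∀ j j' : ℤ,
      (N : ℤ) ∣ j * (r - i) - Int.gcd (r - i) N →
      ((N / 3 : ℕ) : ℤ) ∣ j' * (r - i) - Int.gcd (r - i) (N / 3 : ℕ) →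
      y' ^ 3 * (Del (ξ ^ (3 * (n0 s / N : ℕ) * j * Int.gcd (r - i) N))
          (3 * (n0 s / N : ℕ) * (Int.gcd (r - i) N) ^ 2) *
        Del (ξ ^ (9 * (n0 s / N : ℕ) * j' * Int.gcd (r - i) (N / 3 : ℕ)))
          (9 * (n0 s / N : ℕ) * (Int.gcd (r - i) (N / 3 : ℕ)) ^ 2)) =
        C ((ξ ^ (12 * (n0 s / N : ℕ) * (i : ℤ)) : kkˣ) : kk) := by
    intro i hi
    obtain ⟨j0, hj0⟩ := TAU.bez (r - i) N
    obtain ⟨j0', hj0'⟩ := TAU.bez (r - i) (N / 3)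
    have g1 := del1 i j0 hj0
    have g2 := del2 i j0' hj0'
    obtain ⟨ζ', e', he', hG, -⟩ := hMIN hGS s ξ N (r - i) j0 j0' (by omega) hξ hNn0
      (Dvd.intro _ hN3.symm) hN0 hj0 hj0'
    have hκ : ((ξ ^ (12 * (n0 s / N : ℕ) * (i : ℤ)) : kkˣ) : kk) ≠ 0 := Units.ne_zero _
    have hCκ : (C ((ξ ^ (12 * (n0 s / N : ℕ) * (i : ℤ)) : kkˣ) : kk) : KK) ≠ 0 := by
      rw [Ne, map_eq_zero]
      exact hκ
    obtain ⟨W, hW0, hW⟩ := TAU.exists_W ζ' (4 * (n0 s / N : ℕ) * e') _ hκ _ _ (by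
      rw [hG]
      have : (12 * ((n0 s / N : ℕ) : ℤ) * e') = 3 * (4 * ((n0 s / N : ℕ) : ℤ) * e') := by ring
      rw [this])
    have hyi := hy i hi
    set A1 := Del (ξ ^ (3 * (n0 s / N : ℕ) * (i : ℤ))) (3 * (n0 s / N : ℕ)) with hA1
    set A2 := Del (ξ ^ (9 * (n0 s / N : ℕ) * (i : ℤ))) (9 * (n0 s / N : ℕ)) with hA2
    set B1 := Del (ξ ^ (3 * (n0 s / N : ℕ) * j0 * Int.gcd (r - i) N))
          (3 * (n0 s / N : ℕ) * (Int.gcd (r - i) N) ^ 2) with hB1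
    set B2 := Del (ξ ^ (9 * (n0 s / N : ℕ) * j0' * Int.gcd (r - i) (N / 3 : ℕ)))
          (9 * (n0 s / N : ℕ) * (Int.gcd (r - i) (N / 3 : ℕ)) ^ 2) with hB2
    set κ := ((ξ ^ (12 * (n0 s / N : ℕ) * (i : ℤ)) : kkˣ) : kk) with hκd
    have hA : A1 * A2 ≠ 0 := by
      intro h
      rw [h, mul_zero] at hyi
      exact hCκ hyi.symm
    have hB : B1 * B2 ≠ 0 := by
      intro h
      rw [h, mul_zero] at hW
      exact hCκ hW.symm
    have hy3 : y i ^ 3 = C κ * (A1 * A2)⁻¹ := by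
      rw [eq_mul_inv_iff_mul_eq₀ hA]
      exact hyi
    have hW3 : W ^ 3 = C κ * (B1 * B2)⁻¹ := by
      rw [eq_mul_inv_iff_mul_eq₀ hB]
      exact hW
    have hgg : GG τ t (y i ^ 3) (W ^ 3) := by
      rw [hy3, hW3]
      exact (gsm _ _ _ _ (gc κ) (gi _ _ (gsm _ _ _ _ g1 g2).2)).2
    have hy0 : y i ≠ 0 := by
      intro h
      rw [h, zero_pow (by norm_num), zero_mul] at hyi
      exact hCκ hyi.symm
    obtain ⟨hmem, -, -⟩ := hgg.1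
    obtain ⟨ω, hω, hg⟩ := g3 (y i) W hy0 hmem hgg
    refine ⟨C ω * W, hg, ?_⟩
    intro j j' hj hj'
    have u1 := muniq _ _ _ g1.1 (del1 i j hj).1
    have u2 := muniq _ _ _ g2.1 (del2 i j' hj').1
    rw [← u1, ← u2, mul_pow, ← map_pow, hω, map_one, one_mul]
    exact hW
  choose! y' hy' using key
  refine ⟨y', fun i hi => (hy' i hi).2, ?_⟩
  have h1 : Maps τ (∑ i ∈ I, μ i • gr t c (y i)) (∑ i ∈ I, μ i • gr t c (y' i)) := by
    apply msum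
    intro i hi
    rw [← C_mul_eq_smul, ← C_mul_eq_smul]
    exact (msm _ _ _ _ (mc (μ i)) ((hy' i hi).1.2 c)).2
  exact ((mi _ _ h1).2.1).1 hsum

end Pool.Agent.Work.P57
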