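import Pool.Agent.Work.P57.Interface

/-!
# Block TR: `Δ(Q)` and `q` are algebraically independent
-/

set_option autoImplicit false

namespace Pool.Agent.Work.P57

open HahnSeries

namespace TR

/-! ### Arithmetic -/

/-- among two consecutive odd numbers one is far from every `√2 n` -/
theorem gap (K : ℕ) : ∃ m : ℕ, Odd m ∧ K < m ∧ ∀ n : ℕ, (K : ℤ) < |2 * (n : ℤ) ^ 2 - (m : ℤ) ^ 2| := by
  by_contra hcon
  push Not at hcon
  obtain ⟨n, hn⟩ := hcon (20 * K + 21) ⟨10 * K + 10, by ring⟩ (by omega)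
  obtain ⟨n', hn'⟩ := hcon (20 * K + 23) ⟨10 * K + 11, by ring⟩ (by omega)
  rw [abs_le] at hn hn'
  obtain ⟨a1, a2⟩ := hn
  obtain ⟨b1, b2⟩ := hn'
  push_cast at a1 a2 b1 b2
  have hn0 : (0 : ℤ) ≤ n := Int.natCast_nonneg n
  have hn0' : (0 : ℤ) ≤ n' := Int.natCast_nonneg n'
  have hK : (0 : ℤ) ≤ K := Int.natCast_nonneg K
  generalize (n : ℤ) = x at *
  generalize (n' : ℤ) = y at *
  generalize (K : ℤ) = k at *
  rcases lt_trichotomy y (x + 1) with h | h | h
  · have h1 : y ≤ x := by omega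
    nlinarith
  · subst h
    -- 2 (2x + 1) = 4 m + 4 + O(2K)
    have h1 : 80 * k + 88 - 2 * k ≤ 4 * x + 2 := by nlinarith
    nlinarith
  · have h1 : x + 2 ≤ y := by omega
    have h2 : 2 * (x + 2) ^ 2 ≤ 2 * y ^ 2 := by nlinarith
    have h3 : 8 * x + 8 ≤ 80 * k + 88 + 2 * k := by nlinarith
    have h4 : x ≤ 11 * k + 11 := by omega
    nlinarith

/-- the exponents `2^i D m'^2 + e ν'`, `i ≥ i0`, avoid `2^i0 D m^2 + e ν0` except for the obvious
solution -/
theorem unique_sol {K m : ℕ} (hmo : Odd m) (hKm : K < m)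
    (hgap : ∀ n : ℕ, (K : ℤ) < |2 * (n : ℤ) ^ 2 - (m : ℤ) ^ 2|)
    {D e : ℤ} (hD : 0 < D) (he : 0 < e) {i0 i ν0 ν m' : ℕ} (hi : i0 ≤ i)
    (hν0 : e * ν0 ≤ K) (hν : e * ν ≤ K)
    (h : 2 ^ i * (D * (m' : ℤ) ^ 2) = 2 ^ i0 * (D * (m : ℤ) ^ 2) + e * ν0 - e * ν) :
    i = i0 ∧ ν = ν0 := by
  obtain ⟨j, rfl⟩ := Nat.exists_eq_add_of_le hi
  set A : ℤ := 2 ^ j * (m' : ℤ) ^ 2 - (m : ℤ) ^ 2 with hA
  have h1 : (2 ^ i0 * D) * A = e * ν0 - e * ν := by
    rw [hA]
    rw [_root_.pow_add] at h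
    linarith
  have hc : (1 : ℤ) ≤ 2 ^ i0 * D := by
    have : (1 : ℤ) ≤ 2 ^ i0 := one_le_pow₀ (by norm_num)
    nlinarith
  have hA1 : |A| ≤ K := by
    have h2 : |(2 ^ i0 * D) * A| ≤ K := by
      rw [h1, abs_le]
      have e1 : (0 : ℤ) ≤ e * ν0 := by positivity
      have e2 : (0 : ℤ) ≤ e * ν := by positivity
      constructor <;> linarith
    rw [abs_mul, abs_of_pos (by linarith : (0 : ℤ) < 2 ^ i0 * D)] at h2
    have h3 : 0 ≤ |A| := abs_nonneg A
    nlinarith
  rcases Nat.even_or_odd' j with ⟨a, ha | ha⟩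
  · -- even case
    have hsq : A = ((2 ^ a * m' : ℕ) : ℤ) ^ 2 - (m : ℤ) ^ 2 := by
      rw [hA, ha]
      push_cast
      ring
    have hm' : 2 ^ a * m' = m := by
      by_contra hne
      rw [hsq] at hA1
      have hlt : (m : ℤ) ≤ |((2 ^ a * m' : ℕ) : ℤ) ^ 2 - (m : ℤ) ^ 2| := by
        generalize 2 ^ a * m' = N at *
        rcases lt_or_gt_of_ne hne with h5 | h5
        · have h6 : (N : ℤ) + 1 ≤ m := by exact_mod_cast h5
          have h7 : (0 : ℤ) ≤ N := Int.natCast_nonneg N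
          rw [abs_of_nonpos (by nlinarith)]
          nlinarith
        · have h6 : (m : ℤ) + 1 ≤ N := by exact_mod_cast h5
          have h7 : (0 : ℤ) ≤ m := Int.natCast_nonneg m
          rw [abs_of_nonneg (by nlinarith)]
          nlinarith
      have hKm' : (K : ℤ) < m := by exact_mod_cast hKm
      linarith
    have ha0 : a = 0 := by
      by_contra hne
      obtain ⟨b, rfl⟩ := Nat.exists_eq_succ_of_ne_zero hne
      have : Even m := by
        rw [← hm', pow_succ]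
        exact ⟨2 ^ b * m', by ring⟩
      exact (Nat.not_even_iff_odd.2 hmo) this
    subst ha0
    have hj : j = 0 := by omega
    subst hj
    have hmm : m' = m := by simpa using hm'
    have hA0 : A = 0 := by
      rw [hA, hmm]
      ring
    rw [hA0, mul_zero] at h1
    refine ⟨by omega, ?_⟩
    have h9 : e * ν0 = e * ν := by linarith
    have h10 := mul_left_cancel₀ he.ne' h9
    exact_mod_cast h10.symm
  · exfalso
    have h2 := hgap (2 ^ a * m')
    have h3 : 2 * (((2 ^ a * m' : ℕ) : ℤ)) ^ 2 - (m : ℤ) ^ 2 = A := by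
      rw [hA, ha]
      push_cast
      ring
    rw [h3] at h2
    linarith

/-! ### The powers of `Δ` -/

theorem del_pow (hTH : Stmt_TH) (D : ℤ) (hD : 0 < D) (i : ℕ) :
    Tame (fun n : ℕ => 2 ^ i * (D * (2 * n + 1) ^ 2)) ∧
    Del 1 D ^ (2 ^ i) = Th (fun n : ℕ => 2 ^ i * (D * (2 * n + 1) ^ 2)) (fun _ => (1 : kk)) := by
  have hT : ∀ j : ℕ, Tame (fun n : ℕ => 2 ^ j * (D * (2 * n + 1) ^ 2)) := by
    intro j
    have h := ((hTH.2.2.2.2.2.2.2.2 (2 ^ j * D) (by positivity)).2.1)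
    have he : (fun n : ℕ => 2 ^ j * (D * (2 * (n : ℤ) + 1) ^ 2)) =
        fun n : ℕ => (2 ^ j * D) * (2 * (n : ℤ) + 1) ^ 2 := by
      funext n
      ring
    rw [he]
    exact h
  refine ⟨hT i, ?_⟩
  induction i with
  | zero =>
    rw [pow_zero, pow_one]
    unfold Del
    simp
  | succ i ih =>
    rw [pow_succ, pow_mul, ih, hTH.2.2.2.2.1 ℕ _ _ (hT i)]
    have h1 : (fun n : ℕ => 2 * (2 ^ i * (D * (2 * (n : ℤ) + 1) ^ 2))) =
        fun n : ℕ => 2 ^ (i + 1) * (D * (2 * (n : ℤ) + 1) ^ 2) := by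
      funext n
      ring
    rw [h1]
    simp

theorem coeff_ne (hTH : Stmt_TH) (D : ℤ) (hD : 0 < D) (i : ℕ) (h : ℤ)
    (hne : (Del 1 D ^ (2 ^ i)).coeff h ≠ 0) :
    ∃ m' : ℕ, 2 ^ i * (D * (m' : ℤ) ^ 2) = h := by
  obtain ⟨hT, hE⟩ := del_pow hTH D hD i
  rw [hE, coeff_Th hT] at hne
  by_contra hcon
  push Not at hcon
  apply hne
  refine finsum_eq_zero_of_forall_eq_zero fun n => ?_
  rw [if_neg]
  intro he
  apply hcon (2 * n + 1)
  rw [← he]
  push_cast
  ring

theorem coeff_eq (hTH : Stmt_TH) (D : ℤ) (hD : 0 < D) (i : ℕ) (m : ℕ) (hm : Odd m) :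
    (Del 1 D ^ (2 ^ i)).coeff (2 ^ i * (D * (m : ℤ) ^ 2)) = 1 := by
  obtain ⟨hT, hE⟩ := del_pow hTH D hD i
  rw [hE, coeff_Th hT]
  obtain ⟨n0, hn0⟩ := hm
  rw [finsum_eq_single _ n0]
  · rw [if_pos]
    rw [hn0]
    push_cast
    ring
  · intro n hn
    rw [if_neg]
    intro he
    apply hn
    have h1 : (2 : ℤ) ^ i ≠ 0 := by positivity
    have h2 := mul_left_cancel₀ hD.ne' (mul_left_cancel₀ h1 he)
    have h3 : (2 * (n : ℤ) + 1) = m := by
      have ha : (0 : ℤ) ≤ 2 * (n : ℤ) + 1 := by positivity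
      have hb : (0 : ℤ) ≤ (m : ℤ) := by positivity
      exact (sq_eq_sq₀ ha hb).1 h2
    rw [hn0] at h3
    push_cast at h3
    omega

theorem coeff_aeval_mul (e : ℤ) (p : Polynomial kk) (f : KK) (g : ℤ) :
    (Polynomial.aeval (single e (1 : kk) : KK) p * f).coeff g =
      ∑ ν ∈ Finset.range (p.natDegree + 1), p.coeff ν * f.coeff (g - e * ν) := by
  rw [Polynomial.aeval_eq_sum_range, Finset.sum_mul, coeff_sum]
  apply Finset.sum_congr rfl
  intro ν _
  rw [single_pow, one_pow, smul_mul_assoc, coeff_smul, coeff_single_mul, one_mul, smul_eq_mul]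
  congr 2
  rw [nsmul_eq_mul]
  ring

/-! ### The relation -/

theorem relation (w d : KK) (h : IsAlgebraic (Algebra.adjoin kk {w}) d) :
    ∃ (s : Finset ℕ) (p : ℕ → Polynomial kk), (∃ i ∈ s, p i ≠ 0) ∧
      ∑ i ∈ s, Polynomial.aeval w (p i) * d ^ (2 ^ i) = 0 := by
  obtain ⟨a, ha, hint⟩ := h.exists_integral_multiple
  obtain ⟨t, ht⟩ := hint.fg_adjoin_singleton
  have hnot : ¬ LinearIndependent (Algebra.adjoin kk {w}) (fun i : ℕ => (a • d) ^ (2 ^ i)) := by
    intro hli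
    have hfin : Finite ℕ := by
      refine LinearIndependent.finite_of_le_span_finite _ hli (t : Set KK) ?_
      rintro _ ⟨i, rfl⟩
      rw [ht]
      exact Subalgebra.pow_mem _ (Algebra.self_mem_adjoin_singleton _ _) _
    exact not_finite ℕ
  rw [not_linearIndependent_iff] at hnot
  obtain ⟨s, g, hsum, i1, hi1, hg1⟩ := hnot
  have hex : ∀ i : ℕ, ∃ p : Polynomial kk, Polynomial.aeval w p = ((g i * a ^ (2 ^ i) :
      Algebra.adjoin kk {w}) : KK) := by
    intro i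
    have h1 := (g i * a ^ (2 ^ i) : Algebra.adjoin kk {w}).2
    exact (SetLike.ext_iff.1 (Algebra.adjoin_singleton_eq_range_aeval kk w) _).1 h1
  choose p hp using hex
  refine ⟨s, p, ⟨i1, hi1, ?_⟩, ?_⟩
  · intro h0
    have h1 := hp i1
    rw [h0, map_zero] at h1
    have h2 : (g i1 * a ^ (2 ^ i1) : Algebra.adjoin kk {w}) = 0 := by
      exact_mod_cast h1.symm
    rcases mul_eq_zero.1 h2 with h3 | h3
    · exact hg1 h3
    · exact ha (pow_eq_zero_iff (by positivity) |>.1 h3)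
  · rw [← hsum]
    apply Finset.sum_congr rfl
    intro i _
    rw [hp i, Algebra.smul_def, Algebra.smul_def, mul_pow, ← map_pow, ← mul_assoc, ← map_mul]
    rfl

/-- `Δ(z^D)` is transcendental over `kk(z^e)` -/
theorem del_transc (hTH : Stmt_TH) (D e : ℤ) (hD : 0 < D) (he : 0 < e) :
    ¬ IsAlgebraic (Algebra.adjoin kk {(single e (1 : kk) : KK)}) (Del 1 D) := by
  classical
  intro halg
  obtain ⟨s, p, ⟨i1, hi1, hp1⟩, hsum⟩ := relation _ _ halg
  have hne : (s.filter (fun i => p i ≠ 0)).Nonempty := ⟨i1, Finset.mem_filter.2 ⟨hi1, hp1⟩⟩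
  set i0 := (s.filter (fun i => p i ≠ 0)).min' hne with hi0
  have hi0m : i0 ∈ s.filter (fun i => p i ≠ 0) := Finset.min'_mem _ hne
  obtain ⟨hi0s, hpi0⟩ := Finset.mem_filter.1 hi0m
  have hmin : ∀ i ∈ s, p i ≠ 0 → i0 ≤ i := fun i hi hpi =>
    Finset.min'_le _ _ (Finset.mem_filter.2 ⟨hi, hpi⟩)
  set N : ℕ := s.sup (fun i => (p i).natDegree) with hN
  set K : ℕ := e.toNat * N with hK
  have hKe : (K : ℤ) = e * N := by
    rw [hK]
    push_cast
    rw [Int.toNat_of_nonneg he.le]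
  have hdeg : ∀ i ∈ s, ∀ ν : ℕ, ν ≤ (p i).natDegree → e * (ν : ℤ) ≤ K := by
    intro i hi ν hν
    rw [hKe]
    have h1 : (p i).natDegree ≤ N := Finset.le_sup (f := fun i => (p i).natDegree) hi
    have h2 : (ν : ℤ) ≤ N := by exact_mod_cast hν.trans h1
    nlinarith
  obtain ⟨m, hmo, hKm, hgap⟩ := gap K
  set ν0 := (p i0).natDegree with hν0
  have hlead : (p i0).coeff ν0 ≠ 0 := by
    rw [hν0, Polynomial.coeff_natDegree]
    exact Polynomial.leadingCoeff_ne_zero.2 hpi0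
  have hcoeff := congrArg (fun f : KK => f.coeff (2 ^ i0 * (D * (m : ℤ) ^ 2) + e * ν0)) hsum
  simp only [coeff_sum, coeff_zero] at hcoeff
  rw [Finset.sum_eq_single i0] at hcoeff
  · rw [coeff_aeval_mul, Finset.sum_eq_single ν0] at hcoeff
    · rw [add_sub_cancel_right, coeff_eq hTH D hD i0 m hmo, mul_one] at hcoeff
      exact hlead hcoeff
    · intro ν hν hνne
      by_contra hcon
      obtain ⟨m', hm'⟩ := coeff_ne hTH D hD i0 _ (right_ne_zero_of_mul hcon)
      exact hνne (unique_sol hmo hKm hgap hD he le_rfl (hdeg i0 hi0s ν0 le_rfl)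
        (hdeg i0 hi0s ν (by rw [Finset.mem_range] at hν; omega)) hm').2
    · intro h
      exact absurd (Finset.mem_range.2 (Nat.lt_succ_self _)) h
  · intro i hi hine
    rw [coeff_aeval_mul]
    apply Finset.sum_eq_zero
    intro ν hν
    by_contra hcon
    have hpi : p i ≠ 0 := by
      intro h
      apply left_ne_zero_of_mul hcon
      rw [h, Polynomial.coeff_zero]
    obtain ⟨m', hm'⟩ := coeff_ne hTH D hD i _ (right_ne_zero_of_mul hcon)
    exact hine (unique_sol hmo hKm hgap hD he (hmin i hi hpi) (hdeg i0 hi0s ν0 le_rfl)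
      (hdeg i hi ν (by rw [Finset.mem_range] at hν; omega)) hm').1
  · intro h
    exact absurd hi0s h

end TR

/-- BLOCK TR -/
theorem blk_TR (hTH : Stmt_TH) (hCST : Stmt_CST) : Stmt_TR := by
  intro D e y hD he hy halg
  by_contra hcon
  have hyt : Transcendental kk y := fun h => hcon (hCST.1 y h)
  have h1 : IsAlgebraic (Algebra.adjoin kk {Del 1 D}) y :=
    IntermediateField.isAlgebraic_adjoin_iff.1 (mem_K0.1 hy)
  have h2 : IsAlgebraic (Algebra.adjoin kk {(single e (1 : kk) : KK)}) y :=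
    IntermediateField.isAlgebraic_adjoin_iff.1 halg
  have h3 : IsAlgebraic (Algebra.adjoin kk {y}) (Del 1 D) := by
    by_cases ht : Transcendental kk (Del 1 D)
    · exact IsAlgebraic.adjoin_singleton (B := KK) ht hyt h1
    · have ht' : IsAlgebraic kk (Del 1 D) := by
        unfold Transcendental at ht
        push Not at ht
        exact ht
      exact ht'.extendScalars (algebraMap kk (Algebra.adjoin kk {y})).injective
  have h4 : IsAlgebraic (Algebra.adjoin kk {(single e (1 : kk) : KK)}) (Del 1 D) := by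
    refine IsAlgebraic.adjoin_of_forall_isAlgebraic (s := {y}) ?_ h3
    rintro x ⟨hx, _⟩
    rw [Set.mem_singleton_iff.1 hx]
    exact h2
  exact TR.del_transc hTH D e hD he h4

end Pool.Agent.Work.P57
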