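import Pool.Agent.Work.P57.TH
import Pool.Agent.Work.P57.PART
import Pool.Agent.Work.P57.JAC
import Pool.Agent.Work.P57.GS
import Pool.Agent.Work.P57.IDA
import Pool.Agent.Work.P57.IDB
import Pool.Agent.Work.P57.CU
import Pool.Agent.Work.P57.LTH
import Pool.Agent.Work.P57.EM
import Pool.Agent.Work.P57.RG
import Pool.Agent.Work.P57.ELL
import Pool.Agent.Work.P57.ISO
import Pool.Agent.Work.P57.MAPS
import Pool.Agent.Work.P57.DYN
import Pool.Agent.Work.P57.LIN
import Pool.Agent.Work.P57.ACT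
import Pool.Agent.Work.P57.RSG
import Pool.Agent.Work.P57.FIX
import Pool.Agent.Work.P57.DLH
import Pool.Agent.Work.P57.CST
import Pool.Agent.Work.P57.IRR
import Pool.Agent.Work.P57.SLG
import Pool.Agent.Work.P57.EIN
import Pool.Agent.Work.P57.GGC
import Pool.Agent.Work.P57.GRX
import Pool.Agent.Work.P57.EXT
import Pool.Agent.Work.P57.MIN
import Pool.Agent.Work.P57.TAU
import Pool.Agent.Work.P57.ALG
import Pool.Agent.Work.P57.SIV
import Pool.Agent.Work.P57.SQ
import Pool.Agent.Work.P57.FIN1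
import Pool.Agent.Work.P57.TR
import Pool.Agent.Work.P57.FIN2
import Pool.Agent.Work.P57.MAIN

set_option autoImplicit false

namespace Pool.Agent.Work.P57

theorem all_TH : Stmt_TH := blk_TH
theorem all_RG : Stmt_RG := blk_RG
theorem all_IDA : Stmt_IDA := blk_IDA all_TH
theorem all_IDB : Stmt_IDB := blk_IDB all_TH
theorem all_CU : Stmt_CU := blk_CU all_TH
theorem all_LTH : Stmt_LTH := blk_LTH all_TH all_IDA all_IDB all_CU
theorem all_EM : Stmt_EM := blk_EM
theorem all_ELL : Stmt_ELL := blk_ELL all_TH all_IDA all_IDB all_RG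
theorem all_ISO : Stmt_ISO := blk_ISO all_TH all_IDA all_IDB all_ELL all_LTH all_EM
theorem all_MAPS : Stmt_MAPS := blk_MAPS
theorem all_DYN : Stmt_DYN := blk_DYN all_ELL
theorem all_GGC : Stmt_GGC := blk_GGC all_RG all_MAPS
theorem all_FIX : Stmt_FIX := blk_FIX all_ELL all_DYN all_MAPS
theorem all_DLH : Stmt_DLH := blk_DLH all_ELL all_ISO all_MAPS all_DYN all_FIX all_GGC
theorem all_ACT : Stmt_ACT := blk_ACT all_ELL all_MAPS all_DYN blk_LIN
theorem all_RSG : Stmt_RSG := blk_RSG all_TH all_RG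
theorem all_EIN : Stmt_EIN := blk_EIN all_TH all_MAPS
theorem all_IRR : Stmt_IRR := blk_IRR all_ACT all_FIX all_DLH blk_CST
theorem all_EXT : Stmt_EXT :=
  blk_EXT all_TH all_RG all_MAPS all_ELL all_ACT all_RSG all_EIN all_IRR blk_SLG
theorem all_GRX : Stmt_GRX := blk_GRX all_TH all_RG all_MAPS all_ELL all_DYN all_GGC
theorem all_MIN : Stmt_MIN := blk_MIN all_IDA
theorem all_GS : Stmt_GS := blk_GS blk_PART blk_JAC
theorem all_TAU : Stmt_TAU :=
  blk_TAU all_GS all_MIN all_MAPS all_GGC all_DLH all_GRX all_EXT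
theorem all_ALG : Stmt_ALG := blk_ALG all_MAPS all_GGC all_DLH all_GRX all_EIN all_FIX
theorem all_SIV : Stmt_SIV := blk_SIV all_RG all_IDA
theorem all_SQ : Stmt_SQ := blk_SQ
theorem all_FIN1 : Stmt_FIN1 := blk_FIN1 all_TH all_SQ all_SIV all_GS all_TAU all_MIN
theorem all_TR : Stmt_TR := blk_TR all_TH blk_CST
theorem all_FIN2 : Stmt_FIN2 :=
  blk_FIN2 all_TH all_RG all_SQ all_SIV all_GS all_ALG all_FIN1 all_TR blk_CST
theorem all_MAIN : Stmt_MAIN := blk_MAIN all_FIN2

end Pool.Agent.Work.P57
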