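import Mathlib

/-!
# Parity of the partitions with no part `≡ 3 (mod 6)`: definitions

`kk` is the algebraic closure of `F_2`, `KK = kk((z))`.  A nome is a monomial `w = ξ z^e`, `e > 0`,
given by `ξ : kkˣ` and `e : ℤ`; a point is a monomial `u = η z^j`.
-/

set_option autoImplicit false

namespace Pool.Agent.Work.P57

open HahnSeries

/-- the algebraic closure of `F_2` (opaque, to keep the instance search fast) -/
def kk : Type := AlgebraicClosure (ZMod 2)

noncomputable instance fieldkk : Field kk := inferInstanceAs (Field (AlgebraicClosure (ZMod 2)))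
instance charPkk : CharP kk 2 := inferInstanceAs (CharP (AlgebraicClosure (ZMod 2)) 2)
instance algClosedkk : IsAlgClosed kk := inferInstanceAs (IsAlgClosed (AlgebraicClosure (ZMod 2)))

/-- Laurent series in `z` over `kk` -/
abbrev KK : Type := HahnSeries ℤ kk

noncomputable instance (priority := 5000) algKK : Algebra kk KK := HahnSeries.instAlgebra
instance charPKK : CharP KK 2 := charP_of_injective_algebraMap (algebraMap kk KK).injective 2

/-- `a(n)`: the number of partitions of `n` with no part `≡ 3 (mod 6)` -/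
def pa (n : ℕ) : ℕ := (Finset.univ.filter fun p : n.Partition => ∀ i ∈ p.parts, i % 6 ≠ 3).card

/-! ### Theta-like series -/

/-- only finitely many exponents lie below any bound -/
def Tame {ι : Type} (E : ι → ℤ) : Prop := ∀ B : ℤ, {i | E i ≤ B}.Finite

theorem Tame.isPWO {ι : Type} {E : ι → ℤ} (h : Tame E) : (Set.range E).IsPWO := by
  have hb : BddBelow (Set.range E) := by
    by_cases hne : ∃ i, E i ≤ 0
    · obtain ⟨i0, hi0⟩ := hne
      have hf : (E '' {i | E i ≤ 0}).Finite := (h 0).image E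
      obtain ⟨b, hb⟩ := hf.bddBelow
      refine ⟨min b 0, ?_⟩
      rintro _ ⟨i, rfl⟩
      by_cases hi : E i ≤ 0
      · exact (min_le_left _ _).trans (hb ⟨i, hi, rfl⟩)
      · exact (min_le_right _ _).trans (not_le.1 hi).le
    · push Not at hne
      refine ⟨0, ?_⟩
      rintro _ ⟨i, rfl⟩
      exact (hne i).le
  exact hb.isWF.isPWO

/-- the series `∑ c_i z^{E_i}` (zero if `E` is not tame) -/
noncomputable def Th {ι : Type} (E : ι → ℤ) (c : ι → kk) : KK :=
  open Classical in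
  if h : Tame E then
    { coeff := fun g => ∑ᶠ i, if E i = g then c i else 0
      isPWO_support' := h.isPWO.mono (by
        intro g hg
        rw [Function.mem_support] at hg
        by_contra hcon
        apply hg
        have h0 : (fun i => if E i = g then c i else (0 : kk)) = fun _ => 0 := by
          funext i
          rw [if_neg]
          intro he
          exact hcon ⟨i, he⟩
        rw [h0, finsum_zero]) }
  else 0

theorem coeff_Th {ι : Type} {E : ι → ℤ} (h : Tame E) (c : ι → kk) (g : ℤ) :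
    (Th E c).coeff g = ∑ᶠ i, open Classical in if E i = g then c i else 0 := by
  unfold Th
  rw [dif_pos h]

/-! ### Psi, Delta, theta functions -/

/-- `ψ(w) = ∑_{n ≥ 0} w^{n(n+1)/2}` -/
noncomputable def Psi (ξ : kkˣ) (e : ℤ) : KK :=
  Th (fun n : ℕ => e * (n * (n + 1) / 2 : ℕ)) (fun n => ((ξ ^ (n * (n + 1) / 2) : kkˣ) : kk))

/-- `Δ(w) = ∑_{m > 0 odd} w^{m^2}` -/
noncomputable def Del (ξ : kkˣ) (e : ℤ) : KK :=
  Th (fun n : ℕ => e * (2 * n + 1) ^ 2) (fun n => ((ξ ^ (2 * n + 1) ^ 2 : kkˣ) : kk))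

/-- `a(u; w) = ∑_{n ∈ ℤ} w^{n^2} u^{2n}` -/
noncomputable def aT (η : kkˣ) (j : ℤ) (ξ : kkˣ) (e : ℤ) : KK :=
  Th (fun n : ℤ => e * n ^ 2 + 2 * j * n) (fun n => ((ξ ^ (n ^ 2) * η ^ (2 * n) : kkˣ) : kk))

/-- `θ(u; w) = ∑_{n ∈ ℤ} w^{n(n+1)/2} u^n` -/
noncomputable def tT (η : kkˣ) (j : ℤ) (ξ : kkˣ) (e : ℤ) : KK :=
  Th (fun n : ℤ => e * (n * (n + 1) / 2) + j * n)
    (fun n => ((ξ ^ (n * (n + 1) / 2) * η ^ n : kkˣ) : kk))

/-- `b(u; w) = u θ(u; w)^2` -/
noncomputable def bT (η : kkˣ) (j : ℤ) (ξ : kkˣ) (e : ℤ) : KK :=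
  single j (η : kk) * tT η j ξ e ^ 2

/-- `x(u; w) = ψ(w)^2 a(u; w) / b(u; w)` -/
noncomputable def xT (η : kkˣ) (j : ℤ) (ξ : kkˣ) (e : ℤ) : KK :=
  Psi ξ e ^ 2 * aT η j ξ e / bT η j ξ e

/-- `∑ a(n) w^n` -/
noncomputable def Gs (ξ : kkˣ) (e : ℤ) : KK :=
  Th (fun n : ℕ => e * n) (fun n => (pa n : kk) * ((ξ ^ n : kkˣ) : kk))

/-! ### The torsion points -/

/-- `n_0 = 4^s - 1` -/
abbrev n0 (s : ℕ) : ℕ := 4 ^ s - 1

/-- `n = 2^s - 1` -/
abbrev nn (s : ℕ) : ℕ := 2 ^ s - 1

/-- the exponent of the base nome `Q = z^D`, `D = 3 n_0` -/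
abbrev D0 (s : ℕ) : ℕ := 3 * n0 s

/-- the `x`-coordinate of the point `ζ_0^a Q^{b/n_0}`, `ζ_0 = ξ^3` -/
noncomputable def XP (s : ℕ) (ξ : kkˣ) (P : ZMod (n0 s) × ZMod (n0 s)) : KK :=
  xT (ξ ^ (3 * P.1.val)) (3 * P.2.val) 1 (D0 s)

/-- the sum of `XP` over the translates of `P` by the multiples `l (n_0/m) (α, β)`, `l < m` -/
noncomputable def YH (s : ℕ) (ξ : kkˣ) (m : ℕ) (α β : ℤ) (P : ZMod (n0 s) × ZMod (n0 s)) : KK :=
  ∑ l ∈ Finset.range m, XP s ξ (P.1 + ((l * (n0 s / m : ℕ) * α : ℤ) : ZMod (n0 s)),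
    P.2 + ((l * (n0 s / m : ℕ) * β : ℤ) : ZMod (n0 s)))

/-- `P` is in the subgroup generated by `(n_0/m) (α, β)` -/
def InH (s m : ℕ) (α β : ℤ) (P : ZMod (n0 s) × ZMod (n0 s)) : Prop :=
  ∃ l : ℤ, P = (((l * (n0 s / m : ℕ) * α : ℤ) : ZMod (n0 s)),
    ((l * (n0 s / m : ℕ) * β : ℤ) : ZMod (n0 s)))

/-! ### Rescaling and grading -/

/-- `Π_c`: the part of a series with exponents in the class `c` mod `2^t` -/
noncomputable def gr (t : ℕ) (c : ZMod (2 ^ t)) (f : KK) : KK where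
  coeff g := open Classical in if (g : ZMod (2 ^ t)) = c then f.coeff g else 0
  isPWO_support' := f.isPWO_support.mono (by
    intro g hg
    rw [Function.mem_support] at hg
    rw [mem_support]
    intro h
    apply hg
    rw [h, ite_self])

/-- the rescaling `z ↦ ξ z` -/
noncomputable def resc (ξ : kkˣ) (f : KK) : KK where
  coeff g := ((ξ ^ g : kkˣ) : kk) * f.coeff g
  isPWO_support' := f.isPWO_support.mono (by
    intro g hg
    rw [Function.mem_support] at hg
    rw [mem_support]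
    intro h
    apply hg
    rw [h, mul_zero])

/-- `ϑ^{(t)}_a = ∑_{n ∈ ℤ} Q^{(a + 2^t n)^2}` -/
noncomputable def vth (D : ℤ) (t : ℕ) (a : ℤ) : KK :=
  Th (fun n : ℤ => D * (a + 2 ^ t * n) ^ 2) (fun _ => 1)

/-! ### The Galois set-up -/

noncomputable section

/-- the field `kk(Δ(Q))`, `Q = z^D` -/
def AA (D : ℤ) : IntermediateField kk KK := IntermediateField.adjoin kk {Del 1 D}

instance (priority := 5000) fieldAA (D : ℤ) : Field (AA D) := inferInstance
instance (priority := 5000) algAA (D : ℤ) : Algebra (AA D) KK := (AA D).toAlgebra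
instance (priority := 5000) algkkAA (D : ℤ) : Algebra kk (AA D) := (AA D).algebra'
instance (priority := 5000) towAA (D : ℤ) : IsScalarTower kk (AA D) KK :=
  IntermediateField.isScalarTower_mid' (AA D)

/-- its relative algebraic closure in `KK` -/
def K0 (D : ℤ) : IntermediateField (AA D) KK := algebraicClosure (AA D) KK

theorem mem_K0 {D : ℤ} {y : KK} : y ∈ K0 D ↔ IsAlgebraic (AA D) y := mem_algebraicClosure_iff

instance (priority := 5000) fieldK0 (D : ℤ) : Field (K0 D) := inferInstance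
instance (priority := 5000) algK0 (D : ℤ) : Algebra (K0 D) KK := (K0 D).toAlgebra
instance (priority := 5000) algAAK0 (D : ℤ) : Algebra (AA D) (K0 D) := (K0 D).algebra'
instance (priority := 5000) towK0 (D : ℤ) : IsScalarTower (AA D) (K0 D) KK :=
  IntermediateField.isScalarTower_mid' (K0 D)
instance (priority := 5000) algicK0 (D : ℤ) : Algebra.IsAlgebraic (AA D) (K0 D) :=
  algebraicClosure.isAlgebraic (AA D) KK

/-- the algebraic closure -/
def Om (D : ℤ) : Type := AlgebraicClosure (K0 D)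

instance fieldOm (D : ℤ) : Field (Om D) := inferInstanceAs (Field (AlgebraicClosure (K0 D)))
instance algClosedOm (D : ℤ) : IsAlgClosed (Om D) :=
  inferInstanceAs (IsAlgClosed (AlgebraicClosure (K0 D)))
instance algOm (D : ℤ) : Algebra (K0 D) (Om D) :=
  inferInstanceAs (Algebra (K0 D) (AlgebraicClosure (K0 D)))
instance algicOm (D : ℤ) : Algebra.IsAlgebraic (K0 D) (Om D) :=
  inferInstanceAs (Algebra.IsAlgebraic (K0 D) (AlgebraicClosure (K0 D)))
instance algAAOm (D : ℤ) : Algebra (AA D) (Om D) :=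
  ((algebraMap (K0 D) (Om D)).comp (algebraMap (AA D) (K0 D))).toAlgebra
instance towOm (D : ℤ) : IsScalarTower (AA D) (K0 D) (Om D) :=
  IsScalarTower.of_algebraMap_eq fun _ => rfl
instance algicAAOm (D : ℤ) : Algebra.IsAlgebraic (AA D) (Om D) :=
  Algebra.IsAlgebraic.trans (AA D) (K0 D) (Om D)
instance faithOm (D : ℤ) : FaithfulSMul (K0 D) (Om D) := inferInstance
instance faithAAOm (D : ℤ) : FaithfulSMul (AA D) (Om D) := inferInstance
instance charPAA (D : ℤ) : CharP (AA D) 2 :=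
  charP_of_injective_algebraMap (algebraMap kk (AA D)).injective 2
instance charPK0 (D : ℤ) : CharP (K0 D) 2 :=
  charP_of_injective_algebraMap (algebraMap (AA D) (K0 D)).injective 2
instance charPOm (D : ℤ) : CharP (Om D) 2 :=
  charP_of_injective_algebraMap (algebraMap (K0 D) (Om D)).injective 2
instance algClosureOm (D : ℤ) : IsAlgClosure (AA D) (Om D) := ⟨inferInstance, inferInstance⟩
instance normalOm (D : ℤ) : Normal (AA D) (Om D) := IsAlgClosure.normal _ _

end

/-- the Galois group -/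
abbrev Gam (D : ℤ) : Type := Om D ≃ₐ[AA D] Om D

/-- `τ` maps `y` to `y'` (both algebraic over `kk(Δ(Q))`) -/
def Maps {D : ℤ} (τ : Gam D) (y y' : KK) : Prop :=
  ∃ (h : y ∈ K0 D) (h' : y' ∈ K0 D),
    τ (algebraMap (K0 D) (Om D) ⟨y, h⟩) = algebraMap (K0 D) (Om D) ⟨y', h'⟩

/-- `τ` maps `y` to `y'` and all graded parts of `y` to those of `y'` -/
def GG {D : ℤ} (τ : Gam D) (t : ℕ) (y y' : KK) : Prop :=
  Maps τ y y' ∧ ∀ c : ZMod (2 ^ t), Maps τ (gr t c y) (gr t c y')

/-- the points of order dividing `n = 2^s - 1` -/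
noncomputable def XN (s : ℕ) (ξ : kkˣ) (v : Fin 2 → ZMod (nn s)) : KK :=
  XP s ξ (((2 ^ s + 1) * (v 0).val : ℕ), ((2 ^ s + 1) * (v 1).val : ℕ))

/-- `τ` acts on the `n`-torsion by the matrix `M` -/
def Acts {s : ℕ} (ξ : kkˣ) (τ : Gam (D0 s)) (M : Matrix (Fin 2) (Fin 2) (ZMod (nn s))) : Prop :=
  ∀ v : Fin 2 → ZMod (nn s), v ≠ 0 → Maps τ (XN s ξ v) (XN s ξ (M.mulVec v))

end Pool.Agent.Work.P57
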