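import Pool.Agent.Work.P57.Interface

set_option autoImplicit false

namespace Pool.Agent.Work.P57

namespace FIN1

open HahnSeries

theorem Th_zero {ι : Type} (E : ι → ℤ) : Th E (fun _ => (0 : kk)) = 0 := by
  classical
  by_cases h : Tame E
  · ext g
    rw [coeff_Th h]
    simp
  · unfold Th
    rw [dif_neg h]

theorem Th_single {ι : Type} {E : ι → ℤ} (h : Tame E) (c : ι → kk) (g : ℤ) (i0 : ι)
    (h1 : ∀ i, E i = g → i = i0) : (Th E c).coeff g = if E i0 = g then c i0 else 0 := by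
  classical
  rw [coeff_Th h]
  rw [finsum_eq_single _ i0]
  intro i hi
  rw [if_neg]
  intro he
  exact hi (h1 i he)

theorem n0_eq (s : ℕ) : n0 s = nn s * (2 ^ s + 1) := by
  unfold n0 nn
  have h1 : 1 ≤ 2 ^ s := Nat.one_le_two_pow
  have h2 : (4 : ℕ) ^ s = 2 ^ s * 2 ^ s := by
    rw [← mul_pow]
    norm_num
  rw [h2]
  obtain ⟨x, hx⟩ : ∃ x, 2 ^ s = x + 1 := ⟨2 ^ s - 1, by omega⟩
  rw [hx]
  have : (x + 1) * (x + 1) - 1 = x * (x + 1 + 1) := by
    have : (x + 1) * (x + 1) = x * (x + 1 + 1) + 1 := by ring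
    omega
  rw [this]
  congr 1

theorem n0_odd (s : ℕ) (hs : 1 ≤ s) : Odd (n0 s) := by
  unfold n0
  have h1 : 1 ≤ 4 ^ s := Nat.one_le_pow _ _ (by norm_num)
  have h2 : Even (4 ^ s) := by
    apply Even.pow_of_ne_zero (by decide) (by omega)
  exact Nat.Even.sub_odd h1 h2 odd_one

/-- a primitive root of unity -/
theorem exists_prim (m : ℕ) (hm : Odd m) : ∃ ξ : kkˣ, IsPrimitiveRoot ξ m := by
  have hm0 : m ≠ 0 := by
    rintro rfl
    exact absurd hm (by decide)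
  have hne : NeZero (m : kk) := by
    refine ⟨?_⟩
    intro h
    rw [CharP.cast_eq_zero_iff kk 2] at h
    exact (Nat.not_even_iff_odd.2 hm) (even_iff_two_dvd.2 h)
  have : NeZero m := ⟨hm0⟩
  obtain ⟨ζ, hζ⟩ := HasEnoughRootsOfUnity.exists_primitiveRoot kk m
  have hu : IsUnit ζ := hζ.isUnit hm0
  refine ⟨hu.unit, ?_⟩
  rw [← IsPrimitiveRoot.coe_units_iff]
  exact hζ

/-- cube roots of unity in `KK` are constants -/
theorem cube_root_one (T : KK) (hT : T ^ 3 = 1) : ∃ ω : kk, ω ^ 3 = 1 ∧ T = C ω := by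
  obtain ⟨ω, hω⟩ := exists_prim 3 (by decide)
  have hw : IsPrimitiveRoot (ω : kk) 3 := IsPrimitiveRoot.coe_units_iff.2 hω
  have h3 : (ω : kk) ^ 3 = 1 := hw.pow_eq_one
  have h1 : (ω : kk) ≠ 1 := hw.ne_one (by norm_num)
  have h2 : (1 : kk) + ω + ω ^ 2 = 0 := by
    have : ((ω : kk) - 1) * (1 + ω + ω ^ 2) = 0 := by
      linear_combination h3
    rcases mul_eq_zero.1 this with h | h
    · exact absurd (sub_eq_zero.1 h) h1
    · exact h
  have hC2 : (1 : KK) + C (ω : kk) + C (ω : kk) ^ 2 = 0 := by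
    rw [← map_pow, ← map_one (C : kk →+* KK), ← map_add, ← map_add, h2, map_zero]
  have hC3 : (C (ω : kk) : KK) ^ 3 = 1 := by
    rw [← map_pow, h3, map_one]
  have hfac : (T - 1) * (T - C (ω : kk)) * (T - C (ω : kk) ^ 2) = 0 := by
    linear_combination hT + (-T ^ 2 + T * C (ω : kk)) * hC2 - hC3
  rcases mul_eq_zero.1 hfac with h | h
  · rcases mul_eq_zero.1 h with h | h
    · exact ⟨1, one_pow _, by rw [map_one]; exact sub_eq_zero.1 h⟩
    · exact ⟨ω, h3, sub_eq_zero.1 h⟩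
  · refine ⟨(ω : kk) ^ 2, ?_, ?_⟩
    · rw [← pow_mul, mul_comm, pow_mul, h3, one_pow]
    · rw [map_pow]
      exact sub_eq_zero.1 h

theorem shape (ζ : kkˣ) (g : ℤ) (κ : kk) (hκ : κ ≠ 0) (Y DD G : KK)
    (h1 : Y ^ 3 * DD = C κ) (h2 : DD * G ^ 24 = single (3 * g) ((ζ ^ 4 : kkˣ) : kk)) :
    ∃ cc : kk, cc ≠ 0 ∧ cc ^ 3 = κ * ((ζ ^ 4 : kkˣ)⁻¹ : kkˣ) ∧
      Y = C cc * (single (-g) 1 * G ^ 8) := by
  have hCκ : (C κ : KK) ≠ 0 := by
    rw [Ne, map_eq_zero]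
    exact hκ
  have hz : (single (3 * g) ((ζ ^ 4 : kkˣ) : kk) : KK) ≠ 0 := by
    rw [Ne, single_eq_zero_iff]
    exact Units.ne_zero _
  have hDD : DD ≠ 0 := by
    rintro rfl
    rw [mul_zero] at h1
    exact hCκ h1.symm
  have hG : G ≠ 0 := by
    rintro rfl
    rw [zero_pow (by norm_num), mul_zero] at h2
    exact hz h2.symm
  obtain ⟨c0, hc0⟩ := IsAlgClosed.exists_pow_nat_eq (κ * ((ζ ^ 4 : kkˣ)⁻¹ : kkˣ)) (n := 3)
    (by norm_num)
  have hc0' : c0 ≠ 0 := by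
    rintro rfl
    rw [zero_pow (by norm_num)] at hc0
    exact (mul_ne_zero hκ (Units.ne_zero _)) hc0.symm
  set W : KK := C c0 * (single (-g) 1 * G ^ 8) with hW
  have hW0 : W ≠ 0 := by
    refine mul_ne_zero ?_ (mul_ne_zero ?_ (pow_ne_zero _ hG))
    · rw [Ne, map_eq_zero]
      exact hc0'
    · rw [Ne, single_eq_zero_iff]
      exact one_ne_zero
  have hW3 : W ^ 3 * DD = C κ := by
    have e1 : W ^ 3 * DD = C (c0 ^ 3) * (single (-g) (1 : kk)) ^ 3 * (DD * G ^ 24) := by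
      rw [hW, map_pow]
      ring
    rw [e1, h2, hc0, single_pow, C_apply, single_mul_single, single_mul_single, C_apply]
    have e2 : (0 + 3 • -g + 3 * g : ℤ) = 0 := by
      rw [nsmul_eq_mul]
      push_cast
      ring
    rw [e2, one_pow, mul_one, mul_assoc, Units.inv_mul, mul_one]
  have hcube : (Y / W) ^ 3 = 1 := by
    rw [div_pow, div_eq_one_iff_eq (pow_ne_zero _ hW0)]
    exact mul_right_cancel₀ hDD (h1.trans hW3.symm)
  obtain ⟨ω, hω, hT⟩ := cube_root_one _ hcube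
  have hω0 : ω ≠ 0 := by
    rintro rfl
    norm_num at hω
  refine ⟨ω * c0, mul_ne_zero hω0 hc0', ?_, ?_⟩
  · rw [mul_pow, hω, one_mul, hc0]
  · rw [map_mul, mul_assoc, ← hW, ← hT, div_mul_cancel₀ _ hW0]

theorem pa_zero : pa 0 = 1 := by
  unfold pa
  rw [Finset.filter_true_of_mem]
  · rw [Finset.card_univ]
    exact Fintype.card_unique
  · intro p _ i hi
    exfalso
    have h1 : p.parts.sum = 0 := p.parts_sum
    have h2 := p.parts_pos hi
    have h3 : i ≤ p.parts.sum := Multiset.le_sum_of_mem hi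
    omega

theorem gs8 (hTH : Stmt_TH) (ζ : kkˣ) (e : ℤ) (he : 0 < e) :
    Gs ζ e ^ 8 = Th (fun n : ℕ => (8 * e) * n)
      (fun n => ((pa n : kk) * ((ζ ^ n : kkˣ) : kk)) ^ 8) := by
  obtain ⟨-, -, -, -, hF, -, hS, -, hT⟩ := hTH
  have t1 := (hT e he).2.2.1
  have t2 := (hT (2 * e) (by omega)).2.2.1
  have t4 := (hT (4 * e) (by omega)).2.2.1
  have e8 : Gs ζ e ^ 8 = ((Gs ζ e ^ 2) ^ 2) ^ 2 := by ring
  rw [e8]
  unfold Gs
  rw [hF ℕ _ _ t1]
  have q2 : (fun i : ℕ => 2 * (e * (i : ℤ))) = fun i : ℕ => (2 * e) * (i : ℤ) := by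
    funext i; ring
  rw [q2, hF ℕ _ _ t2]
  have q4 : (fun i : ℕ => 2 * ((2 * e) * (i : ℤ))) = fun i : ℕ => (4 * e) * (i : ℤ) := by
    funext i; ring
  rw [q4, hF ℕ _ _ t4]
  congr 1
  · funext i; ring
  · funext i; ring

theorem coef (hTH : Stmt_TH) (ζ : kkˣ) (m0 e' e0 : ℕ) (hm0 : 0 < m0) (he' : 0 < e')
    (he0 : 0 < e0) :
    (single (-(4 * m0 * e' : ℤ)) (1 : kk) * Gs ζ (3 * m0 * e') ^ 8).coeff (-(4 * m0 * e0 : ℤ)) =
      if e' = e0 then 1 else 0 := by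
  have hpos : (0 : ℤ) < 3 * m0 * e' := by positivity
  rw [gs8 hTH ζ _ hpos]
  obtain ⟨-, -, -, -, hF, -, hS, -, hT⟩ := hTH
  have t8 := (hT (8 * (3 * m0 * e')) (by positivity)).2.2.1
  rw [hS ℕ _ _ _ _ t8]
  have t : Tame (fun i : ℕ => -(4 * m0 * e' : ℤ) + 8 * (3 * m0 * e') * (i : ℤ)) := by
    intro B
    refine (t8 (B + 4 * m0 * e')).subset ?_
    intro i hi
    simp only [Set.mem_ofPred_eq] at hi ⊢
    linarith
  have hm : (0 : ℤ) < m0 := by exact_mod_cast hm0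
  have hme : (0 : ℤ) < m0 * e' := by positivity
  have hme0 : (0 : ℤ) < m0 * e0 := by positivity
  rw [Th_single t _ _ 0]
  · rw [pa_zero]
    by_cases h : e' = e0
    · rw [if_pos h, if_pos]
      · simp
      · rw [h]; simp
    · rw [if_neg h, if_neg]
      intro hc
      apply h
      have : (m0 : ℤ) * e' = m0 * e0 := by
        push_cast at hc
        linarith
      have := mul_left_cancel₀ hm.ne' this
      exact_mod_cast this
  · intro i hi
    by_contra hne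
    have h1 : (1 : ℤ) ≤ i := by
      have : 1 ≤ i := Nat.one_le_iff_ne_zero.2 hne
      exact_mod_cast this
    have h2 : (m0 * e' : ℤ) * 1 ≤ m0 * e' * i := mul_le_mul_of_nonneg_left h1 hme.le
    nlinarith

theorem bez (β : ℤ) (N : ℕ) : ∃ j : ℤ, (N : ℤ) ∣ j * β - Int.gcd β N := by
  refine ⟨Int.gcdA β N, -Int.gcdB β N, ?_⟩
  rw [Int.gcd_eq_gcd_ab β N]
  ring

/-- the index set -/
abbrev II (M : ℕ) : Finset ℕ := (Finset.range (3 * M)).filter (fun i => 3 ∣ i)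

theorem core (hTH : Stmt_TH) (hSIV : Stmt_SIV) (hGS : Stmt_GS) (hTAU : Stmt_TAU)
    (hMIN : Stmt_MIN) (k M B s : ℕ) (hM : Odd M) (hs : 2 ≤ s) (h3M : 3 * M ∣ nn s)
    (hall : ∀ n, n % (2 ^ k * M) = B % (2 ^ k * M) → ¬ Odd (pa n)) (ξ : kkˣ)
    (hξ : IsPrimitiveRoot ξ (D0 s)) (r : ℤ) (e0 : ℕ) (he0 : 0 < e0)
    (hcl : (2 ^ (k + 1) : ℤ) ∣ e0 - (1 - 6 * B)) (jf : ℕ → ℤ)
    (hjf : ∀ i ∈ II M, ((3 * M : ℕ) : ℤ) ∣ jf i * (r - i) - Int.gcd (r - i) (3 * M : ℕ)) :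
    ∃ (cc : ℕ → kk) (e' : ℕ → ℕ), (∀ i ∈ II M, cc i ≠ 0 ∧ 0 < e' i ∧
      (¬ 3 * Int.gcd (r - i) (3 * M : ℕ) ∣ 3 * M → e' i * 3 = (Int.gcd (r - i) (3 * M : ℕ)) ^ 2) ∧
      (3 * Int.gcd (r - i) (3 * M : ℕ) ∣ 3 * M → e' i = (Int.gcd (r - i) (3 * M : ℕ)) ^ 2 ∧
        cc i ^ 3 = ((ξ ^ (12 * (n0 s / (3 * M) : ℕ) * (i : ℤ)) *
          (ξ ^ (3 * (n0 s / (3 * M) : ℕ) * jf i * Int.gcd (r - i) (3 * M : ℕ)))⁻¹ ^ 4 : kkˣ) : kk))) ∧
      ∑ i ∈ II M, ((ξ ^ (-(24 * (n0 s / (3 * M) : ℕ) * (i : ℤ) * B)) : kkˣ) : kk) *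
        (if e' i = e0 then cc i else 0) = 0 := by
  classical
  have hMpos : 0 < M := hM.pos
  have h3n0 : 3 * M ∣ n0 s := by
    rw [n0_eq]
    exact Dvd.dvd.mul_right h3M _
  set m0 : ℕ := n0 s / (3 * M) with hm0
  have hm0' : m0 * (3 * M) = n0 s := Nat.div_mul_cancel h3n0
  have hodd : Odd (n0 s) := n0_odd s (by omega)
  have hm0odd : Odd m0 := by
    rw [← hm0'] at hodd
    exact (Nat.odd_mul.1 hodd).1
  have hm0pos : 0 < m0 := hm0odd.pos
  obtain ⟨y, hy, hy3, hsum⟩ := hSIV hGS s ξ M k B (by omega) hξ h3n0 hMpos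
  have hrhs : (fun n : ℕ => if n % (2 ^ k * M) = B % (2 ^ k * M) then (pa n : kk) else 0) =
      fun _ => 0 := by
    funext n
    split_ifs with h
    · have h1 := hall n h
      rw [CharP.cast_eq_zero_iff kk 2]
      exact even_iff_two_dvd.1 (Nat.not_odd_iff_even.1 h1)
    · rfl
  rw [hrhs, Th_zero, zero_pow (by norm_num), mul_zero] at hsum
  obtain ⟨y', hy', hsum'⟩ := hTAU s ξ hs hξ (3 * M) r (k + 3) h3M (Dvd.intro _ rfl) (II M)
    (fun i => ((ξ ^ (-(24 * (m0 : ℕ) * (i : ℤ) * B)) : kkˣ) : kk)) y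
    (((24 * (m0 : ℕ) * B - 4 * (m0 : ℕ) : ℤ)) : ZMod (2 ^ (k + 3))) (fun i _ => hy3 i) hsum
  have key : ∀ i ∈ II M, ∃ (c : kk) (e : ℕ), c ≠ 0 ∧ 0 < e ∧
      (¬ 3 * Int.gcd (r - i) (3 * M : ℕ) ∣ 3 * M → e * 3 = (Int.gcd (r - i) (3 * M : ℕ)) ^ 2) ∧
      (3 * Int.gcd (r - i) (3 * M : ℕ) ∣ 3 * M → e = (Int.gcd (r - i) (3 * M : ℕ)) ^ 2 ∧
        c ^ 3 = ((ξ ^ (12 * (m0 : ℕ) * (i : ℤ)) *
          (ξ ^ (3 * (m0 : ℕ) * jf i * Int.gcd (r - i) (3 * M : ℕ)))⁻¹ ^ 4 : kkˣ) : kk)) ∧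
      (y' i).coeff (-(4 * m0 * e0 : ℤ)) = if e = e0 then c else 0 := by
    intro i hi
    obtain ⟨j', hj'⟩ := bez (r - i) (3 * M / 3)
    have h1 := hy' i hi (jf i) j' (hjf i hi) hj'
    obtain ⟨ζ', e', he', hG, hc1, hc2⟩ := hMIN hGS s ξ (3 * M) (r - i) (jf i) j' (by omega) hξ h3n0
      (Dvd.intro _ rfl) (by omega) (hjf i hi) hj'
    obtain ⟨c, hc0, hc3, hY⟩ := shape ζ' (4 * m0 * e') _ (Units.ne_zero _) (y' i) _ _ h1 (by
      rw [hG]
      congr 1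
      rw [← hm0]
      have : (12 * (m0 : ℤ) * e') = 3 * (4 * m0 * e') := by ring
      rw [this])
    refine ⟨c, e', hc0, he', hc1, ?_, ?_⟩
    · intro hd
      obtain ⟨q1, q2⟩ := hc2 hd
      refine ⟨q1, ?_⟩
      rw [hc3, ← Units.val_mul, q2, inv_pow]
    · rw [hY, C_mul_eq_smul, coeff_smul, coef hTH ζ' m0 e' e0 hm0pos he' he0]
      split_ifs
      · rw [smul_eq_mul, mul_one]
      · rw [smul_zero]
  choose! cc e' hcc using key
  refine ⟨cc, e', fun i hi => ⟨(hcc i hi).1, (hcc i hi).2.1, (hcc i hi).2.2.1,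
    (hcc i hi).2.2.2.1⟩, ?_⟩
  have hco := congrArg (fun f : KK => f.coeff (-(4 * m0 * e0 : ℤ))) hsum'
  simp only [coeff_sum, coeff_zero] at hco
  refine Eq.trans (Finset.sum_congr rfl fun i hi => ?_) hco
  rw [coeff_smul, smul_eq_mul]
  congr 1
  rw [← (hcc i hi).2.2.2.2]
  unfold gr
  simp only
  rw [if_pos]
  rw [ZMod.intCast_eq_intCast_iff_dvd_sub]
  obtain ⟨w, hw⟩ := hcl
  refine ⟨m0 * w, ?_⟩
  push_cast
  have : (2 : ℤ) ^ (k + 3) = 4 * 2 ^ (k + 1) := by ring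
  rw [this]
  linear_combination (4 * (m0 : ℤ)) * hw

theorem sq3 (M d : ℕ) (hM : 0 < M) (h : M ^ 2 * 3 = d ^ 2) : False := by
  have hd : d ≠ 0 := by
    rintro rfl
    have : 0 < M ^ 2 := by positivity
    omega
  have hp : Fact (Nat.Prime 3) := ⟨by norm_num⟩
  have h1 := congrArg (padicValNat 3) h
  rw [padicValNat.mul (by positivity) (by norm_num), padicValNat.pow,
    padicValNat.pow, padicValNat_self] at h1
  omega

theorem caseOne (hTH : Stmt_TH) (hSIV : Stmt_SIV) (hGS : Stmt_GS) (hTAU : Stmt_TAU)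
    (hMIN : Stmt_MIN) (k M B s : ℕ) (hM : Odd M) (hs : 2 ≤ s) (h3M : 3 * M ∣ nn s)
    (hall : ∀ n, n % (2 ^ k * M) = B % (2 ^ k * M) → ¬ Odd (pa n)) (ξ : kkˣ)
    (hξ : IsPrimitiveRoot ξ (D0 s))
    (hcl : (2 ^ (k + 1) : ℤ) ∣ 3 * (M : ℤ) ^ 2 - (1 - 6 * B)) : False := by
  have hMpos : 0 < M := hM.pos
  obtain ⟨jf, hjf⟩ : ∃ jf : ℕ → ℤ, ∀ i, ((3 * M : ℕ) : ℤ) ∣
      jf i * (0 - i) - Int.gcd (0 - i) (3 * M : ℕ) := by
    choose jf hjf using fun i : ℕ => bez (0 - i) (3 * M)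
    exact ⟨jf, hjf⟩
  obtain ⟨cc, e', h1, h2⟩ := core hTH hSIV hGS hTAU hMIN k M B s hM hs h3M hall ξ hξ 0 (3 * M ^ 2)
    (by positivity) (by push_cast; exact hcl) jf (fun i _ => hjf i)
  have h0 : 0 ∈ II M := by
    rw [Finset.mem_filter, Finset.mem_range]
    exact ⟨by omega, dvd_zero _⟩
  rw [Finset.sum_eq_single_of_mem 0 h0] at h2
  · obtain ⟨q1, q2, q3, -⟩ := h1 0 h0
    have hg : Int.gcd (0 - (0 : ℕ)) (3 * M : ℕ) = 3 * M := by
      rw [Nat.cast_zero, sub_zero, Int.gcd_zero_left, Int.natAbs_natCast]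
    rw [hg] at q3
    have hnd : ¬ 3 * (3 * M) ∣ 3 * M := by
      intro h
      have := Nat.le_of_dvd (by omega) h
      omega
    have q4 := q3 hnd
    have q5 : e' 0 = 3 * M ^ 2 := by nlinarith
    rw [if_pos q5] at h2
    exact mul_ne_zero (Units.ne_zero _) q1 h2
  · intro i hi hne
    obtain ⟨q1, q2, q3, q4⟩ := h1 i hi
    rw [Finset.mem_filter, Finset.mem_range] at hi
    rw [if_neg, mul_zero]
    intro he
    set d : ℕ := Int.gcd (0 - (i : ℤ)) (3 * M : ℕ) with hd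
    have hd1 : d ∣ 3 * M := by
      have : (d : ℤ) ∣ (3 * M : ℕ) := Int.gcd_dvd_right _ _
      exact_mod_cast this
    have hd2 : d ∣ i := by
      have : (d : ℤ) ∣ 0 - (i : ℤ) := Int.gcd_dvd_left _ _
      rw [zero_sub, Int.dvd_neg] at this
      exact_mod_cast this
    have hdM : d ≤ M := by
      have hdi : d ≤ i := Nat.le_of_dvd (Nat.pos_of_ne_zero hne) hd2
      obtain ⟨c, hc⟩ := hd1
      have hodd : Odd (d * c) := by
        rw [← hc]
        exact Nat.odd_mul.2 ⟨by decide, hM⟩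
      have hco : Odd c := (Nat.odd_mul.1 hodd).2
      obtain ⟨x, rfl⟩ := hco
      rcases Nat.eq_zero_or_pos x with rfl | hx
      · omega
      · have : d * 3 ≤ d * (2 * x + 1) := Nat.mul_le_mul_left _ (by omega)
        omega
    have hdd : d ^ 2 ≤ M ^ 2 := Nat.pow_le_pow_left hdM 2
    have hMM : 0 < M ^ 2 := by positivity
    by_cases hc : 3 * d ∣ 3 * M
    · have := (q4 hc).1
      omega
    · have := q3 hc
      omega

theorem caseZero (hTH : Stmt_TH) (hSIV : Stmt_SIV) (hGS : Stmt_GS) (hTAU : Stmt_TAU)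
    (hMIN : Stmt_MIN) (k M B s : ℕ) (hM : Odd M) (hs : 2 ≤ s) (h3M : 3 * M ∣ nn s)
    (hall : ∀ n, n % (2 ^ k * M) = B % (2 ^ k * M) → ¬ Odd (pa n)) (ξ : kkˣ)
    (hξ : IsPrimitiveRoot ξ (D0 s))
    (hcl : (2 ^ (k + 1) : ℤ) ∣ (M : ℤ) ^ 2 - (1 - 6 * B)) : False := by
  classical
  have hMpos : 0 < M := hM.pos
  obtain ⟨jf, hjf, hjf0, hjf2⟩ : ∃ jf : ℕ → ℤ, (∀ i, ((3 * M : ℕ) : ℤ) ∣
      jf i * (M - i) - Int.gcd (M - i) (3 * M : ℕ)) ∧ jf 0 = 1 ∧ jf (2 * M) = -1 := by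
    choose jf hjf using fun i : ℕ => bez ((M : ℤ) - i) (3 * M)
    refine ⟨fun i => if i = 0 then 1 else if i = 2 * M then -1 else jf i, ?_, by simp, ?_⟩
    · intro i
      by_cases h0 : i = 0
      · subst h0
        have : Int.gcd ((M : ℤ) - (0 : ℕ)) (3 * M : ℕ) = M := by
          rw [Nat.cast_zero, sub_zero, Int.gcd_natCast_natCast]
          exact Nat.gcd_eq_left (Dvd.intro_left _ rfl)
        rw [this]
        simp
      · by_cases h2 : i = 2 * M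
        · subst h2
          have : Int.gcd ((M : ℤ) - (2 * M : ℕ)) (3 * M : ℕ) = M := by
            have e1 : ((M : ℤ) - (2 * M : ℕ)) = -(M : ℤ) := by push_cast; ring
            rw [e1, Int.neg_gcd, Int.gcd_natCast_natCast]
            exact Nat.gcd_eq_left (Dvd.intro_left _ rfl)
          rw [this]
          simp only [if_neg h0, if_true]
          refine ⟨0, ?_⟩
          push_cast
          ring
        · simp only [if_neg h0, if_neg h2]
          exact hjf i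
    · simp only [if_true]
      rw [if_neg (by omega)]
  obtain ⟨cc, e', h1, h2⟩ := core hTH hSIV hGS hTAU hMIN k M B s hM hs h3M hall ξ hξ M (M ^ 2)
    (by positivity) (by push_cast; exact hcl) jf (fun i _ => hjf i)
  have hMM : 0 < M ^ 2 := by positivity
  have hg0 : Int.gcd ((M : ℤ) - (0 : ℕ)) (3 * M : ℕ) = M := by
    rw [Nat.cast_zero, sub_zero, Int.gcd_natCast_natCast]
    exact Nat.gcd_eq_left (Dvd.intro_left _ rfl)
  have hg2 : Int.gcd ((M : ℤ) - (2 * M : ℕ)) (3 * M : ℕ) = M := by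
    have e1 : ((M : ℤ) - (2 * M : ℕ)) = -(M : ℤ) := by push_cast; ring
    rw [e1, Int.neg_gcd, Int.gcd_natCast_natCast]
    exact Nat.gcd_eq_left (Dvd.intro_left _ rfl)
  have h0 : 0 ∈ II M := by
    rw [Finset.mem_filter, Finset.mem_range]
    exact ⟨by omega, dvd_zero _⟩
  have hne : ∀ i ∈ II M, i ≠ 0 → i ≠ 2 * M → (if e' i = M ^ 2 then cc i else 0) = 0 := by
    intro i hi hi0 hi2
    obtain ⟨q1, q2, q3, q4⟩ := h1 i hi
    rw [Finset.mem_filter, Finset.mem_range] at hi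
    rw [if_neg]
    intro he
    by_cases hc : 3 * Int.gcd ((M : ℤ) - i) (3 * M : ℕ) ∣ 3 * M
    · have h3 := (q4 hc).1
      rw [he] at h3
      have h4 : M = Int.gcd ((M : ℤ) - i) (3 * M : ℕ) := by
        have := Nat.pow_left_injective (n := 2) (by norm_num) h3
        exact this
      have h5 : (M : ℤ) ∣ (M : ℤ) - i := by
        have : ((Int.gcd ((M : ℤ) - i) (3 * M : ℕ) : ℕ) : ℤ) ∣ (M : ℤ) - i := Int.gcd_dvd_left _ _
        rw [← h4] at this
        exact this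
      have h6 : (M : ℤ) ∣ (i : ℤ) := by
        have := dvd_sub (dvd_refl (M : ℤ)) h5
        rw [sub_sub_cancel] at this
        exact this
      have h7 : M ∣ i := by exact_mod_cast h6
      obtain ⟨c, hc'⟩ := h7
      have hc3 : c < 3 := by
        by_contra hcon
        push Not at hcon
        have : M * 3 ≤ M * c := Nat.mul_le_mul_left _ hcon
        omega
      have hcM : c = 1 := by
        interval_cases c
        · omega
        · rfl
        · omega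
      subst hcM
      rw [mul_one] at hc'
      subst hc'
      rw [sub_self, Int.gcd_zero_left, Int.natAbs_natCast] at h4
      omega
    · have h3 := q3 hc
      rw [he] at h3
      exact sq3 M _ hMpos h3
  obtain ⟨q1, q2, q3, q4⟩ := h1 0 h0
  rw [hg0] at q4
  obtain ⟨q5, q6⟩ := q4 (dvd_refl _)
  by_cases h2M : 2 * M ∈ II M
  · rw [Finset.sum_eq_add_of_mem 0 (2 * M) h0 h2M (by omega)] at h2
    · obtain ⟨p1, p2, p3, p4⟩ := h1 (2 * M) h2M
      rw [hg2] at p4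
      obtain ⟨p5, p6⟩ := p4 (dvd_refl _)
      rw [if_pos q5, if_pos p5] at h2
      have h3 := CharTwo.add_eq_zero.1 h2
      have h4 := congrArg (fun x => x ^ 3) h3
      simp only [mul_pow] at h4
      rw [q6, p6, hjf0, hjf2] at h4
      have h3n0 : 3 * M ∣ n0 s := by
        rw [n0_eq]
        exact Dvd.dvd.mul_right h3M _
      have hm0' : n0 s / (3 * M) * (3 * M) = n0 s := Nat.div_mul_cancel h3n0
      set m0 : ℕ := n0 s / (3 * M) with hm0
      have hord : IsPrimitiveRoot (ξ ^ (3 * m0 * M)) 3 := by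
        apply hξ.pow
        · unfold D0
          have := (n0_odd s (by omega)).pos
          omega
        · unfold D0
          rw [← hm0']
          ring
      have hω3 : (ξ ^ (3 * m0 * M)) ^ 3 = 1 := hord.pow_eq_one
      have hω1 : ξ ^ (3 * m0 * M) ≠ 1 := hord.ne_one (by norm_num)
      rw [← Units.val_pow_eq_pow_val, ← Units.val_pow_eq_pow_val, ← Units.val_mul,
        ← Units.val_mul, Units.val_inj] at h4
      apply hω1
      set ω : kkˣ := ξ ^ (3 * m0 * M) with hω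
      have a1 : (ξ ^ (-(24 * (m0 : ℤ) * ((0 : ℕ) : ℤ) * B))) ^ 3 = 1 := by simp
      have a2 : ξ ^ (12 * (m0 : ℤ) * ((0 : ℕ) : ℤ)) = 1 := by simp
      have a3 : ξ ^ (3 * (m0 : ℤ) * 1 * (M : ℤ)) = ω := by
        rw [hω, ← zpow_natCast]
        congr 1
        push_cast
        ring
      have a4 : (ξ ^ (-(24 * (m0 : ℤ) * ((2 * M : ℕ) : ℤ) * B))) ^ 3 = 1 := by
        have : ξ ^ (-(24 * (m0 : ℤ) * ((2 * M : ℕ) : ℤ) * B)) = (ω ^ (16 * B))⁻¹ := by
          rw [hω, ← pow_mul, ← zpow_natCast, ← zpow_neg]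
          congr 1
          push_cast
          ring
        rw [this, inv_pow, ← pow_mul, mul_comm, pow_mul, hω3, one_pow, inv_one]
      have a5 : ξ ^ (12 * (m0 : ℤ) * ((2 * M : ℕ) : ℤ)) = ω ^ 8 := by
        rw [hω, ← pow_mul, ← zpow_natCast]
        congr 1
        push_cast
        ring
      have a6 : ξ ^ (3 * (m0 : ℤ) * -1 * (M : ℤ)) = ω⁻¹ := by
        rw [hω, ← zpow_natCast, ← zpow_neg]
        congr 1
        push_cast
        ring
      rw [a1, a2, a3, a4, a5, a6, inv_inv, one_mul, one_mul, one_mul, ← _root_.pow_add] at h4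
      have b1 : ω ^ (8 + 4) = 1 := by
        have : ω ^ (8 + 4) = (ω ^ 3) ^ 4 := (_root_.pow_mul ω 3 4)
        rw [this, hω3, one_pow]
      rw [b1, inv_pow, inv_eq_one] at h4
      have b2 : ω ^ 4 = ω := by
        have : ω ^ 4 = ω ^ 3 * ω := pow_succ _ _
        rw [this, hω3, one_mul]
      rw [← b2, h4]
    · intro i hi hh
      rw [hne i hi hh.1 hh.2, mul_zero]
  · rw [Finset.sum_eq_single_of_mem 0 h0] at h2
    · rw [if_pos q5] at h2
      exact mul_ne_zero (Units.ne_zero _) q1 h2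
    · intro i hi hi0
      rw [hne i hi hi0 (by rintro rfl; exact h2M hi), mul_zero]

end FIN1

theorem blk_FIN1 (hTH : Stmt_TH) (hSQ : Stmt_SQ) (hSIV : Stmt_SIV) (hGS : Stmt_GS)
    (hTAU : Stmt_TAU) (hMIN : Stmt_MIN) : Stmt_FIN1 := by
  intro k M0 B hk hM0 hB
  by_contra hcon
  push Not at hcon
  obtain ⟨M, s, hdvd, hMo, hs, h3M, hB0, hB1⟩ := hSQ k M0 B hk hM0 hB
  have hall : ∀ n, n % (2 ^ k * M) = B % (2 ^ k * M) → ¬ Odd (pa n) := by
    intro n hn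
    have h1 : n ≡ B [MOD (2 ^ k * M0)] := Nat.ModEq.of_dvd (Nat.mul_dvd_mul_left _ hdvd) hn
    exact hcon n h1
  obtain ⟨ξ, hξ⟩ := FIN1.exists_prim (D0 s) (by
    unfold D0
    exact Nat.odd_mul.2 ⟨by decide, FIN1.n0_odd s (by omega)⟩)
  rcases hB with hB | hB
  · exact FIN1.caseZero hTH hSIV hGS hTAU hMIN k M B s hMo hs h3M hall ξ hξ (hB0 hB)
  · exact FIN1.caseOne hTH hSIV hGS hTAU hMIN k M B s hMo hs h3M hall ξ hξ (hB1 hB)

end Pool.Agent.Work.P57
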