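import Pool.Agent.Work.P57.Defs

/-!
# Parity of the partitions with no part `≡ 3 (mod 6)`: the blocks

Every block is a `Prop` `Stmt_...`; proofs on paper in `BLUEPRINT.md`.
-/

set_option autoImplicit false

namespace Pool.Agent.Work.P57

open HahnSeries

/-! ### A. Series -/

/-- BLOCK TH: the toolkit for `Th`. -/
def Stmt_TH : Prop :=
  (∀ (ι ι' : Type) (E : ι → ℤ) (E' : ι' → ℤ) (c : ι → kk) (c' : ι' → kk), Tame E → Tame E' →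
    Tame (fun p : ι × ι' => E p.1 + E' p.2) ∧
    Th E c * Th E' c' = Th (fun p : ι × ι' => E p.1 + E' p.2) (fun p => c p.1 * c' p.2)) ∧
  (∀ (ι ι' : Type) (e : ι ≃ ι') (E : ι' → ℤ) (c : ι' → kk),
    Th (fun i => E (e i)) (fun i => c (e i)) = Th E c) ∧
  (∀ (ι : Type) (f : ι → ι) (E : ι → ℤ) (c : ι → kk), Function.Involutive f → (∀ i, f i ≠ i) →
    (∀ i, E (f i) = E i) → (∀ i, c (f i) = c i) → Th E c = 0) ∧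
  (∀ (ι ι' : Type) (E : ι → ℤ) (E' : ι' → ℤ) (c : ι → kk) (c' : ι' → kk), Tame E → Tame E' →
    Tame (Sum.elim E E') ∧ Th (Sum.elim E E') (Sum.elim c c') = Th E c + Th E' c') ∧
  (∀ (ι : Type) (E : ι → ℤ) (c : ι → kk), Tame E → Th E c ^ 2 = Th (fun i => 2 * E i)
    (fun i => c i ^ 2)) ∧
  (∀ (ι : Type) (E : ι → ℤ) (c : ι → kk) (p : ι → Prop), Tame E → Th E c =
    Th (fun i : {i // p i} => E i) (fun i => c i) +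
    Th (fun i : {i // ¬ p i} => E i) (fun i => c i)) ∧
  (∀ (ι : Type) (E : ι → ℤ) (c : ι → kk) (g : ℤ) (a : kk), Tame E →
    single g a * Th E c = Th (fun i => g + E i) (fun i => a * c i)) ∧
  (∀ (e j : ℤ), 0 < e → Tame (fun n : ℤ => e * n ^ 2 + 2 * j * n) ∧
    Tame (fun n : ℤ => e * (n * (n + 1) / 2) + j * n)) ∧
  (∀ e : ℤ, 0 < e → Tame (fun n : ℕ => e * (n * (n + 1) / 2 : ℕ)) ∧
    Tame (fun n : ℕ => e * (2 * n + 1) ^ 2) ∧ Tame (fun n : ℕ => e * (n : ℤ)) ∧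
    ∀ (t : ℕ) (a : ℤ), Tame (fun n : ℤ => e * (a + 2 ^ t * n) ^ 2))

/-- BLOCK PART: the generating function mod 2; `E(X) = ∑ X^{k(3k-1)/2}`. -/
def Stmt_PART : Prop :=
  (PowerSeries.mk fun n => (pa n : ZMod 2)) *
    (PowerSeries.mk fun n => open Classical in
      if ∃ k : ℤ, k * (3 * k - 1) = 2 * n then (1 : ZMod 2) else 0) *
    (PowerSeries.mk fun n => open Classical in
      if ∃ k : ℤ, 3 * (k * (3 * k - 1)) = 2 * n then (1 : ZMod 2) else 0) = 1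

/-- BLOCK JAC: Jacobi's `E^3 = ∑ X^{n(n+1)/2}` mod 2. -/
def Stmt_JAC : Prop :=
  (PowerSeries.mk fun n => open Classical in
      if ∃ k : ℤ, k * (3 * k - 1) = 2 * n then (1 : ZMod 2) else 0) ^ 3 =
    PowerSeries.mk fun n => open Classical in
      if ∃ m : ℕ, m * (m + 1) = 2 * n then (1 : ZMod 2) else 0

/-- BLOCK GS -/
def Stmt_GS : Prop := ∀ (ξ : kkˣ) (e : ℤ), 0 < e →
  Gs ξ e ^ 3 * Psi ξ e * Psi (ξ ^ 3) (3 * e) = 1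

/-- BLOCK IDA: the theta identities. -/
def Stmt_IDA : Prop := ∀ (ξ η η' : kkˣ) (e j j' : ℤ), 0 < e →
  (single j (η : kk) * tT (η * η') (j + j') ξ e * tT (η * η'⁻¹) (j - j') ξ e =
    aT η j ξ e * bT η' j' ξ e + aT η' j' ξ e * bT η j ξ e) ∧
  (Psi ξ e * tT (η ^ 2) (2 * j) ξ e = aT η j ξ e * tT η j ξ e ^ 2) ∧
  (aT (η * η') (j + j') ξ e * aT (η * η'⁻¹) (j - j') ξ e =
    aT η j ξ e ^ 2 * aT η' j' ξ e ^ 2 + single e (ξ : kk) * (bT η j ξ e ^ 2 * bT η' j' ξ e ^ 2)) ∧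
  (aT (η ^ 2) (2 * j) ξ e = aT η j ξ e ^ 4 + single e (ξ : kk) * bT η j ξ e ^ 4) ∧
  (Del ξ e = single e (ξ : kk) * Psi ξ e ^ 8) ∧ Psi ξ e ≠ 0

/-- BLOCK IDB: symmetry, quasi-periodicity, non-vanishing. -/
def Stmt_IDB : Prop := ∀ (ξ η : kkˣ) (e j : ℤ), 0 < e →
  aT η⁻¹ (-j) ξ e = aT η j ξ e ∧
  tT η⁻¹ (-j) ξ e = single j (η : kk) * tT η j ξ e ∧
  single (e + 2 * j) ((ξ * η ^ 2 : kkˣ) : kk) * aT (η * ξ) (j + e) ξ e = aT η j ξ e ∧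
  single (e + j) ((ξ * η : kkˣ) : kk) * tT (η * ξ) (j + e) ξ e = tT η j ξ e ∧
  ((∀ i : ℤ, ¬ (j = e * i ∧ η = ξ ^ i)) → tT η j ξ e ≠ 0) ∧
  ((∀ i : ℤ, 2 * j ≠ e * (2 * i + 1)) → aT η j ξ e ≠ 0)

/-- `e(u) = u / (1 + u)^2` -/
noncomputable def eM (η : kkˣ) (j : ℤ) : KK := single j (η : kk) / (1 + single j (η : kk)) ^ 2

/-- BLOCK CU: the coefficients `c_U = ∑_k z^{k(k+1)} / (1 + z^{2U-2k-1})` of `x b`, at the nome `z`: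
the first sum is `∑_{k < U} z^{k(k+1)}` folded (char 2), `m = 2U - 2k - 1`. -/
def Stmt_CU : Prop := ∀ U : ℤ,
  Th (fun k : {k : ℤ // |U| ≤ k} => (k : ℤ) * (k + 1)) (fun _ => 1) +
    Th (fun p : ℤ × ℕ => p.1 * (p.1 + 1) + (p.2 + 1) * |2 * U - 2 * p.1 - 1|) (fun _ => 1) =
  single (U ^ 2) 1 * Th (fun n : ℕ => (n * (n + 1) : ℤ)) (fun _ => 1)

/-- BLOCK LTH: partial fractions of `x`. -/
def Stmt_LTH : Prop := ∀ (ξ η : kkˣ) (e j : ℤ), 0 < e → (∀ i : ℤ, ¬ (j = e * i ∧ η = ξ ^ i)) →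
  (∀ g : ℤ, {n : ℤ | (eM (η * ξ ^ n) (j + e * n)).coeff g ≠ 0}.Finite) ∧
  ∀ g : ℤ, (xT η j ξ e).coeff g = ∑ᶠ n : ℤ, (eM (η * ξ ^ n) (j + e * n)).coeff g

/-- BLOCK EM: `∑_{ζ^m = 1} e(ζ u) = e(u^m)`, `m` odd. -/
def Stmt_EM : Prop := ∀ (m : ℕ) (ζ : kkˣ) (η : kkˣ) (j : ℤ), IsPrimitiveRoot ζ m → Odd m →
  (j ≠ 0 ∨ η ^ m ≠ 1) → ∑ i ∈ Finset.range m, eM (ζ ^ i * η) j = eM (η ^ m) (m * j)

/-- BLOCK RG: rescaling and grading. -/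
def Stmt_RG : Prop :=
  (∀ (ξ : kkˣ) (f g : KK), resc ξ (f + g) = resc ξ f + resc ξ g ∧
    resc ξ (f * g) = resc ξ f * resc ξ g ∧ resc ξ 1 = 1 ∧ resc ξ f⁻¹ = (resc ξ f)⁻¹ ∧
    resc ξ⁻¹ (resc ξ f) = f) ∧
  (∀ (ξ : kkˣ) (j : ℤ) (a : kk), resc ξ (single j a) = single j (((ξ ^ j : kkˣ) : kk) * a)) ∧
  (∀ (ξ : kkˣ) (ι : Type) (E : ι → ℤ) (c : ι → kk), Tame E →
    resc ξ (Th E c) = Th E (fun i => ((ξ ^ E i : kkˣ) : kk) * c i)) ∧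
  (∀ (t : ℕ) (c : ZMod (2 ^ t)) (f g : KK) (a : kk), gr t c (f + g) = gr t c f + gr t c g ∧
    gr t c (a • f) = a • gr t c f ∧
    gr t c (f * g) = ∑ b : ZMod (2 ^ t), gr t b f * gr t (c - b) g ∧
    ∑ b : ZMod (2 ^ t), gr t b f = f) ∧
  (∀ (t : ℕ) (c : ZMod (2 ^ t)) (j : ℤ) (a : kk) (f : KK),
    gr t c (single j a * f) = single j a * gr t (c - j) f ∧
    gr t c (single j a) = (open Classical in if (j : ZMod (2 ^ t)) = c then single j a else 0)) ∧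
  (∀ (t : ℕ) (c : ZMod (2 ^ t)) (ι : Type) (E : ι → ℤ) (b : ι → kk), Tame E → gr t c (Th E b) =
    Th E (fun i => open Classical in if (E i : ZMod (2 ^ t)) = c then b i else 0)) ∧
  (∀ (t : ℕ) (c : ℤ) (f : KK), gr (t + 3) ((8 * c : ℤ) : ZMod (2 ^ (t + 3))) (f ^ 8) =
    (gr t (c : ZMod (2 ^ t)) f) ^ 8)

/-! ### B. The elliptic curve -/

/-- BLOCK ELL -/
def Stmt_ELL : Prop := ∀ (s : ℕ) (ξ : kkˣ), 1 ≤ s → IsPrimitiveRoot ξ (D0 s) →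
  (∀ a b : ℤ, ¬ ((n0 s : ℤ) ∣ a ∧ (n0 s : ℤ) ∣ b) →
    xT (ξ ^ (3 * a)) (3 * b) 1 (D0 s) = XP s ξ ((a : ZMod (n0 s)), (b : ZMod (n0 s)))) ∧
  (∀ P, P ≠ 0 → XP s ξ P ≠ 0) ∧ (∀ P, P ≠ 0 → XP s ξ (-P) = XP s ξ P) ∧
  (∀ P R, P ≠ 0 → R ≠ 0 → XP s ξ P = XP s ξ R → R = P ∨ R = -P) ∧
  (∀ P, P ≠ 0 → XP s ξ (P + P) * XP s ξ P ^ 2 = XP s ξ P ^ 4 + Del 1 (D0 s)) ∧
  (∀ P R, P ≠ 0 → R ≠ 0 → R ≠ P → R ≠ -P →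
    (XP s ξ (P + R) + XP s ξ (P - R)) * (XP s ξ P + XP s ξ R) ^ 2 = XP s ξ P * XP s ξ R ∧
    XP s ξ (P + R) * XP s ξ (P - R) * (XP s ξ P + XP s ξ R) ^ 2 =
      XP s ξ P ^ 2 * XP s ξ R ^ 2 + Del 1 (D0 s)) ∧
  (∀ P, P ≠ 0 → resc ξ (XP s ξ P) = XP s ξ (P.1 + P.2, P.2))

/-- BLOCK ISO: isogenies. -/
def Stmt_ISO : Prop := ∀ (s : ℕ) (ξ : kkˣ), 1 ≤ s → IsPrimitiveRoot ξ (D0 s) →
  ∀ (m : ℕ) (α β j : ℤ), m ∣ n0 s → 0 < m → Int.gcd (Int.gcd α β) m = 1 →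
  (m : ℤ) ∣ j * β - Int.gcd β m → ∀ P, ¬ InH s m α β P →
  YH s ξ m α β P ^ 2 * (YH s ξ m α β (P + P) + YH s ξ m α β P ^ 2) =
    Del (ξ ^ (3 * (n0 s / m : ℕ) * j * α * Int.gcd β m)) (3 * (n0 s / m : ℕ) * (Int.gcd β m) ^ 2)

/-! ### C. Galois theory -/

/-- BLOCK MAPS -/
def Stmt_MAPS : Prop := ∀ (D : ℤ), 0 < D → ∀ τ : Gam D,
  (∀ c : kk, Maps τ (C c) (C c)) ∧ Maps τ (Del 1 D) (Del 1 D) ∧
  (∀ y y' u u', Maps τ y y' → Maps τ u u' → Maps τ (y + u) (y' + u') ∧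
    Maps τ (y * u) (y' * u')) ∧
  (∀ y y', Maps τ y y' → Maps τ y⁻¹ y'⁻¹ ∧ (y = 0 ↔ y' = 0) ∧ Maps τ⁻¹ y' y) ∧
  (∀ y y' y'', Maps τ y y' → Maps τ y y'' → y' = y'') ∧
  (∀ (σ : Gam D) (y y' y'' : KK), Maps σ y y' → Maps τ y' y'' → Maps (τ * σ) y y'') ∧
  (∀ (ι : Type) (I : Finset ι) (y y' : ι → KK), (∀ i ∈ I, Maps τ (y i) (y' i)) →
    Maps τ (∑ i ∈ I, y i) (∑ i ∈ I, y' i))

/-- BLOCK DYN: the torsion values are the roots of a separable polynomial over `kk[Δ]`.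
`P` has order dividing `2^s - 1` or `2^s + 1`. -/
def Stmt_DYN : Prop := ∀ (s : ℕ) (ξ : kkˣ), 1 ≤ s → IsPrimitiveRoot ξ (D0 s) →
  ∃ p : Polynomial (Polynomial kk), p.Monic ∧
    (∀ y : KK, (p.map (Polynomial.aeval (Del 1 (D0 s))).toRingHom).eval y = 0 ↔
      ∃ P : ZMod (n0 s) × ZMod (n0 s), P ≠ 0 ∧ ((2 ^ s - 1) • P = 0 ∨ (2 ^ s + 1) • P = 0) ∧
        y = XP s ξ P) ∧
    (∀ P : ZMod (n0 s) × ZMod (n0 s), P ≠ 0 → ((2 ^ s - 1) • P = 0 ∨ (2 ^ s + 1) • P = 0) →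
      (p.map (Polynomial.aeval (Del 1 (D0 s))).toRingHom).derivative.eval (XP s ξ P) ≠ 0) ∧
    (p.map (Polynomial.aeval (Del 1 (D0 s))).toRingHom).Splits

/-- BLOCK LIN: maps of `(ℤ/n)^2` which respect `{P + R, P - R}` up to sign are linear up to sign. -/
def Stmt_LIN : Prop := ∀ (n : ℕ), Odd n → 1 < n →
  ∀ π : (Fin 2 → ZMod n) → (Fin 2 → ZMod n), π 0 = 0 → (∀ v, v ≠ 0 → π v ≠ 0) →
  (∀ v u, (π (v + u) = π v + π u ∨ π (v + u) = -(π v + π u)) ∧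
      (π (v - u) = π v - π u ∨ π (v - u) = -(π v - π u)) ∨
    (π (v + u) = π v - π u ∨ π (v + u) = -(π v - π u)) ∧
      (π (v - u) = π v + π u ∨ π (v - u) = -(π v + π u))) →
  ∃ M : Matrix (Fin 2) (Fin 2) (ZMod n), IsUnit M.det ∧
    ∀ v, π v = M.mulVec v ∨ π v = -M.mulVec v

/-- BLOCK ACT: every element of the Galois group acts by a matrix. -/
def Stmt_ACT : Prop := ∀ (s : ℕ) (ξ : kkˣ), 2 ≤ s → IsPrimitiveRoot ξ (D0 s) →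
  ∀ τ : Gam (D0 s), ∃ M : Matrix (Fin 2) (Fin 2) (ZMod (nn s)), IsUnit M.det ∧ Acts ξ τ M

/-- BLOCK RSG: the rescaling extends to an element of the Galois group. -/
def Stmt_RSG : Prop := ∀ (D : ℤ) (ξ : kkˣ), 0 < D → ξ ^ D = 1 →
  ∃ σ : Gam D, ∀ y : KK, y ∈ K0 D → Maps σ y (resc ξ y)

/-- BLOCK FIX: elements of the torsion field fixed by the Galois group. -/
def Stmt_FIX : Prop := ∀ (s : ℕ) (ξ : kkˣ), 2 ≤ s → IsPrimitiveRoot ξ (D0 s) →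
  ∀ y : KK, y ∈ IntermediateField.adjoin (AA (D0 s)) {x | ∃ v, v ≠ 0 ∧ x = XN s ξ v} →
    y ∈ K0 (D0 s) ∧ IsSeparable (AA (D0 s)) y ∧
    ((∀ τ : Gam (D0 s), Maps τ y y) → y ∈ AA (D0 s)) ∧
    ∀ T : Finset KK, (∀ τ : Gam (D0 s), ∃ y' ∈ T, Maps τ y y') →
      (minpoly (AA (D0 s)) y).natDegree ≤ T.card

/-- BLOCK DLH: `Δ(Q_H)` is in the torsion field and is transformed by the matrix. The subgroup is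
generated by `(n/m) (α, β)`, `m ∣ n = 2^s - 1`. -/
def Stmt_DLH : Prop := ∀ (s : ℕ) (ξ : kkˣ), 2 ≤ s → IsPrimitiveRoot ξ (D0 s) →
  ∀ (m : ℕ) (α β j : ℤ), m ∣ nn s → 0 < m → Int.gcd (Int.gcd α β) m = 1 →
  (m : ℤ) ∣ j * β - Int.gcd β m →
  Del (ξ ^ (3 * (n0 s / m : ℕ) * j * α * Int.gcd β m)) (3 * (n0 s / m : ℕ) * (Int.gcd β m) ^ 2) ∈
    IntermediateField.adjoin (AA (D0 s)) {x | ∃ v, v ≠ 0 ∧ x = XN s ξ v} ∧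
  IsIntegral (Algebra.adjoin kk {Del 1 (D0 s)})
    (Del (ξ ^ (3 * (n0 s / m : ℕ) * j * α * Int.gcd β m))
      (3 * (n0 s / m : ℕ) * (Int.gcd β m) ^ 2)) ∧
  ∀ (τ : Gam (D0 s)) (M : Matrix (Fin 2) (Fin 2) (ZMod (nn s))), IsUnit M.det → Acts ξ τ M →
  ∀ (α' β' j' : ℤ), (m : ℤ) ∣ α' - ((M 0 0).val * α + (M 0 1).val * β) →
    (m : ℤ) ∣ β' - ((M 1 0).val * α + (M 1 1).val * β) → (m : ℤ) ∣ j' * β' - Int.gcd β' m →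
  Maps τ (Del (ξ ^ (3 * (n0 s / m : ℕ) * j * α * Int.gcd β m))
      (3 * (n0 s / m : ℕ) * (Int.gcd β m) ^ 2))
    (Del (ξ ^ (3 * (n0 s / m : ℕ) * j' * α' * Int.gcd β' m))
      (3 * (n0 s / m : ℕ) * (Int.gcd β' m) ^ 2)) ∧
  ∀ t : ℕ, (∀ v, v ≠ 0 → GG τ t (XN s ξ v) (XN s ξ (M.mulVec v))) →
  GG τ t (Del (ξ ^ (3 * (n0 s / m : ℕ) * j * α * Int.gcd β m))
      (3 * (n0 s / m : ℕ) * (Int.gcd β m) ^ 2))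
    (Del (ξ ^ (3 * (n0 s / m : ℕ) * j' * α' * Int.gcd β' m))
      (3 * (n0 s / m : ℕ) * (Int.gcd β' m) ^ 2))

/-- BLOCK CST: constants and polynomials in `Δ`. -/
def Stmt_CST : Prop :=
  (∀ y : KK, IsAlgebraic kk y → ∃ c : kk, y = C c) ∧
  (∀ (D : ℤ) (y : KK), 0 < D → y ∈ AA D → IsIntegral (Algebra.adjoin kk {Del 1 D}) y →
    ∃ ρ : Polynomial kk, y = Polynomial.aeval (Del 1 D) ρ) ∧
  (∀ (D e l : ℤ) (ρ : Polynomial kk), 0 < D → 0 < e → 0 < l →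
    Del 1 (l * D) = Polynomial.aeval (Del 1 D) ρ → Del 1 (l * e) = Polynomial.aeval (Del 1 e) ρ) ∧
  (∀ (D e : ℤ) (ρ : Polynomial kk), 0 < D → 0 < e → Del 1 D = Polynomial.aeval (Del 1 e) ρ →
    Del 1 e ∈ K0 D → ρ.natDegree ≤ (minpoly (AA D) (Del 1 e)).natDegree) ∧
  (∀ (D : ℤ) (l : ℕ) (ρ : Polynomial kk), 0 < D → Odd l → 1 < l → ρ.natDegree ≤ l →
    Del 1 (l * D) ≠ Polynomial.aeval (Del 1 D) ρ)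

/-- BLOCK IRR: the line `μ_l` is moved. -/
def Stmt_IRR : Prop := ∀ (s : ℕ) (ξ : kkˣ), 2 ≤ s → IsPrimitiveRoot ξ (D0 s) →
  ∀ l : ℕ, l.Prime → l ∣ nn s →
  ∃ (τ : Gam (D0 s)) (M : Matrix (Fin 2) (Fin 2) (ZMod (nn s))),
    IsUnit M.det ∧ Acts ξ τ M ∧ ¬ l ∣ (M 1 0).val

/-- BLOCK SLG: group theory in `GL_2(ℤ/n)`. -/
def Stmt_SLG : Prop := ∀ (n : ℕ), Odd n → 1 < n →
  ∀ A N : Set (Matrix (Fin 2) (Fin 2) (ZMod n)), (∀ M ∈ A, IsUnit M.det) → 1 ∈ N →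
  (∀ X ∈ N, ∀ Y ∈ N, X * Y ∈ N) → !![1, 1; 0, 1] ∈ N → N ⊆ A →
  (∀ M ∈ A, ∀ X ∈ N, M * X * M⁻¹ ∈ N) →
  (∀ l : ℕ, l.Prime → l ∣ n → ∃ M ∈ A, ¬ l ∣ (M 1 0).val) →
  ∀ r : ZMod n, !![0, 1; -1, r] ∈ N

/-- BLOCK EIN: the theta series `vth` are permuted. -/
def Stmt_EIN : Prop := ∀ (D : ℤ), 0 < D → ∀ (τ : Gam D) (t : ℕ), 2 ≤ t → ∀ a : ℤ, Odd a →
  ∃ b : ℤ, Odd b ∧ Maps τ (vth D t a) (vth D t b)

/-- BLOCK GGC: closure properties of `GG`. -/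
def Stmt_GGC : Prop := ∀ (D : ℤ), 0 < D → ∀ (τ : Gam D) (t : ℕ),
  (∀ c : kk, GG τ t (C c) (C c)) ∧
  (∀ y y' u u', GG τ t y y' → GG τ t u u' → GG τ t (y + u) (y' + u') ∧
    GG τ t (y * u) (y' * u')) ∧
  (∀ y y', GG τ t y y' → GG τ t y⁻¹ y'⁻¹) ∧
  (∀ (y y' : KK) (p p' : Polynomial KK), Maps τ y y' → (∀ i, GG τ t (p.coeff i) (p'.coeff i)) →
    p.eval y = 0 → p'.eval y' = 0 → p.derivative.eval y ≠ 0 → GG τ t y y') ∧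
  (∀ y y' : KK, y ≠ 0 → y ^ 3 ∈ K0 D → GG τ t (y ^ 3) (y' ^ 3) →
    ∃ ω : kk, ω ^ 3 = 1 ∧ GG τ t y (C ω * y'))

/-- BLOCK GRX: grading of the torsion values. -/
def Stmt_GRX : Prop := ∀ (s : ℕ) (ξ : kkˣ), 2 ≤ s → IsPrimitiveRoot ξ (D0 s) →
  ∀ (τ : Gam (D0 s)) (M : Matrix (Fin 2) (Fin 2) (ZMod (nn s))), IsUnit M.det → Acts ξ τ M →
  (∀ (t : ℕ) (a : ℤ), 2 ≤ t → Odd a → Maps τ (vth (D0 s) t a) (vth (D0 s) t a)) →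
  ∀ (t : ℕ) (v : Fin 2 → ZMod (nn s)), v ≠ 0 → GG τ t (XN s ξ v) (XN s ξ (M.mulVec v))

/-- BLOCK EXT: the automorphism which moves the cusp. -/
def Stmt_EXT : Prop := ∀ (s : ℕ) (ξ : kkˣ), 2 ≤ s → IsPrimitiveRoot ξ (D0 s) →
  ∀ r : ZMod (nn s), ∃ τ : Gam (D0 s), Acts ξ τ !![0, 1; -1, r] ∧
    ∀ (t : ℕ) (a : ℤ), 2 ≤ t → Odd a → Maps τ (vth (D0 s) t a) (vth (D0 s) t a)

/-- BLOCK MIN: the two nomes `Q_H`, `Q_{3H}` for `H` generated by `(1, β)` of order `N`: with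
`m0 = n_0/N`, `ζ = ξ^{3 m0}`; the smaller one is `(ζ', 3 m0 e')`. -/
def Stmt_MIN : Prop := Stmt_GS → ∀ (s : ℕ) (ξ : kkˣ) (N : ℕ) (β j j' : ℤ), 1 ≤ s →
  IsPrimitiveRoot ξ (D0 s) → N ∣ n0 s → 3 ∣ N → 0 < N → (N : ℤ) ∣ j * β - Int.gcd β N →
  ((N / 3 : ℕ) : ℤ) ∣ j' * β - Int.gcd β (N / 3 : ℕ) →
  ∃ (ζ' : kkˣ) (e' : ℕ), 0 < e' ∧
    Del (ξ ^ (3 * (n0 s / N : ℕ) * j * Int.gcd β N)) (3 * (n0 s / N : ℕ) * (Int.gcd β N) ^ 2) *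
      Del (ξ ^ (9 * (n0 s / N : ℕ) * j' * Int.gcd β (N / 3 : ℕ)))
        (9 * (n0 s / N : ℕ) * (Int.gcd β (N / 3 : ℕ)) ^ 2) *
      Gs ζ' (3 * (n0 s / N : ℕ) * e') ^ 24 =
    single (12 * (n0 s / N : ℕ) * e' : ℤ) ((ζ' ^ 4 : kkˣ) : kk) ∧
    ((¬ 3 * Int.gcd β N ∣ N → e' * 3 = (Int.gcd β N) ^ 2) ∧
     (3 * Int.gcd β N ∣ N → e' = (Int.gcd β N) ^ 2 ∧
       ζ' = ξ ^ (3 * (n0 s / N : ℕ) * j * Int.gcd β N)))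

/-- BLOCK TAU: moving the cusp in a relation between sieved cube roots. `H_i` is generated by
`(i, 1)`, of order `N`; its image is generated by `(1, r - i)`. -/
def Stmt_TAU : Prop := ∀ (s : ℕ) (ξ : kkˣ), 2 ≤ s → IsPrimitiveRoot ξ (D0 s) →
  ∀ (N : ℕ) (r : ℤ) (t : ℕ), N ∣ nn s → 3 ∣ N → ∀ (I : Finset ℕ) (μ : ℕ → kk) (y : ℕ → KK)
    (c : ZMod (2 ^ t)),
  (∀ i ∈ I, y i ^ 3 * (Del (ξ ^ (3 * (n0 s / N : ℕ) * (i : ℤ))) (3 * (n0 s / N : ℕ)) *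
    Del (ξ ^ (9 * (n0 s / N : ℕ) * (i : ℤ))) (9 * (n0 s / N : ℕ))) =
      C ((ξ ^ (12 * (n0 s / N : ℕ) * (i : ℤ)) : kkˣ) : kk)) →
  ∑ i ∈ I, μ i • gr t c (y i) = 0 →
  ∃ y' : ℕ → KK, (∀ i ∈ I, ∀ j j' : ℤ, (N : ℤ) ∣ j * (r - i) - Int.gcd (r - i) N →
    ((N / 3 : ℕ) : ℤ) ∣ j' * (r - i) - Int.gcd (r - i) (N / 3 : ℕ) →
    y' i ^ 3 * (Del (ξ ^ (3 * (n0 s / N : ℕ) * j * Int.gcd (r - i) N))
        (3 * (n0 s / N : ℕ) * (Int.gcd (r - i) N) ^ 2) *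
      Del (ξ ^ (9 * (n0 s / N : ℕ) * j' * Int.gcd (r - i) (N / 3 : ℕ)))
        (9 * (n0 s / N : ℕ) * (Int.gcd (r - i) (N / 3 : ℕ)) ^ 2)) =
      C ((ξ ^ (12 * (n0 s / N : ℕ) * (i : ℤ)) : kkˣ) : kk)) ∧
    ∑ i ∈ I, μ i • gr t c (y' i) = 0

/-- BLOCK ALG: the sieved cube roots are algebraic over `kk(Δ(Q))`. -/
def Stmt_ALG : Prop := ∀ (s : ℕ) (ξ : kkˣ), 2 ≤ s → IsPrimitiveRoot ξ (D0 s) →
  ∀ (N : ℕ) (t : ℕ), N ∣ nn s → 3 ∣ N → ∀ (i : ℕ) (y : KK) (c : ZMod (2 ^ t)),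
  y ^ 3 * (Del (ξ ^ (3 * (n0 s / N : ℕ) * (i : ℤ))) (3 * (n0 s / N : ℕ)) *
    Del (ξ ^ (9 * (n0 s / N : ℕ) * (i : ℤ))) (9 * (n0 s / N : ℕ))) =
      C ((ξ ^ (12 * (n0 s / N : ℕ) * (i : ℤ)) : kkˣ) : kk) → gr t c y ∈ K0 (D0 s)

/-! ### D. Conclusion -/

/-- BLOCK SIV: the sieved series as a sum over roots of unity. `N = 3M`, `m0 = n_0/N`,
`q = z^{3 m0}`. -/
def Stmt_SIV : Prop := Stmt_GS → ∀ (s : ℕ) (ξ : kkˣ) (M k B : ℕ), 1 ≤ s →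
  IsPrimitiveRoot ξ (D0 s) → 3 * M ∣ n0 s → 0 < M →
  ∃ y : ℕ → KK,
  (∀ i, y i = single (-4 * (n0 s / (3 * M) : ℕ) : ℤ) 1 *
    Gs (ξ ^ (3 * (n0 s / (3 * M) : ℕ) * (i : ℤ))) (3 * (n0 s / (3 * M) : ℕ)) ^ 8) ∧
  (∀ i, y i ^ 3 * (Del (ξ ^ (3 * (n0 s / (3 * M) : ℕ) * (i : ℤ))) (3 * (n0 s / (3 * M) : ℕ)) *
    Del (ξ ^ (9 * (n0 s / (3 * M) : ℕ) * (i : ℤ))) (9 * (n0 s / (3 * M) : ℕ))) =
      C ((ξ ^ (12 * (n0 s / (3 * M) : ℕ) * (i : ℤ)) : kkˣ) : kk)) ∧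
  ∑ i ∈ (Finset.range (3 * M)).filter (fun i => 3 ∣ i),
    ((ξ ^ (-(24 * (n0 s / (3 * M) : ℕ) * (i : ℤ) * B)) : kkˣ) : kk) •
      gr (k + 3) (((24 * (n0 s / (3 * M) : ℕ) * B - 4 * (n0 s / (3 * M) : ℕ) : ℤ)) :
        ZMod (2 ^ (k + 3))) (y i) =
  single (-4 * (n0 s / (3 * M) : ℕ) : ℤ) 1 *
    (Th (fun n : ℕ => 3 * (n0 s / (3 * M) : ℕ) * (n : ℤ))
      (fun n => if n % (2 ^ k * M) = B % (2 ^ k * M) then (pa n : kk) else 0)) ^ 8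

/-- BLOCK SQ: squares modulo powers of two, and the choice of `M` and `s`. -/
def Stmt_SQ : Prop := ∀ (k M0 B : ℕ), 2 ≤ k → Odd M0 → (B % 4 = 0 ∨ B % 4 = 1) →
  ∃ (M s : ℕ), M0 ∣ M ∧ Odd M ∧ 2 ≤ s ∧ 3 * M ∣ nn s ∧
    (B % 4 = 0 → (2 ^ (k + 1) : ℤ) ∣ (M : ℤ) ^ 2 - (1 - 6 * B)) ∧
    (B % 4 = 1 → (2 ^ (k + 1) : ℤ) ∣ 3 * (M : ℤ) ^ 2 - (1 - 6 * B))

/-- BLOCK FIN1: every class contains an odd value. -/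
def Stmt_FIN1 : Prop := ∀ (k M0 B : ℕ), 2 ≤ k → Odd M0 → (B % 4 = 0 ∨ B % 4 = 1) →
  ∃ n : ℕ, n % (2 ^ k * M0) = B % (2 ^ k * M0) ∧ Odd (pa n)

/-- BLOCK TR: `Δ(Q)` and `q` are algebraically independent. -/
def Stmt_TR : Prop := ∀ (D e : ℤ) (y : KK), 0 < D → 0 < e → y ∈ K0 D →
  IsAlgebraic (IntermediateField.adjoin kk {(single e (1 : kk) : KK)}) y → ∃ c : kk, y = C c

/-- BLOCK FIN2: transcendence of the sieved series. -/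
def Stmt_FIN2 : Prop := ∀ (k M0 B : ℕ), 2 ≤ k → Odd M0 → (B % 4 = 0 ∨ B % 4 = 1) →
  ¬ IsAlgebraic (Polynomial (ZMod 2))
    (PowerSeries.mk fun m => (pa (2 ^ k * M0 * m + B) : ZMod 2))

/-- The theorem. -/
def Stmt_MAIN : Prop := ∀ A B : ℕ, 0 < A → 4 ∣ A → (B % 4 = 0 ∨ B % 4 = 1) →
  Transcendental (Polynomial (ZMod 2)) (PowerSeries.mk fun m => (pa (A * m + B) : ZMod 2)) ∧
  {m : ℕ | Odd (pa (A * m + B))}.Infinite ∧ {m : ℕ | Even (pa (A * m + B))}.Infinite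

end Pool.Agent.Work.P57
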