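import Pool.Agent.Work.P57.Interface

/-!
# Parity of the partitions with no part `≡ 3 (mod 6)`: block TH

The toolkit for the series `Th E c`.
-/

set_option autoImplicit false

namespace Pool.Agent.Work.P57

open HahnSeries

namespace TH

variable {ι ι' : Type}

theorem bdd {E : ι → ℤ} (h : Tame E) : ∃ b : ℤ, ∀ i, b ≤ E i := by
  by_cases hne : ∃ i, E i ≤ 0
  · have hf : (E '' {i | E i ≤ 0}).Finite := (h 0).image E
    obtain ⟨b, hb⟩ := hf.bddBelow
    refine ⟨min b 0, fun i => ?_⟩
    by_cases hi : E i ≤ 0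
    · exact (min_le_left _ _).trans (hb ⟨i, hi, rfl⟩)
    · exact (min_le_right _ _).trans (not_le.1 hi).le
  · push Not at hne
    exact ⟨0, fun i => (hne i).le⟩

open Classical in
theorem coeff_sum {E : ι → ℤ} (h : Tame E) (c : ι → kk) (g : ℤ) (S : Finset ι)
    (hS : ∀ i, E i = g → i ∈ S) :
    (Th E c).coeff g = ∑ i ∈ S, if E i = g then c i else 0 := by
  rw [coeff_Th h]
  apply finsum_eq_sum_of_support_subset
  intro i hi
  rw [Function.mem_support] at hi
  rw [Finset.mem_coe]
  by_contra hcon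
  apply hi
  rw [if_neg]
  intro he
  exact hcon (hS i he)

open Classical in
theorem coeff_ne {E : ι → ℤ} (h : Tame E) (c : ι → kk) (g : ℤ) (hg : (Th E c).coeff g ≠ 0) :
    ∃ i, E i = g := by
  by_contra hcon
  push Not at hcon
  apply hg
  rw [coeff_sum h c g ∅ (fun i hi => absurd hi (hcon i)), Finset.sum_empty]

theorem tame_prod {E : ι → ℤ} {E' : ι' → ℤ} (h : Tame E) (h' : Tame E') :
    Tame (fun p : ι × ι' => E p.1 + E' p.2) := by
  obtain ⟨b, hb⟩ := bdd h
  obtain ⟨b', hb'⟩ := bdd h'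
  intro B
  refine ((h (B - b')).prod (h' (B - b))).subset ?_
  rintro ⟨i, i'⟩ hp
  simp only [Set.mem_ofPred_eq] at hp
  refine ⟨?_, ?_⟩
  · show E i ≤ B - b'
    have := hb' i'
    omega
  · show E' i' ≤ B - b
    have := hb i
    omega

open Classical in
theorem mul_Th {E : ι → ℤ} {E' : ι' → ℤ} (c : ι → kk) (c' : ι' → kk) (h : Tame E)
    (h' : Tame E') :
    Th E c * Th E' c' = Th (fun p : ι × ι' => E p.1 + E' p.2) (fun p => c p.1 * c' p.2) := by
  obtain ⟨b, hb⟩ := bdd h
  obtain ⟨b', hb'⟩ := bdd h'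
  ext g
  set S : Finset ι := (h (g - b')).toFinset with hSdef
  set S' : Finset ι' := (h' (g - b)).toFinset with hS'def
  have hS : ∀ i, i ∈ S ↔ E i ≤ g - b' := fun i => by
    rw [hSdef, Set.Finite.mem_toFinset]; rfl
  have hS' : ∀ i, i ∈ S' ↔ E' i ≤ g - b := fun i => by
    rw [hS'def, Set.Finite.mem_toFinset]; rfl
  have h1 : (Th E c * Th E' c').coeff g =
      ∑ k ∈ Finset.Icc b (g - b'), (Th E c).coeff k * (Th E' c').coeff (g - k) := by
    rw [HahnSeries.coeff_mul]
    refine Finset.sum_of_injOn Prod.fst ?_ ?_ ?_ ?_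
    · rintro ⟨x, y⟩ hx ⟨x', y'⟩ hx' hxx
      rw [Finset.mem_coe, Finset.mem_antidiagonal] at hx hx'
      obtain ⟨-, -, e1⟩ := hx
      obtain ⟨-, -, e2⟩ := hx'
      simp only at e1 e2 hxx
      ext
      · exact hxx
      · show y = y'
        omega
    · rintro ⟨x, y⟩ hx
      rw [Finset.mem_coe, Finset.mem_antidiagonal] at hx
      obtain ⟨h1, h2, e1⟩ := hx
      rw [HahnSeries.mem_support] at h1 h2
      obtain ⟨i, hi⟩ := coeff_ne h c _ h1
      obtain ⟨i', hi'⟩ := coeff_ne h' c' _ h2
      simp only at hi hi' e1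
      have := hb i
      have := hb' i'
      rw [Finset.mem_coe, Finset.mem_Icc]
      constructor
      · show b ≤ x
        omega
      · show x ≤ g - b'
        omega
    · intro k _ hk
      by_contra hcon
      apply hk
      refine ⟨(k, g - k), ?_, rfl⟩
      rw [Finset.mem_coe, Finset.mem_antidiagonal]
      refine ⟨?_, ?_, ?_⟩
      · rw [HahnSeries.mem_support]
        exact left_ne_zero_of_mul hcon
      · rw [HahnSeries.mem_support]
        exact right_ne_zero_of_mul hcon
      · show k + (g - k) = g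
        omega
    · rintro ⟨x, y⟩ hx
      rw [Finset.mem_antidiagonal] at hx
      obtain ⟨-, -, e1⟩ := hx
      simp only at e1
      have : y = g - x := by omega
      simp only [this]
  have h2 : ∀ k ∈ Finset.Icc b (g - b'), (Th E c).coeff k * (Th E' c').coeff (g - k) =
      ∑ p ∈ S ×ˢ S', (if E p.1 = k then c p.1 else 0) * (if E' p.2 = g - k then c' p.2 else 0) := by
    intro k hk
    rw [Finset.mem_Icc] at hk
    rw [coeff_sum h c k S (fun i hi => (hS i).2 (by omega)),
      coeff_sum h' c' (g - k) S' (fun i hi => (hS' i).2 (by omega)),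
      Finset.sum_mul_sum, Finset.sum_product]
  rw [h1, Finset.sum_congr rfl h2, Finset.sum_comm,
    coeff_sum (tame_prod h h') _ g (S ×ˢ S') (fun p hp => by
      have e1 := hb p.1
      have e2 := hb' p.2
      rw [Finset.mem_product, hS, hS']
      constructor <;> omega)]
  refine Finset.sum_congr rfl ?_
  rintro ⟨i, i'⟩ _
  have e1 := hb i
  have e2 := hb' i'
  by_cases hg : E i + E' i' = g
  · rw [if_pos hg, Finset.sum_eq_single (E i)]
    · rw [if_pos rfl, if_pos (by show E' i' = g - E i; omega)]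
    · intro k _ hk
      rw [if_neg (fun e => hk e.symm), zero_mul]
    · intro hk
      exfalso
      apply hk
      rw [Finset.mem_Icc]
      constructor <;> omega
  · rw [if_neg hg]
    refine Finset.sum_eq_zero ?_
    intro k _
    by_cases hk : E i = k
    · have h5 : ¬ E' i' = g - k := by omega
      rw [if_neg h5, mul_zero]
    · rw [if_neg hk, zero_mul]

theorem tame_equiv (e : ι ≃ ι') (E : ι' → ℤ) : Tame (fun i => E (e i)) ↔ Tame E := by
  constructor
  · intro h B
    refine ((h B).image e).subset ?_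
    intro i hi
    refine ⟨e.symm i, ?_, e.apply_symm_apply i⟩
    show E (e (e.symm i)) ≤ B
    rw [e.apply_symm_apply]
    exact hi
  · intro h B
    exact (h B).preimage (f := e) (e.injective.injOn)

theorem equiv_Th (e : ι ≃ ι') (E : ι' → ℤ) (c : ι' → kk) :
    Th (fun i => E (e i)) (fun i => c (e i)) = Th E c := by
  by_cases h : Tame E
  · ext g
    rw [coeff_Th h, coeff_Th ((tame_equiv e E).2 h)]
    exact finsum_comp_equiv e (f := fun i => open Classical in if E i = g then c i else 0)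
  · have h' : ¬ Tame (fun i => E (e i)) := fun h2 => h ((tame_equiv e E).1 h2)
    unfold Th
    rw [dif_neg h, dif_neg h']

theorem inv_Th (f : ι → ι) (E : ι → ℤ) (c : ι → kk) (hf : Function.Involutive f)
    (hfix : ∀ i, f i ≠ i) (hE : ∀ i, E (f i) = E i) (hc : ∀ i, c (f i) = c i) : Th E c = 0 := by
  classical
  by_cases h : Tame E
  · ext g
    rw [HahnSeries.coeff_zero]
    have hfin : {i | E i = g}.Finite := (h g).subset (fun i hi => le_of_eq hi)
    rw [coeff_sum h c g hfin.toFinset (fun i hi => hfin.mem_toFinset.2 hi)]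
    refine Finset.sum_involution (fun i _ => f i) ?_ ?_ ?_ ?_
    · intro i _
      rw [hE i, hc i]
      exact CharTwo.add_self_eq_zero _
    · intro i _ _
      exact hfix i
    · intro i hi
      rw [hfin.mem_toFinset] at hi ⊢
      show E (f i) = g
      rw [hE i]
      exact hi
    · intro i _
      exact hf i
  · unfold Th
    rw [dif_neg h]

theorem tame_sum {E : ι → ℤ} {E' : ι' → ℤ} (h : Tame E) (h' : Tame E') :
    Tame (Sum.elim E E') := by
  intro B
  refine (((h B).image Sum.inl).union ((h' B).image Sum.inr)).subset ?_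
  rintro (i | i) hi
  · left
    exact ⟨i, hi, rfl⟩
  · right
    exact ⟨i, hi, rfl⟩

theorem sum_Th {E : ι → ℤ} {E' : ι' → ℤ} (c : ι → kk) (c' : ι' → kk) (h : Tame E)
    (h' : Tame E') : Th (Sum.elim E E') (Sum.elim c c') = Th E c + Th E' c' := by
  classical
  ext g
  have hfin : {i | E i = g}.Finite := (h g).subset (fun i hi => le_of_eq hi)
  have hfin' : {i | E' i = g}.Finite := (h' g).subset (fun i hi => le_of_eq hi)
  rw [HahnSeries.coeff_add, coeff_sum h c g hfin.toFinset (fun i hi => hfin.mem_toFinset.2 hi),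
    coeff_sum h' c' g hfin'.toFinset (fun i hi => hfin'.mem_toFinset.2 hi),
    coeff_sum (tame_sum h h') _ g (hfin.toFinset.disjSum hfin'.toFinset), Finset.sum_disjSum]
  · rfl
  · rintro (i | i) hi
    · exact Finset.inl_mem_disjSum.2 (hfin.mem_toFinset.2 hi)
    · exact Finset.inr_mem_disjSum.2 (hfin'.mem_toFinset.2 hi)

theorem tame_sub {E : ι → ℤ} (h : Tame E) (p : ι → Prop) :
    Tame (fun i : {i // p i} => E i) := by
  intro B
  exact (h B).preimage (f := fun i : {i // p i} => (i : ι)) (Subtype.val_injective.injOn)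

theorem split_Th {E : ι → ℤ} (c : ι → kk) (p : ι → Prop) (h : Tame E) : Th E c =
    Th (fun i : {i // p i} => E i) (fun i => c i) +
    Th (fun i : {i // ¬ p i} => E i) (fun i => c i) := by
  classical
  rw [← sum_Th (fun i : {i // p i} => c i) (fun i : {i // ¬ p i} => c i) (tame_sub h p)
    (tame_sub h fun i => ¬ p i), ← equiv_Th (Equiv.sumCompl p) E c]
  have e1 : (fun i => E ((Equiv.sumCompl p) i)) =
      Sum.elim (fun i : {i // p i} => E i) (fun i : {i // ¬ p i} => E i) := by
    funext x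
    rcases x with x | x <;> rfl
  have e2 : (fun i => c ((Equiv.sumCompl p) i)) =
      Sum.elim (fun i : {i // p i} => c i) (fun i : {i // ¬ p i} => c i) := by
    funext x
    rcases x with x | x <;> rfl
  rw [e1, e2]

/-- the diagonal -/
def diag (ι : Type) : ι ≃ {p : ι × ι // p.1 = p.2} where
  toFun i := ⟨(i, i), rfl⟩
  invFun p := p.1.1
  left_inv _ := rfl
  right_inv := by
    rintro ⟨⟨x, y⟩, h⟩
    simp only at h
    subst h
    rfl

theorem sq_Th {E : ι → ℤ} (c : ι → kk) (h : Tame E) :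
    Th E c ^ 2 = Th (fun i => 2 * E i) (fun i => c i ^ 2) := by
  rw [sq, mul_Th c c h h, split_Th _ (fun p : ι × ι => p.1 = p.2) (tame_prod h h),
    ← equiv_Th (diag ι), inv_Th (fun p : {p : ι × ι // ¬ p.1 = p.2} =>
      (⟨(p.1.2, p.1.1), fun e => p.2 e.symm⟩ : {p : ι × ι // ¬ p.1 = p.2})), add_zero]
  · have e1 : (fun i => E ((diag ι i : {p : ι × ι // p.1 = p.2}) : ι × ι).1 +
        E ((diag ι i : {p : ι × ι // p.1 = p.2}) : ι × ι).2) = fun i => 2 * E i := by
      funext i
      show E i + E i = 2 * E i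
      ring
    have e2 : (fun i => c ((diag ι i : {p : ι × ι // p.1 = p.2}) : ι × ι).1 *
        c ((diag ι i : {p : ι × ι // p.1 = p.2}) : ι × ι).2) = fun i => c i ^ 2 := by
      funext i
      show c i * c i = c i ^ 2
      ring
    rw [e1, e2]
  · intro p
    rfl
  · rintro ⟨⟨x, y⟩, hxy⟩ he
    apply hxy
    have := congrArg (fun q : {p : ι × ι // ¬ p.1 = p.2} => q.1.2) he
    exact this
  · rintro ⟨⟨x, y⟩, hxy⟩
    show E y + E x = E x + E y
    ring
  · rintro ⟨⟨x, y⟩, hxy⟩
    show c y * c x = c x * c y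
    ring

theorem tame_add {E : ι → ℤ} (h : Tame E) (g : ℤ) : Tame (fun i => g + E i) := by
  intro B
  refine (h (B - g)).subset ?_
  intro i hi
  simp only [Set.mem_ofPred_eq] at hi ⊢
  omega

theorem single_Th {E : ι → ℤ} (c : ι → kk) (g : ℤ) (a : kk) (h : Tame E) :
    single g a * Th E c = Th (fun i => g + E i) (fun i => a * c i) := by
  classical
  ext n
  have hfin : {i | E i = n - g}.Finite := (h (n - g)).subset (fun i hi => le_of_eq hi)
  rw [HahnSeries.coeff_single_mul,
    coeff_sum h c (n - g) hfin.toFinset (fun i hi => hfin.mem_toFinset.2 hi),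
    coeff_sum (tame_add h g) _ n hfin.toFinset (fun i hi => hfin.mem_toFinset.2 (by
      show E i = n - g
      omega)), Finset.mul_sum]
  refine Finset.sum_congr rfl fun i _ => ?_
  by_cases hi : E i = n - g
  · rw [if_pos hi, if_pos (by show g + E i = n; omega)]
  · rw [if_neg hi, if_neg (by show ¬ g + E i = n; omega), mul_zero]

/-! ### Tameness of the exponents -/

theorem quad (a B : ℤ) : {n : ℤ | n ^ 2 + a * n ≤ B}.Finite := by
  refine (Set.finite_Icc (-(|a| + |B| + 1)) (|a| + |B| + 1)).subset ?_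
  intro n hn
  rw [Set.mem_ofPred_eq] at hn
  have h1 := abs_nonneg a
  have h2 := abs_nonneg B
  have h3 := le_abs_self a
  have h4 := neg_abs_le a
  have h5 := le_abs_self B
  rw [Set.mem_Icc]
  constructor
  · by_contra hcon
    push Not at hcon
    have e1 : 1 ≤ -n := by linarith
    have e2 : |B| + 1 ≤ -n - a := by linarith
    have e3 : 1 * (|B| + 1) ≤ (-n) * (-n - a) :=
      mul_le_mul e1 e2 (by linarith) (by linarith)
    have e4 : (-n) * (-n - a) = n ^ 2 + a * n := by ring
    rw [e4] at e3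
    linarith
  · by_contra hcon
    push Not at hcon
    have e1 : 1 ≤ n := by linarith
    have e2 : |B| + 1 ≤ n + a := by linarith
    have e3 : 1 * (|B| + 1) ≤ n * (n + a) :=
      mul_le_mul e1 e2 (by linarith) (by linarith)
    have e4 : n * (n + a) = n ^ 2 + a * n := by ring
    rw [e4] at e3
    linarith

theorem tame_a (e j : ℤ) (he : 0 < e) : Tame (fun n : ℤ => e * n ^ 2 + 2 * j * n) := by
  intro B
  refine (quad (2 * j) B).subset ?_
  intro n hn
  rw [Set.mem_ofPred_eq] at hn ⊢
  have h1 : 1 * n ^ 2 ≤ e * n ^ 2 := mul_le_mul_of_nonneg_right (by omega) (sq_nonneg n)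
  linarith

theorem two_mul_T (n : ℤ) : 2 * (n * (n + 1) / 2) = n * (n + 1) :=
  Int.mul_ediv_cancel' (Int.even_mul_succ_self n).two_dvd

theorem T_nonneg (n : ℤ) : 0 ≤ n * (n + 1) := by
  rcases le_or_gt 0 n with h | h
  · exact mul_nonneg h (by omega)
  · exact mul_nonneg_of_nonpos_of_nonpos h.le (by omega)

theorem tame_t (e j : ℤ) (he : 0 < e) : Tame (fun n : ℤ => e * (n * (n + 1) / 2) + j * n) := by
  intro B
  refine (quad (1 + 2 * j) (2 * B)).subset ?_
  intro n hn
  rw [Set.mem_ofPred_eq]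
  have hn : e * (n * (n + 1) / 2) + j * n ≤ B := hn
  have h0 := two_mul_T n
  have h1 := T_nonneg n
  generalize n * (n + 1) / 2 = T at hn h0
  have hT : 0 ≤ T := by omega
  have h2 : 1 * T ≤ e * T := mul_le_mul_of_nonneg_right (by omega) hT
  have h3 : n * (n + 1) = n ^ 2 + n := by ring
  have h4 : (1 + 2 * j) * n = n + 2 * (j * n) := by ring
  rw [h4]
  rw [h3] at h0
  linarith

theorem tame_nat (E : ℕ → ℤ) (hE : ∀ n : ℕ, (n : ℤ) ≤ E n) : Tame E := by
  intro B
  refine (Set.finite_Iic B.toNat).subset ?_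
  intro n hn
  rw [Set.mem_ofPred_eq] at hn
  rw [Set.mem_Iic]
  have := hE n
  omega

theorem blk : Stmt_TH := by
  refine ⟨fun ι ι' E E' c c' h h' => ⟨tame_prod h h', mul_Th c c' h h'⟩,
    fun ι ι' e E c => equiv_Th e E c,
    fun ι f E c hf hfix hE hc => inv_Th f E c hf hfix hE hc,
    fun ι ι' E E' c c' h h' => ⟨tame_sum h h', sum_Th c c' h h'⟩,
    fun ι E c h => sq_Th c h,
    fun ι E c p h => split_Th c p h,
    fun ι E c g a h => single_Th c g a h,
    fun e j he => ⟨tame_a e j he, tame_t e j he⟩,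
    fun e he => ⟨?_, ?_, ?_, ?_⟩⟩
  · refine tame_nat _ fun n => ?_
    have h1 : n ≤ n * (n + 1) / 2 := by
      rw [Nat.le_div_iff_mul_le (show 0 < 2 by norm_num)]
      rcases Nat.eq_zero_or_pos n with rfl | hn
      · norm_num
      · exact Nat.mul_le_mul_left n (by omega)
    have h2 : ((n : ℕ) : ℤ) ≤ ((n * (n + 1) / 2 : ℕ) : ℤ) := by exact_mod_cast h1
    have h3 : 1 * ((n * (n + 1) / 2 : ℕ) : ℤ) ≤ e * ((n * (n + 1) / 2 : ℕ) : ℤ) :=
      mul_le_mul_of_nonneg_right (by omega) (Int.natCast_nonneg _)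
    linarith
  · refine tame_nat _ fun n => ?_
    have h0 : (0 : ℤ) ≤ (n : ℤ) := Int.natCast_nonneg n
    have h1 : (n : ℤ) ≤ (2 * (n : ℤ) + 1) ^ 2 := by nlinarith
    have h3 : 1 * (2 * (n : ℤ) + 1) ^ 2 ≤ e * (2 * (n : ℤ) + 1) ^ 2 :=
      mul_le_mul_of_nonneg_right (by omega) (sq_nonneg _)
    linarith
  · refine tame_nat _ fun n => ?_
    have h0 : (0 : ℤ) ≤ (n : ℤ) := Int.natCast_nonneg n
    have h3 : 1 * (n : ℤ) ≤ e * (n : ℤ) := mul_le_mul_of_nonneg_right (by omega) h0
    linarith
  · intro t a B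
    have h0 := tame_a e 0 he B
    refine (h0.preimage (f := fun n : ℤ => a + 2 ^ t * n) ?_).subset ?_
    · intro x _ y _ hxy
      simp only at hxy
      have h2 : (2 : ℤ) ^ t ≠ 0 := pow_ne_zero _ (by norm_num)
      exact mul_left_cancel₀ h2 (add_left_cancel hxy)
    · intro n hn
      rw [Set.mem_ofPred_eq] at hn
      rw [Set.mem_preimage, Set.mem_ofPred_eq]
      linarith

end TH

theorem blk_TH : Stmt_TH := TH.blk

end Pool.Agent.Work.P57
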